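import Mathlib
import Pool.Agent.Lib.MP_7c08ba_nt.Odd.NormIndex
import Pool.Agent.Lib.MP_c385f6_ag.Conic

/-!
The norm residue symbol of a finite extension of the 2-adic numbers as a bilinear form on the
square classes.
-/

namespace Pool.Agent.Lib.MP_c385f6_ag.DyK

open Pool.Agent.Lib.MP_c385f6_ag Module IntermediateField

section
variable {k : Type*} [Field k]

/-- `b` has the form `u ^ 2 - a v ^ 2`. -/
def Nm (a b : k) : Prop := ∃ u v : k, b = u ^ 2 - a * v ^ 2

theorem Nm.mul {a b b' : k} (h : Nm a b) (h' : Nm a b') : Nm a (b * b') := by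
  obtain ⟨u, v, rfl⟩ := h
  obtain ⟨u', v', rfl⟩ := h'
  exact ⟨u * u' + a * v * v', u * v' + u' * v, by ring⟩

theorem Nm.sq (a s : k) : Nm a (s ^ 2) := ⟨s, 0, by ring⟩

theorem Nm.neg_self (a : k) : Nm a (-a) := ⟨0, 1, by ring⟩

theorem Nm.cancel {a b b' : k} (hb : b ≠ 0) (h : Nm a b) (h' : Nm a (b * b')) : Nm a b' := by
  have h1 := (h.mul h').mul (Nm.sq a b⁻¹)
  have h2 : b * (b * b') * b⁻¹ ^ 2 = b' := by field_simp
  rwa [h2] at h1

theorem Nm.mul_sq {a b s : k} (h : Nm a b) : Nm a (b * s ^ 2) := h.mul (Nm.sq a s)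

theorem Nm.of_mul_sq {a b s : k} (hs : s ≠ 0) (h : Nm a (b * s ^ 2)) : Nm a b := by
  have h1 := h.mul (Nm.sq a s⁻¹)
  have h2 : b * s ^ 2 * s⁻¹ ^ 2 = b := by field_simp
  rwa [h2] at h1

theorem Nm.symm' [CharZero k] {a b : k} (ha : a ≠ 0) (hb : b ≠ 0) (h : Nm a b) : Nm b a := by
  obtain ⟨u, v, huv⟩ := h
  by_cases hv : v = 0
  · subst hv
    have hu : u ≠ 0 := by
      rintro rfl
      exact hb (by rw [huv]; ring)
    refine ⟨(a + 1) / 2, (a - 1) / (2 * u), ?_⟩
    rw [huv]
    field_simp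
    ring
  · refine ⟨u / v, 1 / v, ?_⟩
    rw [huv]
    field_simp
    ring

theorem Nm.left_mul_sq {a b s : k} (hs : s ≠ 0) (h : Nm a b) : Nm (a * s ^ 2) b := by
  obtain ⟨u, v, huv⟩ := h
  exact ⟨u, v / s, by rw [huv]; field_simp⟩

theorem Nm.of_left_mul_sq {a b s : k} (h : Nm (a * s ^ 2) b) : Nm a b := by
  obtain ⟨u, v, huv⟩ := h
  exact ⟨u, s * v, by rw [huv]; ring⟩

theorem Nm.of_left_sq [CharZero k] {s b : k} (hs : s ≠ 0) : Nm (s ^ 2) b :=
  ⟨(b + 1) / 2, (b - 1) / (2 * s), by field_simp; ring⟩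

/-- The norm groups of quadratic extensions have index two. -/
structure GoodSymbol (k : Type*) [Field k] : Prop where
  mul : ∀ a u v : k, a ≠ 0 → u ≠ 0 → v ≠ 0 → ¬ Nm a u → ¬ Nm a v → Nm a (u * v)
  nondeg : ∀ a : k, a ≠ 0 → (∀ s : k, s ^ 2 ≠ a) → ∃ b : k, b ≠ 0 ∧ ¬ Nm a b

end

section
variable {k : Type*} [Field k] [Algebra ℚ_[2] k] [FiniteDimensional ℚ_[2] k]

theorem index_quad {E : Type*} [Field E] [Algebra k E] [FiniteDimensional k E] [IsGalois k E]
    (h2 : Module.finrank k E = 2) : (Units.map (Algebra.norm k : E →* k)).range.index = 2 := by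
  letI : Algebra ℚ_[2] E := ((algebraMap k E).comp (algebraMap ℚ_[2] k)).toAlgebra
  haveI : IsScalarTower ℚ_[2] k E := IsScalarTower.of_algebraMap_eq fun _ => rfl
  haveI : FiniteDimensional ℚ_[2] E := Module.Finite.trans k E
  letI : NormedField E := spectralNorm.normedField ℚ_[2] E
  letI : NormedAlgebra ℚ_[2] E := spectralNorm.normedAlgebra ℚ_[2] E
  haveI : IsUltrametricDist E :=
    IsUltrametricDist.isUltrametricDist_of_isNonarchimedean_norm
      (isNonarchimedean_spectralNorm (K := ℚ_[2]) (L := E))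
  exact BKGen.NormIdx.index_norm 2 h2

omit [FiniteDimensional ℚ_[2] k] in
theorem charZero_of_algebra : CharZero k :=
  charZero_of_injective_algebraMap (algebraMap ℚ_[2] k).injective

/-- The quadratic extension given by a nonsquare. -/
theorem exists_quad {a : k} (ha : ∀ s : k, s ^ 2 ≠ a) :
    (∀ u v : k, u ≠ 0 → v ≠ 0 → ¬ Nm a u → ¬ Nm a v → Nm a (u * v)) ∧
      ∃ b : k, b ≠ 0 ∧ ¬ Nm a b := by
  have : CharZero k := charZero_of_algebra
  obtain ⟨α, hα⟩ : ∃ α : AlgebraicClosure k, α ^ 2 = algebraMap k _ a :=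
    IsAlgClosed.exists_pow_nat_eq _ two_pos
  have hfin : FiniteDimensional k k⟮α⟯ := adjoin.finiteDimensional (quad_integral ha hα)
  have hgal : IsGalois k k⟮α⟯ := quad_isGalois ha hα
  have hidx := index_quad (k := k) (E := k⟮α⟯) (quad_finrank ha hα)
  set H : Subgroup kˣ := (Units.map (Algebra.norm k : k⟮α⟯ →* k)).range with hH
  have hmem : ∀ u : kˣ, u ∈ H ↔ Nm a (u : k) := by
    intro u
    constructor
    · rintro ⟨z, hz⟩
      obtain ⟨x, y, hxy⟩ := quad_exists ha hα (z : k⟮α⟯)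
      refine ⟨x, y, ?_⟩
      rw [← quad_norm ha hα, ← hxy, ← hz]
      rfl
    · rintro ⟨x, y, h⟩
      have hz0 : algebraMap k k⟮α⟯ x + algebraMap k k⟮α⟯ y * AdjoinSimple.gen k α ≠ 0 := by
        intro h0
        have h1 := quad_norm ha hα x y
        rw [h0, Algebra.norm_zero] at h1
        exact u.ne_zero (by rw [h, ← h1])
      refine ⟨Units.mk0 _ hz0, Units.ext ?_⟩
      rw [h]
      exact quad_norm ha hα x y
  constructor
  · intro u v hu hv h1 h3
    have h4 := Subgroup.mul_mem_iff_of_index_two hidx (a := Units.mk0 u hu) (b := Units.mk0 v hv)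
    have h5 : Units.mk0 u hu * Units.mk0 v hv ∈ H := by
      rw [h4, hmem, hmem]
      exact iff_of_false h1 h3
    rw [hmem] at h5
    exact h5
  · by_contra hcon
    push Not at hcon
    have h3 : H = ⊤ := by
      rw [eq_top_iff]
      intro u _
      rw [hmem]
      exact hcon _ u.ne_zero
    rw [h3, Subgroup.index_top] at hidx
    exact absurd hidx (by norm_num)

/-- A finite extension of the 2-adic numbers has a good symbol. -/
theorem goodSymbol_local : GoodSymbol k := by
  have : CharZero k := charZero_of_algebra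
  constructor
  · intro a u v ha hu hv h1 h2
    by_cases h : ∃ s : k, s ^ 2 = a
    · obtain ⟨s, rfl⟩ := h
      exact Nm.of_left_sq (by rintro rfl; exact ha (by ring))
    · push Not at h
      exact (exists_quad h).1 u v hu hv h1 h2
  · intro a _ h
    exact (exists_quad h).2

end

section
variable (k : Type*) [Field k]

/-- The square classes of a field, written additively. -/
abbrev SqCls := Additive (kˣ ⧸ (powMonoidHom 2 : kˣ →* kˣ).range)

theorem two_smul_sqCls (x : SqCls k) : 2 • x = 0 := by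
  obtain ⟨u, hu⟩ := QuotientGroup.mk_surjective (Additive.toMul x)
  apply Additive.toMul.injective
  rw [toMul_nsmul, toMul_zero, ← hu, ← QuotientGroup.mk_pow]
  exact (QuotientGroup.eq_one_iff _).2 ⟨u, rfl⟩

noncomputable instance : Module (ZMod 2) (SqCls k) :=
  AddCommGroup.zmodModule (n := 2) (G := SqCls k) (two_smul_sqCls k)

variable {k}

/-- The class of a unit. -/
noncomputable def cls (u : kˣ) : SqCls k := Additive.ofMul (QuotientGroup.mk u)

theorem cls_mul (u v : kˣ) : cls (u * v) = cls u + cls v := rfl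

theorem cls_prod {ι : Type*} (s : Finset ι) (u : ι → kˣ) :
    cls (∏ i ∈ s, u i) = ∑ i ∈ s, cls (u i) := by
  classical
  induction s using Finset.induction_on with
  | empty => rfl
  | insert a s ha ih => rw [Finset.prod_insert ha, Finset.sum_insert ha, cls_mul, ih]

theorem cls_surj (x : SqCls k) : ∃ u : kˣ, cls u = x := by
  obtain ⟨u, hu⟩ := QuotientGroup.mk_surjective (Additive.toMul x)
  exact ⟨u, congrArg Additive.ofMul hu⟩

theorem cls_eq {u v : kˣ} : cls u = cls v ↔ ∃ s : kˣ, v = u * s ^ 2 := by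
  rw [cls, cls, Additive.ofMul.injective.eq_iff, QuotientGroup.eq]
  constructor
  · rintro ⟨s, hs⟩
    refine ⟨s, ?_⟩
    have : s ^ 2 = u⁻¹ * v := hs
    rw [this]
    group
  · rintro ⟨s, rfl⟩
    exact ⟨s, by rw [powMonoidHom_apply]; group⟩

open Classical in
/-- The norm residue symbol with values in `𝔽₂`. -/
noncomputable def sy (a b : k) : ZMod 2 := if Nm a b then 0 else 1

theorem sy_eq_zero {a b : k} : sy a b = 0 ↔ Nm a b := by
  rw [sy]
  split_ifs with h
  · exact iff_of_true rfl h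
  · exact iff_of_false (by decide) h

theorem sy_eq_one {a b : k} : sy a b = 1 ↔ ¬ Nm a b := by
  rw [sy]
  split_ifs with h
  · exact iff_of_false (by decide) (not_not.2 h)
  · exact iff_of_true rfl h

variable [CharZero k]

theorem sy_comm {a b : k} (ha : a ≠ 0) (hb : b ≠ 0) : sy a b = sy b a := by
  by_cases h : Nm a b
  · rw [sy_eq_zero.2 h, sy_eq_zero.2 (h.symm' ha hb)]
  · rw [sy_eq_one.2 h, sy_eq_one.2 (fun h' => h (h'.symm' hb ha))]

theorem sy_mul (hk : GoodSymbol k) {a b b' : k} (ha : a ≠ 0) (hb : b ≠ 0) (hb' : b' ≠ 0) :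
    sy a (b * b') = sy a b + sy a b' := by
  by_cases h : Nm a b
  · by_cases h' : Nm a b'
    · rw [sy_eq_zero.2 h, sy_eq_zero.2 h', sy_eq_zero.2 (h.mul h'), add_zero]
    · rw [sy_eq_zero.2 h, sy_eq_one.2 h', sy_eq_one.2 (fun h'' => h' (Nm.cancel hb h h'')),
        zero_add]
  · by_cases h' : Nm a b'
    · rw [sy_eq_one.2 h, sy_eq_zero.2 h', sy_eq_one.2 (fun h'' => h
        (Nm.cancel hb' h' (by rwa [mul_comm]))), add_zero]
    · rw [sy_eq_one.2 h, sy_eq_one.2 h', sy_eq_zero.2 (hk.mul a b b' ha hb hb' h h')]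
      decide

theorem sy_mul_left (hk : GoodSymbol k) {a a' b : k} (ha : a ≠ 0) (ha' : a' ≠ 0) (hb : b ≠ 0) :
    sy (a * a') b = sy a b + sy a' b := by
  rw [sy_comm (mul_ne_zero ha ha') hb, sy_mul hk hb ha ha', sy_comm hb ha, sy_comm hb ha']

theorem sy_cls {u u' v v' : kˣ} (h : cls u = cls u') (h' : cls v = cls v') :
    sy (u : k) v = sy (u' : k) v' := by
  obtain ⟨s, rfl⟩ := cls_eq.1 h
  obtain ⟨t, rfl⟩ := cls_eq.1 h'
  by_cases hN : Nm (u : k) v
  · rw [sy_eq_zero.2 hN, sy_eq_zero.2]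
    rw [Units.val_mul, Units.val_mul, Units.val_pow_eq_pow_val, Units.val_pow_eq_pow_val]
    exact (hN.left_mul_sq s.ne_zero).mul_sq
  · rw [sy_eq_one.2 hN, sy_eq_one.2]
    intro h3
    rw [Units.val_mul, Units.val_mul, Units.val_pow_eq_pow_val, Units.val_pow_eq_pow_val] at h3
    exact hN (Nm.of_left_mul_sq (Nm.of_mul_sq t.ne_zero h3))

/-- A representing unit. -/
noncomputable def rp (x : SqCls k) : kˣ := (cls_surj x).choose

omit [CharZero k] in
theorem cls_rp (x : SqCls k) : cls (rp x) = x := (cls_surj x).choose_spec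

/-- The norm residue symbol as a bilinear form. -/
noncomputable def form (hk : GoodSymbol k) : LinearMap.BilinForm (ZMod 2) (SqCls k) :=
  (AddMonoidHom.mk' (fun x : SqCls k =>
    (AddMonoidHom.mk' (fun y : SqCls k => sy (rp x : k) (rp y)) (fun y y' => by
      rw [← sy_mul hk (rp x).ne_zero (rp y).ne_zero (rp y').ne_zero, ← Units.val_mul]
      exact sy_cls rfl (by rw [cls_rp, cls_mul, cls_rp, cls_rp]))).toZModLinearMap 2)
    (fun x x' => by
      ext y
      change sy (rp (x + x') : k) (rp y) = sy (rp x : k) (rp y) + sy (rp x' : k) (rp y)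
      rw [← sy_mul_left hk (rp x).ne_zero (rp x').ne_zero (rp y).ne_zero, ← Units.val_mul]
      exact sy_cls (by rw [cls_rp, cls_mul, cls_rp, cls_rp]) rfl)).toZModLinearMap 2

theorem form_cls (hk : GoodSymbol k) (u v : kˣ) : form hk (cls u) (cls v) = sy (u : k) v :=
  sy_cls (cls_rp _) (cls_rp _)

theorem form_comm (hk : GoodSymbol k) (x y : SqCls k) : form hk x y = form hk y x :=
  sy_comm (rp x).ne_zero (rp y).ne_zero

theorem form_nondeg (hk : GoodSymbol k) {x : SqCls k} (h : ∀ y, form hk x y = 0) : x = 0 := by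
  obtain ⟨u, rfl⟩ := cls_surj x
  by_cases hu : ∃ s : k, s ^ 2 = u
  · obtain ⟨s, hs⟩ := hu
    have hs0 : s ≠ 0 := by
      rintro rfl
      exact u.ne_zero (by rw [← hs]; ring)
    have h1 : cls (1 : kˣ) = cls u := cls_eq.2 ⟨Units.mk0 s hs0, by
      rw [one_mul]
      apply Units.ext
      rw [Units.val_pow_eq_pow_val, Units.val_mk0, hs]⟩
    rw [← h1]
    rfl
  · push Not at hu
    obtain ⟨b, hb, hN⟩ := hk.nondeg u u.ne_zero hu
    have h1 := h (cls (Units.mk0 b hb))
    rw [form_cls, sy_eq_zero] at h1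
    exact absurd h1 hN

end

section
variable {k : Type*} [Field k] [Algebra ℚ_[2] k] [FiniteDimensional ℚ_[2] k]

theorem card_sqCls : Nat.card (SqCls k) = 2 ^ (finrank ℚ_[2] k + 2) := by
  have : CharZero k := charZero_of_algebra
  letI : NormedField k := spectralNorm.normedField ℚ_[2] k
  letI : NormedAlgebra ℚ_[2] k := spectralNorm.normedAlgebra ℚ_[2] k
  haveI : IsUltrametricDist k :=
    IsUltrametricDist.isUltrametricDist_of_isNonarchimedean_norm
      (isNonarchimedean_spectralNorm (K := ℚ_[2]) (L := k))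
  exact BKGen.LocalCount.card_quotient_of_primitive 2 k (ζ := (-1 : k))
    (IsPrimitiveRoot.neg_one 0 (by norm_num))

theorem finrank_sqCls : FiniteDimensional (ZMod 2) (SqCls k) ∧
    finrank (ZMod 2) (SqCls k) = finrank ℚ_[2] k + 2 := by
  have h1 := card_sqCls (k := k)
  have hfin : Finite (SqCls k) := Nat.finite_of_card_ne_zero (by rw [h1]; positivity)
  have hfd : FiniteDimensional (ZMod 2) (SqCls k) := inferInstance
  refine ⟨hfd, ?_⟩
  have : Fintype (SqCls k) := Fintype.ofFinite _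
  rw [Nat.card_eq_fintype_card, Module.card_eq_pow_finrank (K := ZMod 2), ZMod.card] at h1
  exact Nat.pow_right_injective le_rfl h1

end

end Pool.Agent.Lib.MP_c385f6_ag.DyK
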