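import Mathlib
import Pool.Agent.Lib.MP_c385f6_ag.DyK.Symbol

/-!
Dyadic local fields: valuations and square classes (interface for the completeness theorem).
-/

namespace Pool.Agent.Lib.MP_c385f6_ag.DyK

open Pool.Agent.Lib.MP_c385f6_ag

/-- A dyadic local field: absolute value, uniformiser `pi`, `‖2‖ = ‖pi‖ ^ e`, finite residue field
with representatives `res`, numbers near one are squares, and the norm groups of quadratic
extensions have index two. -/
structure Dya (k : Type*) [NormedField k] where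
  pi : k
  e : ℕ
  res : Finset k
  pi_pos : 0 < ‖pi‖
  pi_lt : ‖pi‖ < 1
  val : ∀ x : k, x ≠ 0 → ∃ n : ℤ, ‖x‖ = ‖pi‖ ^ n
  e_pos : 0 < e
  two : ‖(2 : k)‖ = ‖pi‖ ^ (e : ℤ)
  ultra : ∀ x y : k, ‖x + y‖ ≤ max ‖x‖ ‖y‖
  sq : ∀ z : k, ‖z‖ < ‖(4 : k)‖ → ∃ s : k, s ^ 2 = 1 + z
  res_spec : ∀ x : k, ‖x‖ ≤ 1 → ∃ r ∈ res, ‖x - r‖ < 1
  sym : GoodSymbol k
  fin : Finite (SqCls k)

namespace Dya

variable {k : Type*} [NormedField k] (A : Dya k)

/-- `x` has valuation at least `n`. -/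
def ge (n : ℤ) (x : k) : Prop := ‖x‖ ≤ ‖A.pi‖ ^ n

/-- `x` has valuation `n`. -/
def eq (n : ℤ) (x : k) : Prop := ‖x‖ = ‖A.pi‖ ^ n

/-- `L = 2 v(2)`, the valuation of `4`. -/
def L : ℤ := 2 * (A.e : ℤ)

theorem two_le_L : 2 ≤ A.L := by
  have := A.e_pos
  rw [L]
  omega

variable {A} {m n : ℤ} {x y : k}

theorem ppos (n : ℤ) : 0 < ‖A.pi‖ ^ n := zpow_pos A.pi_pos n

theorem pow_le_iff : ‖A.pi‖ ^ m ≤ ‖A.pi‖ ^ n ↔ n ≤ m :=
  zpow_le_zpow_iff_right_of_lt_one₀ A.pi_pos A.pi_lt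

theorem pow_lt_iff : ‖A.pi‖ ^ m < ‖A.pi‖ ^ n ↔ n < m :=
  zpow_lt_zpow_iff_right_of_lt_one₀ A.pi_pos A.pi_lt

theorem ge_zero (n : ℤ) : A.ge n (0 : k) := by
  rw [ge, norm_zero]
  exact (ppos n).le

theorem ge.mono (h : A.ge n x) (hmn : m ≤ n) : A.ge m x := le_trans h (pow_le_iff.2 hmn)

theorem eq.ge (h : A.eq n x) : A.ge n x := le_of_eq h

theorem eq.ge' (h : A.eq n x) (hmn : m ≤ n) : A.ge m x := h.ge.mono hmn

theorem eq.ne (h : A.eq n x) : x ≠ 0 := by
  rintro rfl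
  rw [eq, norm_zero] at h
  exact (ppos n).ne h

theorem eq.not_ge (h : A.eq n x) (hm : A.ge m x) : m ≤ n := by
  rw [Dya.ge, h, pow_le_iff] at hm
  exact hm

theorem eq.uniq (h : A.eq n x) (hm : A.eq m x) : m = n :=
  le_antisymm (h.not_ge hm.ge) (hm.not_ge h.ge)

theorem exists_eq (A : Dya k) (hx : x ≠ 0) : ∃ n, A.eq n x := A.val x hx

theorem ge.lt_or (h : A.ge n x) : A.eq n x ∨ A.ge (n + 1) x := by
  by_cases hx : x = 0
  · right
    rw [hx]
    exact ge_zero _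
  · obtain ⟨m, hm⟩ := A.exists_eq hx
    have h1 := hm.not_ge h
    rcases h1.lt_or_eq with h2 | h2
    · right
      exact hm.ge' h2
    · left
      rw [h2]
      exact hm

theorem ge_iff : A.ge n x ↔ x = 0 ∨ ∃ m, n ≤ m ∧ A.eq m x := by
  constructor
  · intro h
    by_cases hx : x = 0
    · exact Or.inl hx
    · obtain ⟨m, hm⟩ := A.exists_eq hx
      exact Or.inr ⟨m, hm.not_ge h, hm⟩
  · rintro (rfl | ⟨m, h, hm⟩)
    · exact ge_zero _
    · exact hm.ge' h

theorem not_ge_iff : ¬ A.ge n x ↔ ∃ m, m < n ∧ A.eq m x := by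
  constructor
  · intro h
    have hx : x ≠ 0 := by
      rintro rfl
      exact h (ge_zero _)
    obtain ⟨m, hm⟩ := A.exists_eq hx
    exact ⟨m, lt_of_not_ge fun h' => h (hm.ge' h'), hm⟩
  · rintro ⟨m, h, hm⟩ h'
    have := hm.not_ge h'
    omega

theorem ge.add (h : A.ge n x) (h' : A.ge n y) : A.ge n (x + y) :=
  (A.ultra x y).trans (max_le h h')

theorem ge.neg (h : A.ge n x) : A.ge n (-x) := by
  rw [Dya.ge, norm_neg]
  exact h

theorem eq.neg (h : A.eq n x) : A.eq n (-x) := by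
  rw [Dya.eq, norm_neg]
  exact h

theorem ge.sub (h : A.ge n x) (h' : A.ge n y) : A.ge n (x - y) := by
  rw [sub_eq_add_neg]
  exact h.add h'.neg

theorem ge_sub_comm : A.ge n (x - y) ↔ A.ge n (y - x) := by
  rw [Dya.ge, Dya.ge, norm_sub_rev]

theorem eq_sub_comm : A.eq n (x - y) ↔ A.eq n (y - x) := by
  rw [Dya.eq, Dya.eq, norm_sub_rev]

theorem ge.mul (h : A.ge n x) (h' : A.ge m y) : A.ge (n + m) (x * y) := by
  rw [Dya.ge, norm_mul, zpow_add₀ A.pi_pos.ne']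
  exact mul_le_mul h h' (norm_nonneg _) (ppos n).le

theorem eq.mul (h : A.eq n x) (h' : A.eq m y) : A.eq (n + m) (x * y) := by
  rw [Dya.eq, norm_mul, zpow_add₀ A.pi_pos.ne', h, h']

theorem eq.inv (h : A.eq n x) : A.eq (-n) x⁻¹ := by
  rw [Dya.eq, norm_inv, h, zpow_neg]

theorem eq.div (h : A.eq n x) (h' : A.eq m y) : A.eq (n - m) (x / y) := by
  rw [div_eq_mul_inv, sub_eq_add_neg]
  exact h.mul h'.inv

theorem ge.div (h : A.ge n x) (h' : A.eq m y) : A.ge (n - m) (x / y) := by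
  rw [div_eq_mul_inv, sub_eq_add_neg]
  exact h.mul h'.inv.ge

theorem eq.pow (h : A.eq n x) (j : ℕ) : A.eq (j * n) (x ^ j) := by
  rw [Dya.eq, norm_pow, h, ← zpow_natCast, ← zpow_mul, mul_comm]

theorem eq.zpow (h : A.eq n x) (j : ℤ) : A.eq (j * n) (x ^ j) := by
  rw [Dya.eq, norm_zpow, h, ← zpow_mul, mul_comm]

/-- The sum of a number and a smaller one. -/
theorem eq.add (h : A.eq n x) (h' : A.ge (n + 1) y) : A.eq n (x + y) := by
  have h1 : A.ge n (x + y) := h.ge.add (h'.mono (by omega))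
  rcases h1.lt_or with h2 | h2
  · exact h2
  · exfalso
    have h3 : A.ge (n + 1) x := by
      have := h2.sub h'
      rwa [add_sub_cancel_right] at this
    have := h.not_ge h3
    omega

theorem eq.sub (h : A.eq n x) (h' : A.ge (n + 1) y) : A.eq n (x - y) := by
  rw [sub_eq_add_neg]
  exact h.add h'.neg

theorem eq.add_of_lt (h : A.eq n x) (h' : A.ge m y) (hnm : n < m) : A.eq n (x + y) :=
  h.add (h'.mono (by omega))

theorem eq.sub_of_lt (h : A.eq n x) (h' : A.ge m y) (hnm : n < m) : A.eq n (x - y) :=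
  h.sub (h'.mono (by omega))

/-- A number close to `x`. -/
theorem eq.congr (h : A.eq n x) (h' : A.ge (n + 1) (y - x)) : A.eq n y := by
  have := h.add h'
  rwa [add_sub_cancel] at this

variable (A) in
theorem eq_one : A.eq 0 (1 : k) := by
  rw [Dya.eq, norm_one, zpow_zero]

variable (A) in
theorem eq_pi : A.eq 1 A.pi := by
  rw [Dya.eq, zpow_one]

variable (A) in
theorem eq_pi_zpow (n : ℤ) : A.eq n (A.pi ^ n) := by
  rw [Dya.eq, norm_zpow]

variable (A) in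
theorem eq_two : A.eq A.e (2 : k) := A.two

variable (A) in
theorem eq_four : A.eq A.L (4 : k) := by
  have : (4 : k) = 2 * 2 := by norm_num
  rw [this, L, two_mul]
  exact A.eq_two.mul A.eq_two

theorem eq.one_add (h : A.ge 1 x) : A.eq 0 (1 + x) := A.eq_one.add h

theorem eq.one_sub (h : A.ge 1 x) : A.eq 0 (1 - x) := A.eq_one.sub h

theorem one_add_ne (h : A.ge 1 x) : 1 + x ≠ 0 := (eq.one_add h).ne

theorem one_sub_ne (h : A.ge 1 x) : 1 - x ≠ 0 := (eq.one_sub h).ne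

theorem pi_ne (A : Dya k) : A.pi ≠ 0 := A.eq_pi.ne

theorem two_ne (A : Dya k) : (2 : k) ≠ 0 := A.eq_two.ne

end Dya

/-! ### Square classes -/

/-- The square classes of a field, written additively. -/
def Sq (k : Type*) [Field k] : Type _ := SqCls k

theorem Dya.finite {k : Type*} [NormedField k] (A : Dya k) : Finite (Sq k) := A.fin

noncomputable instance (k : Type*) [Field k] : AddCommGroup (Sq k) :=
  inferInstanceAs (AddCommGroup (SqCls k))

noncomputable instance (k : Type*) [Field k] : Module (ZMod 2) (Sq k) :=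
  inferInstanceAs (Module (ZMod 2) (SqCls k))

section
variable {k : Type*} [Field k]

open Classical in
/-- The square class of a nonzero number (zero for zero), written additively. -/
noncomputable def cl (x : k) : Sq k := if h : x = 0 then 0 else cls (Units.mk0 x h)

theorem cl_of_ne {x : k} (h : x ≠ 0) : cl x = cls (Units.mk0 x h) := dif_neg h

theorem cl_zero : cl (0 : k) = 0 := dif_pos rfl

theorem cl_mul {x y : k} (hx : x ≠ 0) (hy : y ≠ 0) : cl (x * y) = cl x + cl y := by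
  rw [cl_of_ne hx, cl_of_ne hy, cl_of_ne (mul_ne_zero hx hy)]
  have h : Units.mk0 (x * y) (mul_ne_zero hx hy) = Units.mk0 x hx * Units.mk0 y hy :=
    Units.ext rfl
  rw [h]
  rfl

theorem sq_add_self (δ : Sq k) : δ + δ = 0 := by
  have : (2 : ℕ) • δ = 0 := two_smul_sqCls k δ
  rwa [two_nsmul] at this

theorem sq_neg (δ : Sq k) : -δ = δ := neg_eq_of_add_eq_zero_left (sq_add_self δ)

theorem sq_add_cancel (δ δ' : Sq k) : δ + (δ + δ') = δ' := by
  rw [← add_assoc, sq_add_self, zero_add]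

theorem sq_add_eq_zero {δ δ' : Sq k} : δ + δ' = 0 ↔ δ = δ' := by
  rw [add_eq_zero_iff_eq_neg, sq_neg]

theorem sq_eq_add {δ δ' δ'' : Sq k} : δ = δ' + δ'' ↔ δ + δ' = δ'' := by
  constructor
  · rintro rfl
    rw [add_comm, sq_add_cancel]
  · rintro rfl
    rw [add_comm δ, sq_add_cancel]

theorem cl_one : cl (1 : k) = 0 := by
  have h := cl_mul (one_ne_zero (α := k)) (one_ne_zero (α := k))
  rw [mul_one] at h
  exact left_eq_add.1 h

theorem cl_sq (x : k) : cl (x ^ 2) = 0 := by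
  by_cases hx : x = 0
  · rw [hx, zero_pow two_ne_zero]
    exact cl_zero
  · rw [sq, cl_mul hx hx, sq_add_self]

theorem cl_mul_sq (x : k) {s : k} (hs : s ≠ 0) : cl (x * s ^ 2) = cl x := by
  by_cases hx : x = 0
  · rw [hx, zero_mul]
  · rw [cl_mul hx (pow_ne_zero 2 hs), cl_sq, add_zero]

theorem cl_inv (x : k) : cl x⁻¹ = cl x := by
  by_cases hx : x = 0
  · rw [hx, inv_zero]
  · have h : x⁻¹ = x * (x⁻¹) ^ 2 := by field_simp
    rw [h, cl_mul_sq x (inv_ne_zero hx)]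

theorem cl_div {x y : k} (hx : x ≠ 0) (hy : y ≠ 0) : cl (x / y) = cl x + cl y := by
  rw [div_eq_mul_inv, cl_mul hx (inv_ne_zero hy), cl_inv]

theorem cl_neg {x : k} (hx : x ≠ 0) : cl (-x) = cl (-1) + cl x := by
  rw [neg_eq_neg_one_mul, cl_mul (neg_ne_zero.2 one_ne_zero) hx]

theorem cls_eq_cls {u v : kˣ} : (cls u : Sq k) = cls v ↔ ∃ s : kˣ, v = u * s ^ 2 := cls_eq

theorem cl_eq_iff {x y : k} (hx : x ≠ 0) (hy : y ≠ 0) :
    cl x = cl y ↔ ∃ s : k, s ≠ 0 ∧ y = x * s ^ 2 := by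
  rw [cl_of_ne hx, cl_of_ne hy]
  refine cls_eq_cls.trans ?_
  constructor
  · rintro ⟨s, hs⟩
    exact ⟨s, s.ne_zero, congrArg Units.val hs⟩
  · rintro ⟨s, hs, h⟩
    exact ⟨Units.mk0 s hs, Units.ext h⟩

theorem cl_eq_zero_iff {x : k} (hx : x ≠ 0) : cl x = 0 ↔ ∃ s : k, s ^ 2 = x := by
  rw [← cl_one, eq_comm, cl_eq_iff one_ne_zero hx]
  constructor
  · rintro ⟨s, -, h⟩
    exact ⟨s, by rw [h, one_mul]⟩
  · rintro ⟨s, h⟩
    refine ⟨s, ?_, by rw [← h, one_mul]⟩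
    rintro rfl
    exact hx (by rw [← h]; ring)

theorem cl_surj (δ : Sq k) : ∃ x : k, x ≠ 0 ∧ cl x = δ := by
  obtain ⟨u, hu⟩ := cls_surj (k := k) δ
  refine ⟨u, u.ne_zero, ?_⟩
  rw [cl_of_ne u.ne_zero]
  have h : Units.mk0 (u : k) u.ne_zero = u := Units.ext rfl
  rw [h]
  exact hu

variable [CharZero k] (hk : GoodSymbol k)

/-- The norm residue symbol as a bilinear form on square classes. -/
noncomputable def bf : LinearMap.BilinForm (ZMod 2) (Sq k) := form hk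

theorem bf_comm (x y : Sq k) : bf hk x y = bf hk y x := form_comm hk x y

theorem bf_cl {x y : k} (hx : x ≠ 0) (hy : y ≠ 0) : bf hk (cl x) (cl y) = sy x y := by
  rw [cl_of_ne hx, cl_of_ne hy]
  exact form_cls hk _ _

theorem bf_eq_zero {x y : k} (hx : x ≠ 0) (hy : y ≠ 0) :
    bf hk (cl x) (cl y) = 0 ↔ Nm x y := by
  rw [bf_cl hk hx hy, sy_eq_zero]

theorem bf_neg_self {x : k} (hx : x ≠ 0) : bf hk (cl x) (cl (-x)) = 0 := by
  rw [bf_eq_zero hk hx (neg_ne_zero.2 hx)]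
  exact Nm.neg_self x

/-- The symbol of two numbers with sum one. -/
theorem bf_add_one {x y : k} (hx : x ≠ 0) (hy : y ≠ 0) (h : x + y = 1) :
    bf hk (cl x) (cl y) = 0 := by
  rw [bf_eq_zero hk hx hy]
  exact ⟨1, 1, by linear_combination h⟩

theorem bf_one_sub {x : k} (hx : x ≠ 0) (hx1 : 1 - x ≠ 0) :
    bf hk (cl x) (cl (1 - x)) = 0 := bf_add_one hk hx hx1 (by ring)

theorem bf_self (δ : Sq k) : bf hk δ δ = bf hk δ (cl (-1)) := by
  obtain ⟨x, hx, rfl⟩ := cl_surj δ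
  have h := bf_neg_self hk hx
  rw [cl_neg hx, map_add] at h
  have key : ∀ z z' : ZMod 2, z + z' = 0 → z' = z := by decide
  exact key _ _ h

/-- Nondegeneracy. -/
theorem exists_bf_ne {δ : Sq k} (h : δ ≠ 0) : ∃ x : k, x ≠ 0 ∧ bf hk δ (cl x) = 1 := by
  by_contra hcon
  push Not at hcon
  apply h
  refine form_nondeg hk fun y => ?_
  obtain ⟨x, hx, hxy⟩ := cl_surj (y : Sq k)
  have key : ∀ z : ZMod 2, z ≠ 1 → z = 0 := by decide
  have := key _ (hcon x hx)
  rw [hxy] at this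
  exact this

theorem eq_zero_of_bf {δ : Sq k} (h : ∀ x : k, x ≠ 0 → bf hk δ (cl x) = 0) : δ = 0 := by
  by_contra hd
  obtain ⟨x, hx, h1⟩ := exists_bf_ne hk hd
  rw [h x hx] at h1
  exact zero_ne_one h1

end

end Pool.Agent.Lib.MP_c385f6_ag.DyK
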