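import Mathlib
import Pool.Agent.Lib.MP_c385f6_ag.DyK.Base

/-!
The norm residue symbol of a dyadic field on the unit filtration.
-/

namespace Pool.Agent.Lib.MP_c385f6_ag.DyK

open Pool.Agent.Lib.MP_c385f6_ag

variable {k : Type*} [NormedField k] [CharZero k]

/-- `g` is orthogonal to all numbers `1 + x`, `v(x) ≥ i`. -/
def Perp (A : Dya k) (g : Sq k) (i : ℤ) : Prop :=
  ∀ x, A.ge i x → bf A.sym g (cl (1 + x)) = 0

/-- The symbol on the unit filtration: `eps` is the class of the unramified quadratic extension,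
`cl (1 + z) = E z • eps` for `v(z) ≥ L = v(4)`. -/
structure Facts (A : Dya k) (eps : Sq k) (E : k → ZMod 2) : Prop where
  one_add : ∀ z, A.ge A.L z → cl (1 + z) = E z • eps
  E_add : ∀ x y, A.ge A.L x → A.ge A.L y → E (x + y) = E x + E y
  E_zero : ∀ x, A.ge (A.L + 1) x → E x = 0
  par : ∀ n x, A.eq n x → bf A.sym eps (cl x) = (n : ZMod 2)
  nondeg : ∀ n d, A.eq n d → ∃ x, A.eq (A.L - n) x ∧ E (x * d) = 1
  dual : ∀ (i : ℤ) (f : k → ZMod 2),
    (∀ x y, A.ge i x → A.ge i y → f (x + y) = f x + f y) → (∀ x, A.ge (i + 1) x → f x = 0) →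
      ∃ ξ, A.ge (A.L - i) ξ ∧ ∀ x, A.ge i x → f x = E (ξ * x)
  perp : ∀ (i : ℤ) (g : Sq k), 1 ≤ i → i ≤ A.L → Perp A g i →
    ∃ d, A.ge (A.L + 1 - i) d ∧ g = cl (1 + d)
  symb : ∀ (i j : ℤ) (a b : k), 1 ≤ i → 1 ≤ j → i + j = A.L → A.ge i a → A.ge j b →
    bf A.sym (cl (1 + a)) (cl (1 + b)) = (i : ZMod 2) * E (a * b)
  lead : ∀ (n : ℤ) (x : k), A.eq (2 * n) x → ∃ θ, A.eq n θ ∧ A.ge (2 * n + 1) (x - θ ^ 2)

variable {A : Dya k}

theorem Perp.mono {g : Sq k} {i j : ℤ} (h : Perp A g i) (hij : i ≤ j) : Perp A g j :=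
  fun x hx => h x (hx.mono hij)

theorem Perp.sub {g : Sq k} {i : ℤ} (h : Perp A g i) {x : k} (hx : A.ge i x) :
    bf A.sym g (cl (1 - x)) = 0 := by
  rw [sub_eq_add_neg]
  exact h _ hx.neg

theorem Perp.add {g g' : Sq k} {i : ℤ} (h : Perp A g i) (h' : Perp A g' i) :
    Perp A (g + g') i := by
  intro x hx
  rw [map_add, LinearMap.add_apply, h x hx, h' x hx, add_zero]

/-- The symbol with `g` depends on the leading terms only. -/
theorem Perp.congr {g : Sq k} {i n : ℤ} (h : Perp A g i) {a b : k} (ha : A.eq n a)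
    (hb : b ≠ 0) (hab : A.ge (n + i) (b - a)) :
    bf A.sym g (cl b) = bf A.sym g (cl a) := by
  have h1 : b = a * (1 + (b - a) / a) := by
    field_simp [ha.ne]
    ring
  have h2 : A.ge i ((b - a) / a) := by
    have := hab.div ha
    rwa [add_sub_cancel_left] at this
  have h3 : (1 + (b - a) / a) ≠ 0 := by
    intro h0
    rw [h0, mul_zero] at h1
    exact hb h1
  rw [h1, cl_mul ha.ne h3, map_add, h _ h2, add_zero]

namespace Facts

variable {eps : Sq k} {E : k → ZMod 2} (F : Facts A eps E)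
include F

theorem E_zero' : E 0 = 0 := F.E_zero 0 (Dya.ge_zero _)

theorem E_neg {x : k} (hx : A.ge A.L x) : E (-x) = E x := by
  have h := F.E_add x (-x) hx hx.neg
  rw [add_neg_cancel, F.E_zero'] at h
  have key : ∀ z z' : ZMod 2, 0 = z + z' → z' = z := by decide
  exact key _ _ h

theorem E_congr {x x' : k} (hx : A.ge A.L x) (h : A.ge (A.L + 1) (x' - x)) : E x' = E x := by
  have h1 := F.E_add x (x' - x) hx (h.mono (by omega))
  rw [add_sub_cancel, F.E_zero _ h, add_zero] at h1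
  exact h1

theorem E_add₃ {x y z : k} (hx : A.ge A.L x) (hy : A.ge A.L y) (h : A.ge (A.L + 1) (z - x - y)) :
    E z = E x + E y := by
  rw [← F.E_add x y hx hy]
  exact F.E_congr (hx.add hy) (by rwa [← sub_sub])

theorem one_add_sq {z : k} (hz : A.ge (A.L + 1) z) : cl (1 + z) = 0 := by
  rw [F.one_add z (hz.mono (by omega)), F.E_zero z hz, zero_smul]

theorem one_sub_cl {z : k} (hz : A.ge A.L z) : cl (1 - z) = E z • eps := by
  rw [sub_eq_add_neg, F.one_add _ hz.neg, F.E_neg hz]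

theorem one_sub_sq {z : k} (hz : A.ge (A.L + 1) z) : cl (1 - z) = 0 := by
  rw [F.one_sub_cl (hz.mono (by omega)), F.E_zero z hz, zero_smul]

theorem perp_large (g : Sq k) : Perp A g (A.L + 1) := by
  intro x hx
  rw [F.one_add_sq hx, map_zero]

/-- Numbers near to each other have the same class. -/
theorem cl_near {n : ℤ} {a b : k} (ha : A.eq n a) (hab : A.ge (n + A.L + 1) (b - a)) :
    cl b = cl a := by
  have h1 : b = a * (1 + (b - a) / a) := by
    field_simp [ha.ne]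
    ring
  have h2 : A.ge (A.L + 1) ((b - a) / a) := by
    have := hab.div ha
    have h3 : n + A.L + 1 - n = A.L + 1 := by ring
    rwa [h3] at this
  have hL := A.two_le_L
  rw [h1, cl_mul ha.ne (Dya.one_add_ne (h2.mono (by omega))), F.one_add_sq h2, add_zero]

theorem par_unit {z : k} (hz : A.ge 1 z) : bf A.sym eps (cl (1 + z)) = 0 := by
  rw [F.par 0 _ (Dya.eq.one_add hz), Int.cast_zero]

theorem exists_E_one : ∃ z, A.ge A.L z ∧ E z = 1 := by
  obtain ⟨x, hx, h⟩ := F.nondeg 0 1 (Dya.eq_one A)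
  refine ⟨x, ?_, by rwa [mul_one] at h⟩
  rw [sub_zero] at hx
  exact hx.ge

theorem exists_eps : ∃ z, A.ge A.L z ∧ eps = cl (1 + z) := by
  obtain ⟨z, hz, h⟩ := F.exists_E_one
  exact ⟨z, hz, by rw [F.one_add z hz, h, one_smul]⟩

theorem eps_self : bf A.sym eps eps = 0 := by
  obtain ⟨z, hz, h⟩ := F.exists_eps
  have hL := A.two_le_L
  nth_rw 2 [h]
  exact F.par_unit (hz.mono (by omega))

theorem eps_perp : Perp A eps 1 := fun _ hx => F.par_unit hx

theorem eps_ne : eps ≠ 0 := by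
  rintro rfl
  have h := F.par 1 A.pi (Dya.eq_pi A)
  rw [map_zero, LinearMap.zero_apply, Int.cast_one] at h
  exact zero_ne_one h

theorem perp_one {g : Sq k} (h : Perp A g 1) : g = 0 ∨ g = eps := by
  have hL := A.two_le_L
  obtain ⟨d, hd, rfl⟩ := F.perp 1 g le_rfl (by omega) h
  have h1 : A.ge A.L d := hd.mono (by omega)
  rw [F.one_add d h1]
  have key : ∀ z : ZMod 2, z = 0 ∨ z = 1 := by decide
  rcases key (E d) with h2 | h2
  · left
    rw [h2, zero_smul]
  · right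
    rw [h2, one_smul]

theorem perp_one_even {g : Sq k} (h : Perp A g 1) : bf A.sym eps g = 0 := by
  rcases F.perp_one h with rfl | rfl
  · rw [map_zero]
  · exact F.eps_self

/-- If `g` is orthogonal to `1 + x`, `v(x) ≥ 2`, then `x ↦ (g, 1 - x)` is additive. -/
theorem perp_two_add {g : Sq k} (h : Perp A g 2) {x y : k} (hx : A.ge 1 x) (hy : A.ge 1 y) :
    bf A.sym g (cl (1 - (x + y))) = bf A.sym g (cl (1 - x)) + bf A.sym g (cl (1 - y)) := by
  rw [← map_add, ← cl_mul (Dya.one_sub_ne hx) (Dya.one_sub_ne hy)]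
  symm
  refine h.congr (Dya.eq.one_sub (hx.add hy)) (mul_ne_zero (Dya.one_sub_ne hx)
    (Dya.one_sub_ne hy)) ?_
  have h1 : (1 - x) * (1 - y) - (1 - (x + y)) = x * y := by ring
  rw [h1]
  exact (hx.mul hy).mono (by omega)

/-- A number of given valuation and class. -/
theorem class_rep {δ : Sq k} {n : ℤ} (h : bf A.sym eps δ = (n : ZMod 2)) :
    ∃ x, A.eq n x ∧ cl x = δ := by
  obtain ⟨x, hx, rfl⟩ := cl_surj δ
  obtain ⟨m, hm⟩ := A.exists_eq hx
  rw [F.par m x hm, ZMod.intCast_eq_intCast_iff_dvd_sub] at h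
  obtain ⟨c, hc⟩ := h
  push_cast at hc
  refine ⟨x * (A.pi ^ c) ^ 2, ?_, cl_mul_sq x (Dya.eq_pi_zpow A c).ne⟩
  have h1 := hm.mul ((Dya.eq_pi_zpow A c).pow 2)
  have h2 : m + ((2 : ℕ) : ℤ) * c = n := by
    push_cast
    omega
  rwa [h2] at h1

/-- A number of given class with given leading term. -/
theorem class_rep_near {δ : Sq k} {n : ℤ} (h : bf A.sym eps δ = (n : ZMod 2)) {a : k}
    (ha : A.eq n a) : ∃ x, A.eq n x ∧ cl x = δ ∧ A.ge (n + 1) (x - a) := by
  obtain ⟨y, hy, hδ⟩ := F.class_rep h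
  have h1 : A.eq (2 * 0) (a / y) := by
    have := ha.div hy
    rwa [sub_self] at this
  obtain ⟨θ, hθ, h2⟩ := F.lead 0 (a / y) h1
  have h3 : A.eq n (y * θ ^ 2) := by
    have := hy.mul (hθ.pow 2)
    rwa [mul_zero, add_zero] at this
  refine ⟨y * θ ^ 2, h3, by rw [cl_mul_sq y hθ.ne, hδ], ?_⟩
  have h4 : y * θ ^ 2 - a = -(y * (a / y - θ ^ 2)) := by
    field_simp [hy.ne]
    ring
  rw [h4]
  have h5 := (hy.ge.mul h2).neg
  rwa [mul_zero, zero_add] at h5

/-- Small numbers of given class. -/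
theorem tiny (δ : Sq k) (n : ℤ) : ∃ x, x ≠ 0 ∧ A.ge n x ∧ cl x = δ := by
  have key : ∀ z : ZMod 2, z = (n : ZMod 2) ∨ z = ((n + 1 : ℤ) : ZMod 2) := by
    intro z
    rw [Int.cast_add, Int.cast_one]
    generalize (n : ZMod 2) = u
    revert u z
    decide
  rcases key (bf A.sym eps δ) with h | h
  · obtain ⟨x, hx, h1⟩ := F.class_rep h
    exact ⟨x, hx.ne, hx.ge, h1⟩
  · obtain ⟨x, hx, h1⟩ := F.class_rep h
    exact ⟨x, hx.ne, hx.ge' (by omega), h1⟩

/-- Every class has a representative of valuation `n` or `n + 1`. -/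
theorem class_rep' (δ : Sq k) (n : ℤ) : ∃ x, (A.eq n x ∨ A.eq (n + 1) x) ∧ cl x = δ := by
  have key : ∀ z : ZMod 2, z = (n : ZMod 2) ∨ z = ((n + 1 : ℤ) : ZMod 2) := by
    intro z
    rw [Int.cast_add, Int.cast_one]
    generalize (n : ZMod 2) = u
    revert u z
    decide
  rcases key (bf A.sym eps δ) with h | h
  · obtain ⟨x, hx, h1⟩ := F.class_rep h
    exact ⟨x, Or.inl hx, h1⟩
  · obtain ⟨x, hx, h1⟩ := F.class_rep h
    exact ⟨x, Or.inr hx, h1⟩

end Facts

end Pool.Agent.Lib.MP_c385f6_ag.DyK
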