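import Mathlib
import Pool.Agent.Lib.MP_c385f6_ag.DyK.Facts

/-!
Compatible systems of square classes on a net of points.
-/

namespace Pool.Agent.Lib.MP_c385f6_ag.DyK

open Pool.Agent.Lib.MP_c385f6_ag

/-- Compatible square classes: the conics `D_s X² - D_t Y² = t - s` have points. -/
def Compat {k : Type*} [Field k] [CharZero k] (hk : GoodSymbol k) (T : Finset k)
    (D : k → Sq k) : Prop :=
  ∀ s ∈ T, ∀ t ∈ T, s ≠ t → bf hk (cl (t - s) + D s) (cl (s - t) + D t) = 0

/-- The classes come from a point. -/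
def Realised {k : Type*} [Field k] (T : Finset k) (D : k → Sq k) : Prop :=
  ∃ y, ∀ s ∈ T, y ≠ s ∧ D s = cl (y - s)

variable {k : Type*} [NormedField k] [CharZero k]

/-- A net: integral elements, two in each class modulo `pi ^ m`, of distance exactly `m`, and one
element `r` of valuation `-1`. -/
structure Net (A : Dya k) (m : ℤ) (T : Finset k) (r : k) : Prop where
  memr : r ∈ T
  top : A.eq (-1) r
  int : ∀ t ∈ T, t ≠ r → A.ge 0 t
  pair : ∀ x, A.ge 0 x → ∃ t ∈ T, ∃ t' ∈ T, A.eq m (t - t') ∧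
    ∀ s ∈ T, A.ge m (x - s) ↔ s = t ∨ s = t'
  big : (Nat.card (Sq k) : ℤ) * (A.L + 2) ≤ m
  big2 : 2 * A.L ≤ m

/-- A compatible system of classes on a net. -/
structure Sys (A : Dya k) where
  eps : Sq k
  E : k → ZMod 2
  F : Facts A eps E
  m : ℤ
  T : Finset k
  r : k
  N : Net A m T r
  D : k → Sq k
  C : Compat A.sym T D

namespace Sys

variable {A : Dya k} (X : Sys A)

/-- The error of `y` at `s`. -/
noncomputable def g (y s : k) : Sq k := X.D s + cl (y - s)

/-- `y` is correct on all points at valuation less than `l` and correct up to the unramified class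
on points at valuation `l`. -/
def State (y : k) (l : ℤ) : Prop := A.ge 0 y ∧ y ∉ X.T ∧
  (∀ s ∈ X.T, ∀ i, i < l → A.eq i (y - s) → X.g y s = 0) ∧
  ∀ s ∈ X.T, A.eq l (y - s) → X.g y s = 0 ∨ X.g y s = X.eps

variable {X}

theorem two_le : 4 ≤ X.m := by
  have h1 := X.N.big2
  have h2 := A.two_le_L
  omega

theorem L_lt : A.L < X.m := by
  have h1 := X.N.big2
  have h2 := A.two_le_L
  omega

theorem not_int_r : ¬ A.ge 0 X.r := by
  intro h
  have := X.N.top.not_ge h
  omega

theorem mem_int {s : k} (hs : s ∈ X.T) : A.ge 0 s ∨ s = X.r := by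
  by_cases h : s = X.r
  · exact Or.inr h
  · exact Or.inl (X.N.int s hs h)

theorem ge_neg_one {s : k} (hs : s ∈ X.T) : A.ge (-1) s := by
  rcases X.mem_int hs with h | rfl
  · exact h.mono (by omega)
  · exact X.N.top.ge

/-- Points of the net near to a given integral element. -/
theorem near {x : k} (hx : A.ge 0 x) : ∃ t ∈ X.T, A.ge 0 t ∧ A.ge X.m (x - t) := by
  obtain ⟨t, ht, t', -, -, h⟩ := X.N.pair x hx
  have h1 := (h t ht).2 (Or.inl rfl)
  have h2 := X.two_le
  refine ⟨t, ht, ?_, h1⟩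
  have h3 := hx.sub (h1.mono (show (0 : ℤ) ≤ X.m by omega))
  rwa [sub_sub_cancel] at h3

/-- Points of the net at given valuation from a given integral element. -/
theorem exists_level {y : k} (hy : A.ge 0 y) {i : ℤ} (hi : -1 ≤ i) (him : i ≤ X.m) :
    ∃ s ∈ X.T, A.eq i (y - s) := by
  have h2 := X.two_le
  rcases hi.eq_or_lt with rfl | hi
  · refine ⟨X.r, X.N.memr, ?_⟩
    rw [Dya.eq_sub_comm]
    exact X.N.top.sub_of_lt hy (by omega)
  rcases him.lt_or_eq with him | rfl
  · have h1 : A.ge 0 (y + A.pi ^ i) := hy.add ((Dya.eq_pi_zpow A i).ge' (by omega))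
    obtain ⟨t, ht, -, h3⟩ := X.near h1
    refine ⟨t, ht, ?_⟩
    have h4 : A.eq i (-(A.pi ^ i)) := (Dya.eq_pi_zpow A i).neg
    refine h4.congr ?_
    have h5 : y - t - -(A.pi ^ i) = y + A.pi ^ i - t := by ring
    rw [h5]
    exact h3.mono (by omega)
  · obtain ⟨t, ht, t', ht', h3, h4⟩ := X.N.pair y hy
    have h5 := (h4 t ht).2 (Or.inl rfl)
    have h6 := (h4 t' ht').2 (Or.inr rfl)
    rcases h5.lt_or with h7 | h7
    · exact ⟨t, ht, h7⟩
    · refine ⟨t', ht', h3.congr ?_⟩
      have h8 : y - t' - (t - t') = y - t := by ring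
      rw [h8]
      exact h7

/-- Points near to a given one outside a finite set. -/
theorem exists_near (A : Dya k) (T : Finset k) (y : k) (n : ℤ) :
    ∃ y', A.ge n (y' - y) ∧ y' ∉ T := by
  by_contra hcon
  push Not at hcon
  have hinj : Function.Injective fun i : ℕ => y + A.pi ^ (n + (i : ℤ)) := by
    intro i j h
    have h1 : A.pi ^ (n + (i : ℤ)) = A.pi ^ (n + (j : ℤ)) := add_left_cancel h
    have h2 := Dya.eq_pi_zpow A (n + (i : ℤ))
    rw [h1] at h2
    have h3 := (Dya.eq_pi_zpow A (n + (j : ℤ))).uniq h2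
    omega
  refine Set.infinite_range_of_injective hinj (T.finite_toSet.subset ?_)
  rintro _ ⟨i, rfl⟩
  refine hcon _ ?_
  simp only [add_sub_cancel_left]
  exact (Dya.eq_pi_zpow A _).ge' (by omega)

theorem level_or {y s : k} (hys : y ≠ s) : ∃ i, A.eq i (y - s) := A.exists_eq (sub_ne_zero.2 hys)

theorem level_ge {y s : k} (hy : A.ge 0 y) (hs : s ∈ X.T) : A.ge (-1) (y - s) :=
  (hy.mono (by omega)).sub (X.ge_neg_one hs)

theorem g_eq_zero {y s : k} : X.g y s = 0 ↔ X.D s = cl (y - s) := by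
  rw [g, sq_add_eq_zero]

/-- The relation between the errors at two points. -/
theorem rel {y s t : k} (hs : s ∈ X.T) (ht : t ∈ X.T) (hst : s ≠ t) (hys : y ≠ s) (hyt : y ≠ t) :
    bf A.sym (X.g y t) (cl ((t - s) / (y - s))) + bf A.sym (X.g y s) (cl ((s - t) / (y - t))) +
      bf A.sym (X.g y s) (X.g y t) = 0 := by
  have h1 : y - s ≠ 0 := sub_ne_zero.2 hys
  have h2 : y - t ≠ 0 := sub_ne_zero.2 hyt
  have h3 : t - s ≠ 0 := sub_ne_zero.2 hst.symm
  have h4 : s - t ≠ 0 := sub_ne_zero.2 hst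
  have h5 := X.C s hs t ht hst
  have e1 : cl (t - s) + X.D s = X.g y s + cl ((t - s) / (y - s)) := by
    rw [g, cl_div h3 h1]
    have := sq_add_self (cl (y - s))
    calc cl (t - s) + X.D s = cl (t - s) + X.D s + (cl (y - s) + cl (y - s)) := by
          rw [this, add_zero]
      _ = _ := by abel
  have e2 : cl (s - t) + X.D t = X.g y t + cl ((s - t) / (y - t)) := by
    rw [g, cl_div h4 h2]
    have := sq_add_self (cl (y - t))
    calc cl (s - t) + X.D t = cl (s - t) + X.D t + (cl (y - t) + cl (y - t)) := by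
          rw [this, add_zero]
      _ = _ := by abel
  have e3 : bf A.sym (cl ((t - s) / (y - s))) (cl ((s - t) / (y - t))) = 0 := by
    set u := (t - s) / (y - s) with hu
    have hu0 : u ≠ 0 := div_ne_zero h3 h1
    have hu1 : 1 - u = (y - t) / (y - s) := by
      rw [hu]
      field_simp
      ring
    have hu1' : 1 - u ≠ 0 := by
      rw [hu1]
      exact div_ne_zero h2 h1
    have h6 : (s - t) / (y - t) = -u / (1 - u) := by
      rw [hu1, hu]
      field_simp
      ring
    rw [h6, cl_div (neg_ne_zero.2 hu0) hu1', map_add, bf_neg_self A.sym hu0,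
      bf_one_sub A.sym hu0 hu1', add_zero]
  rw [e1, e2, map_add, map_add, LinearMap.add_apply, LinearMap.add_apply, e3, add_zero,
    bf_comm A.sym (cl ((t - s) / (y - s)))] at h5
  rw [← h5]
  ring

/-- The relation with a point where `y` is correct. -/
theorem rel_zero {y s t : k} (hs : s ∈ X.T) (ht : t ∈ X.T) (hst : s ≠ t) (hys : y ≠ s)
    (hyt : y ≠ t) (hg : X.g y t = 0) :
    bf A.sym (X.g y s) (cl ((s - t) / (y - t))) = 0 := by
  have h := X.rel hs ht hst hys hyt
  rwa [hg, map_zero, LinearMap.zero_apply, zero_add, map_zero, add_zero] at h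

/-- The relation when the error at `s` is unramified. -/
theorem rel_eps {y s t : k} (hs : s ∈ X.T) (ht : t ∈ X.T) (hst : s ≠ t) (hys : y ≠ s)
    {b : ZMod 2} (hb : X.g y s = b • X.eps) {n j : ℤ} (hn : A.eq n (s - t))
    (hj : A.eq j (y - t)) :
    bf A.sym (X.g y t) (cl ((t - s) / (y - s))) =
      b * ((n - j : ℤ) + bf A.sym X.eps (X.g y t)) := by
  have h := X.rel hs ht hst hys (sub_ne_zero.1 hj.ne)
  rw [hb, LinearMap.map_smul₂, LinearMap.map_smul₂, X.F.par (n - j) _ (hn.div hj)] at h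
  rw [smul_eq_mul, smul_eq_mul] at h
  have key : ∀ a b c d : ZMod 2, a + b * c + b * d = 0 → a = b * (c + d) := by decide
  exact key _ _ _ _ h

/-- The relation when both errors are unramified. -/
theorem rel_eps_eps {y s t : k} (hs : s ∈ X.T) (ht : t ∈ X.T) (hst : s ≠ t)
    {b c : ZMod 2} (hb : X.g y s = b • X.eps) (hc : X.g y t = c • X.eps) {n i j : ℤ}
    (hn : A.eq n (s - t)) (hi : A.eq i (y - s)) (hj : A.eq j (y - t)) :
    c * ((n - i : ℤ) : ZMod 2) = b * ((n - j : ℤ) : ZMod 2) := by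
  have h := X.rel_eps hs ht hst (sub_ne_zero.1 hi.ne) hb hn hj
  rw [hc, LinearMap.map_smul₂, X.F.par (n - i) _ ((Dya.eq_sub_comm.1 hn).div hi), smul_eq_mul,
    map_smul, X.F.eps_self, smul_zero, add_zero] at h
  exact h

/-- Moving the point by a small number. -/
theorem g_move {y s η : k} {i : ℤ} (hi : A.eq i (y - s)) (hη : A.ge (i + A.L) η) :
    X.g (y + η) s = X.g y s + X.E (η / (y - s)) • X.eps := by
  have h1 : A.ge A.L (η / (y - s)) := by
    have := hη.div hi
    rwa [add_sub_cancel_left] at this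
  have hL := A.two_le_L
  have h2 : y + η - s = (y - s) * (1 + η / (y - s)) := by
    field_simp [hi.ne]
    ring
  rw [g, g, h2, cl_mul hi.ne (Dya.one_add_ne (h1.mono (by omega))), X.F.one_add _ h1, add_assoc]

/-- Moving the point by a very small number. -/
theorem g_near {y s y' : k} {i : ℤ} (hi : A.eq i (y - s)) (h : A.ge (i + A.L + 1) (y' - y)) :
    X.g y' s = X.g y s := by
  have h1 : A.ge (A.L + 1) ((y' - y) / (y - s)) := by
    have := h.div hi
    have h3 : i + A.L + 1 - i = A.L + 1 := by ring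
    rwa [h3] at this
  have h2 := X.g_move (η := y' - y) hi (h.mono (by omega))
  rw [add_sub_cancel, X.F.E_zero _ h1, zero_smul, add_zero] at h2
  exact h2

/-- A third point. -/
theorem third {t t' : k} (ht : A.ge 0 t) {n : ℤ} (hn : 0 ≤ n) (hnm : n ≤ X.m)
    (h : A.ge n (t - t')) :
    A.eq n (t - t') ∨ ∃ s ∈ X.T, A.eq n (t - s) ∧ A.eq n (t' - s) := by
  rcases h.lt_or with h1 | h1
  · exact Or.inl h1
  · right
    obtain ⟨s, hs, h2⟩ := X.exists_level ht (i := n) (by omega) hnm
    refine ⟨s, hs, h2, h2.congr ?_⟩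
    have h3 : t' - s - (t - s) = -(t - t') := by ring
    rw [h3]
    exact h1.neg

/-- The relation between the colours of two points, general form. -/
theorem col_col {s t : k} (hs : s ∈ X.T) (ht : t ∈ X.T) (hst : s ≠ t) {δ α α' : Sq k}
    (h1 : X.D s = δ + α) (h2 : X.D t = δ + α') :
    bf A.sym α (cl (s - t) + δ) + bf A.sym α' (cl (t - s) + δ) + bf A.sym α α' = 0 := by
  have h3 : t - s ≠ 0 := sub_ne_zero.2 hst.symm
  have h4 : s - t ≠ 0 := sub_ne_zero.2 hst
  have h5 := X.C s hs t ht hst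
  have h7 : -(t - s) = s - t := neg_sub _ _
  have h6 := bf_neg_self A.sym h3
  rw [h7] at h6
  have h8 := bf_self A.sym δ
  have h9 : cl (s - t) = cl (-1) + cl (t - s) := by
    rw [← h7]
    exact cl_neg h3
  have h11 : bf A.sym (cl (t - s) + δ) (cl (s - t) + δ) = 0 := by
    rw [map_add, map_add, LinearMap.add_apply, LinearMap.add_apply, h6, h8]
    have h10 : bf A.sym δ (cl (s - t)) = bf A.sym δ (cl (-1)) + bf A.sym (cl (t - s)) δ := by
      rw [h9, map_add, bf_comm A.sym (cl (t - s))]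
    rw [h10]
    generalize bf A.sym (cl (t - s)) δ = c
    generalize bf A.sym δ (cl (-1)) = d
    revert c d
    decide
  have h12 : ∀ a b : Sq k, bf A.sym (a + α) (b + α') =
      bf A.sym a b + bf A.sym a α' + bf A.sym α b + bf A.sym α α' := by
    intro a b
    rw [map_add (bf A.sym), LinearMap.add_apply, map_add (bf A.sym a), map_add (bf A.sym α)]
    ring
  rw [h1, h2, ← add_assoc, ← add_assoc, h12, h11, zero_add] at h5
  rw [bf_comm A.sym α' (cl (t - s) + δ), ← h5]
  ring

/-- The relation between the colours of two points. -/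
theorem col {s t : k} (hs : s ∈ X.T) (ht : t ∈ X.T) (hst : s ≠ t) {δ α : Sq k}
    (h1 : X.D s = δ + α) (h2 : X.D t = δ) :
    bf A.sym α (cl (s - t)) = bf A.sym α δ := by
  have h := X.col_col hs ht hst h1 (h2.trans (add_zero δ).symm)
  rw [map_zero, LinearMap.zero_apply, map_zero, add_zero, add_zero, map_add] at h
  have key : ∀ a b : ZMod 2, a + b = 0 → a = b := by decide
  exact key _ _ h

end Sys

end Pool.Agent.Lib.MP_c385f6_ag.DyK
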