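import Mathlib
import Pool.Agent.Lib.MP_c385f6_ag.DyK.Sys
import Pool.Agent.Lib.MP_c385f6_ag.Branch
import Pool.Agent.Lib.MP_c385f6_ag.SeriesPlace

/-!
Statements of the steps of the completeness theorem for dyadic fields.
-/

namespace Pool.Agent.Lib.MP_c385f6_ag.DyK

open Pool.Agent.Lib.MP_c385f6_ag IntermediateField

section
variable {k : Type*} [NormedField k] [CharZero k] {A : Dya k} (X : Sys A)

/-- A ball of small radius on which the classes are constant. -/
def StBaire : Prop := ∃ (β : k) (b : ℤ) (δ : Sq k), A.ge 0 β ∧ 0 ≤ b ∧ b + A.L + 2 ≤ X.m ∧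
  ∀ t ∈ X.T, A.ge b (t - β) → X.D t = δ

/-- A maximal ball with constant classes. -/
def StFirst : Prop := Realised X.T X.D ∨ ∃ (β : k) (b : ℤ) (δ : Sq k), A.ge 0 β ∧ 0 ≤ b ∧
  b + A.L + 2 ≤ X.m ∧ (∀ t ∈ X.T, A.ge b (t - β) → X.D t = δ) ∧
    ∃ s ∈ X.T, A.eq (b - 1) (s - β) ∧ X.D s ≠ δ

/-- The step out of a maximal ball with constant classes. -/
def StInit : Prop := ∀ (β : k) (b : ℤ) (δ : Sq k), A.ge 0 β → 0 ≤ b → b + A.L + 2 ≤ X.m →
  (∀ t ∈ X.T, A.ge b (t - β) → X.D t = δ) → (∃ s ∈ X.T, A.eq (b - 1) (s - β) ∧ X.D s ≠ δ) →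
    ∃ y, A.eq (b - 1 - A.L) (y - β) ∧ ∀ s ∈ X.T, A.ge (b - 1) (s - β) → X.D s = cl (y - s)

/-- The step to the next larger ball. -/
def StOut : Prop := ∀ (β y : k) (ν j : ℤ), A.ge 0 β → 0 ≤ j → ν + 2 ≤ j → j ≤ ν + A.L →
  j + A.L ≤ X.m → A.eq ν (y - β) → (∀ s ∈ X.T, A.ge j (s - β) → X.D s = cl (y - s)) →
    ∃ y', A.eq ν (y' - β) ∧ ∀ s ∈ X.T, A.ge (j - 1) (s - β) → X.D s = cl (y' - s)

/-- Either the classes come from a point or there is a point of the line which is correct on a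
ball and whose distance to the ball is one step more than the radius. -/
def StOuter : Prop := Realised X.T X.D ∨ ∃ (β y : k) (ν : ℤ), A.ge 0 β ∧ -1 ≤ ν ∧
  ν + A.L + 1 ≤ X.m ∧ A.eq ν (y - β) ∧ ∀ s ∈ X.T, A.ge (ν + 1) (s - β) → X.D s = cl (y - s)

/-- The first state. -/
def StStart : Prop := ∀ (β y : k) (ν : ℤ), A.ge 0 β → 0 ≤ ν → ν + A.L + 1 ≤ X.m →
  A.eq ν (y - β) → (∀ s ∈ X.T, A.ge (ν + 1) (s - β) → X.D s = cl (y - s)) →
    ∃ y', X.State y' ν

/-- A class orthogonal to the numbers `1 - w / (y - t)`, `t` at valuation at most `v(w) - 1`, is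
orthogonal to all units. -/
def StResOne : Prop := ∀ (y w : k) (l : ℤ) (g : Sq k), A.ge 0 y → 0 ≤ l → l < X.m →
  A.eq (l + 1) w → (∀ t ∈ X.T, ∀ i, i ≤ l → A.eq i (y - t) →
    bf A.sym g (cl (1 - w / (y - t))) = 0) → Perp A g 1

/-- A class with constant symbols with the numbers `1 - w / (y - t)`, `t` at valuation
`v(w) - 1` in a fixed direction, and orthogonal to these numbers when `t` is at smaller valuation,
is orthogonal to all `1 + x`, `v(x) ≥ 2`. -/
def StResTwo : Prop := ∀ (y w : k) (l : ℤ) (g : Sq k), A.ge 0 y → 0 ≤ l → l < X.m →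
  A.eq (l + 1) w →
  (∀ t ∈ X.T, ∀ i, i < l → A.eq i (y - t) → bf A.sym g (cl (1 - w / (y - t))) = 0) →
  (∀ t ∈ X.T, ∀ t' ∈ X.T, A.eq l (y - t) → A.eq l (y - t') → A.ge (l + 1) (t - t') →
    bf A.sym g (cl (1 - w / (y - t))) = bf A.sym g (cl (1 - w / (y - t')))) → Perp A g 2

/-- Correction of the unramified errors at valuation `l`. -/
def StFix : Prop := ∀ (y : k) (l : ℤ), 0 ≤ l → l < X.m → X.State y l →
  ∃ y', A.ge 0 y' ∧ y' ∉ X.T ∧ ∀ s ∈ X.T, ∀ i, i ≤ l → A.eq i (y' - s) → X.g y' s = 0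

/-- The next state. -/
def StNext : Prop := ∀ (y : k) (l : ℤ), 0 ≤ l → l < X.m → X.State y l →
  ∃ y', X.State y' (l + 1)

/-- The last state. -/
def StLast : Prop := ∀ (y : k) (l : ℤ), 0 ≤ l → l ≤ X.m → X.State y l → ∃ y', X.State y' X.m

/-- The last state is enough. -/
def StFinal : Prop := ∀ y : k, X.State y X.m → Realised X.T X.D

/-- The case of a point of valuation `-1`. -/
def StPole : Prop := ∀ (β y : k), A.ge 0 β → A.eq (-1) (y - β) →
  (∀ s ∈ X.T, A.ge 0 (s - β) → X.D s = cl (y - s)) → Realised X.T X.D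

/-- Every compatible system of classes comes from a point. -/
def StReal : Prop := Realised X.T X.D

end

section
variable {k : Type*} [NormedField k] [CharZero k] (A : Dya k)

/-- The multiplier at a leaf. -/
def StLeaf : Prop := ∀ (eps : Sq k) (E : k → ZMod 2), Facts A eps E → ∀ (j : ℤ) (z : k)
  (g : Sq k), 1 ≤ j → A.eq j z → Perp A g (j + 1) → bf A.sym g (cl (1 - z)) = 0 →
    ∃ l : k, l ≠ 0 ∧ cl l = g ∧ A.ge (A.L - j) (l - 1) ∧ cl (1 + (l - 1) * z) = 0

/-- Two different nonzero functionals `E(u x)` can be given arbitrary values. -/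
def StTwo : Prop := ∀ (eps : Sq k) (E : k → ZMod 2), Facts A eps E → ∀ (n : ℤ) (u v : k)
  (a b : ZMod 2), A.eq n u → A.eq n v → A.eq n (u - v) →
    ∃ x, A.ge (A.L - n) x ∧ E (u * x) = a ∧ E (v * x) = b

/-- Squaring is surjective on the residue field. -/
def StLead : Prop := ∀ (n : ℤ) (x : k), A.eq (2 * n) x →
  ∃ θ, A.eq n θ ∧ A.ge (2 * n + 1) (x - θ ^ 2)

/-- The Artin-Schreier map is not surjective on the residue field. -/
def StArtin : Prop := ∃ x : k, A.ge 0 x ∧ ∀ t, A.ge 0 t → ¬ A.ge 1 (x - (t ^ 2 + t))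

/-- Functionals on the residue field. -/
def StDual : Prop := ∀ (f h : k → ZMod 2),
  (∀ x y, A.ge 0 x → A.ge 0 y → h (x + y) = h x + h y) → (∀ x, A.ge 1 x → h x = 0) →
  (∃ x, A.ge 0 x ∧ h x = 1) →
  (∀ x y, A.ge 0 x → A.ge 0 y → f (x + y) = f x + f y) → (∀ x, A.ge 1 x → f x = 0) →
    ∃ ξ, A.ge 0 ξ ∧ ∀ x, A.ge 0 x → f x = h (ξ * x)

/-- The facts on the norm residue symbol hold. -/
def StFacts : Prop := ∃ (eps : Sq k) (E : k → ZMod 2), Facts A eps E

/-- Every finite set of integral numbers lies in a net. -/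
def StNet : Prop := ∀ S : Finset k, (∀ s ∈ S, A.ge 0 s) → ∃ (m : ℤ) (T : Finset k) (r : k),
  Net A m T r ∧ S ⊆ T

/-- Every finite set lies in a finite set with only realised compatible systems. -/
def StComplete : Prop := ∀ S : Finset k, ∃ T : Finset k, S ⊆ T ∧ Nat.card (Sq k) < T.card ∧
  ∀ D : k → Sq k, Compat A.sym T D → Realised T D

end

/-- Every finite extension of `ℚ_[2]` is a dyadic field. -/
def StInst (k : Type*) [NormedField k] [NormedAlgebra ℚ_[2] k] [IsUltrametricDist k]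
    [FiniteDimensional ℚ_[2] k] : Prop := Nonempty (Dya k)

/-- Sections for covers branched over a set of points with only realised compatible systems. -/
def StSect (k K Ω : Type*) {ι : Type*} [Field k] [CharZero k] [Algebra ℚ_[2] k]
    [FiniteDimensional ℚ_[2] k] [Field K] [Field Ω] [Algebra k K] [Algebra k Ω] [Algebra K Ω]
    [IsScalarTower k K Ω] (T : Finset k) (w : K) (c : ι → k)
    (S : ι → Finset k) (z : ι → K) : Prop :=
  Nat.card (Sq k) < T.card → (∀ D : k → Sq k, Compat goodSymbol_local T D → Realised T D) →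
  Transcendental k w → (∀ i, c i ≠ 0) → (∀ i, S i ⊆ T) →
  (∀ i, z i ^ 2 = algebraMap k K (c i) * ∏ t ∈ S i, (w - algebraMap k K t)) →
  (∀ t ∈ T, ∃ i, t ∈ S i) → (∃ i, Odd (S i).card) →
  ∀ s : AbsGal k Ω →* PiOne k K Ω, IsSection k K Ω s →
    ∃ x : k, x ∉ T ∧
      (∃ B : ValuationSubring (adjoin k (insert w (Set.range z))),
        IsRationalPlace k (adjoin k (insert w (Set.range z))) B ∧
          ∀ y : adjoin k (insert w (Set.range z)), (y : K) = w - algebraMap k K x →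
            B.valuation y < 1) ∧
      ∀ t ∈ T, ∃ Y : maxUnramified k K Ω, (∀ g, s g Y = Y) ∧ (Y : Ω) ^ 2 =
        algebraMap k Ω (x - t) * algebraMap K Ω (w - algebraMap k K t)

/-- A rational place gives a section. -/
def StPlace (k K Ω : Type*) [Field k] [CharZero k] [Field K] [Field Ω] [Algebra k K]
    [Algebra k Ω] [Algebra K Ω] [IsScalarTower k K Ω] : Prop :=
  ∀ B : ValuationSubring K, IsRationalPlace k K B →
    ∃ s : AbsGal k Ω →* PiOne k K Ω, IsSection k K Ω s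

end Pool.Agent.Lib.MP_c385f6_ag.DyK
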