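import Mathlib
import Pool.Agent.Lib.MP_c385f6_ag.DyK.Stmts

/-!
A ball of bounded radius on which the classes of a compatible system are constant.
-/

namespace Pool.Agent.Lib.MP_c385f6_ag.DyK

open Pool.Agent.Lib.MP_c385f6_ag

variable {k : Type*} [NormedField k] [CharZero k] {A : Dya k}

namespace Baireaux

/-- If a class occurs in every small ball then there is no other one. -/
private theorem const (X : Sys A) {β : k} {j : ℤ} {δ : Sq k}
    (h : ∀ x, A.ge j (x - β) → ∃ t ∈ X.T, A.ge (j + A.L + 2) (t - x) ∧ X.D t = δ) :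
    ∀ t ∈ X.T, A.ge j (t - β) → X.D t = δ := by
  intro s hs hsj
  by_contra hne
  have hL := A.two_le_L
  have hDs : X.D s = δ + (δ + X.D s) := (sq_add_cancel δ (X.D s)).symm
  have hα0 : δ + X.D s ≠ 0 := fun h0 => hne (sq_add_eq_zero.1 h0).symm
  obtain ⟨x₁, hx₁, hb₁⟩ := exists_bf_ne A.sym hα0
  obtain ⟨x, hx, hxτ⟩ := X.F.class_rep' (δ + cl x₁) j
  have hxj : A.ge j x := by
    rcases hx with h1 | h1
    · exact h1.ge
    · exact h1.ge' (by omega)
  have h0 : A.ge j (s - x - β) := by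
    have h1 := hsj.sub hxj
    have h2 : s - β - x = s - x - β := by ring
    rwa [h2] at h1
  obtain ⟨t, ht, ht1, ht2⟩ := h (s - x) h0
  have h3 : A.ge (j + A.L + 2) ((s - t) - x) := by
    have h1 : s - t - x = -(t - (s - x)) := by ring
    rw [h1]
    exact ht1.neg
  have h4 : cl (s - t) = cl x := by
    rcases hx with h1 | h1
    · exact X.F.cl_near h1 (h3.mono (by omega))
    · exact X.F.cl_near h1 (h3.mono (by omega))
  have hst : s ≠ t := by
    rintro rfl
    exact hne ht2
  have h5 := X.col hs ht hst hDs ht2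
  rw [h4, hxτ, map_add, hb₁] at h5
  have key : ∀ z : ZMod 2, z + 1 ≠ z := by decide
  exact key _ h5

/-- A ball on which `n` classes do not occur. -/
private theorem avoid (X : Sys A) (n : ℕ) (hn : n ≤ Nat.card (Sq k)) :
    StBaire X ∨ ∃ β : k, A.ge 0 β ∧ ∃ C : Finset (Sq k), C.card = n ∧
      ∀ t ∈ X.T, A.ge ((n : ℤ) * (A.L + 2)) (t - β) → X.D t ∉ C := by
  classical
  have hL := A.two_le_L
  have hbig := X.N.big
  induction n with
  | zero =>
    right
    exact ⟨0, Dya.ge_zero _, ∅, rfl, fun t _ _ => Finset.notMem_empty _⟩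
  | succ n ih =>
    rcases ih (by omega) with h | ⟨β, hβ, C, hC, hCt⟩
    · exact Or.inl h
    have hj0 : (0 : ℤ) ≤ (n : ℤ) * (A.L + 2) := by positivity
    have hjm : (n : ℤ) * (A.L + 2) + A.L + 2 ≤ X.m := by
      have h1 : ((n + 1 : ℕ) : ℤ) * (A.L + 2) ≤ (Nat.card (Sq k) : ℤ) * (A.L + 2) :=
        mul_le_mul_of_nonneg_right (by exact_mod_cast hn) (by omega)
      have h2 : ((n + 1 : ℕ) : ℤ) * (A.L + 2) = (n : ℤ) * (A.L + 2) + A.L + 2 := by
        push_cast
        ring
      omega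
    obtain ⟨t₀, ht₀, ht₀0, ht₀m⟩ := X.near hβ
    have h1 : A.ge ((n : ℤ) * (A.L + 2)) (t₀ - β) := by
      rw [Dya.ge_sub_comm]
      exact ht₀m.mono (by omega)
    by_cases hmono : ∀ t ∈ X.T, A.ge ((n : ℤ) * (A.L + 2)) (t - β) → X.D t = X.D t₀
    · left
      exact ⟨β, _, _, hβ, hj0, hjm, hmono⟩
    · right
      have h2 : ¬ ∀ x, A.ge ((n : ℤ) * (A.L + 2)) (x - β) →
          ∃ t ∈ X.T, A.ge ((n : ℤ) * (A.L + 2) + A.L + 2) (t - x) ∧ X.D t = X.D t₀ :=
        fun h => hmono (const X h)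
      push Not at h2
      obtain ⟨x, hx, hx2⟩ := h2
      have hx0 : A.ge 0 x := by
        have h3 := (hx.mono hj0).add hβ
        rwa [sub_add_cancel] at h3
      have h4 : ((n + 1 : ℕ) : ℤ) * (A.L + 2) = (n : ℤ) * (A.L + 2) + A.L + 2 := by
        push_cast
        ring
      refine ⟨x, hx0, insert (X.D t₀) C, ?_, fun t ht htx hmem => ?_⟩
      · rw [Finset.card_insert_of_notMem (hCt t₀ ht₀ h1), hC]
      · rw [h4] at htx
        rcases Finset.mem_insert.1 hmem with h5 | h5
        · exact hx2 t ht htx h5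
        · refine hCt t ht ?_ h5
          have h6 := (htx.mono (by omega)).add hx
          rwa [sub_add_sub_cancel] at h6

end Baireaux

/-- There is a ball of bounded radius on which the classes are constant. -/
theorem stBaire (X : Sys A) : StBaire X := by
  classical
  have : Finite (Sq k) := A.finite
  have : Fintype (Sq k) := Fintype.ofFinite _
  rcases Baireaux.avoid X (Nat.card (Sq k)) le_rfl with h | ⟨β, hβ, C, hC, hCt⟩
  · exact h
  · exfalso
    have h1 : C = Finset.univ := by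
      rw [← Finset.card_eq_iff_eq_univ, hC, Nat.card_eq_fintype_card]
    obtain ⟨t, ht, -, htm⟩ := X.near hβ
    refine hCt t ht ?_ (h1 ▸ Finset.mem_univ _)
    rw [Dya.ge_sub_comm]
    exact htm.mono X.N.big

end Pool.Agent.Lib.MP_c385f6_ag.DyK
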