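import Mathlib
import Pool.Agent.Lib.MP_c385f6_ag.DyK.Stmts

/-!
Every compatible system of classes comes from a point: assembly, and the completeness of large
finite sets.
-/

namespace Pool.Agent.Lib.MP_c385f6_ag.DyK

open Pool.Agent.Lib.MP_c385f6_ag

variable {k : Type*} [NormedField k] [CharZero k] {A : Dya k}

theorem stReal (X : Sys A) (h1 : StOuter X) (h2 : StStart X) (h3 : StLast X) (h4 : StFinal X)
    (h5 : StPole X) : StReal X := by
  rcases h1 with h | ⟨β, y, ν, hβ, hν, hm, hy, hs⟩
  · exact h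
  · rcases hν.eq_or_lt with rfl | hν
    · refine h5 β y hβ hy ?_
      simpa using hs
    · have hL := A.two_le_L
      obtain ⟨y', hy'⟩ := h2 β y ν hβ (by omega) hm hy hs
      obtain ⟨y'', hy''⟩ := h3 y' ν (by omega) (by omega) hy'
      exact h4 y'' hy''

namespace Completeaux

omit [CharZero k] in
private theorem exists_scale (A : Dya k) (S : Finset k) :
    ∃ N : ℕ, ∀ s ∈ S, A.ge 0 (A.pi ^ N * s) := by
  classical
  induction S using Finset.induction_on with
  | empty => exact ⟨0, by simp⟩
  | insert a S ha ih =>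
    obtain ⟨N, hN⟩ := ih
    obtain ⟨n, hn⟩ : ∃ n : ℤ, A.ge n a := by
      by_cases h : a = 0
      · exact ⟨0, by rw [h]; exact Dya.ge_zero _⟩
      · obtain ⟨n, hn⟩ := A.exists_eq h
        exact ⟨n, hn.ge⟩
    have hpi : ∀ M : ℕ, A.eq M (A.pi ^ M) := by
      intro M
      have := A.eq_pi.pow M
      simpa using this
    refine ⟨max N n.natAbs, ?_⟩
    intro s hs
    rcases Finset.mem_insert.1 hs with rfl | hs
    · have h := (hpi (max N n.natAbs)).ge.mul hn
      refine h.mono ?_
      have h1 : n.natAbs ≤ max N n.natAbs := le_max_right _ _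
      omega
    · have h := hN s hs
      have h2 : A.pi ^ (max N n.natAbs) * s = A.pi ^ (max N n.natAbs - N) * (A.pi ^ N * s) := by
        rw [← mul_assoc, ← pow_add, Nat.sub_add_cancel (le_max_left _ _)]
      rw [h2]
      have h3 := (hpi (max N n.natAbs - N)).ge.mul h
      exact h3.mono (by omega)

omit [CharZero k] in
private theorem card_net {m : ℤ} {T : Finset k} {r : k} (N : Net A m T r) :
    Nat.card (Sq k) < T.card := by
  have hfin := A.finite
  have hpos : 0 < Nat.card (Sq k) := Nat.card_pos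
  have hL := A.two_le_L
  have hbig := N.big
  have hm : (Nat.card (Sq k) : ℤ) < m := by nlinarith
  have hex : ∀ i : ℕ, i < m.toNat → ∃ t ∈ T, A.eq i t := by
    intro i hi
    have h0 : A.ge 0 (A.pi ^ (i : ℤ)) := (Dya.eq_pi_zpow A i).ge' (by omega)
    obtain ⟨t, ht, t', -, -, h⟩ := N.pair _ h0
    have h1 := (h t ht).2 (Or.inl rfl)
    refine ⟨t, ht, (Dya.eq_pi_zpow A i).congr ?_⟩
    exact (Dya.ge_sub_comm.1 h1).mono (by omega)
  choose! f hf using hex
  have hcard : (Finset.range m.toNat).card ≤ T.card := by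
    refine Finset.card_le_card_of_injOn f ?_ ?_
    · intro i hi
      exact (hf i (Finset.mem_range.1 hi)).1
    · intro i hi j hj hij
      have hi' := (hf i (Finset.mem_range.1 (Finset.mem_coe.1 hi))).2
      have hj' := (hf j (Finset.mem_range.1 (Finset.mem_coe.1 hj))).2
      rw [hij] at hi'
      have := hi'.uniq hj'
      exact_mod_cast this.symm
  rw [Finset.card_range] at hcard
  omega

end Completeaux

theorem stComplete (A : Dya k) (h1 : StNet A) (h2 : StFacts A) (h3 : ∀ X : Sys A, StReal X) :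
    StComplete A := by
  classical
  intro S
  obtain ⟨N, hN⟩ := Completeaux.exists_scale A S
  set c : k := A.pi ^ N with hc
  have hc0 : c ≠ 0 := pow_ne_zero _ A.pi_ne
  have hinj : Function.Injective (fun x : k => c⁻¹ * x) :=
    mul_right_injective₀ (inv_ne_zero hc0)
  obtain ⟨m, T₁, r, hnet, hsub⟩ := h1 (S.image fun s => c * s) (by
    intro s hs
    obtain ⟨t, ht, rfl⟩ := Finset.mem_image.1 hs
    exact hN t ht)
  obtain ⟨eps, E, F⟩ := h2
  refine ⟨T₁.image fun x => c⁻¹ * x, ?_, ?_, ?_⟩
  · intro s hs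
    refine Finset.mem_image.2 ⟨c * s, hsub (Finset.mem_image_of_mem _ hs), ?_⟩
    exact inv_mul_cancel_left₀ hc0 s
  · rw [Finset.card_image_of_injective _ hinj]
    exact Completeaux.card_net hnet
  · intro D hD
    have hC : Compat A.sym T₁ fun x => D (c⁻¹ * x) + cl c := by
      intro s hs t ht hst
      have h := hD (c⁻¹ * s) (Finset.mem_image_of_mem _ hs) (c⁻¹ * t)
        (Finset.mem_image_of_mem _ ht) (fun h => hst (hinj h))
      have key : ∀ a b : k, a ≠ b → cl (a - b) = cl c + cl (c⁻¹ * a - c⁻¹ * b) := by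
        intro a b hab
        have h0 : c⁻¹ * a - c⁻¹ * b ≠ 0 := by
          rw [← mul_sub]
          exact mul_ne_zero (inv_ne_zero hc0) (sub_ne_zero.2 hab)
        rw [← cl_mul hc0 h0]
        congr 1
        field_simp
      have e : ∀ x y : Sq k, cl c + x + (y + cl c) = x + y := by
        intro x y
        have := sq_add_self (cl c)
        calc cl c + x + (y + cl c) = (cl c + cl c) + (x + y) := by abel
          _ = x + y := by rw [this, zero_add]
      show bf A.sym (cl (t - s) + (D (c⁻¹ * s) + cl c)) (cl (s - t) + (D (c⁻¹ * t) + cl c)) = 0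
      rw [key t s hst.symm, key s t hst, e, e]
      exact h
    obtain ⟨y, hy⟩ := h3 ⟨eps, E, F, m, T₁, r, hnet, fun x => D (c⁻¹ * x) + cl c, hC⟩
    refine ⟨c⁻¹ * y, ?_⟩
    intro s hs
    obtain ⟨t, ht, rfl⟩ := Finset.mem_image.1 hs
    obtain ⟨hyt, hD'⟩ := hy t ht
    refine ⟨fun h => hyt (hinj h), ?_⟩
    have h0 : y - t ≠ 0 := sub_ne_zero.2 hyt
    have hD'' : D (c⁻¹ * t) + cl c = cl (y - t) := hD'
    rw [← mul_sub, cl_mul (inv_ne_zero hc0) h0, cl_inv, ← hD'']
    have := sq_add_self (cl c)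
    calc D (c⁻¹ * t) = D (c⁻¹ * t) + (cl c + cl c) := by rw [this, add_zero]
      _ = _ := by abel

end Pool.Agent.Lib.MP_c385f6_ag.DyK
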