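import Mathlib
import Pool.Agent.Lib.MP_c385f6_ag.Branch

/-!
Maps to the line with even fibres over a finite set of rational points and infinity.
-/

namespace Pool.Agent.Lib.MP_c385f6_ag

open Finset

/-- All fibres of the map to the line given by `w ∈ K` over the points of `T` and over infinity
are even: in each valuation ring of `K` that contains `k` the value of `w - t` (`w` integral,
`t ∈ T`) and of `w` (`w` not integral) is twice a value. -/
def EvenFibres (k K : Type*) [Field k] [Field K] [Algebra k K] (T : Finset k) (w : K) : Prop :=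
  ∀ A : ValuationSubring K, (∀ c : k, algebraMap k K c ∈ A) →
    (w ∈ A → ∀ t ∈ T, ∃ h : K, h ≠ 0 ∧ A.valuation (w - algebraMap k K t) = A.valuation (h ^ 2)) ∧
      (w ∉ A → ∃ h : K, h ≠ 0 ∧ A.valuation w = A.valuation (h ^ 2))

section
variable {k K Ω ι κ : Type*} [Field k] [CharZero k] [Field K] [Algebra k K]

/-- Covers ramified over all points of `T` and infinity have even fibres. -/
theorem even_of_cover {T : Finset k} {w : K} (hw : Transcendental k w) {c : ι → k}
    (hc : ∀ i, c i ≠ 0) {S : ι → Finset k} (hS : ∀ i, S i ⊆ T) {z : ι → K}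
    (hz : ∀ i, z i ^ 2 = algebraMap k K (c i) * ∏ t ∈ S i, (w - algebraMap k K t))
    (hcov : ∀ t ∈ T, ∃ i, t ∈ S i) (hodd : ∃ i, Odd (S i).card) : EvenFibres k K T w := by
  classical
  intro A hA
  let b : {t // t ∈ T} → k := Subtype.val
  have hb : Function.Injective b := Subtype.val_injective
  have hwb : ∀ j, w ≠ algebraMap k K (b j) := by
    intro j h
    apply hw
    rw [h]
    exact isAlgebraic_algebraMap _
  let S' : ι → Finset {t // t ∈ T} := fun i => (S i).subtype (fun t => t ∈ T)
  have hS' : ∀ i, (S' i).map (Function.Embedding.subtype _) = S i := fun i =>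
    Finset.subtype_map_of_mem (fun x hx => hS i hx)
  have hz' : ∀ i, z i ^ 2 = algebraMap k K (c i) * ∏ j ∈ S' i, (w - algebraMap k K (b j)) := by
    intro i
    have : ∏ j ∈ S' i, (w - algebraMap k K (b j)) = ∏ t ∈ S i, (w - algebraMap k K t) := by
      rw [← hS' i, Finset.prod_map]
      rfl
    rw [this]
    exact hz i
  have hcov' : ∀ j, ∃ i, j ∈ S' i := by
    rintro ⟨t, ht⟩
    obtain ⟨i, hi⟩ := hcov t ht
    exact ⟨i, Finset.mem_subtype.2 hi⟩
  have hodd' : ∃ i, Odd (S' i).card := by
    obtain ⟨i, hi⟩ := hodd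
    refine ⟨i, ?_⟩
    rwa [← hS' i, Finset.card_map] at hi
  have hram := branch_ram hb hwb hc hz' hcov' hodd' A hA
  constructor
  · intro hwA t ht
    obtain ⟨h, hh, h1⟩ := hram (some ⟨t, ht⟩)
    rw [form_some] at h1
    rcases h1 with ⟨-, h1⟩ | ⟨h2, -⟩
    · exact ⟨h, hh, h1⟩
    · exact absurd hwA h2
  · intro hwA
    obtain ⟨h, hh, h1⟩ := hram none
    rw [form_none] at h1
    rcases h1 with ⟨h2, -⟩ | ⟨-, h1⟩
    · exact absurd h2 hwA
    · refine ⟨h⁻¹, inv_ne_zero hh, ?_⟩
      rw [map_one, map_mul, map_pow] at h1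
      rw [inv_pow, map_inv₀, map_pow]
      exact eq_inv_of_mul_eq_one_left h1.symm

/-- Even fibres in terms of the linear forms. -/
theorem even_ram {T : Finset k} {w : K} (hE : EvenFibres k K T w) (A : ValuationSubring K)
    (hA : ∀ c : k, algebraMap k K c ∈ A) (j : Option {t // t ∈ T}) :
    ∃ h : K, h ≠ 0 ∧
      ((w ∈ A ∧ A.valuation (form (bal k) (bbe (Subtype.val : {t // t ∈ T} → k)) w j) =
        A.valuation (h ^ 2)) ∨
      (w ∉ A ∧ A.valuation (form (bal k) (bbe (Subtype.val : {t // t ∈ T} → k)) w j) =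
        A.valuation (w * h ^ 2))) := by
  obtain ⟨h1, h2⟩ := hE A hA
  by_cases hwA : w ∈ A
  · rcases j with _ | j
    · exact ⟨1, one_ne_zero, Or.inl ⟨hwA, by rw [form_none]; simp⟩⟩
    · obtain ⟨h, hh, h3⟩ := h1 hwA j j.2
      exact ⟨h, hh, Or.inl ⟨hwA, by rw [form_some]; exact h3⟩⟩
  · rcases j with _ | j
    · obtain ⟨h, hh, h3⟩ := h2 hwA
      refine ⟨h⁻¹, inv_ne_zero hh, Or.inr ⟨hwA, ?_⟩⟩
      rw [form_none, map_one, map_mul, h3, ← map_mul, inv_pow,
        mul_inv_cancel₀ (pow_ne_zero 2 hh), map_one]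
    · refine ⟨1, one_ne_zero, Or.inr ⟨hwA, ?_⟩⟩
      rw [form_some, one_pow, mul_one, sub_eq_add_neg, ← map_neg (algebraMap k K)]
      refine Valuation.map_add_eq_of_lt_left _ (lt_of_le_of_lt
        ((A.valuation_le_one_iff _).2 (hA _)) ?_)
      rw [← not_le, A.valuation_le_one_iff]
      exact hwA

variable [Field Ω] [Algebra k Ω] [Algebra K Ω] [IsScalarTower k K Ω] [IsAlgClosure K Ω]

/-- The twists of a section for a map with even fibres. -/
theorem even_twists {T : Finset k} {w : K} (hE : EvenFibres k K T w)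
    {s : AbsGal k Ω →* PiOne k K Ω} (hs : IsSection k K Ω s) :
    ∃ (D : {t // t ∈ T} → k) (Y : {t // t ∈ T} → maxUnramified k K Ω), (∀ j, D j ≠ 0) ∧
      (∀ j g, s g (Y j) = Y j) ∧
      (∀ j, (Y j : Ω) ^ 2 = algebraMap k Ω (D j) *
        algebraMap K Ω (w - algebraMap k K (j : k))) ∧
      ((∃ i j, i ≠ j ∧ ∃ e : k, e ≠ 0 ∧ D i = D j * e ^ 2) →
        ∀ i j, i ≠ j → ∃ X Y : k, D i * X ^ 2 - D j * Y ^ 2 = (j : k) - i) := by
  classical
  have hb : Function.Injective (Subtype.val : {t // t ∈ T} → k) := Subtype.val_injective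
  have hram := even_ram hE
  obtain ⟨d, Y, hd, hYs, hY⟩ := exists_twists (α := bal k)
    (β := bbe (Subtype.val : {t // t ∈ T} → k)) hram hs none
  refine ⟨fun j => d (some j) * d none, fun j => Y (some j) * Y none,
    fun j => mul_ne_zero (hd _) (hd _), fun j g => by rw [map_mul, hYs, hYs], fun j => ?_, ?_⟩
  · have h1 := hY (some j)
    have h2 := hY none
    rw [form_some, form_none, div_one] at h1
    rw [form_none, div_one, map_one, mul_one] at h2
    show ((Y (some j) : Ω) * (Y none : Ω)) ^ 2 = _
    rw [mul_pow, h1, h2, map_mul]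
    ring
  · rintro ⟨i, j, hij, e, he, h⟩
    have hij' : some i ≠ some j := fun h => hij (Option.some_injective _ h)
    have hpt : ConicPoint (bal k) (bbe (Subtype.val : {t // t ∈ T} → k)) d (some i) (some j)
        none := by
      have h1 : d (some i) = d (some j) * e ^ 2 := mul_right_cancel₀ (hd none) (by
        linear_combination h)
      unfold ConicPoint
      refine exists_point_of_sq (t := e) ?_ ?_ ?_
      · simp [bal, bbe, hd]
      · simp [bal, bbe, hd]
      · have h3 := hd none
        have h4 := hd (some j)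
        simp only [bal, bbe, Option.elim_some, Option.elim_none]
        rw [h1]
        field_simp
        ring
    intro i' j' hij''
    have hij3 : some i' ≠ some j' := fun h => hij'' (Option.some_injective _ h)
    obtain ⟨r, t, hrt⟩ := forms_conics (branch_ne hb) hram hs hd hYs hY hij'
      (Option.some_ne_none j) (Option.some_ne_none i) hpt hij3 (Option.some_ne_none j')
      (Option.some_ne_none i')
    refine ⟨r / d (some i'), t / d (some j'), ?_⟩
    have h1 := hd (some i')
    have h2 := hd (some j')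
    simp only [bal, bbe, Option.elim_some, Option.elim_none] at hrt
    have h3 : (d (some i') * d (some j')) * (d (some i') * d none * (r / d (some i')) ^ 2 -
        d (some j') * d none * (t / d (some j')) ^ 2) =
        (d (some i') * d (some j')) * ((j' : k) - i') := by
      field_simp
      linear_combination hrt
    exact mul_left_cancel₀ (mul_ne_zero h1 h2) h3

end

end Pool.Agent.Lib.MP_c385f6_ag
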