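import Mathlib
import Pool.Agent.Lib.MP_c385f6_ag.DyK.Stmts
import Pool.Agent.Lib.MP_c385f6_ag.DyK.Even

/-!
Statements for covers of the line whose branch points are not all rational.
-/

namespace Pool.Agent.Lib.MP_c385f6_ag

open Polynomial IntermediateField

/-- The fibres of the map to the line given by `w` over the zeros of `p` are even. -/
def EvenAt (k K : Type*) [Field k] [Field K] [Algebra k K] (p : k[X]) (w : K) : Prop :=
  ∀ A : ValuationSubring K, (∀ c : k, algebraMap k K c ∈ A) → w ∈ A →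
    ∃ h : K, h ≠ 0 ∧ A.valuation (aeval w p) = A.valuation (h ^ 2)

namespace DyK

section
variable (k K Ω : Type*) [Field k] [Field K] [Field Ω] [Algebra k K] [Algebra k Ω] [Algebra K Ω]
  [IsScalarTower k K Ω]

/-- The value of `q` at `x` times the function `q(w)` is a square of an element fixed by `s`. -/
def FixSq (s : AbsGal k Ω →* PiOne k K Ω) (x : k) (w : K) (q : k[X]) : Prop :=
  ∃ W : maxUnramified k K Ω, (∀ g, s g W = W) ∧
    (W : Ω) ^ 2 = algebraMap k Ω (q.eval x) * algebraMap K Ω (aeval w q)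

/-- Rational places over a point of the line with square values, for covers given by
polynomials. -/
def StPlacePoly : Prop := ∀ (w : K) (Z : Set K) (h : Z → k[X]) (x : k), Transcendental k w →
  (∀ z : Z, (z : K) ^ 2 = aeval w (h z)) → (∀ z, (h z).eval x ≠ 0) →
  (∀ z, ∃ e : k, (h z).eval x = e ^ 2) → adjoin k (insert w Z) = ⊤ →
    ∃ B : ValuationSubring K, IsRationalPlace k K B ∧ B.valuation (w - algebraMap k K x) < 1

/-- The twist and the conics at a closed point of the line with even fibre. -/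
def StOver : Prop := ∀ (T : Finset k) (w : K), Transcendental k w → EvenFibres k K T w →
  ∀ s : AbsGal k Ω →* PiOne k K Ω, IsSection k K Ω s →
  ∀ (D : {t // t ∈ T} → k) (Y : {t // t ∈ T} → maxUnramified k K Ω), (∀ j, D j ≠ 0) →
  (∀ j g, s g (Y j) = Y j) →
  (∀ j, (Y j : Ω) ^ 2 = algebraMap k Ω (D j) * algebraMap K Ω (w - algebraMap k K (j : k))) →
  (∃ i j, i ≠ j ∧ ∃ e : k, e ≠ 0 ∧ D i = D j * e ^ 2) →
  ∀ p : k[X], Irreducible p → EvenAt k K p w →
  ∀ τ : Ω, aeval τ p = 0 → τ ∉ Set.range (algebraMap k Ω) →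
    ∃ (δ : k⟮τ⟯) (W : maxUnramified k K Ω), δ ≠ 0 ∧
      (W : Ω) ^ 2 = (δ : Ω) * (algebraMap K Ω w - τ) ∧
      (∀ g : AbsGal k Ω, (∀ c : algebraicClosure k Ω, (c : Ω) = τ → g c = c) → s g W = W) ∧
      ∀ j : {t // t ∈ T}, ∃ a b : k⟮τ⟯, δ * a ^ 2 - algebraMap k k⟮τ⟯ (D j) * b ^ 2 =
        algebraMap k k⟮τ⟯ (j : k) - AdjoinSimple.gen k τ

/-- The norm of the twist at a closed point. -/
def StNorm : Prop := ∀ (w : K) (s : AbsGal k Ω →* PiOne k K Ω), IsSection k K Ω s →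
  ∀ (τ : Ω), IsIntegral k τ → ∀ (δ : k⟮τ⟯) (W : maxUnramified k K Ω),
  (W : Ω) ^ 2 = (δ : Ω) * (algebraMap K Ω w - τ) →
  (∀ g : AbsGal k Ω, (∀ c : algebraicClosure k Ω, (c : Ω) = τ → g c = c) → s g W = W) →
    ∃ V : maxUnramified k K Ω, (∀ g, s g V = V) ∧ (V : Ω) ^ 2 =
      algebraMap k Ω (Algebra.norm k δ) * algebraMap K Ω (aeval w (minpoly k τ))

/-- Covers ramified over all points of `T` and infinity have even fibres. -/
def StCoverEven : Prop := ∀ (T : Finset k) (w : K) (Z : Set K) (h : Z → k[X]),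
  Transcendental k w → (∀ z, h z ≠ 0) → (∀ z : Z, (z : K) ^ 2 = aeval w (h z)) →
  (∀ t ∈ T, ∃ z, Odd ((h z).rootMultiplicity t)) → (∃ z, Odd (h z).natDegree) →
    EvenFibres k K T w

/-- The value of a polynomial at the point belonging to a section is a square, if the function
is a square in `K` and all prime factors of odd multiplicity have this property up to an element
fixed by the section. -/
def StValue : Prop := ∀ (w : K) (s : AbsGal k Ω →* PiOne k K Ω), IsSection k K Ω s →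
  Transcendental k w → ∀ (x : k) (h : k[X]) (z : K), h ≠ 0 → z ^ 2 = aeval w h →
  (∀ p : k[X], p.Monic → Irreducible p → p ∣ h → EvenAt k K p w → FixSq k K Ω s x w p) →
    ∃ e : k, h.eval x = e ^ 2

end

/-- The projection formula. -/
def StProj (k F : Type*) [Field k] [Field F] [Algebra k F] : Prop :=
  GoodSymbol k → ∀ g : F, g ≠ 0 → (∀ c : k, c ≠ 0 → Nm (algebraMap k F c) g) →
    ∃ e : k, Algebra.norm k g = e ^ 2

/-- The points of a deep net and a number far away from the field. -/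
def StFar {k : Type*} [NormedField k] (A : Dya k) (F : Type*) [NormedField F]
    [NormedAlgebra k F] : Prop := ∀ (m : ℤ) (T : Finset k) (r : k), Net A m T r →
  (∀ x y : F, ‖x + y‖ ≤ max ‖x‖ ‖y‖) → (∀ z : F, ‖z‖ < ‖(4 : F)‖ → ∃ s : F, s ^ 2 = 1 + z) →
  ∀ (τ : F) (ρ : ℤ), 0 ≤ ρ → ‖τ‖ ≤ ‖A.pi‖ ^ (2 * A.L + 2) →
  (∀ y : k, ‖A.pi‖ ^ ρ ≤ ‖algebraMap k F y - τ‖) → ρ + 2 * A.L + 4 ≤ m →
  ∀ x : k, x ∉ T → ∀ c : k, c ≠ 0 → ∃ t ∈ T, ∃ t' ∈ T, ∃ e : F,
    algebraMap k F ((x - t) * (x - t')) * ((algebraMap k F t - τ) * (algebraMap k F t' - τ)) =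
      algebraMap k F c * e ^ 2

/-- Complete sets which are rich in the sense of `StFar` for all nonrational zeros of a
polynomial. -/
def StRich (k : Type*) [Field k] [CharZero k] [Algebra ℚ_[2] k] [FiniteDimensional ℚ_[2] k] :
    Prop := ∀ f : k[X], f ≠ 0 → ∃ T : Finset k, (∀ a, f.eval a = 0 → a ∈ T) ∧
  Nat.card (Sq k) < T.card ∧
  (∀ D : k → Sq k, Compat goodSymbol_local T D → Realised T D) ∧
  ∀ p : k[X], Irreducible p → p ∣ f → (∀ a, p.eval a ≠ 0) → ∀ x : k, x ∉ T → ∀ c : k, c ≠ 0 →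
    ∃ t ∈ T, ∃ t' ∈ T, ∃ e : AdjoinRoot p,
      AdjoinRoot.of p ((x - t) * (x - t')) * ((AdjoinRoot.of p t - AdjoinRoot.root p) *
        (AdjoinRoot.of p t' - AdjoinRoot.root p)) = AdjoinRoot.of p c * e ^ 2

end DyK

end Pool.Agent.Lib.MP_c385f6_ag
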