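import Mathlib
import Pool.Agent.Lib.MP_c385f6_ag.DyK.Stmts2

/-!
Covers of the line given by square roots of polynomials: even fibres over the points which are
zeros of odd multiplicity, and over infinity.
-/

namespace Pool.Agent.Lib.MP_c385f6_ag

open Polynomial

namespace DyK

namespace CoverEvenaux

variable {k K : Type*} [Field k] [Field K] [Algebra k K]

theorem val_const (A : ValuationSubring K) (hA : ∀ c : k, algebraMap k K c ∈ A) {c : k}
    (hc : c ≠ 0) : A.valuation (algebraMap k K c) = 1 := by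
  have hcv : ∀ c : k, A.valuation (algebraMap k K c) ≤ 1 := fun c =>
    (A.valuation_le_one_iff _).2 (hA c)
  refine le_antisymm (hcv c) ?_
  have h1 := hcv c⁻¹
  rw [map_inv₀, map_inv₀] at h1
  have h2 : A.valuation (algebraMap k K c) ≠ 0 :=
    (Valuation.ne_zero_iff _).2 ((_root_.map_ne_zero _).2 hc)
  exact (inv_le_one₀ (zero_lt_iff.2 h2)).1 h1

theorem aeval_mem (A : ValuationSubring K) (hA : ∀ c : k, algebraMap k K c ∈ A) {x : K}
    (hx : x ∈ A) (q : k[X]) : aeval x q ∈ A := by
  rw [aeval_eq_sum_range]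
  refine sum_mem fun i _ => ?_
  rw [Algebra.smul_def]
  exact mul_mem (hA _) (pow_mem hx i)

/-- The value of a polynomial at a point near to a point which is not a zero. -/
theorem val_one (A : ValuationSubring K) (hA : ∀ c : k, algebraMap k K c ∈ A) {x : K} {t : k}
    (h : A.valuation (x - algebraMap k K t) < 1) {q : k[X]} (hq : q.eval t ≠ 0) :
    A.valuation (aeval x q) = 1 := by
  have hx : x ∈ A := by
    have h1 : x - algebraMap k K t ∈ A := (A.valuation_le_one_iff _).1 h.le
    have h2 := add_mem h1 (hA t)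
    rwa [sub_add_cancel] at h2
  obtain ⟨r, hr⟩ := X_sub_C_dvd_sub_C_eval (a := t) (p := q)
  have h1 : aeval x q = algebraMap k K (q.eval t) + (x - algebraMap k K t) * aeval x r := by
    have h2 := congrArg (aeval x) hr
    rw [map_sub, map_mul, map_sub, aeval_X, aeval_C, aeval_C] at h2
    rw [← h2]
    ring
  have h2 : A.valuation ((x - algebraMap k K t) * aeval x r) < 1 := by
    rw [map_mul]
    have h3 : A.valuation (aeval x r) ≤ 1 := (A.valuation_le_one_iff _).2 (aeval_mem A hA hx r)
    calc _ ≤ A.valuation (x - algebraMap k K t) * 1 := mul_le_mul_right h3 _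
      _ < 1 := by rwa [mul_one]
  rw [h1, Valuation.map_add_eq_of_lt_left _ (by rw [val_const A hA hq]; exact h2),
    val_const A hA hq]

/-- An odd power with even value. -/
theorem odd_pow (A : ValuationSubring K) {x z : K} (hx : x ≠ 0) (hz : z ≠ 0) {m : ℕ}
    (hm : Odd m) (h : A.valuation (z ^ 2) = A.valuation (x ^ m)) :
    ∃ h : K, h ≠ 0 ∧ A.valuation x = A.valuation (h ^ 2) := by
  obtain ⟨l, rfl⟩ := hm
  refine ⟨z / x ^ l, div_ne_zero hz (pow_ne_zero _ hx), ?_⟩
  have hx' : A.valuation x ≠ 0 := (Valuation.ne_zero_iff _).2 hx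
  have h1 : (z / x ^ l) ^ 2 * x ^ (2 * l) = z ^ 2 := by
    rw [div_pow, ← pow_mul, mul_comm l 2, div_mul_cancel₀]
    exact pow_ne_zero _ hx
  have h2 := congrArg A.valuation h1
  rw [map_mul, h, map_pow A.valuation x, map_pow A.valuation x,
    pow_succ' (A.valuation x) (2 * l)] at h2
  exact (mul_right_cancel₀ (pow_ne_zero _ hx') h2).symm

end CoverEvenaux

open CoverEvenaux in
theorem stCoverEven (k K : Type*) [Field k] [Field K] [Algebra k K] : StCoverEven k K := by
  intro T w Z h hw hh hz hcov hodd A hA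
  have hne : ∀ q : k[X], q ≠ 0 → aeval w q ≠ 0 := fun q hq h0 =>
    hq (transcendental_iff.1 hw q h0)
  have hz0 : ∀ z : Z, (z : K) ≠ 0 := by
    intro z h0
    have h1 := hz z
    rw [h0, zero_pow two_ne_zero] at h1
    exact hne _ (hh z) h1.symm
  refine ⟨fun hwA t ht => ?_, fun hwA => ?_⟩
  · have hle : A.valuation (w - algebraMap k K t) ≤ 1 :=
      (A.valuation_le_one_iff _).2 (sub_mem hwA (hA _))
    rcases hle.lt_or_eq with h1 | h1
    · obtain ⟨z, hm⟩ := hcov t ht
      obtain ⟨q, hq, hq1⟩ := exists_eq_pow_rootMultiplicity_mul_and_not_dvd (h z) (hh z) t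
      have hqt : q.eval t ≠ 0 := by
        intro h0
        exact hq1 (dvd_iff_isRoot.2 h0)
      have hx : w - algebraMap k K t ≠ 0 := by
        have := hne (X - C t) (X_sub_C_ne_zero t)
        rwa [map_sub, aeval_X, aeval_C] at this
      refine odd_pow A hx (hz0 z) hm ?_
      rw [hz z]
      conv_lhs => rw [hq]
      rw [map_mul, map_mul, val_one A hA h1 hqt, mul_one, map_pow, map_sub, aeval_X, aeval_C]
    · exact ⟨1, one_ne_zero, by simp [h1]⟩
  · obtain ⟨z, hm⟩ := hodd
    have hw0 : w ≠ 0 := by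
      rintro rfl
      exact hwA A.zero_mem
    have hw1 : 1 < A.valuation w := by
      rw [← not_le, A.valuation_le_one_iff]
      exact hwA
    refine odd_pow A hw0 (hz0 z) hm ?_
    have h1 : A.valuation (w⁻¹ - algebraMap k K 0) < 1 := by
      rw [map_zero, sub_zero, map_inv₀]
      exact inv_lt_one_of_one_lt₀ hw1
    have h2 : (h z).reverse.eval 0 ≠ 0 := by
      rw [← coeff_zero_eq_eval_zero, coeff_zero_reverse]
      exact leadingCoeff_ne_zero.2 (hh z)
    have h3 := val_one A hA h1 h2
    have h4 : aeval w (h z) = aeval w⁻¹ (h z).reverse * w ^ (h z).natDegree := by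
      let _ := invertibleOfNonzero hw0
      have h5 := eval₂_reverse_mul_pow (algebraMap k K) w (h z)
      rw [invOf_eq_inv] at h5
      exact h5.symm
    rw [hz z, h4, map_mul, h3, one_mul]

end DyK

end Pool.Agent.Lib.MP_c385f6_ag
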