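import Mathlib
import Pool.Agent.Lib.MP_c385f6_ag.DyK.Stmts

/-!
Functionals on the residue field of a dyadic field.
-/

namespace Pool.Agent.Lib.MP_c385f6_ag.DyK

open Pool.Agent.Lib.MP_c385f6_ag

namespace Dualaux

/-- The additive characters with values in `ZMod 2` of a finite group of exponent two. -/
theorem card_hom (V : Type*) [AddCommGroup V] [Finite V] (h2 : ∀ x : V, 2 • x = 0) :
    Nat.card (V →+ ZMod 2) = Nat.card V := by
  let _ : Module (ZMod 2) V := AddCommGroup.zmodModule h2
  have e1 : (V →+ ZMod 2) ≃ Module.Dual (ZMod 2) V :=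
    (AddMonoidHom.toZModLinearMapEquiv 2).toEquiv
  have e2 : V ≃ Module.Dual (ZMod 2) V := (Module.finBasis (ZMod 2) V).toDualEquiv.toEquiv
  exact Nat.card_congr (e1.trans e2.symm)

variable {k : Type*} [NormedField k] (A : Dya k)

theorem ge_one_of_lt {x : k} (h : ‖x‖ < 1) : A.ge 1 x := by
  by_contra hcon
  obtain ⟨m, hm, he⟩ := Dya.not_ge_iff.1 hcon
  have h1 : A.ge 0 x → False := fun _ => by
    rw [Dya.eq] at he
    have h2 : ‖A.pi‖ ^ (0 : ℤ) ≤ ‖A.pi‖ ^ m := Dya.pow_le_iff.2 (by omega)
    rw [zpow_zero, ← he] at h2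
    exact absurd h2 (not_le.2 h)
  apply h1
  rw [Dya.ge, zpow_zero]
  exact h.le

/-- The integral elements. -/
def O : AddSubgroup k where
  carrier := {x | A.ge 0 x}
  add_mem' := fun h h' => h.add h'
  zero_mem' := Dya.ge_zero 0
  neg_mem' := fun h => h.neg

theorem mem_O {x : k} : x ∈ O A ↔ A.ge 0 x := Iff.rfl

/-- The maximal ideal, as a subgroup of the integral elements. -/
def M : AddSubgroup (O A) where
  carrier := {x | A.ge 1 (x : k)}
  add_mem' := fun h h' => h.add h'
  zero_mem' := Dya.ge_zero 1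
  neg_mem' := fun h => h.neg

theorem mem_M {x : O A} : x ∈ M A ↔ A.ge 1 (x : k) := Iff.rfl

theorem finite_quot : Finite (O A ⧸ M A) := by
  classical
  let φ : A.res → O A ⧸ M A := fun r =>
    if hr : A.ge 0 (r : k) then QuotientAddGroup.mk (⟨r, hr⟩ : O A) else 0
  have hφ : Function.Surjective φ := by
    intro v
    obtain ⟨⟨x, hx⟩, rfl⟩ := QuotientAddGroup.mk_surjective v
    have hx' : A.ge 0 x := hx
    obtain ⟨r, hr, hxr⟩ := A.res_spec x (by rw [Dya.ge, zpow_zero] at hx'; exact hx')
    have h1 : A.ge 1 (x - r) := ge_one_of_lt A hxr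
    have h2 : A.ge 0 r := by
      have := hx'.sub (h1.mono (by norm_num))
      rwa [sub_sub_cancel] at this
    refine ⟨⟨r, hr⟩, ?_⟩
    simp only [φ]
    rw [dif_pos h2, QuotientAddGroup.eq, mem_M]
    show A.ge 1 (-r + x)
    rw [neg_add_eq_sub]
    exact h1
  exact Finite.of_surjective φ hφ

/-- A functional on the residue field. -/
noncomputable def lft (h : k → ZMod 2) (ha : ∀ x y, A.ge 0 x → A.ge 0 y → h (x + y) = h x + h y)
    (h0 : ∀ x, A.ge 1 x → h x = 0) (ξ : O A) : (O A ⧸ M A) →+ ZMod 2 :=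
  QuotientAddGroup.lift (M A)
    { toFun := fun x => h ((ξ : k) * x)
      map_zero' := by
        show h ((ξ : k) * 0) = 0
        rw [mul_zero]
        exact h0 _ (Dya.ge_zero 1)
      map_add' := fun x y => by
        show h ((ξ : k) * ((x : k) + y)) = _
        rw [mul_add]
        have hx : A.ge 0 ((ξ : k) * x) := by simpa using Dya.ge.mul ξ.2 x.2
        have hy : A.ge 0 ((ξ : k) * y) := by simpa using Dya.ge.mul ξ.2 y.2
        exact ha _ _ hx hy }
    (fun x hx => by
      show h ((ξ : k) * x) = 0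
      apply h0
      have := Dya.ge.mul ξ.2 ((mem_M A).1 hx)
      simpa using this)

theorem lft_mk (h : k → ZMod 2) (ha : ∀ x y, A.ge 0 x → A.ge 0 y → h (x + y) = h x + h y)
    (h0 : ∀ x, A.ge 1 x → h x = 0) (ξ x : O A) :
    lft A h ha h0 ξ (QuotientAddGroup.mk x) = h ((ξ : k) * x) := rfl

end Dualaux

open Dualaux

theorem stDual {k : Type*} [NormedField k] [CharZero k] (A : Dya k) : StDual A := by
  intro f h ha h0 ⟨x₀, hx₀, hx₁⟩ fa f0
  have := finite_quot A
  let V := O A ⧸ M A
  have : Finite V := finite_quot A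
  have h2 : ∀ x : V, 2 • x = 0 := by
    intro v
    obtain ⟨⟨x, hx⟩, rfl⟩ := QuotientAddGroup.mk_surjective v
    rw [← QuotientAddGroup.mk_nsmul, QuotientAddGroup.eq_zero_iff, mem_M]
    show A.ge 1 (2 • x)
    rw [two_nsmul, ← two_mul]
    have h3 : A.ge 1 (2 : k) := A.eq_two.ge' (by have := A.e_pos; omega)
    simpa using h3.mul (show A.ge 0 x from hx)
  have hcard := card_hom V h2
  have : Finite (V →+ ZMod 2) := by
    apply Nat.finite_of_card_ne_zero
    rw [hcard]
    exact Nat.card_pos.ne'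
  let Φ : V → (V →+ ZMod 2) := fun v => lft A h ha h0 (Quotient.out v)
  have hout : ∀ v : V, (QuotientAddGroup.mk (Quotient.out v : O A) : V) = v := fun v =>
    Quotient.out_eq v
  have hinj : Function.Injective Φ := by
    intro v w hvw
    by_contra hne
    have h3 : ¬ A.ge 1 (((Quotient.out v : O A) : k) - (Quotient.out w : O A)) := by
      intro h4
      apply hne
      rw [← hout v, ← hout w, QuotientAddGroup.eq, mem_M]
      show A.ge 1 (-((Quotient.out v : O A) : k) + (Quotient.out w : O A))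
      rw [neg_add_eq_sub, Dya.ge_sub_comm]
      exact h4
    set a : k := ((Quotient.out v : O A) : k) with ha'
    set b : k := ((Quotient.out w : O A) : k) with hb'
    have hage : A.ge 0 a := (Quotient.out v : O A).2
    have hbge : A.ge 0 b := (Quotient.out w : O A).2
    have hab : A.eq 0 (a - b) := by
      rcases (hage.sub hbge).lt_or with h4 | h4
      · exact h4
      · exact absurd h4 h3
    have hx : A.ge 0 (x₀ / (a - b)) := by simpa using hx₀.div hab
    have h5 := DFunLike.congr_fun hvw (QuotientAddGroup.mk (⟨x₀ / (a - b), hx⟩ : O A))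
    have h6 : h (a * (x₀ / (a - b))) = h (b * (x₀ / (a - b))) := h5
    have h7 : a * (x₀ / (a - b)) = x₀ + b * (x₀ / (a - b)) := by
      field_simp [hab.ne]
      ring
    have hbx : A.ge 0 (b * (x₀ / (a - b))) := by simpa using hbge.mul hx
    rw [h7, ha _ _ hx₀ hbx, hx₁] at h6
    exact one_ne_zero (add_eq_right.1 h6)
  have hbij := hinj.bijective_of_nat_card_le hcard.le
  have hf1 : A.ge 0 (1 : k) := A.eq_one.ge
  obtain ⟨v, hv⟩ := hbij.2 (lft A f fa f0 ⟨1, hf1⟩)
  refine ⟨((Quotient.out v : O A) : k), (Quotient.out v : O A).2, fun x hx => ?_⟩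
  have h8 := DFunLike.congr_fun hv (QuotientAddGroup.mk (⟨x, hx⟩ : O A))
  have h9 : h (((Quotient.out v : O A) : k) * x) = f (1 * x) := h8
  rw [one_mul] at h9
  exact h9.symm

end Pool.Agent.Lib.MP_c385f6_ag.DyK
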