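import Mathlib
import Pool.Agent.Lib.MP_c385f6_ag.DyK.Stmts

/-!
The norm residue symbol of a dyadic field on the unit filtration: proof of the facts.
-/

namespace Pool.Agent.Lib.MP_c385f6_ag.DyK

open Pool.Agent.Lib.MP_c385f6_ag

variable {k : Type*} [NormedField k] [CharZero k] {A : Dya k}

namespace FactsPfaux

omit [CharZero k] in
/-- Numbers near one are squares. -/
theorem cl_small {z : k} (hz : A.ge (A.L + 1) z) : cl (1 + z) = 0 := by
  have h4 : ‖z‖ < ‖(4 : k)‖ := by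
    have h1 : ‖(4 : k)‖ = ‖A.pi‖ ^ A.L := A.eq_four
    rw [h1]
    exact lt_of_le_of_lt hz (Dya.pow_lt_iff.2 (by omega))
  obtain ⟨s, hs⟩ := A.sq z h4
  rw [← hs]
  exact cl_sq s

omit [CharZero k] in
theorem cl_small_sub {z : k} (hz : A.ge (A.L + 1) z) : cl (1 - z) = 0 := by
  rw [sub_eq_add_neg]
  exact cl_small hz.neg

omit [CharZero k] in
/-- Numbers near to each other have the same class. -/
theorem cl_near {n : ℤ} {a b : k} (ha : A.eq n a) (hab : A.ge (n + A.L + 1) (b - a)) :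
    cl b = cl a := by
  have h1 : b = a * (1 + (b - a) / a) := by
    field_simp [ha.ne]
    ring
  have h2 : A.ge (A.L + 1) ((b - a) / a) := by
    have := hab.div ha
    have h3 : n + A.L + 1 - n = A.L + 1 := by ring
    rwa [h3] at this
  have hL := A.two_le_L
  rw [h1, cl_mul ha.ne (Dya.one_add_ne (h2.mono (by omega))), cl_small h2, add_zero]

theorem ident {a b : k} (ha0 : a ≠ 0) (ha : A.ge 1 a) (hb : A.ge 1 b) :
    bf A.sym (cl (1 - a) + cl (1 - a * b)) (cl a + cl (1 - b) + cl (1 - a * b)) = 0 := by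
  have h1 : 1 - a ≠ 0 := Dya.one_sub_ne ha
  have h2 : 1 - b ≠ 0 := Dya.one_sub_ne hb
  have h3 : 1 - a * b ≠ 0 := Dya.one_sub_ne ((ha.mul hb).mono (by norm_num))
  rw [← cl_div h1 h3, ← cl_mul ha0 h2, ← cl_div (mul_ne_zero ha0 h2) h3]
  apply bf_add_one A.sym (div_ne_zero h1 h3) (div_ne_zero (mul_ne_zero ha0 h2) h3)
  rw [← add_div, div_eq_one_iff_eq h3]
  ring

/-- The symbol of two numbers very near to one. -/
theorem bf_small {i j : ℤ} {a b : k} (hi : 1 ≤ i) (hj : 1 ≤ j) (hij : A.L + 1 ≤ i + j)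
    (ha : A.ge i a) (hb : A.ge j b) : bf A.sym (cl (1 - a)) (cl (1 - b)) = 0 := by
  by_cases ha0 : a = 0
  · rw [ha0, sub_zero, cl_one, map_zero, LinearMap.zero_apply]
  · have h := ident ha0 (ha.mono hi) (hb.mono hj)
    rw [cl_small_sub ((ha.mul hb).mono hij), add_zero, add_zero, map_add,
      bf_comm, bf_one_sub A.sym ha0 (Dya.one_sub_ne (ha.mono hi)), zero_add] at h
    exact h

theorem perp_top {z : k} (hz : A.ge A.L z) : Perp A (cl (1 + z)) 1 := by
  intro x hx
  have hL := A.two_le_L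
  have h := bf_small (i := A.L) (j := 1) (by omega) le_rfl le_rfl hz.neg hx.neg
  rwa [sub_neg_eq_add, sub_neg_eq_add] at h

omit [CharZero k] in
/-- A unit is a square times a number near one. -/
theorem unit_rep (h1 : StLead A) {x : k} (hx : A.eq 0 x) :
    ∃ d, A.ge 1 d ∧ cl x = cl (1 + d) := by
  obtain ⟨θ, hθ, h⟩ := h1 0 x (by rwa [mul_zero])
  refine ⟨(x - θ ^ 2) / θ ^ 2, ?_, ?_⟩
  · have h2 := h.div (hθ.pow 2)
    have h3 : 2 * 0 + 1 - ((2 : ℕ) : ℤ) * 0 = 1 := by norm_num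
    rwa [h3] at h2
  · have hθ0 := hθ.ne
    have h2 : x = (1 + (x - θ ^ 2) / θ ^ 2) * θ ^ 2 := by
      field_simp
      ring
    conv_lhs => rw [h2, cl_mul_sq _ hθ0]

omit [CharZero k] in
/-- A number of even valuation. -/
theorem even_rep (h1 : StLead A) {m : ℤ} {x : k} (hx : A.eq (2 * m) x) :
    ∃ d, A.ge 1 d ∧ cl x = cl (1 + d) := by
  have h0 := (Dya.eq_pi_zpow A m).ne
  have h2 : A.eq 0 (x / (A.pi ^ m) ^ 2) := by
    have h3 := hx.div ((Dya.eq_pi_zpow A m).pow 2)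
    have h4 : 2 * m - ((2 : ℕ) : ℤ) * m = 0 := by push_cast; ring
    rwa [h4] at h3
  obtain ⟨d, hd, h⟩ := unit_rep h1 h2
  refine ⟨d, hd, ?_⟩
  rw [← h, cl_div hx.ne (pow_ne_zero 2 h0), cl_sq, add_zero]

theorem par_aux (h1 : StLead A) {w : Sq k} (hw : Perp A w 1) {n : ℤ} {x : k}
    (hx : A.eq n x) : bf A.sym w (cl x) = (n : ZMod 2) * bf A.sym w (cl A.pi) := by
  have h20 : (2 : ZMod 2) = 0 := rfl
  rcases Int.even_or_odd' n with ⟨m, rfl | rfl⟩
  · obtain ⟨d, hd, h⟩ := even_rep h1 hx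
    rw [h, hw d hd]
    push_cast
    rw [h20, zero_mul, zero_mul]
  · have h2 : A.eq (2 * m) (x / A.pi) := by
      have h3 := hx.div (Dya.eq_pi A)
      rwa [add_sub_cancel_right] at h3
    obtain ⟨d, hd, h⟩ := even_rep h1 h2
    have h3 : cl x = cl (1 + d) + cl A.pi := by
      rw [← h, ← cl_mul h2.ne A.pi_ne, div_mul_cancel₀ _ A.pi_ne]
    rw [h3, map_add, hw d hd, zero_add]
    push_cast
    rw [h20, zero_mul, zero_add, one_mul]

theorem par_of (h1 : StLead A) {w : Sq k} (hw : Perp A w 1) (hw0 : w ≠ 0) {n : ℤ} {x : k}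
    (hx : A.eq n x) : bf A.sym w (cl x) = (n : ZMod 2) := by
  have h2 : bf A.sym w (cl A.pi) = 1 := by
    have key : ∀ z : ZMod 2, z ≠ 0 → z = 1 := by decide
    apply key
    intro h0
    apply hw0
    refine eq_zero_of_bf A.sym fun y hy => ?_
    obtain ⟨m, hm⟩ := A.exists_eq hy
    rw [par_aux h1 hw hm, h0, mul_zero]
  rw [par_aux h1 hw hx, h2, mul_one]

theorem uniq_top (h1 : StLead A) {w w' : Sq k} (hw : Perp A w 1) (hw0 : w ≠ 0)
    (hw' : Perp A w' 1) (hw0' : w' ≠ 0) : w = w' := by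
  rw [← sq_add_eq_zero]
  refine eq_zero_of_bf A.sym fun y hy => ?_
  obtain ⟨m, hm⟩ := A.exists_eq hy
  rw [map_add, LinearMap.add_apply, par_of h1 hw hw0 hm, par_of h1 hw' hw0' hm]
  have key : ∀ z : ZMod 2, z + z = 0 := by decide
  exact key _

/-- The Artin-Schreier map gives a nontrivial unramified class. -/
theorem exists_top (h2 : StArtin A) : ∃ z, A.ge A.L z ∧ cl (1 + z) ≠ 0 := by
  obtain ⟨x, hx, hx2⟩ := h2
  have hL := A.two_le_L
  have hz : A.ge A.L (4 * x) := by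
    have := A.eq_four.ge.mul hx
    rwa [add_zero] at this
  refine ⟨4 * x, hz, fun h0 => ?_⟩
  rw [cl_eq_zero_iff (Dya.one_add_ne (hz.mono (by omega)))] at h0
  obtain ⟨s, hs⟩ := h0
  have ht : ((s - 1) / 2) ^ 2 + (s - 1) / 2 = x := by
    field_simp
    linear_combination hs
  have ht0 : A.ge 0 ((s - 1) / 2) := by
    by_contra hcon
    rw [Dya.not_ge_iff] at hcon
    obtain ⟨m, hm0, hm⟩ := hcon
    have h3 : A.eq (2 * m) x := by
      rw [← ht]
      have h4 := hm.pow 2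
      push_cast at h4
      exact h4.add_of_lt hm.ge (by omega)
    have := h3.not_ge hx
    omega
  apply hx2 _ ht0
  rw [ht, sub_self]
  exact Dya.ge_zero _

open Classical in
/-- The residue functional. -/
noncomputable def Ef (A : Dya k) (eps : Sq k) (z : k) : ZMod 2 :=
  if A.ge A.L z ∧ cl (1 + z) = eps then 1 else 0

theorem one_add (h1 : StLead A) {eps : Sq k} (hp : Perp A eps 1) (h0 : eps ≠ 0) {z : k}
    (hz : A.ge A.L z) : cl (1 + z) = Ef A eps z • eps := by
  rw [Ef]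
  split_ifs with h
  · rw [one_smul, h.2]
  · rw [zero_smul]
    by_contra hne
    exact h ⟨hz, uniq_top h1 (perp_top hz) hne hp h0⟩

omit [CharZero k] in
theorem smul_inj {eps : Sq k} (h0 : eps ≠ 0) {c c' : ZMod 2} (h : c • eps = c' • eps) :
    c = c' := by
  have key : ∀ z : ZMod 2, z = 0 ∨ z = 1 := by decide
  rcases key c with rfl | rfl <;> rcases key c' with rfl | rfl
  · rfl
  · rw [zero_smul, one_smul] at h
    exact absurd h.symm h0
  · rw [zero_smul, one_smul] at h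
    exact absurd h h0
  · rfl

theorem E_add (h1 : StLead A) {eps : Sq k} (hp : Perp A eps 1) (h0 : eps ≠ 0) {x y : k}
    (hx : A.ge A.L x) (hy : A.ge A.L y) : Ef A eps (x + y) = Ef A eps x + Ef A eps y := by
  have hL := A.two_le_L
  have hx1 : A.ge 1 x := hx.mono (by omega)
  have hy1 : A.ge 1 y := hy.mono (by omega)
  apply smul_inj h0
  rw [add_smul, ← one_add h1 hp h0 hx, ← one_add h1 hp h0 hy, ← one_add h1 hp h0 (hx.add hy),
    ← cl_mul (Dya.one_add_ne hx1) (Dya.one_add_ne hy1)]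
  symm
  refine cl_near (n := 0) (Dya.eq.one_add (hx1.add hy1)) ?_
  have h3 : (1 + x) * (1 + y) - (1 + (x + y)) = x * y := by ring
  rw [h3]
  exact (hx.mul hy).mono (by omega)

theorem E_zero (h1 : StLead A) {eps : Sq k} (hp : Perp A eps 1) (h0 : eps ≠ 0) {x : k}
    (hx : A.ge (A.L + 1) x) : Ef A eps x = 0 := by
  apply smul_inj h0
  rw [← one_add h1 hp h0 (hx.mono (by omega)), cl_small hx, zero_smul]

theorem E_neg (h1 : StLead A) {eps : Sq k} (hp : Perp A eps 1) (h0 : eps ≠ 0) {x : k}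
    (hx : A.ge A.L x) : Ef A eps (-x) = Ef A eps x := by
  have h := E_add h1 hp h0 hx hx.neg
  rw [add_neg_cancel, E_zero h1 hp h0 (Dya.ge_zero _)] at h
  have key : ∀ z z' : ZMod 2, 0 = z + z' → z' = z := by decide
  exact key _ _ h

theorem nondeg (h1 : StLead A) {eps : Sq k} (hp : Perp A eps 1) (h0 : eps ≠ 0) {z : k}
    (hz : A.ge A.L z) (he : eps = cl (1 + z)) :
    A.eq A.L z ∧ Ef A eps z = 1 := by
  have hE : Ef A eps z = 1 := by
    rw [Ef, if_pos ⟨hz, he.symm⟩]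
  refine ⟨?_, hE⟩
  rcases hz.lt_or with h | h
  · exact h
  · rw [E_zero h1 hp h0 h] at hE
    exact absurd hE zero_ne_one

theorem dual (h1 : StLead A) (h3 : StDual A) {eps : Sq k} (hp : Perp A eps 1) (h0 : eps ≠ 0)
    {z : k} (hz : A.eq A.L z) (hE : Ef A eps z = 1) (i : ℤ) (f : k → ZMod 2)
    (hf : ∀ x y, A.ge i x → A.ge i y → f (x + y) = f x + f y)
    (hf0 : ∀ x, A.ge (i + 1) x → f x = 0) :
    ∃ ξ, A.ge (A.L - i) ξ ∧ ∀ x, A.ge i x → f x = Ef A eps (ξ * x) := by
  have hpi := A.pi_ne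
  have hup : ∀ (j n : ℤ) (x : k), A.ge n x → A.ge (j + n) (A.pi ^ j * x) := fun j n x hx =>
    (Dya.eq_pi_zpow A j).ge.mul hx
  obtain ⟨ξ, hξ, hξ2⟩ := h3 (fun x => f (A.pi ^ i * x)) (fun x => Ef A eps (A.pi ^ A.L * x))
    (fun x y hx hy => by
      have hx' := hup A.L 0 x hx
      have hy' := hup A.L 0 y hy
      rw [add_zero] at hx' hy'
      change Ef A eps (A.pi ^ A.L * (x + y)) = _
      rw [mul_add, E_add h1 hp h0 hx' hy'])
    (fun x hx => E_zero h1 hp h0 (hup A.L 1 x hx))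
    ⟨z / A.pi ^ A.L, by
      have := hz.div (Dya.eq_pi_zpow A A.L)
      rw [sub_self] at this
      exact this.ge, by
      rw [mul_div_cancel₀ _ (zpow_ne_zero _ hpi), hE]⟩
    (fun x y hx hy => by
      have hx' := hup i 0 x hx
      have hy' := hup i 0 y hy
      rw [add_zero] at hx' hy'
      change f (A.pi ^ i * (x + y)) = _
      rw [mul_add, hf _ _ hx' hy'])
    (fun x hx => hf0 _ (hup i 1 x hx))
  refine ⟨A.pi ^ (A.L - i) * ξ, ?_, fun x hx => ?_⟩
  · have := hup (A.L - i) 0 ξ hξ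
    rwa [add_zero] at this
  · have h4 : A.ge 0 (x / A.pi ^ i) := by
      have := hx.div (Dya.eq_pi_zpow A i)
      rwa [sub_self] at this
    have h5 := hξ2 _ h4
    have h6 : A.pi ^ i * (x / A.pi ^ i) = x := mul_div_cancel₀ _ (zpow_ne_zero _ hpi)
    have h7 : A.pi ^ A.L * (ξ * (x / A.pi ^ i)) = A.pi ^ (A.L - i) * ξ * x := by
      rw [zpow_sub₀ hpi]
      field_simp
    change f (A.pi ^ i * (x / A.pi ^ i)) = Ef A eps (A.pi ^ A.L * (ξ * (x / A.pi ^ i))) at h5
    rwa [h6, h7] at h5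

theorem symb_sub (h1 : StLead A) {eps : Sq k} (hp : Perp A eps 1) (h0 : eps ≠ 0)
    {z : k} (hz : A.eq A.L z) (he : eps = cl (1 + z)) {i j : ℤ} {a b : k} (hi : 1 ≤ i)
    (hj : 1 ≤ j) (hij : i + j = A.L) (ha : A.ge i a) (hb : A.ge j b) :
    bf A.sym (cl (1 - a)) (cl (1 - b)) = (i : ZMod 2) * Ef A eps (a * b) := by
  have hL := A.two_le_L
  rcases ha.lt_or with ha' | ha'
  · have hab : A.ge A.L (a * b) := by
      have := ha.mul hb
      rwa [hij] at this
    have hc : cl (1 - a * b) = Ef A eps (a * b) • eps := by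
      rw [sub_eq_add_neg, one_add h1 hp h0 hab.neg, E_neg h1 hp h0 hab]
    have hself : bf A.sym eps eps = 0 := by
      nth_rw 2 [he]
      exact hp z (hz.ge' (by omega))
    have hea : bf A.sym (cl (1 - a)) eps = 0 := by
      rw [bf_comm, sub_eq_add_neg]
      exact hp _ (ha.mono hi).neg
    have heb : bf A.sym eps (cl (1 - b)) = 0 := by
      rw [sub_eq_add_neg]
      exact hp _ (hb.mono hj).neg
    have haa : bf A.sym (cl (1 - a)) (cl a) = 0 := by
      rw [bf_comm]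
      exact bf_one_sub A.sym ha'.ne (Dya.one_sub_ne (ha.mono hi))
    have hpa : bf A.sym eps (cl a) = (i : ZMod 2) := par_of h1 hp h0 ha'
    have h := ident ha'.ne (ha.mono hi) (hb.mono hj)
    rw [hc] at h
    simp only [map_add, LinearMap.add_apply, map_smul, LinearMap.smul_apply, hself, hea, heb,
      haa, hpa, zero_add, smul_eq_mul, mul_zero, add_zero] at h
    have key : ∀ u v w : ZMod 2, v * w + u = 0 → u = w * v := by decide
    exact key _ _ _ h
  · rw [bf_small (by omega) hj (by omega) ha' hb, E_zero h1 hp h0, mul_zero]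
    exact (ha'.mul hb).mono (by omega)

theorem symb (h1 : StLead A) {eps : Sq k} (hp : Perp A eps 1) (h0 : eps ≠ 0)
    {z : k} (hz : A.eq A.L z) (he : eps = cl (1 + z)) {i j : ℤ} {a b : k} (hi : 1 ≤ i)
    (hj : 1 ≤ j) (hij : i + j = A.L) (ha : A.ge i a) (hb : A.ge j b) :
    bf A.sym (cl (1 + a)) (cl (1 + b)) = (i : ZMod 2) * Ef A eps (a * b) := by
  have h := symb_sub h1 hp h0 hz he hi hj hij ha.neg hb.neg
  rwa [sub_neg_eq_add, sub_neg_eq_add, neg_mul_neg] at h

theorem perp_aux (h1 : StLead A) {eps : Sq k} (hp : Perp A eps 1) (h0 : eps ≠ 0)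
    {z : k} (hz : A.eq A.L z) (he : eps = cl (1 + z)) (hE : Ef A eps z = 1) :
    ∀ (n : ℕ) (i : ℤ) (g : Sq k), 1 ≤ i → i + n = A.L → Perp A g i →
      ∃ d, A.ge (A.L + 1 - i) d ∧ g = cl (1 + d) := by
  have h20 : (2 : ZMod 2) = 0 := rfl
  intro n
  induction n with
  | zero =>
    intro i g hi hin hg
    have hiL : i = A.L := by
      push_cast at hin
      omega
    subst hiL
    obtain ⟨x, hx, rfl⟩ := cl_surj g
    obtain ⟨m, hm⟩ := A.exists_eq hx
    have h2 : bf A.sym eps (cl x) = 0 := by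
      rw [bf_comm, he]
      exact hg z hz.ge
    rw [par_of h1 hp h0 hm, ZMod.intCast_zmod_eq_zero_iff_dvd] at h2
    obtain ⟨c, hc⟩ := h2
    push_cast at hc
    rw [hc] at hm
    obtain ⟨d, hd, h⟩ := even_rep h1 hm
    exact ⟨d, hd.mono (by omega), h⟩
  | succ n ih =>
    intro i g hi hin hg
    push_cast at hin
    obtain ⟨d, hd, rfl⟩ := ih (i + 1) g (by omega) (by omega) (hg.mono (by omega))
    have hd' : A.ge (A.L - i) d := hd.mono (by omega)
    rcases hd'.lt_or with h2 | h2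
    · have h3 : ((A.L - i : ℤ) : ZMod 2) = 0 := by
        have h4 : A.eq i (z / d) := by
          have := hz.div h2
          rwa [sub_sub_cancel] at this
        have h5 := hg _ h4.ge
        rw [symb h1 hp h0 hz he (i := A.L - i) (j := i) (by omega) hi (by ring) hd' h4.ge,
          mul_div_cancel₀ _ h2.ne, hE, mul_one] at h5
        exact h5
      rw [ZMod.intCast_zmod_eq_zero_iff_dvd] at h3
      obtain ⟨m, hm⟩ := h3
      push_cast at hm
      rw [hm] at h2
      obtain ⟨θ, hθ, h4⟩ := h1 m d h2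
      have hLe : A.L = 2 * (A.e : ℤ) := rfl
      have hm1 : 1 ≤ m := by omega
      have hm2 : m + 1 ≤ A.e := by omega
      have hθ1 : A.ge 1 θ := hθ.ge' hm1
      have h5 : A.eq 0 (1 + θ) := Dya.eq.one_add hθ1
      refine ⟨(d - θ ^ 2 - 2 * θ) / (1 + θ) ^ 2, ?_, ?_⟩
      · have h6 : A.ge (2 * m + 1) (2 * θ) := (A.eq_two.mul hθ).ge' (by omega)
        have h7 := (h4.sub h6).div (h5.pow 2)
        refine h7.mono ?_
        push_cast
        omega
      · have h8 := h5.ne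
        have h9 : 1 + d = (1 + (d - θ ^ 2 - 2 * θ) / (1 + θ) ^ 2) * (1 + θ) ^ 2 := by
          field_simp
          ring
        conv_lhs => rw [h9, cl_mul_sq _ h8]
    · exact ⟨d, h2.mono (by omega), rfl⟩

end FactsPfaux

open FactsPfaux in
/-- The facts on the norm residue symbol hold. -/
theorem stFacts (A : Dya k) (h1 : StLead A) (h2 : StArtin A) (h3 : StDual A) : StFacts A := by
  obtain ⟨z, hz, h0⟩ := exists_top h2
  have hp := perp_top hz
  obtain ⟨hzL, hE⟩ := nondeg h1 hp h0 hz rfl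
  refine ⟨cl (1 + z), Ef A (cl (1 + z)), ?_⟩
  exact
    { one_add := fun y hy => one_add h1 hp h0 hy
      E_add := fun x y hx hy => E_add h1 hp h0 hx hy
      E_zero := fun x hx => E_zero h1 hp h0 hx
      par := fun n x hx => par_of h1 hp h0 hx
      nondeg := fun n d hd => ⟨z / d, hzL.div hd, by rw [div_mul_cancel₀ _ hd.ne, hE]⟩
      dual := fun i f hf hf0 => dual h1 h3 hp h0 hzL hE i f hf hf0
      perp := fun i g hi hiL hg => by
        obtain ⟨n, hn⟩ := Int.eq_ofNat_of_zero_le (sub_nonneg.2 hiL)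
        exact perp_aux h1 hp h0 hzL rfl hE n i g hi (by omega) hg
      symb := fun i j a b hi hj hij ha hb => symb h1 hp h0 hzL rfl hi hj hij ha hb
      lead := h1 }

end Pool.Agent.Lib.MP_c385f6_ag.DyK
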