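import Mathlib
import Pool.Agent.Lib.MP_c385f6_ag.DyK.Stmts2

/-!
The points of a deep net and a number far away from the field.
-/

namespace Pool.Agent.Lib.MP_c385f6_ag.DyK

open Pool.Agent.Lib.MP_c385f6_ag

namespace Faraux

section
variable {k : Type*} [NormedField k] (A : Dya k)

/-- Representatives of the square classes of valuation `n` or `n + 1`. -/
theorem exists_rep (n : ℤ) {c : k} (hc : c ≠ 0) : ∃ (a : k) (j : ℤ), A.eq j (c * a ^ 2) ∧
    n ≤ j ∧ j ≤ n + 1 := by
  obtain ⟨v, hv⟩ := A.exists_eq hc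
  refine ⟨A.pi ^ ((n - v + 1) / 2), v + 2 * ((n - v + 1) / 2), ?_, by omega, by omega⟩
  have h := hv.mul ((Dya.eq_pi_zpow A ((n - v + 1) / 2)).pow 2)
  exact_mod_cast h

theorem sq_near {z d : k} {j : ℤ} (hz : A.eq j z) (hd : A.ge (j + A.L + 1) d) :
    ∃ s : k, z + d = z * s ^ 2 := by
  have h1 : A.ge (A.L + 1) (d / z) := by
    have := hd.div hz
    have h3 : j + A.L + 1 - j = A.L + 1 := by ring
    rwa [h3] at this
  obtain ⟨s, hs⟩ := A.sq (d / z) (by
    rw [show ‖(4 : k)‖ = ‖A.pi‖ ^ A.L from A.eq_four]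
    exact lt_of_le_of_lt h1 (Dya.pow_lt_iff.2 (by omega)))
  refine ⟨s, ?_⟩
  have h0 := hz.ne
  rw [hs]
  field_simp

variable (F : Type*) [NormedField F] [NormedAlgebra k F]

theorem norm_four : ‖(4 : F)‖ = ‖A.pi‖ ^ A.L := by
  have h : (4 : F) = algebraMap k F 4 := by rw [map_ofNat]
  rw [h, norm_algebraMap']
  exact A.eq_four

variable {F}

theorem sq_nearF (hsq : ∀ z : F, ‖z‖ < ‖(4 : F)‖ → ∃ s : F, s ^ 2 = 1 + z) {y d : F}
    (hy : y ≠ 0) (hd : ‖d‖ ≤ ‖A.pi‖ ^ (A.L + 1) * ‖y‖) : ∃ s : F, y + d = y * s ^ 2 := by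
  have hy' : 0 < ‖y‖ := norm_pos_iff.2 hy
  obtain ⟨s, hs⟩ := hsq (d / y) (by
    rw [norm_four A F, norm_div, div_lt_iff₀ hy']
    refine lt_of_le_of_lt hd ?_
    exact mul_lt_mul_of_pos_right (Dya.pow_lt_iff.2 (by omega)) hy')
  refine ⟨s, ?_⟩
  rw [hs]
  field_simp

end

end Faraux

open Faraux in
/-- The points of a deep net and a number far away from the field. -/
theorem stFar {k : Type*} [NormedField k] [CharZero k] (A : Dya k) (F : Type*) [NormedField F]
    [NormedAlgebra k F] : StFar A F := by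
  intro m T r hN _ hsq τ ρ hρ hτ hfar hm x _ c hc
  have hL := A.two_le_L
  have hp := A.pi_pos
  by_cases hx : A.ge 0 x
  · -- integral points
    have key : ∀ c : k, c ≠ 0 → ∃ t ∈ T, ∃ (e : k) (f : F), x - t = c * e ^ 2 ∧
        algebraMap k F t - τ = (algebraMap k F x - τ) * f ^ 2 := by
      intro c hc
      obtain ⟨a, j, hj, hj1, hj2⟩ := exists_rep A (ρ + A.L + 1) hc
      obtain ⟨t, ht, t2, -, -, h1⟩ := hN.pair (x - c * a ^ 2) (hx.sub (hj.ge' (by omega)))
      have h2 : A.ge m (x - c * a ^ 2 - t) := (h1 t ht).2 (Or.inl rfl)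
      obtain ⟨s, hs⟩ := sq_near A hj (h2.mono (by omega))
      have h3 : x - t = c * (a * s) ^ 2 := by
        linear_combination hs
      have h4 : A.eq j (x - t) := by
        have h5 := hj.add_of_lt h2 (by omega)
        have h6 : c * a ^ 2 + (x - c * a ^ 2 - t) = x - t := by ring
        rwa [h6] at h5
      have hxτ : ‖A.pi‖ ^ ρ ≤ ‖algebraMap k F x - τ‖ := hfar x
      have hne : algebraMap k F x - τ ≠ 0 := by
        intro h0
        rw [h0, norm_zero] at hxτ
        exact absurd hxτ (not_le.2 (Dya.ppos ρ))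
      obtain ⟨f, hf⟩ := sq_nearF A hsq (y := algebraMap k F x - τ)
        (d := -algebraMap k F (x - t)) hne (by
          rw [norm_neg, norm_algebraMap', show ‖x - t‖ = ‖A.pi‖ ^ j from h4]
          refine le_trans (Dya.pow_le_iff.2 (show A.L + 1 + ρ ≤ j by omega)) ?_
          rw [zpow_add₀ hp.ne']
          exact mul_le_mul_of_nonneg_left hxτ (Dya.ppos _).le)
      refine ⟨t, ht, a * s, f, h3, ?_⟩
      rw [← hf, map_sub]
      ring
    obtain ⟨t, ht, e, f, h1, h2⟩ := key 1 one_ne_zero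
    obtain ⟨t', ht', e', f', h1', h2'⟩ := key c hc
    refine ⟨t, ht, t', ht', algebraMap k F (e * e') * ((algebraMap k F x - τ) * (f * f')), ?_⟩
    rw [h1, h1', h2, h2']
    simp only [map_mul, map_pow, map_one]
    ring
  · -- the other points
    obtain ⟨v, hv, hxv⟩ := Dya.not_ge_iff.1 hx
    have key : ∀ c : k, c ≠ 0 → ∃ t ∈ T, ∃ (e f : k) (g : F), t = c * e ^ 2 ∧
        x - t = x * f ^ 2 ∧ algebraMap k F t - τ = algebraMap k F t * g ^ 2 := by
      intro c hc
      obtain ⟨a, j, hj, hj1, hj2⟩ := exists_rep A A.L hc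
      obtain ⟨t, ht, t2, -, -, h1⟩ := hN.pair (c * a ^ 2) (hj.ge' (by omega))
      have h2 : A.ge m (t - c * a ^ 2) := Dya.ge_sub_comm.1 ((h1 t ht).2 (Or.inl rfl))
      obtain ⟨s, hs⟩ := sq_near A hj (h2.mono (by omega))
      have h3 : t = c * (a * s) ^ 2 := by
        linear_combination hs
      have h4 : A.eq j t := by
        have h5 := hj.add_of_lt h2 (by omega)
        have h6 : c * a ^ 2 + (t - c * a ^ 2) = t := by ring
        rwa [h6] at h5
      obtain ⟨f, hf⟩ := sq_near A hxv (d := -t) (h4.neg.ge' (by omega))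
      have hne : algebraMap k F t ≠ 0 := by
        rw [Ne, map_eq_zero]
        exact h4.ne
      obtain ⟨g, hg⟩ := sq_nearF A hsq (y := algebraMap k F t) (d := -τ) hne (by
          rw [norm_neg, norm_algebraMap', show ‖t‖ = ‖A.pi‖ ^ j from h4, ← zpow_add₀ hp.ne']
          exact hτ.trans (Dya.pow_le_iff.2 (by omega)))
      refine ⟨t, ht, a * s, f, g, h3, ?_, ?_⟩
      · rw [← hf]
        ring
      · rw [← hg]
        ring
    obtain ⟨t, ht, e, f, g, h1, h2, h3⟩ := key 1 one_ne_zero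
    obtain ⟨t', ht', e', f', g', h1', h2', h3'⟩ := key c hc
    refine ⟨t, ht, t', ht', algebraMap k F (x * (f * f') * (e * e')) * (g * g'), ?_⟩
    rw [h2, h2', h3, h3', h1, h1']
    simp only [map_mul, map_pow, map_one]
    ring

end Pool.Agent.Lib.MP_c385f6_ag.DyK
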