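import Mathlib
import Pool.Agent.Lib.MP_c385f6_ag.DyK.Stmts

/-!
The last state of the point is enough.
-/

namespace Pool.Agent.Lib.MP_c385f6_ag.DyK

open Pool.Agent.Lib.MP_c385f6_ag

namespace Finalaux

variable {k : Type*} [NormedField k] [CharZero k] {A : Dya k}

theorem exists_coef {g eps : Sq k} (h : g = 0 ∨ g = eps) : ∃ b : ZMod 2, g = b • eps := by
  rcases h with h | h
  · exact ⟨0, by rw [h, zero_smul]⟩
  · exact ⟨1, by rw [h, one_smul]⟩

/-- Two points at valuation `m`. -/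
theorem case_two (X : Sys A) (h2 : StTwo A) {y t t' : k}
    (htt : A.eq X.m (t - t')) (hyt : A.eq X.m (y - t)) (hyt' : A.eq X.m (y - t'))
    (hg : X.g y t = 0 ∨ X.g y t = X.eps) (hg' : X.g y t' = 0 ∨ X.g y t' = X.eps)
    (hoth : ∀ s ∈ X.T, s ≠ t → s ≠ t' → ∃ i, i < X.m ∧ A.eq i (y - s) ∧ X.g y s = 0) :
    Realised X.T X.D := by
  obtain ⟨b, hb⟩ := exists_coef hg
  obtain ⟨b', hb'⟩ := exists_coef hg'
  have hu : A.eq (-X.m) (y - t)⁻¹ := hyt.inv
  have hv : A.eq (-X.m) (y - t')⁻¹ := hyt'.inv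
  have huv : A.eq (-X.m) ((y - t)⁻¹ - (y - t')⁻¹) := by
    have h3 : (y - t)⁻¹ - (y - t')⁻¹ = (t - t') / ((y - t) * (y - t')) := by
      have e1 := hyt.ne
      have e2 := hyt'.ne
      field_simp
      ring
    have h4 := htt.div (hyt.mul hyt')
    rw [← h3] at h4
    have h5 : X.m - (X.m + X.m) = -X.m := by ring
    rwa [h5] at h4
  obtain ⟨η, hη, hE, hE'⟩ := h2 X.eps X.E X.F (-X.m) _ _ b b' hu hv huv
  have hη' : A.ge (X.m + A.L) η := hη.mono (by omega)
  have hL := A.two_le_L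
  have hkey : ∀ s : k, ∀ i : ℤ, i ≤ X.m → A.eq i (y - s) →
      X.g y s = X.E (η / (y - s)) • X.eps → y + η ≠ s ∧ X.D s = cl (y + η - s) := by
    intro s i hi his h3
    refine ⟨?_, ?_⟩
    · intro h4
      have h5 : A.eq i ((y - s) + η) := his.add_of_lt hη' (by omega)
      apply h5.ne
      rw [← h4]
      ring
    · rw [← X.g_eq_zero, X.g_move his (hη'.mono (by omega)), h3, sq_add_self]
  refine ⟨y + η, fun s hs => ?_⟩
  by_cases hst : s = t
  · subst hst
    refine hkey s X.m le_rfl hyt ?_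
    rw [hb, div_eq_mul_inv, mul_comm, hE]
  by_cases hst' : s = t'
  · subst hst'
    refine hkey s X.m le_rfl hyt' ?_
    rw [hb', div_eq_mul_inv, mul_comm, hE']
  · obtain ⟨i, him, hi, h3⟩ := hoth s hs hst hst'
    refine hkey s i him.le hi ?_
    have h4 : A.ge (A.L + 1) (η / (y - s)) := (hη'.div hi).mono (by omega)
    rw [h3, X.F.E_zero _ h4, zero_smul]

/-- The error at the nearest point is orthogonal to small units. -/
theorem perp_leaf (X : Sys A) {y t : k} (ht : t ∈ X.T) (hy0 : A.ge 0 y) {j : ℤ} (hj : 1 ≤ j)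
    (hyt : A.eq (X.m + j) (y - t))
    (hrel : ∀ s ∈ X.T, s ≠ t → bf A.sym (X.g y t) (cl (1 - (y - t) / (y - s))) = 0) :
    Perp A (X.g y t) (j + 1) := by
  have hL := A.two_le_L
  have hm := X.N.big2
  by_cases hjL : A.L + 1 ≤ j + 1
  · exact (X.F.perp_large _).mono hjL
  push Not at hjL
  have key : ∀ n : ℕ, ∀ i : ℤ, i = A.L + 1 - n → j + 1 ≤ i → Perp A (X.g y t) i := by
    intro n
    induction n with
    | zero =>
      intro i hi _
      have : i = A.L + 1 := by simpa using hi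
      rw [this]
      exact X.F.perp_large _
    | succ n ih =>
      intro i hi hji x hx
      push_cast at hi
      have hP := ih (i + 1) (by omega) (by omega)
      rcases hx.lt_or with hx | hx
      swap
      · exact hP x hx
      have hz : A.eq i (-x) := hx.neg
      set z := -x with hzdef
      have hx1 : 1 + x = 1 - z := by rw [hzdef]; ring
      rw [hx1]
      set w := y - t with hw
      have hρ : A.eq (X.m + j - i) (w / z) := hyt.div hz
      have hρ0 : A.ge 0 (y - w / z) := hy0.sub (hρ.ge' (by omega))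
      obtain ⟨s, hs, -, hsn⟩ := X.near hρ0
      have hys : A.eq (X.m + j - i) (y - s) := by
        refine hρ.congr ?_
        have h3 : y - s - w / z = y - w / z - s := by ring
        rw [h3]
        exact hsn.mono (by omega)
      have hst : s ≠ t := by
        rintro rfl
        have := hyt.uniq hys
        omega
      have h4 := hrel s hs hst
      have hwy : A.eq i (w / (y - s)) := by
        have h5 := hyt.div hys
        have h6 : X.m + j - (X.m + j - i) = i := by ring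
        rwa [h6] at h5
      have hwy1 : A.eq 0 (1 - w / (y - s)) := Dya.eq.one_sub (hwy.ge' (by omega))
      have hz1 : (1 : k) - z ≠ 0 := Dya.one_sub_ne (hz.ge' (by omega))
      rw [← h4]
      refine hP.congr hwy1 hz1 ?_
      have h7 : (1 - z) - (1 - w / (y - s)) = w * (-(y - w / z - s)) / ((y - s) * (w / z)) := by
        have e1 := hys.ne
        have e2 := hz.ne
        have e3 := hyt.ne
        field_simp
        ring
      rw [h7]
      exact ((hyt.ge.mul hsn.neg).div (hys.mul hρ)).mono (by omega)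
  have h3 := key (A.L - j).toNat (j + 1) (by rw [Int.toNat_of_nonneg (by omega)]; ring) le_rfl
  exact h3

/-- One point nearer than `m`, all the others correct. -/
theorem case_leaf (X : Sys A) (h1 : StLeaf A) {y t t' : k} (ht : t ∈ X.T) (ht' : t' ∈ X.T)
    (hy0 : A.ge 0 y) (hyT : y ∉ X.T) (hyt : A.ge (X.m + 1) (y - t)) (hyt' : A.eq X.m (y - t'))
    (hoth : ∀ s ∈ X.T, s ≠ t → s ≠ t' → ∃ i, i < X.m ∧ A.eq i (y - s))
    (hcor : ∀ s ∈ X.T, s ≠ t → X.g y s = 0) : Realised X.T X.D := by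
  have hL := A.two_le_L
  have hne : ∀ s ∈ X.T, y ≠ s := by
    rintro s hs rfl
    exact hyT hs
  obtain ⟨n, hn⟩ := A.exists_eq (sub_ne_zero.2 (hne t ht))
  have hmn := hn.not_ge hyt
  obtain ⟨j, rfl⟩ : ∃ j, n = X.m + j := ⟨n - X.m, by ring⟩
  have hj : 1 ≤ j := by omega
  have htt' : t' ≠ t := by
    rintro rfl
    have := hyt'.uniq hn
    omega
  have hrel : ∀ s ∈ X.T, s ≠ t → bf A.sym (X.g y t) (cl (1 - (y - t) / (y - s))) = 0 := by
    intro s hs hst
    have h3 := X.rel_zero ht hs (Ne.symm hst) (hne t ht) (hne s hs) (hcor s hs hst)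
    have h4 : (t - s) / (y - s) = 1 - (y - t) / (y - s) := by
      have := sub_ne_zero.2 (hne s hs)
      field_simp
      ring
    rwa [h4] at h3
  have hP := perp_leaf X ht hy0 hj hn hrel
  have hz : A.eq j ((y - t) / (y - t')) := by
    have := hn.div hyt'
    rwa [add_sub_cancel_left] at this
  obtain ⟨l, hl0, hlg, hl1, hlz⟩ := h1 X.eps X.E X.F j _ _ hj hz hP (hrel t' ht' htt')
  have hlw : A.ge (A.L + X.m) ((l - 1) * (y - t)) := (hl1.mul hn.ge).mono (by omega)
  have hfac : ∀ s ∈ X.T, t + l * (y - t) - s = (y - s) * (1 + (l - 1) * (y - t) / (y - s)) := by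
    intro s hs
    have := sub_ne_zero.2 (hne s hs)
    field_simp
    ring
  have hmain : ∀ s ∈ X.T, s ≠ t → ∀ i, i ≤ X.m → A.eq i (y - s) →
      cl (1 + (l - 1) * (y - t) / (y - s)) = 0 →
        t + l * (y - t) ≠ s ∧ X.D s = cl (t + l * (y - t) - s) := by
    intro s hs hst i him hi hcl
    have h3 : A.ge 1 ((l - 1) * (y - t) / (y - s)) := (hlw.div hi).mono (by omega)
    have h4 := Dya.one_add_ne h3
    refine ⟨?_, ?_⟩
    · rw [← sub_ne_zero, hfac s hs]
      exact mul_ne_zero hi.ne h4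
    · rw [hfac s hs, cl_mul hi.ne h4, hcl, add_zero]
      exact X.g_eq_zero.1 (hcor s hs hst)
  refine ⟨t + l * (y - t), fun s hs => ?_⟩
  by_cases hst : s = t
  · subst hst
    have h3 : s + l * (y - s) - s = l * (y - s) := by ring
    refine ⟨?_, ?_⟩
    · rw [← sub_ne_zero, h3]
      exact mul_ne_zero hl0 hn.ne
    · rw [h3, cl_mul hl0 hn.ne, hlg, Sys.g, add_assoc, sq_add_self, add_zero]
  by_cases hst' : s = t'
  · subst hst'
    refine hmain s hs hst X.m le_rfl hyt' ?_
    rw [mul_div_assoc]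
    exact hlz
  · obtain ⟨i, him, hi⟩ := hoth s hs hst hst'
    refine hmain s hs hst i him.le hi ?_
    exact X.F.one_add_sq ((hlw.div hi).mono (by omega))

/-- One point nearer than `m`. -/
theorem case_one (X : Sys A) (h1 : StLeaf A) {y t t' : k} (ht : t ∈ X.T) (ht' : t' ∈ X.T)
    (hy0 : A.ge 0 y) (hyt : A.ge (X.m + 1) (y - t)) (hyt' : A.eq X.m (y - t'))
    (hg' : X.g y t' = 0 ∨ X.g y t' = X.eps)
    (hoth : ∀ s ∈ X.T, s ≠ t → s ≠ t' → ∃ i, i < X.m ∧ A.eq i (y - s) ∧ X.g y s = 0) :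
    Realised X.T X.D := by
  have hL := A.two_le_L
  have hm := X.two_le
  obtain ⟨b, hb⟩ := exists_coef hg'
  obtain ⟨η, hη, hE⟩ : ∃ η, A.ge (A.L + X.m) η ∧ X.E (η / (y - t')) = b := by
    have key : ∀ c : ZMod 2, c = 0 ∨ c = 1 := by decide
    rcases key b with rfl | rfl
    · exact ⟨0, Dya.ge_zero _, by rw [zero_div, X.F.E_zero']⟩
    · obtain ⟨x, hx, h3⟩ := X.F.nondeg (-X.m) _ hyt'.inv
      exact ⟨x, hx.ge' (by omega), by rw [div_eq_mul_inv]; exact h3⟩
  obtain ⟨y₂, hy₂, hy₂T⟩ := Sys.exists_near A X.T (y + η) (X.m + A.L + 1)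
  -- correctness of the new point
  have hcor : ∀ s : k, ∀ i : ℤ, i ≤ X.m → A.eq i (y - s) →
      X.g y s = X.E (η / (y - s)) • X.eps → A.eq i (y₂ - s) ∧ X.g y₂ s = 0 := by
    intro s i hi his h3
    have h4 : A.eq i (y + η - s) := by
      have h5 : y + η - s = (y - s) + η := by ring
      rw [h5]
      exact his.add_of_lt hη (by omega)
    refine ⟨?_, ?_⟩
    · refine h4.congr ?_
      have h6 : y₂ - s - (y + η - s) = y₂ - (y + η) := by ring
      rw [h6]
      exact hy₂.mono (by omega)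
    · rw [X.g_near h4 (hy₂.mono (by omega)), X.g_move his (hη.mono (by omega)), h3, sq_add_self]
  have hdiff : A.ge (X.m + 1) (y₂ - y) := by
    have h3 : y₂ - y = (y₂ - (y + η)) + η := by ring
    rw [h3]
    exact (hy₂.mono (by omega)).add (hη.mono (by omega))
  have hothers : ∀ s ∈ X.T, s ≠ t → s ≠ t' → ∃ i, i < X.m ∧ A.eq i (y₂ - s) ∧ X.g y₂ s = 0 := by
    intro s hs hst hst'
    obtain ⟨i, him, hi, h3⟩ := hoth s hs hst hst'
    have h4 : A.ge (A.L + 1) (η / (y - s)) := (hη.div hi).mono (by omega)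
    obtain ⟨h5, h6⟩ := hcor s i him.le hi (by rw [h3, X.F.E_zero _ h4, zero_smul])
    exact ⟨i, him, h5, h6⟩
  have ht'2 := hcor t' X.m le_rfl hyt' (by rw [hb, hE])
  refine case_leaf X h1 (t := t) (t' := t') ht ht' (y := y₂) ?_ hy₂T ?_ ht'2.1 ?_ ?_
  · have h3 : y₂ = y + (y₂ - y) := by ring
    rw [h3]
    exact hy0.add (hdiff.mono (by omega))
  · have h3 : y₂ - t = (y - t) + (y₂ - y) := by ring
    rw [h3]
    exact hyt.add hdiff
  · intro s hs hst hst'
    obtain ⟨i, him, h5, -⟩ := hothers s hs hst hst'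
    exact ⟨i, him, h5⟩
  · intro s hs hst
    by_cases hst' : s = t'
    · rw [hst']
      exact ht'2.2
    · obtain ⟨i, him, -, h6⟩ := hothers s hs hst hst'
      exact h6

end Finalaux

open Finalaux in
theorem stFinal {k : Type*} [NormedField k] [CharZero k] {A : Dya k} (X : Sys A)
    (h1 : StLeaf A) (h2 : StTwo A) : StFinal X := by
  intro y hy
  obtain ⟨hy0, hyT, hlow, htop⟩ := hy
  obtain ⟨t, ht, t', ht', htt, hpair⟩ := X.N.pair y hy0
  have hoth : ∀ s ∈ X.T, s ≠ t → s ≠ t' → ∃ i, i < X.m ∧ A.eq i (y - s) ∧ X.g y s = 0 := by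
    intro s hs hst hst'
    have h3 : ¬ A.ge X.m (y - s) := by
      rw [hpair s hs]
      tauto
    obtain ⟨i, him, hi⟩ := Dya.not_ge_iff.1 h3
    exact ⟨i, him, hi, hlow s hs i him hi⟩
  have hoth' : ∀ s ∈ X.T, s ≠ t' → s ≠ t → ∃ i, i < X.m ∧ A.eq i (y - s) ∧ X.g y s = 0 :=
    fun s hs h3 h4 => hoth s hs h4 h3
  rcases ((hpair t ht).2 (Or.inl rfl)).lt_or with h3 | h3 <;>
    rcases ((hpair t' ht').2 (Or.inr rfl)).lt_or with h4 | h4
  · exact case_two X h2 htt h3 h4 (htop t ht h3) (htop t' ht' h4) hoth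
  · exact case_one X h1 ht' ht hy0 h4 h3 (htop t ht h3) hoth'
  · exact case_one X h1 ht ht' hy0 h3 h4 (htop t' ht' h4) hoth
  · exfalso
    have h5 : A.ge (X.m + 1) (t - t') := by
      have h6 : t - t' = (y - t') - (y - t) := by ring
      rw [h6]
      exact h4.sub h3
    have := htt.not_ge h5
    omega

end Pool.Agent.Lib.MP_c385f6_ag.DyK
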