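import Mathlib
import Pool.Agent.Lib.MP_c385f6_ag.DyK.Stmts

/-!
A maximal ball with constant classes.
-/

namespace Pool.Agent.Lib.MP_c385f6_ag.DyK

open Pool.Agent.Lib.MP_c385f6_ag

variable {k : Type*} [NormedField k] [CharZero k] {A : Dya k}

namespace Firstaux

/-- If all classes are equal, they come from a point far away. -/
private theorem far (X : Sys A) (δ : Sq k) (h : ∀ t ∈ X.T, X.D t = δ) :
    Realised X.T X.D := by
  have hL := A.two_le_L
  obtain ⟨y, hy, hδ⟩ := X.F.class_rep' δ (-A.L - 3)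
  obtain ⟨n, hn, hyn⟩ : ∃ n : ℤ, n ≤ -A.L - 2 ∧ A.eq n y := by
    rcases hy with hy | hy
    · exact ⟨_, by omega, hy⟩
    · exact ⟨_, by omega, hy⟩
  refine ⟨y, fun s hs => ?_⟩
  have hs1 : A.ge (-1) s := X.ge_neg_one hs
  have h1 : A.eq n (y - s) := hyn.sub_of_lt hs1 (by omega)
  refine ⟨fun h0 => h1.ne (sub_eq_zero.2 h0), ?_⟩
  have h2 : cl (y - s) = cl y := by
    refine X.F.cl_near hyn ?_
    have h3 : y - s - y = -s := by ring
    rw [h3]
    exact hs1.neg.mono (by omega)
  rw [h s hs, h2, hδ]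

private theorem step (X : Sys A) (β : k) (δ : Sq k) (hβ : A.ge 0 β) (n : ℕ) :
    ∀ b : ℤ, b + 1 = n → b + A.L + 2 ≤ X.m →
      (∀ t ∈ X.T, A.ge b (t - β) → X.D t = δ) → StFirst X := by
  induction n with
  | zero =>
    intro b hb _ hP
    left
    refine far X δ fun t ht => hP t ht ?_
    have h1 : A.ge (-1) (t - β) := (X.ge_neg_one ht).sub (hβ.mono (by omega))
    exact h1.mono (by omega)
  | succ n ih =>
    intro b hb hm hP
    by_cases h : ∀ t ∈ X.T, A.ge (b - 1) (t - β) → X.D t = δ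
    · exact ih (b - 1) (by push_cast at hb; omega) (by omega) h
    · right
      push Not at h
      obtain ⟨s, hs, h1, h2⟩ := h
      refine ⟨β, b, δ, hβ, by push_cast at hb; omega, hm, hP, s, hs, ?_, h2⟩
      rcases h1.lt_or with h3 | h3
      · exact h3
      · exact absurd (hP s hs (by rwa [sub_add_cancel] at h3)) h2

end Firstaux

theorem stFirst (X : Sys A) (h : StBaire X) : StFirst X := by
  obtain ⟨β, b, δ, hβ, hb, hm, hP⟩ := h
  exact Firstaux.step X β δ hβ (b + 1).toNat b (by omega) hm hP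

end Pool.Agent.Lib.MP_c385f6_ag.DyK
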