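import Mathlib
import Pool.Agent.Lib.MP_c385f6_ag.DyK.Stmts

/-!
Correction of the unramified errors at a given valuation.
-/

namespace Pool.Agent.Lib.MP_c385f6_ag.DyK

open Pool.Agent.Lib.MP_c385f6_ag

variable {k : Type*} [NormedField k] [CharZero k] {A : Dya k}

namespace Fixaux

/-- The coefficient of the unramified class in the error. -/
private noncomputable def bb (X : Sys A) (y s : k) : ZMod 2 := by
  classical
  exact if X.g y s = 0 then 0 else 1

private theorem bb_spec (X : Sys A) {y s : k} (h : X.g y s = 0 ∨ X.g y s = X.eps) :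
    X.g y s = bb X y s • X.eps := by
  classical
  rw [bb]
  rcases h with h | h
  · rw [if_pos h, h, zero_smul]
  · rw [if_neg (by rw [h]; exact X.F.eps_ne), h, one_smul]

omit [CharZero k] in
private theorem frac {y s t : k} (h : y - s ≠ 0) :
    (t - s) / (y - s) = 1 - (y - t) / (y - s) := by
  field_simp
  ring

omit [CharZero k] in
private theorem sub_ne_of {y s t : k} {i j : ℤ} (hs : A.eq i (y - s)) (ht : A.eq j (y - t))
    (hij : i < j) : s ≠ t ∧ A.eq i (s - t) := by
  have h1 : A.eq i (s - t) := by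
    rw [Dya.eq_sub_comm]
    have h2 : t - s = (y - s) - (y - t) := by ring
    rw [h2]
    exact hs.sub_of_lt ht.ge hij
  exact ⟨sub_ne_zero.1 h1.ne, h1⟩

end Fixaux

open Fixaux in
/-- Correction of the unramified errors at valuation `l`. -/
theorem stFix (X : Sys A) (h1 : StResOne X) (h2 : StResTwo X) : StFix X := by
  intro y l hl hlm hst
  obtain ⟨hy, hyT, hlow, hlev⟩ := hst
  have hL := A.two_le_L
  obtain ⟨s3, hs3, hw⟩ := X.exists_level hy (i := l + 1) (by omega) (by omega)
  set w := y - s3 with hwdef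
  set g3 := X.g y s3 with hg3
  have hys3 : y ≠ s3 := sub_ne_zero.1 hw.ne
  -- the levels below `l`
  have hA : ∀ t ∈ X.T, ∀ i, i < l → A.eq i (y - t) →
      bf A.sym g3 (cl (1 - w / (y - t))) = 0 := by
    intro t ht i hi hit
    have hne := (sub_ne_of hit hw (by omega)).1
    have h := X.rel_zero hs3 ht hne.symm hys3 (sub_ne_zero.1 hit.ne) (hlow t ht i hi hit)
    rwa [frac hit.ne] at h
  -- the level `l`
  have hB : ∀ t ∈ X.T, A.eq l (y - t) → bf A.sym g3 (cl (1 - w / (y - t))) =
      bb X y t * (((l - (l + 1) : ℤ) : ZMod 2) + bf A.sym X.eps g3) := by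
    intro t ht hit
    obtain ⟨hne, hlt⟩ := sub_ne_of hit hw (by omega)
    have h := X.rel_eps ht hs3 hne (sub_ne_zero.1 hit.ne) (bb_spec X (hlev t ht hit)) hlt hw
    rwa [frac hit.ne] at h
  have hm1 : ((l - (l + 1) : ℤ) : ZMod 2) = 1 := by
    have h3 : l - (l + 1) = -1 := by ring
    rw [h3]
    decide
  -- the class at `s3` is even
  have hev : bf A.sym X.eps g3 = 0 := by
    by_contra hne
    have h3 : bf A.sym X.eps g3 = 1 := by
      have key : ∀ z : ZMod 2, z ≠ 0 → z = 1 := by decide
      exact key _ hne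
    have h4 : Perp A g3 1 := by
      refine h1 y w l g3 hy hl hlm hw ?_
      intro t ht i hi hit
      rcases hi.lt_or_eq with hi | rfl
      · exact hA t ht i hi hit
      · rw [hB t ht hit, h3, hm1]
        have : (1 : ZMod 2) + 1 = 0 := by decide
        rw [this, mul_zero]
    exact hne (X.F.perp_one_even h4)
  have hB' : ∀ t ∈ X.T, A.eq l (y - t) → bf A.sym g3 (cl (1 - w / (y - t))) = bb X y t := by
    intro t ht hit
    rw [hB t ht hit, hev, hm1, add_zero, mul_one]
  -- the coefficient only depends on the direction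
  have hC : ∀ t ∈ X.T, ∀ t' ∈ X.T, A.eq l (y - t) → A.eq l (y - t') → A.eq (l + 1) (t - t') →
      bb X y t = bb X y t' := by
    intro t ht t' ht' hlt hlt' htt
    have h := X.rel_eps_eps ht ht' (sub_ne_zero.1 htt.ne) (bb_spec X (hlev t ht hlt))
      (bb_spec X (hlev t' ht' hlt')) htt hlt hlt'
    have h5 : ((l + 1 - l : ℤ) : ZMod 2) = 1 := by
      have h3 : l + 1 - l = 1 := by ring
      rw [h3, Int.cast_one]
    rw [h5, mul_one, mul_one] at h
    exact h.symm
  have hD : ∀ t ∈ X.T, ∀ t' ∈ X.T, A.eq l (y - t) → A.eq l (y - t') → A.ge (l + 1) (t - t') →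
      bb X y t = bb X y t' := by
    intro t ht t' ht' hlt hlt' htt
    have ht0 : A.ge 0 t := by
      have h3 := hy.sub (hlt.ge' hl)
      rwa [sub_sub_cancel] at h3
    rcases X.third ht0 (n := l + 1) (by omega) (by omega) htt with h3 | ⟨s, hs, h3, h4⟩
    · exact hC t ht t' ht' hlt hlt' h3
    · have h5 : A.eq l (y - s) := by
        have h6 : y - s = (y - t) + (t - s) := by ring
        rw [h6]
        exact hlt.add h3.ge
      rw [hC t ht s hs hlt h5 h3, hC t' ht' s hs hlt' h5 h4]
  have hP : Perp A g3 2 := by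
    refine h2 y w l g3 hy hl hlm hw hA ?_
    intro t ht t' ht' hlt hlt' htt
    rw [hB' t ht hlt, hB' t' ht' hlt', hD t ht t' ht' hlt hlt' htt]
  obtain ⟨ξ, hξ, hf⟩ := X.F.dual 1 (fun z => bf A.sym g3 (cl (1 - z)))
    (fun x y hx hy => X.F.perp_two_add hP hx hy) (fun x hx => hP.sub hx)
  have hη : A.ge (A.L + l) (ξ * w) := by
    have := hξ.mul hw.ge
    have h3 : A.L - 1 + (l + 1) = A.L + l := by ring
    rwa [h3] at this
  obtain ⟨y', hy', hy'T⟩ := Sys.exists_near A X.T (y + ξ * w) (l + A.L + 1)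
  refine ⟨y', ?_, hy'T, ?_⟩
  · have h3 : y' = y + ξ * w + (y' - (y + ξ * w)) := by ring
    rw [h3]
    exact (hy.add (hη.mono (by omega))).add (hy'.mono (by omega))
  · intro s hs i hi his
    have h3 : A.eq i (y + ξ * w - s) := by
      have h4 : y + ξ * w - s = (y' - s) - (y' - (y + ξ * w)) := by ring
      rw [h4]
      exact his.sub_of_lt hy' (by omega)
    have h5 : A.eq i (y - s) := by
      have h4 : y - s = (y + ξ * w - s) - ξ * w := by ring
      rw [h4]
      exact h3.sub_of_lt hη (by omega)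
    rw [X.g_near h3 (hy'.mono (by omega)), X.g_move h5 (hη.mono (by omega))]
    rcases hi.lt_or_eq with hi | rfl
    · rw [hlow s hs i hi h5, zero_add, X.F.E_zero _ ?_, zero_smul]
      exact (hη.div h5).mono (by omega)
    · have h6 : A.ge 1 (w / (y - s)) := by
        have := (hw.div h5).ge
        rwa [add_sub_cancel_left] at this
      have h7 : ξ * w / (y - s) = ξ * (w / (y - s)) := mul_div_assoc _ _ _
      rw [h7, ← hf _ h6, hB' s hs h5, bb_spec X (hlev s hs h5)]
      exact sq_add_self _

end Pool.Agent.Lib.MP_c385f6_ag.DyK
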