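import Mathlib
import Pool.Agent.Lib.MP_c385f6_ag.DyK.Stmts

/-!
The step out of a maximal ball with constant classes.
-/

namespace Pool.Agent.Lib.MP_c385f6_ag.DyK

open Pool.Agent.Lib.MP_c385f6_ag

namespace Initaux

variable {k : Type*} [NormedField k] [CharZero k] {A : Dya k} (X : Sys A)

/-- The colours on the sphere around the ball. -/
theorem sphere {β : k} {b : ℤ} {δ : Sq k} (hβ : A.ge 0 β) (hb : 0 ≤ b)
    (hbm : b + A.L + 2 ≤ X.m) (hP : ∀ t ∈ X.T, A.ge b (t - β) → X.D t = δ) {s : k}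
    (hs : s ∈ X.T) (hsβ : A.eq (b - 1) (s - β)) :
    X.D s = δ ∨ (X.D s = δ + X.eps ∧ bf A.sym X.eps δ = ((b - 1 : ℤ) : ZMod 2)) := by
  have hL := A.two_le_L
  have key : ∀ x, A.eq (b - 1) x → A.ge b (x - (s - β)) →
      bf A.sym (δ + X.D s) (cl x) = bf A.sym (δ + X.D s) δ := by
    intro x hx hxs
    have h1 : A.ge 0 (s - x) := by
      have h2 : s - x = β - (x - (s - β)) := by ring
      rw [h2]
      exact hβ.sub (hxs.mono hb)
    obtain ⟨t, ht, -, h3⟩ := X.near h1
    have h4 : A.ge b (t - β) := by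
      have h5 : t - β = -(s - x - t) - (x - (s - β)) := by ring
      rw [h5]
      exact (h3.neg.mono (by omega)).sub hxs
    have h6 : s ≠ t := by
      rintro rfl
      have := hsβ.not_ge h4
      omega
    have h7 := X.col hs ht h6 (sq_add_cancel δ (X.D s)).symm (hP t ht h4)
    have h8 : cl (s - t) = cl x := by
      refine X.F.cl_near hx ?_
      have h9 : s - t - x = s - x - t := by ring
      rw [h9]
      exact h3.mono (by omega)
    rw [← h7, h8]
  have h1 := key (s - β) hsβ (by rw [sub_self]; exact Dya.ge_zero _)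
  have hperp : Perp A (δ + X.D s) 1 := by
    intro u hu
    have h2 : A.ge b ((s - β) * (1 + u) - (s - β)) := by
      have h3 : (s - β) * (1 + u) - (s - β) = (s - β) * u := by ring
      rw [h3]
      exact (hsβ.ge.mul hu).mono (by omega)
    have h3 : A.eq (b - 1) ((s - β) * (1 + u)) := by
      have := hsβ.mul (Dya.eq.one_add hu)
      rwa [add_zero] at this
    have h4 := key _ h3 h2
    rw [cl_mul hsβ.ne (Dya.one_add_ne hu), map_add, h1] at h4
    exact left_eq_add.1 h4.symm
  rcases X.F.perp_one hperp with h2 | h2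
  · left
    exact (sq_add_eq_zero.1 h2).symm
  · right
    rw [h2, X.F.par (b - 1) _ hsβ] at h1
    refine ⟨?_, h1.symm⟩
    rw [← h2, sq_add_cancel]

/-- The functional on the larger ball. -/
theorem functional {β : k} {b : ℤ} {δ : Sq k} (hβ : A.ge 0 β) (hb : 0 ≤ b)
    (hbm : b + A.L + 2 ≤ X.m) (c : k → ZMod 2)
    (hc : ∀ s ∈ X.T, A.ge (b - 1) (s - β) → X.D s = δ + c s • X.eps)
    (hc0 : ∀ s ∈ X.T, A.ge b (s - β) → c s = 0) {s₀ : k} (hs₀ : s₀ ∈ X.T)
    (hs₀β : A.eq (b - 1) (s₀ - β)) (hc1 : c s₀ = 1)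
    (hδ : bf A.sym X.eps δ = ((b - 1 : ℤ) : ZMod 2)) :
    ∃ ξ, A.ge (A.L - (b - 1)) ξ ∧
      ∀ s ∈ X.T, A.ge (b - 1) (s - β) → c s = X.E (ξ * (s - β)) := by
  have hL := A.two_le_L
  rcases hb.eq_or_lt with rfl | hb1
  · -- the ball of all integral elements
    have hr : s₀ = X.r := by
      by_contra hne
      have h1 : A.ge 0 (s₀ - β) := (X.N.int s₀ hs₀ hne).sub hβ
      have := hs₀β.not_ge h1
      omega
    obtain ⟨ξ, hξ, h1⟩ := X.F.nondeg (0 - 1) (s₀ - β) hs₀β
    refine ⟨ξ, hξ.ge, fun s hs hsβ => ?_⟩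
    by_cases hsr : s = X.r
    · rw [hsr, ← hr, h1, hc1]
    · have h2 : A.ge 0 (s - β) := (X.N.int s hs hsr).sub hβ
      rw [hc0 s hs h2, X.F.E_zero _ ((hξ.ge.mul h2).mono (by omega))]
  · obtain ⟨s₂, hs₂, h2⟩ := X.exists_level hβ (i := b - 2) (by omega) (by omega)
    have hX0 : A.eq (b - 2) (s₂ - β) := Dya.eq_sub_comm.1 h2
    set X0 := s₂ - β with hX0d
    set γ := δ + X.D s₂ with hγ
    have hD2 : X.D s₂ = δ + γ := (sq_add_cancel δ (X.D s₂)).symm
    -- the relation with a point of the larger ball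
    have hrel : ∀ s ∈ X.T, A.ge (b - 1) (s - β) →
        bf A.sym γ (cl (s₂ - s) + δ) = c s * (1 + bf A.sym X.eps γ) := by
      intro s hs hsβ
      have hne : s₂ ≠ s := by
        rintro rfl
        have := hX0.not_ge hsβ
        omega
      have h3 := X.col_col hs₂ hs hne hD2 (hc s hs hsβ)
      have h4 : A.eq (b - 2) (s - s₂) := by
        rw [Dya.eq_sub_comm]
        have h5 : s₂ - s = X0 - (s - β) := by rw [hX0d]; ring
        rw [h5]
        exact hX0.sub (hsβ.mono (by omega))
      rw [LinearMap.map_smul₂, map_smul, map_add (bf A.sym X.eps), X.F.par (b - 2) _ h4, hδ,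
        bf_comm A.sym γ X.eps, smul_eq_mul, smul_eq_mul] at h3
      have h6 : ((b - 2 : ℤ) : ZMod 2) + ((b - 1 : ℤ) : ZMod 2) = 1 := by
        rw [← Int.cast_add]
        have h7 : b - 2 + (b - 1) = 2 * (b - 2) + 1 := by ring
        rw [h7, Int.cast_add, Int.cast_mul, Int.cast_one]
        have h8 : ((2 : ℤ) : ZMod 2) = 0 := by decide
        rw [h8, zero_mul, zero_add]
      rw [h6] at h3
      have key : ∀ u v w : ZMod 2, u + v * 1 + v * w = 0 → u = v * (1 + w) := by decide
      exact key _ _ _ h3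
    -- the point near the centre
    have hcen : bf A.sym γ (cl X0 + δ) = 0 := by
      obtain ⟨t, ht, -, h3⟩ := X.near hβ
      have h4 : A.ge b (t - β) := (Dya.ge_sub_comm.1 h3).mono (by omega)
      have h5 := hrel t ht (h4.mono (by omega))
      rw [hc0 t ht h4, zero_mul] at h5
      have h6 : cl (s₂ - t) = cl X0 := by
        refine X.F.cl_near hX0 ?_
        have h7 : s₂ - t - X0 = β - t := by rw [hX0d]; ring
        rw [h7]
        exact h3.mono (by omega)
      rwa [h6] at h5
    have hdiv : ∀ x, A.ge (b - 1) x → A.ge 1 (x / X0) := by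
      intro x hx
      exact (hx.div hX0).mono (by omega)
    have hval : ∀ s ∈ X.T, A.ge (b - 1) (s - β) →
        bf A.sym γ (cl (1 - (s - β) / X0)) = c s * (1 + bf A.sym X.eps γ) := by
      intro s hs hsβ
      have h3 := hrel s hs hsβ
      have h4 : s₂ - s = X0 * (1 - (s - β) / X0) := by
        field_simp [hX0.ne]
        rw [hX0d]
        ring
      rw [h4, cl_mul hX0.ne (Dya.one_sub_ne (hdiv _ hsβ)), add_right_comm, map_add, hcen,
        zero_add] at h3
      exact h3
    -- approximation of an element of the ball by points of the net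
    have hnear : ∀ n, 0 ≤ n → b - 1 ≤ n → n ≤ b → ∀ x, A.ge n x → ∃ t ∈ X.T, A.ge n (t - β) ∧
        cl (1 - x / X0) = cl (1 - (t - β) / X0) := by
      intro n hn hn1 hn2 x hx
      obtain ⟨t, ht, -, h3⟩ := X.near (hβ.add (hx.mono hn))
      have h4 : A.ge n (t - β) := by
        have h5 : t - β = x - (β + x - t) := by ring
        rw [h5]
        exact hx.sub (h3.mono (by omega))
      refine ⟨t, ht, h4, ?_⟩
      refine X.F.cl_near (Dya.eq.one_sub (hdiv _ (h4.mono hn1))) ?_
      have h6 : 1 - x / X0 - (1 - (t - β) / X0) = -((β + x - t) / X0) := by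
        field_simp [hX0.ne]
        ring
      rw [h6]
      exact ((h3.div hX0).neg).mono (by omega)
    have hperp2 : Perp A γ 2 := by
      intro z hz
      have h3 : A.ge b (-(z * X0)) := ((hz.mul hX0.ge).neg).mono (by omega)
      obtain ⟨t, ht, h4, h5⟩ := hnear b (by omega) (by omega) le_rfl _ h3
      have h6 : 1 - -(z * X0) / X0 = 1 + z := by
        field_simp [hX0.ne]
        ring
      rw [h6] at h5
      rw [h5, hval t ht (h4.mono (by omega)), hc0 t ht h4, zero_mul]
    have hγ0 : bf A.sym X.eps γ = 0 := by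
      have key : ∀ u : ZMod 2, u = 0 ∨ u = 1 := by decide
      rcases key (bf A.sym X.eps γ) with h3 | h3
      · exact h3
      · refine X.F.perp_one_even ?_
        intro z hz
        have h4 : A.ge (b - 1) (-(z * X0)) := ((hz.mul hX0.ge).neg).mono (by omega)
        obtain ⟨t, ht, h5, h6⟩ := hnear (b - 1) (by omega) le_rfl (by omega) _ h4
        have h7 : 1 - -(z * X0) / X0 = 1 + z := by
          field_simp [hX0.ne]
          ring
        have h8 : (1 : ZMod 2) + 1 = 0 := by decide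
        rw [h7] at h6
        rw [h6, hval t ht h5, h3, h8, mul_zero]
    obtain ⟨ξ, hξ, h3⟩ := X.F.dual (b - 1) (fun x => bf A.sym γ (cl (1 - x / X0)))
      (by
        intro x y hx hy
        show bf A.sym γ (cl (1 - (x + y) / X0)) = _
        rw [add_div]
        exact X.F.perp_two_add hperp2 (hdiv _ hx) (hdiv _ hy))
      (by
        intro x hx
        exact hperp2.sub ((hx.div hX0).mono (by omega)))
    refine ⟨ξ, hξ, fun s hs hsβ => ?_⟩
    have h4 := hval s hs hsβ
    rw [hγ0, add_zero, mul_one] at h4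
    rw [← h4]
    exact h3 _ hsβ

end Initaux

open Initaux in
/-- The step out of a maximal ball with constant classes. -/
theorem stInit {k : Type*} [NormedField k] [CharZero k] {A : Dya k} (X : Sys A) : StInit X := by
  intro β b δ hβ hb hbm hP hex
  obtain ⟨s₀, hs₀, hs₀β, hne⟩ := hex
  have hL := A.two_le_L
  have h₀ := (sphere X hβ hb hbm hP hs₀ hs₀β).resolve_left hne
  have hδ := h₀.2
  classical
  set c : k → ZMod 2 := fun s => if X.D s = δ then 0 else 1 with hcd
  have hc : ∀ s ∈ X.T, A.ge (b - 1) (s - β) → X.D s = δ + c s • X.eps := by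
    intro s hs hsβ
    by_cases h : X.D s = δ
    · have h1 : c s = 0 := if_pos h
      rw [h1, zero_smul, add_zero, h]
    · have h1 : c s = 1 := if_neg h
      rw [h1, one_smul]
      rcases hsβ.lt_or with h2 | h2
      · exact ((sphere X hβ hb hbm hP hs h2).resolve_left h).1
      · exact absurd (hP s hs (h2.mono (by omega))) h
  have hc0 : ∀ s ∈ X.T, A.ge b (s - β) → c s = 0 := fun s hs hsβ => if_pos (hP s hs hsβ)
  have hc1 : c s₀ = 1 := if_neg hne
  obtain ⟨ξ, hξ, hcξ⟩ := functional X hβ hb hbm c hc hc0 hs₀ hs₀β hc1 hδ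
  have hξe : A.eq (A.L - (b - 1)) ξ := by
    rcases hξ.lt_or with h1 | h1
    · exact h1
    · exfalso
      have h2 := hcξ s₀ hs₀ hs₀β.ge
      rw [X.F.E_zero _ ((h1.mul hs₀β.ge).mono (by omega)), hc1] at h2
      exact one_ne_zero h2
  have hξi : A.eq (b - 1 - A.L) ξ⁻¹ := by
    have h1 := hξe.inv
    have h2 : -(A.L - (b - 1)) = b - 1 - A.L := by ring
    rwa [h2] at h1
  have hδν : bf A.sym X.eps δ = ((b - 1 - A.L : ℤ) : ZMod 2) := by
    rw [hδ, ZMod.intCast_eq_intCast_iff_dvd_sub]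
    refine ⟨-(A.e : ℤ), ?_⟩
    rw [Dya.L]
    push_cast
    ring
  obtain ⟨Y, hY, hYδ, hYξ⟩ := X.F.class_rep_near hδν hξi
  refine ⟨β + Y, by rwa [add_sub_cancel_left], fun s hs hsβ => ?_⟩
  have h1 : A.ge A.L ((s - β) / Y) := (hsβ.div hY).mono (by omega)
  have h2 : β + Y - s = Y * (1 - (s - β) / Y) := by
    field_simp [hY.ne]
    ring
  have h3 : A.ge A.L (ξ * (s - β)) := (hξe.ge.mul hsβ).mono (by omega)
  have h4 : X.E ((s - β) / Y) = X.E (ξ * (s - β)) := by
    refine X.F.E_congr h3 ?_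
    have h5 : (s - β) / Y - ξ * (s - β) = -(ξ * (s - β) * (Y - ξ⁻¹) / Y) := by
      field_simp [hY.ne, hξe.ne]
      ring
    rw [h5]
    exact (((h3.mul hYξ).div hY).neg).mono (by omega)
  rw [h2, cl_mul hY.ne (Dya.one_sub_ne (h1.mono (by omega))), hYδ, X.F.one_sub_cl h1, h4,
    ← hcξ s hs hsβ]
  exact hc s hs hsβ

end Pool.Agent.Lib.MP_c385f6_ag.DyK
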