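import Mathlib
import Pool.Agent.Lib.MP_c385f6_ag.DyK.Stmts

/-!
Every finite extension of the 2-adic numbers is a dyadic field.
-/

namespace Pool.Agent.Lib.MP_c385f6_ag.DyK

open Pool.Agent.Lib.MP_c385f6_ag

namespace Instaux

section
variable {k : Type*} [NormedField k] [NormedAlgebra ℚ_[2] k]

theorem norm_two' : ‖(2 : k)‖ = 1 / 2 := by
  have h : (2 : k) = algebraMap ℚ_[2] k 2 := (map_ofNat _ 2).symm
  rw [h, norm_algebraMap']
  have h2 : ‖((2 : ℕ) : ℚ_[2])‖ = ((2 : ℕ) : ℝ)⁻¹ := Padic.norm_p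
  rw [one_div]
  exact_mod_cast h2

theorem norm_four' : ‖(4 : k)‖ = 1 / 4 := by
  have : (4 : k) = 2 * 2 := by norm_num
  rw [this, norm_mul, norm_two']
  norm_num

variable [IsUltrametricDist k]

omit [NormedAlgebra ℚ_[2] k] in
theorem norm_add_le_of {u v : k} {c : ℝ} (hu : ‖u‖ ≤ c) (hv : ‖v‖ ≤ c) : ‖u + v‖ ≤ c :=
  (IsUltrametricDist.norm_add_le_max u v).trans (max_le hu hv)

omit [NormedAlgebra ℚ_[2] k] in
theorem norm_sub_le_of {u v : k} {c : ℝ} (hu : ‖u‖ ≤ c) (hv : ‖v‖ ≤ c) : ‖u - v‖ ≤ c := by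
  rw [sub_eq_add_neg]
  exact norm_add_le_of hu (by rw [norm_neg]; exact hv)

/-- Numbers near one are squares. -/
theorem exists_sq_near [CompleteSpace k] {z : k} (hz : ‖z‖ < 1 / 4) :
    ∃ s : k, s ^ 2 = 1 + z := by
  have h4 : ‖(4 : k)‖ = 1 / 4 := norm_four'
  have h40 : (4 : k) ≠ 0 := by
    intro h
    rw [h, norm_zero] at h4
    norm_num at h4
  let t : k := z / 4
  have ht : ‖t‖ = 4 * ‖z‖ := by
    change ‖z / 4‖ = _
    rw [norm_div, h4]
    ring
  have ht1 : ‖t‖ < 1 := by rw [ht]; linarith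
  let s : Set k := {y | ‖y‖ ≤ ‖t‖}
  have hs : IsClosed s := isClosed_le (by fun_prop) continuous_const
  let f : k → k := fun y => t - y ^ 2
  have hf : ∀ x ∈ s, ∀ y ∈ s, ‖f x - f y‖ ≤ ‖t‖ * ‖x - y‖ := by
    intro x hx y hy
    have h1 : f x - f y = (x + y) * (y - x) := by
      change (t - x ^ 2) - (t - y ^ 2) = _
      ring
    rw [h1, norm_mul, norm_sub_rev y x]
    exact mul_le_mul_of_nonneg_right (norm_add_le_of hx hy) (norm_nonneg _)
  have h0s : (0 : k) ∈ s := by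
    change ‖(0 : k)‖ ≤ _
    rw [norm_zero]
    exact norm_nonneg _
  have hmaps : Set.MapsTo f s s := by
    intro x hx
    change ‖t - x ^ 2‖ ≤ _
    refine norm_sub_le_of le_rfl ?_
    rw [norm_pow]
    have hx' : ‖x‖ ≤ ‖t‖ := hx
    calc ‖x‖ ^ 2 ≤ ‖t‖ ^ 2 := pow_le_pow_left₀ (norm_nonneg _) hx' 2
      _ ≤ ‖t‖ := by
        rw [pow_two]
        exact mul_le_of_le_one_left (norm_nonneg _) ht1.le
  have hcontr : ContractingWith ‖t‖₊ (hmaps.restrict f s s) := by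
    refine ⟨by rw [← NNReal.coe_lt_coe]; exact ht1, ?_⟩
    apply LipschitzWith.of_dist_le_mul
    intro x y
    rw [Subtype.dist_eq, Subtype.dist_eq, dist_eq_norm, dist_eq_norm]
    exact hf x.1 x.2 y.1 y.2
  obtain ⟨y, -, hfix, -⟩ := ContractingWith.exists_fixedPoint' hs.isComplete hmaps hcontr h0s
    (edist_ne_top _ _)
  have hy : t - y ^ 2 = y := hfix
  have hy' : z = 4 * (y + y ^ 2) := by
    have h5 : z = 4 * t := by
      change z = 4 * (z / 4)
      field_simp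
    rw [h5]
    linear_combination 4 * hy
  exact ⟨1 + 2 * y, by rw [hy']; ring⟩

omit [NormedAlgebra ℚ_[2] k] [IsUltrametricDist k] in
/-- The value group. -/
theorem exists_val {p : k} (hp : 0 < ‖p‖) (hp1 : ‖p‖ < 1)
    (hmax : ∀ x : k, ‖x‖ < 1 → ‖x‖ ≤ ‖p‖) (x : k) (hx : x ≠ 0) :
    ∃ n : ℤ, ‖x‖ = ‖p‖ ^ n := by
  have hx0 : 0 < ‖x‖ := norm_pos_iff.2 hx
  obtain ⟨n, hn1, hn2⟩ := exists_mem_Ioc_zpow hx0 (one_lt_inv_iff₀.2 ⟨hp, hp1⟩)
  refine ⟨-(n + 1), ?_⟩
  rw [inv_zpow'] at hn1 hn2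
  by_contra hne
  have hlt : ‖x‖ < ‖p‖ ^ (-(n + 1)) := lt_of_le_of_ne hn2 hne
  have hp0 : 0 < ‖p‖ ^ (-(n + 1)) := zpow_pos hp _
  have h1 : ‖x / p ^ (-(n + 1))‖ < 1 := by
    rw [norm_div, norm_zpow, div_lt_one hp0]
    exact hlt
  have h2 := hmax _ h1
  rw [norm_div, norm_zpow, div_le_iff₀ hp0] at h2
  have h3 : ‖p‖ * ‖p‖ ^ (-(n + 1)) = ‖p‖ ^ (-n) := by
    rw [← zpow_one_add₀ hp.ne']
    congr 1
    ring
  rw [h3] at h2
  linarith

end

end Instaux

open Instaux in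
theorem stInst (k : Type*) [NormedField k] [NormedAlgebra ℚ_[2] k] [IsUltrametricDist k]
    [FiniteDimensional ℚ_[2] k] : StInst k := by
  have hprop : ProperSpace k := FiniteDimensional.proper ℚ_[2] k
  have hcompl : CompleteSpace k := inferInstance
  have hball : IsCompact (Metric.ball (0 : k) 1) :=
    Metric.isCompact_of_isClosed_isBounded (IsUltrametricDist.isClosed_ball 0 1)
      Metric.isBounded_ball
  obtain ⟨p, hp1, hmax⟩ := hball.exists_isMaxOn ⟨0, by simp⟩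
    (f := fun x : k => ‖x‖) continuous_norm.continuousOn
  have hp1' : ‖p‖ < 1 := by simpa using hp1
  have hmax' : ∀ x : k, ‖x‖ < 1 → ‖x‖ ≤ ‖p‖ := fun x hx => hmax (by simpa using hx)
  have h2 : ‖(2 : k)‖ = 1 / 2 := norm_two'
  have hp : 0 < ‖p‖ := by
    have := hmax' 2 (by rw [h2]; norm_num)
    rw [h2] at this
    linarith
  have h20 : (2 : k) ≠ 0 := by
    intro h
    rw [h, norm_zero] at h2
    norm_num at h2
  have hval := exists_val hp hp1' hmax'
  obtain ⟨n, hn⟩ := hval 2 h20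
  have hn0 : 0 < n := by
    by_contra h
    have h3 : 1 ≤ ‖p‖ ^ n := by
      have := zpow_le_zpow_right_of_le_one₀ hp hp1'.le (not_lt.1 h)
      simpa using this
    rw [← hn, h2] at h3
    norm_num at h3
  obtain ⟨e, rfl⟩ := Int.eq_ofNat_of_zero_le hn0.le
  obtain ⟨t, ht, hcov⟩ := Metric.totallyBounded_iff.1
    (isCompact_closedBall (0 : k) 1).totallyBounded 1 one_pos
  exact ⟨{
    pi := p
    e := e
    res := ht.toFinset
    pi_pos := hp
    pi_lt := hp1'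
    val := hval
    e_pos := by exact_mod_cast hn0
    two := hn
    ultra := fun x y => IsUltrametricDist.norm_add_le_max x y
    sq := fun z hz => exists_sq_near (by rwa [norm_four'] at hz)
    res_spec := fun x hx => by
      have hx' : x ∈ Metric.closedBall (0 : k) 1 := by simpa using hx
      obtain ⟨r, hr, hxr⟩ := Set.mem_iUnion₂.1 (hcov hx')
      exact ⟨r, ht.mem_toFinset.2 hr, by simpa [dist_eq_norm] using hxr⟩
    sym := goodSymbol_local
    fin := Nat.finite_of_card_ne_zero (by rw [card_sqCls]; positivity) }⟩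

end Pool.Agent.Lib.MP_c385f6_ag.DyK
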