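import Mathlib
import Pool.Agent.Lib.MP_c385f6_ag.DyK.Stmts

/-!
The multiplier at a leaf.
-/

namespace Pool.Agent.Lib.MP_c385f6_ag.DyK

open Pool.Agent.Lib.MP_c385f6_ag

variable {k : Type*} [NormedField k] [CharZero k]

namespace Leafaux

variable {A : Dya k} {eps : Sq k} {E : k → ZMod 2}

/-- A multiplier near to one does not change the class. -/
private theorem fin_of (F : Facts A eps E) {j : ℤ} {z : k} {g : Sq k} {l : k} (h0 : l ≠ 0)
    (h1 : cl l = g) (h2 : A.ge (A.L - j) (l - 1)) (h3 : A.ge (A.L + 1) ((l - 1) * z)) :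
    ∃ l : k, l ≠ 0 ∧ cl l = g ∧ A.ge (A.L - j) (l - 1) ∧ cl (1 + (l - 1) * z) = 0 :=
  ⟨l, h0, h1, h2, F.one_add_sq h3⟩

private theorem case_large (F : Facts A eps E) {j : ℤ} {z : k} (g : Sq k) (hz : A.eq j z)
    (hj : A.L + 1 ≤ j) :
    ∃ l : k, l ≠ 0 ∧ cl l = g ∧ A.ge (A.L - j) (l - 1) ∧ cl (1 + (l - 1) * z) = 0 := by
  obtain ⟨l, hl, h1, h2⟩ := F.tiny g 1
  have h3 : A.ge 0 (l - 1) := (h1.mono (by omega)).sub (Dya.eq_one A).ge
  refine fin_of F hl h2 (h3.mono (by omega)) ?_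
  exact (h3.mul hz.ge).mono (by omega)

private theorem case_eq (F : Facts A eps E) {z : k} (g : Sq k) (hz : A.eq A.L z)
    (hg : bf A.sym g (cl (1 - z)) = 0) :
    ∃ l : k, l ≠ 0 ∧ cl l = g ∧ A.ge (A.L - A.L) (l - 1) ∧ cl (1 + (l - 1) * z) = 0 := by
  have hL := A.two_le_L
  have key : ∀ c : ZMod 2, c = 0 ∨ c = 1 := by decide
  rcases key (E z) with h | h
  · obtain ⟨l, hl, h1, h2⟩ := F.tiny g 1
    have h3 : A.ge 0 (l - 1) := (h1.mono (by omega)).sub (Dya.eq_one A).ge
    refine ⟨l, hl, h2, h3.mono (by omega), ?_⟩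
    have h4 : A.eq 0 (1 - z) := Dya.eq.one_sub (hz.ge' (by omega))
    have h5 : A.ge (0 + A.L + 1) (1 + (l - 1) * z - (1 - z)) := by
      have e : 1 + (l - 1) * z - (1 - z) = l * z := by ring
      rw [e]
      exact (h1.mul hz.ge).mono (by omega)
    rw [F.cl_near h4 h5, F.one_sub_cl hz.ge, h, zero_smul]
  · rw [F.one_sub_cl hz.ge, h, one_smul] at hg
    have hp : Perp A g A.L := by
      intro x hx
      rw [F.one_add x hx, map_smul, hg, smul_zero]
    obtain ⟨d, hd, h1⟩ := F.perp A.L g (by omega) le_rfl hp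
    have hd1 : A.ge 1 d := hd.mono (by omega)
    have e : 1 + d - 1 = d := by ring
    refine fin_of F (l := 1 + d) (Dya.one_add_ne hd1) h1.symm ?_ ?_
    · rw [e]
      exact hd1.mono (by omega)
    · rw [e]
      exact (hd1.mul hz.ge).mono (by omega)

private theorem case_small (F : Facts A eps E) {j : ℤ} {z : k} (g : Sq k) (h1j : 1 ≤ j)
    (hjL : j < A.L) (hz : A.eq j z) (hp : Perp A g (j + 1))
    (hg : bf A.sym g (cl (1 - z)) = 0) :
    ∃ l : k, l ≠ 0 ∧ cl l = g ∧ A.ge (A.L - j) (l - 1) ∧ cl (1 + (l - 1) * z) = 0 := by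
  obtain ⟨d, hd, h1⟩ := F.perp (j + 1) g (by omega) (by omega) hp
  have hd0 : A.ge (A.L - j) d := hd.mono (by omega)
  have hd1 : A.ge 1 d := hd0.mono (by omega)
  have e : 1 + d - 1 = d := by ring
  rcases hd0.lt_or with h2 | h2
  · have hs := F.symb (A.L - j) j d (-z) (by omega) h1j (by ring) hd0 hz.ge.neg
    rw [← h1, ← sub_eq_add_neg, hg] at hs
    have hdz : A.ge A.L (d * z) := (hd0.mul hz.ge).mono (by omega)
    have hdz' : d * -z = -(d * z) := by ring
    rw [hdz', F.E_neg hdz] at hs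
    rcases Int.even_or_odd (A.L - j) with hn | hn
    · obtain ⟨n, hn⟩ := hn
      have hn2 : A.L - j = 2 * n := by omega
      have hLe : A.L = 2 * (A.e : ℤ) := rfl
      rw [hn2] at h2
      obtain ⟨t, ht, ht2⟩ := F.lead n d h2
      have ht1 : A.eq 0 (1 + t) := Dya.eq.one_add (ht.ge' (by omega))
      have ht3 : A.eq 0 ((1 + t) ^ 2) := by
        have := ht1.pow 2
        rwa [mul_zero] at this
      have h3 : A.ge (2 * n + 1) (d - t ^ 2 - 2 * t) :=
        ht2.sub (((Dya.eq_two A).mul ht).ge' (by omega))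
      have h4 : (1 + d) / (1 + t) ^ 2 - 1 = (d - t ^ 2 - 2 * t) / (1 + t) ^ 2 := by
        have := ht1.ne
        field_simp
        ring
      have h5 : A.ge (2 * n + 1) ((1 + d) / (1 + t) ^ 2 - 1) := by
        rw [h4]
        have := h3.div ht3
        rwa [sub_zero] at this
      refine fin_of F (l := (1 + d) / (1 + t) ^ 2) (div_ne_zero (Dya.one_add_ne hd1) ht3.ne)
        ?_ (h5.mono (by omega)) ((h5.mul hz.ge).mono (by omega))
      rw [cl_div (Dya.one_add_ne hd1) ht3.ne, cl_sq, add_zero, h1]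
    · have hodd : ((A.L - j : ℤ) : ZMod 2) = 1 := by
        obtain ⟨n, hn⟩ := hn
        rw [hn]
        push_cast
        have h2' : (2 : ZMod 2) = 0 := by decide
        rw [h2', zero_mul, zero_add]
      rw [hodd, one_mul] at hs
      refine ⟨1 + d, Dya.one_add_ne hd1, h1.symm, by rwa [e], ?_⟩
      rw [e, F.one_add _ hdz, ← hs, zero_smul]
  · refine fin_of F (l := 1 + d) (Dya.one_add_ne hd1) h1.symm ?_ ?_
    · rwa [e]
    · rw [e]
      exact (h2.mul hz.ge).mono (by omega)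

end Leafaux

/-- The multiplier at a leaf. -/
theorem stLeaf (A : Dya k) : StLeaf A := by
  intro eps E F j z g hj hz hp hg
  rcases lt_trichotomy j A.L with h | h | h
  · exact Leafaux.case_small F g hj h hz hp hg
  · subst h
    exact Leafaux.case_eq F g hz hg
  · exact Leafaux.case_large F g hz (by omega)

end Pool.Agent.Lib.MP_c385f6_ag.DyK
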