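import Mathlib
import Pool.Agent.Lib.MP_c385f6_ag.DyK.Stmts

/-!
Every finite set of integral numbers lies in a net.
-/

namespace Pool.Agent.Lib.MP_c385f6_ag.DyK

open Pool.Agent.Lib.MP_c385f6_ag

variable {k : Type*} [NormedField k] [CharZero k] {A : Dya k}

namespace Netaux

omit [CharZero k] in
/-- Finite sets of representatives modulo powers of the uniformiser. -/
theorem exists_cover (A : Dya k) (n : ℕ) :
    ∃ R : Finset k, ∀ x, A.ge 0 x → ∃ y ∈ R, A.ge (n : ℤ) (x - y) := by
  classical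
  induction n with
  | zero =>
    refine ⟨{0}, fun x hx => ⟨0, Finset.mem_singleton_self 0, ?_⟩⟩
    rw [sub_zero]
    exact hx
  | succ n ih =>
    obtain ⟨R, hR⟩ := ih
    refine ⟨(A.res ×ˢ R).image fun p => p.1 + A.pi * p.2, fun x hx => ?_⟩
    obtain ⟨r, hr, h1⟩ := A.res_spec x (by
      have h := hx
      rwa [Dya.ge, zpow_zero] at h)
    have h2 : A.ge 0 (x - r) := by
      rw [Dya.ge, zpow_zero]
      exact h1.le
    have h3 : A.ge 1 (x - r) := by
      rcases h2.lt_or with h | h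
      · rw [Dya.eq, zpow_zero] at h
        rw [h] at h1
        exact absurd h1 (lt_irrefl 1)
      · exact h
    have h4 : A.ge 0 ((x - r) / A.pi) := by
      have := h3.div A.eq_pi
      rwa [sub_self] at this
    obtain ⟨y, hy, h5⟩ := hR _ h4
    refine ⟨r + A.pi * y, Finset.mem_image.2 ⟨(r, y), Finset.mem_product.2 ⟨hr, hy⟩, rfl⟩, ?_⟩
    have h6 : x - (r + A.pi * y) = A.pi * ((x - r) / A.pi - y) := by
      field_simp [A.pi_ne]
      ring
    rw [h6]
    have := A.eq_pi.ge.mul h5
    push_cast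
    rwa [add_comm] at this

omit [CharZero k] in
/-- Different elements of a finite set are different modulo a power of the uniformiser. -/
theorem exists_sep (A : Dya k) (S : Finset k) :
    ∃ M : ℤ, ∀ m, M ≤ m → ∀ s ∈ S, ∀ s' ∈ S, A.ge m (s - s') → s = s' := by
  classical
  have h1 : ∀ p : k × k, ∃ n : ℤ, p.1 ≠ p.2 → A.eq n (p.1 - p.2) := by
    intro p
    by_cases h : p.1 = p.2
    · exact ⟨0, fun h' => absurd h h'⟩
    · obtain ⟨n, hn⟩ := A.exists_eq (sub_ne_zero.2 h)
      exact ⟨n, fun _ => hn⟩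
  choose f hf using h1
  obtain ⟨M, hM⟩ := ((S ×ˢ S).image f).exists_le
  refine ⟨M + 1, fun m hm s hs s' hs' h => ?_⟩
  by_contra hne
  have h2 := (hf (s, s') hne).not_ge h
  have h3 := hM _ (Finset.mem_image.2 ⟨(s, s'), Finset.mem_product.2 ⟨hs, hs'⟩, rfl⟩)
  omega

omit [CharZero k] in
/-- A set of representatives modulo a power of the uniformiser which contains a given set. -/
theorem exists_repr (A : Dya k) (S : Finset k) (hS : ∀ s ∈ S, A.ge 0 s) (m : ℕ)
    (hm : ∀ s ∈ S, ∀ s' ∈ S, A.ge (m : ℤ) (s - s') → s = s') :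
    ∃ R : Finset k, S ⊆ R ∧ (∀ s ∈ R, A.ge 0 s) ∧
      (∀ s ∈ R, ∀ s' ∈ R, A.ge (m : ℤ) (s - s') → s = s') ∧
      ∀ x, A.ge 0 x → ∃ y ∈ R, A.ge (m : ℤ) (x - y) := by
  classical
  obtain ⟨R₀, hR₀⟩ := exists_cover A m
  let U : Finset k := S ∪ R₀.filter fun y => A.ge 0 y
  have hU : ∀ s ∈ U, A.ge 0 s := by
    intro s hs
    rcases Finset.mem_union.1 hs with h | h
    · exact hS s h
    · exact (Finset.mem_filter.1 h).2
  let P : Finset (Finset k) := U.powerset.filter fun R =>
    S ⊆ R ∧ ∀ a ∈ R, ∀ b ∈ R, A.ge (m : ℤ) (a - b) → a = b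
  have hSP : S ∈ P := Finset.mem_filter.2 ⟨Finset.mem_powerset.2 Finset.subset_union_left,
    subset_rfl, hm⟩
  obtain ⟨R, hR, hmax⟩ := P.exists_max_image Finset.card ⟨S, hSP⟩
  obtain ⟨hRU, hSR, hRm⟩ := Finset.mem_filter.1 hR
  rw [Finset.mem_powerset] at hRU
  refine ⟨R, hSR, fun s hs => hU s (hRU hs), hRm, fun x hx => ?_⟩
  obtain ⟨y, hy, h1⟩ := hR₀ x hx
  have h0 : (0 : ℤ) ≤ m := Int.natCast_nonneg m
  have hy0 : A.ge 0 y := by
    have := hx.sub (h1.mono h0)
    rwa [sub_sub_cancel] at this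
  have hyU : y ∈ U := Finset.mem_union_right _ (Finset.mem_filter.2 ⟨hy, hy0⟩)
  -- a representative congruent to `y`
  obtain ⟨z, hz, h2⟩ : ∃ z ∈ R, A.ge (m : ℤ) (y - z) := by
    by_contra hcon
    push Not at hcon
    have hyR : y ∉ R := by
      intro h
      refine hcon y h ?_
      rw [sub_self]
      exact Dya.ge_zero _
    have hP : insert y R ∈ P := by
      refine Finset.mem_filter.2 ⟨Finset.mem_powerset.2 (Finset.insert_subset hyU hRU),
        hSR.trans (Finset.subset_insert _ _), ?_⟩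
      intro a ha b hb hab
      rcases Finset.mem_insert.1 ha with ha | ha <;> rcases Finset.mem_insert.1 hb with hb | hb
      · rw [ha, hb]
      · rw [ha] at hab
        exact absurd hab (hcon b hb)
      · rw [hb] at hab
        exact absurd (Dya.ge_sub_comm.1 hab) (hcon a ha)
      · exact hRm a ha b hb hab
    have h3 := hmax _ hP
    rw [Finset.card_insert_of_notMem hyR] at h3
    omega
  refine ⟨z, hz, ?_⟩
  have := h1.add h2
  rwa [sub_add_sub_cancel] at this

end Netaux

theorem stNet (A : Dya k) : StNet A := by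
  classical
  intro S hS
  obtain ⟨M, hM⟩ := Netaux.exists_sep A S
  obtain ⟨m, hm1, hm2, hm3⟩ : ∃ m : ℕ, M ≤ m ∧ (Nat.card (Sq k) : ℤ) * (A.L + 2) ≤ m ∧
      2 * A.L ≤ m := by
    refine ⟨(max M (max ((Nat.card (Sq k) : ℤ) * (A.L + 2)) (2 * A.L))).toNat, ?_, ?_, ?_⟩
    · exact (le_max_left _ _).trans (Int.self_le_toNat _)
    · exact ((le_max_left _ _).trans (le_max_right _ _)).trans (Int.self_le_toNat _)
    · exact ((le_max_right _ _).trans (le_max_right _ _)).trans (Int.self_le_toNat _)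
  obtain ⟨R, hSR, hR0, hRm, hR⟩ := Netaux.exists_repr A S hS m (hM m hm1)
  have hL := A.two_le_L
  have hr : A.eq (-1) (A.pi ^ (-1 : ℤ)) := A.eq_pi_zpow (-1)
  have hp : A.eq (m : ℤ) (A.pi ^ (m : ℤ)) := A.eq_pi_zpow m
  have hnr : ∀ x, A.ge 0 x → ¬ A.ge (m : ℤ) (x - A.pi ^ (-1 : ℤ)) := by
    intro x hx h
    have h1 : A.eq (-1) (A.pi ^ (-1 : ℤ) - x) := hr.sub_of_lt hx (by omega)
    have h2 := h1.not_ge (Dya.ge_sub_comm.1 h)
    omega
  refine ⟨m, insert (A.pi ^ (-1 : ℤ)) (R ∪ R.image fun y => y + A.pi ^ (m : ℤ)),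
    A.pi ^ (-1 : ℤ), ⟨Finset.mem_insert_self _ _, hr, ?_, ?_, hm2, hm3⟩,
    hSR.trans (Finset.subset_union_left.trans (Finset.subset_insert _ _))⟩
  · intro t ht htr
    rcases Finset.mem_insert.1 ht with h | h
    · exact absurd h htr
    rcases Finset.mem_union.1 h with h | h
    · exact hR0 t h
    · obtain ⟨y, hy, rfl⟩ := Finset.mem_image.1 h
      exact (hR0 y hy).add (hp.ge' (by omega))
  · intro x hx
    obtain ⟨t, ht, h1⟩ := hR x hx
    refine ⟨t, Finset.mem_insert_of_mem (Finset.mem_union_left _ ht), t + A.pi ^ (m : ℤ),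
      Finset.mem_insert_of_mem (Finset.mem_union_right _ (Finset.mem_image_of_mem _ ht)), ?_, ?_⟩
    · rw [sub_add_cancel_left]
      exact hp.neg
    · intro s hs
      constructor
      · intro h2
        rcases Finset.mem_insert.1 hs with h | h
        · rw [h] at h2
          exact absurd h2 (hnr x hx)
        rcases Finset.mem_union.1 h with h | h
        · left
          refine hRm s h t ht ?_
          have := h1.sub h2
          rwa [sub_sub_sub_cancel_left] at this
        · right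
          obtain ⟨y, hy, rfl⟩ := Finset.mem_image.1 h
          have h3 : y = t := by
            refine hRm y hy t ht ?_
            have h4 := (h1.sub h2).sub hp.ge
            have h5 : x - t - (x - (y + A.pi ^ (m : ℤ))) - A.pi ^ (m : ℤ) = y - t := by ring
            rwa [h5] at h4
          rw [h3]
      · rintro (h | h)
        · rw [h]
          exact h1
        · rw [h]
          have h4 := h1.sub hp.ge
          rwa [sub_sub] at h4

end Pool.Agent.Lib.MP_c385f6_ag.DyK
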