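import Mathlib
import Pool.Agent.Lib.MP_c385f6_ag.DyK.Stmts

/-!
The next state and the last state.
-/

namespace Pool.Agent.Lib.MP_c385f6_ag.DyK

open Pool.Agent.Lib.MP_c385f6_ag

variable {k : Type*} [NormedField k] [CharZero k] {A : Dya k}

theorem stNext (X : Sys A) (h1 : StFix X) (h2 : StResOne X) : StNext X := by
  intro y l hl hlm hS
  obtain ⟨y', hy', hT, hz⟩ := h1 y l hl hlm hS
  refine ⟨y', hy', hT, fun s hs i hi h => hz s hs i (by omega) h, fun s hs h => ?_⟩
  have hys : y' ≠ s := sub_ne_zero.1 h.ne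
  refine X.F.perp_one (h2 y' (y' - s) l (X.g y' s) hy' hl hlm h fun t ht i hi hti => ?_)
  have hyt : y' ≠ t := sub_ne_zero.1 hti.ne
  have hst : s ≠ t := by
    rintro rfl
    have := h.uniq hti
    omega
  have h3 := X.rel_zero hs ht hst hys hyt (hz t ht i hi hti)
  have h4 : (s - t) / (y' - t) = 1 - (y' - s) / (y' - t) := by
    have := sub_ne_zero.2 hyt
    field_simp
    ring
  rwa [h4] at h3

theorem stLast (X : Sys A) (h : StNext X) : StLast X := by
  have key : ∀ (n : ℕ) (y : k) (l : ℤ), 0 ≤ l → l + n = X.m → X.State y l →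
      ∃ y', X.State y' X.m := by
    intro n
    induction n with
    | zero =>
      intro y l _ hl hS
      have : l = X.m := by
        push_cast at hl
        omega
      exact ⟨y, this ▸ hS⟩
    | succ n ih =>
      intro y l hl hlm hS
      push_cast at hlm
      obtain ⟨y', hS'⟩ := h y l hl (by omega) hS
      exact ih y' (l + 1) (by omega) (by omega) hS'
  intro y l hl hlm hS
  exact key (X.m - l).toNat y l hl (by omega) hS

end Pool.Agent.Lib.MP_c385f6_ag.DyK
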