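import Mathlib
import Pool.Agent.Lib.MP_c385f6_ag.DyK.Stmts

/-!
The step to the next larger ball.
-/

namespace Pool.Agent.Lib.MP_c385f6_ag.DyK

open Pool.Agent.Lib.MP_c385f6_ag

variable {k : Type*} [NormedField k] [CharZero k] {A : Dya k}

namespace Outaux

theorem exists_ratio {S Y u : k} {a ν i : ℤ} (hS : A.eq a S) (hY : A.eq ν Y) (h : ν < a)
    (hi : 0 ≤ i) (hu : A.ge i u) :
    ∃ x, A.ge (i + a) x ∧ (S - x) / (Y - x) = (1 - u) * (S / Y) := by
  have h1 : A.ge a ((1 - u) * S) := by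
    have h2 : A.ge 0 (1 - u) := (Dya.eq_one A).ge.sub (hu.mono hi)
    have := h2.mul hS.ge
    rwa [zero_add] at this
  have hd : A.eq ν (Y - (1 - u) * S) := hY.sub_of_lt h1 h
  have hYS : A.eq ν (Y - S) := hY.sub_of_lt hS.ge h
  have hY0 := hY.ne
  have hd0 := hd.ne
  have hYS0 := hYS.ne
  refine ⟨u * S * Y / (Y - (1 - u) * S), ?_, ?_⟩
  · have := ((hu.mul hS.ge).mul hY.ge).div hd
    rwa [add_sub_cancel_right] at this
  · have e1 : Y - u * S * Y / (Y - (1 - u) * S) = Y * (Y - S) / (Y - (1 - u) * S) := by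
      rw [eq_div_iff hd0, sub_mul, div_mul_cancel₀ _ hd0]
      ring
    have e2 : S - u * S * Y / (Y - (1 - u) * S) =
        (1 - u) * S * (Y - S) / (Y - (1 - u) * S) := by
      rw [eq_div_iff hd0, sub_mul, div_mul_cancel₀ _ hd0]
      ring
    rw [e1, e2, div_div_div_cancel_right₀ hd0, div_eq_iff (mul_ne_zero hY0 hYS0)]
    field_simp

theorem frac_near {eps : Sq k} {E : k → ZMod 2} (F : Facts A eps E) {S Y x : k} {a ν : ℤ}
    (x' : k) (h1 : A.eq a (S - x)) (h2 : A.eq ν (Y - x)) (h3 : A.ge (a + A.L + 1) (x' - x))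
    (h4 : A.ge (ν + A.L + 1) (x' - x)) :
    cl ((S - x') / (Y - x')) = cl ((S - x) / (Y - x)) := by
  have hL := A.two_le_L
  have e1 : S - x' - (S - x) = -(x' - x) := by ring
  have e2 : Y - x' - (Y - x) = -(x' - x) := by ring
  have h5 : A.ge (a + A.L + 1) (S - x' - (S - x)) := by
    rw [e1]
    exact h3.neg
  have h6 : A.ge (ν + A.L + 1) (Y - x' - (Y - x)) := by
    rw [e2]
    exact h4.neg
  have h7 : A.eq a (S - x') := h1.congr (h5.mono (by omega))
  have h8 : A.eq ν (Y - x') := h2.congr (h6.mono (by omega))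
  rw [cl_div h7.ne h8.ne, cl_div h1.ne h2.ne, F.cl_near h1 h5, F.cl_near h2 h6]

theorem near_ball (X : Sys A) {β x : k} {i : ℤ} (hβ : A.ge 0 β) (hi : 0 ≤ i) (him : i ≤ X.m)
    (hx : A.ge i x) : ∃ t ∈ X.T, A.ge i (t - β) ∧ A.ge X.m (t - β - x) := by
  obtain ⟨t, ht, -, h⟩ := X.near (hβ.add (hx.mono hi))
  have e1 : t - β - x = -(β + x - t) := by ring
  have h1 : A.ge X.m (t - β - x) := by
    rw [e1]
    exact h.neg
  refine ⟨t, ht, ?_, h1⟩
  have h2 := (h1.mono him).add hx
  rwa [sub_add_cancel] at h2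

/-- The last step. -/
theorem last_step (X : Sys A) {β y ξ : k} {ν j n : ℤ} (hY : A.eq ν (y - β))
    (hn : A.L - (j - 1) + ν = 2 * n) (hn1 : 1 ≤ n) (hne : n + 1 ≤ A.e)
    (hξ : A.eq (A.L - (j - 1)) ξ)
    (hs : ∀ s ∈ X.T, A.ge (j - 1) (s - β) → X.g y s = X.E (ξ * (s - β)) • X.eps) :
    ∃ y', A.eq ν (y' - β) ∧ ∀ s ∈ X.T, A.ge (j - 1) (s - β) → X.D s = cl (y' - s) := by
  have hL : A.L = 2 * (A.e : ℤ) := rfl
  set Y := y - β with hYdef
  have h1 : A.eq (2 * n) (ξ * Y) := by
    have := hξ.mul hY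
    rwa [hn] at this
  obtain ⟨θ, hθ, hθ2⟩ := X.F.lead n (ξ * Y) h1
  have h2 : A.ge (2 * n + 1) (2 * θ) := ((Dya.eq_two A).mul hθ).ge' (by omega)
  set om := 2 * θ + θ ^ 2 with hom
  have hom2 : A.ge (2 * n + 1) (om - ξ * Y) := by
    have e : om - ξ * Y = 2 * θ - (ξ * Y - θ ^ 2) := by
      rw [hom]
      ring
    rw [e]
    exact h2.sub hθ2
  have hom1 : A.ge (2 * n) om := by
    have := (hom2.mono (show 2 * n ≤ 2 * n + 1 by omega)).add h1.ge
    rwa [sub_add_cancel] at this
  have hθ1 : A.ge 1 θ := hθ.ge' hn1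
  have hom0 : (1 + θ) ^ 2 = 1 + om := by
    rw [hom]
    ring
  have hY0 := hY.ne
  refine ⟨β + Y * (1 + θ) ^ 2, ?_, fun s hsT hsj => ?_⟩
  · have e : β + Y * (1 + θ) ^ 2 - β = Y * (1 + θ) ^ 2 := by ring
    rw [e]
    have := hY.mul ((Dya.eq.one_add hθ1).pow 2)
    rwa [mul_zero, add_zero] at this
  · have h3 := hs s hsT hsj
    set x := s - β with hx
    set u := x / Y with hu
    have huv : A.ge (j - 1 - ν) u := hsj.div hY
    have huY : u * Y = x := div_mul_cancel₀ _ hY0
    have hu1 : A.ge 1 u := huv.mono (by omega)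
    have hu0 : A.eq 0 (1 - u) := Dya.eq.one_sub hu1
    have hom3 : A.eq 0 (1 + om) := Dya.eq.one_add (hom1.mono (by omega))
    have hden : A.eq 0 ((1 - u) * (1 + om)) := by
      have := hu0.mul hom3
      rwa [add_zero] at this
    set z := u * om / ((1 - u) * (1 + om)) with hz
    have huom : A.ge A.L (u * om) := (huv.mul hom1).mono (by omega)
    have hzL : A.ge A.L z := by
      have := huom.div hden
      rwa [sub_zero] at this
    have hz1 : z * ((1 - u) * (1 + om)) = u * om := div_mul_cancel₀ _ hden.ne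
    have hys : A.eq ν (y - s) := by
      have e : y - s = Y - x := by
        rw [hYdef, hx]
        ring
      rw [e]
      exact hY.sub_of_lt hsj (by omega)
    have hyY : y - s = Y * (1 - u) := by
      have e : y - s = Y - x := by
        rw [hYdef, hx]
        ring
      rw [e, ← huY]
      ring
    have e3 : β + Y * (1 + θ) ^ 2 - s = (y - s) * (1 + z) * (1 + θ) ^ 2 := by
      rw [hyY, hom0]
      have e4 : β + Y * (1 + om) - s = Y * (1 + om) - u * Y := by
        rw [huY, hx]
        ring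
      rw [e4]
      linear_combination (-Y) * hz1
    have hEz : X.E z = X.E (ξ * x) := by
      have h5 : A.ge A.L (ξ * x) := (hξ.ge.mul hsj).mono (by omega)
      refine X.F.E_congr h5 ?_
      have e5 : z - ξ * x = z * (1 - (1 - u) * (1 + om)) + u * (om - ξ * Y) := by
        rw [← huY]
        linear_combination hz1
      rw [e5]
      refine Dya.ge.add ?_ ((huv.mul hom2).mono (by omega))
      refine hzL.mul ?_
      have e6 : 1 - (1 - u) * (1 + om) = u - (1 - u) * om := by ring
      rw [e6]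
      refine hu1.sub ?_
      have := hu0.ge.mul (hom1.mono (show (1 : ℤ) ≤ 2 * n by omega))
      rwa [zero_add] at this
    have hL2 := A.two_le_L
    have hz0 : 1 + z ≠ 0 := Dya.one_add_ne (hzL.mono (by omega))
    rw [e3, cl_mul_sq _ (Dya.one_add_ne hθ1), cl_mul hys.ne hz0, X.F.one_add z hzL, hEz,
      sq_eq_add]
    exact h3

end Outaux

open Outaux

/-- Out -/
theorem stOut (X : Sys A) : StOut X := by
  intro β y ν j hβ hj hνj hjν hjm hY hc
  have hL := A.two_le_L
  have hL' : A.L = 2 * (A.e : ℤ) := rfl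
  have hys : ∀ {s : k} {i : ℤ}, ν < i → A.ge i (s - β) → A.eq ν (y - s) := by
    intro s i h h'
    have e : y - s = y - β - (s - β) := by ring
    rw [e]
    exact hY.sub_of_lt h' h
  have hfr : ∀ s t : k, (s - t) / (y - t) = (s - β - (t - β)) / (y - β - (t - β)) := by
    intro s t
    congr 1 <;> ring
  have hgt : ∀ t ∈ X.T, A.ge j (t - β) → X.g y t = 0 :=
    fun t ht h => Sys.g_eq_zero.2 (hc t ht h)
  -- (a)
  have hA : ∀ s ∈ X.T, A.eq (j - 1) (s - β) → X.g y s = 0 ∨
      (X.g y s = X.eps ∧ ((j - 1 - ν : ℤ) : ZMod 2) = 0) := by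
    intro s hs hS
    have key : ∀ x, A.ge j x →
        bf A.sym (X.g y s) (cl ((s - β - x) / (y - β - x))) = 0 := by
      intro x hx
      obtain ⟨t, ht, h1, h2⟩ := near_ball X hβ hj (by omega) hx
      have hst : s ≠ t := by
        rintro rfl
        have := hS.not_ge h1
        omega
      have h3 := X.rel_zero hs ht hst (sub_ne_zero.1 (hys (by omega) hS.ge).ne)
        (sub_ne_zero.1 (hys (by omega) h1).ne) (hgt t ht h1)
      rw [hfr] at h3
      rw [← frac_near X.F (t - β) (hS.sub_of_lt hx (by omega)) (hY.sub_of_lt hx (by omega))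
        (h2.mono (by omega)) (h2.mono (by omega))]
      exact h3
    have key2 : ∀ u, A.ge 1 u → bf A.sym (X.g y s) (cl (1 - u)) +
        bf A.sym (X.g y s) (cl ((s - β) / (y - β))) = 0 := by
      intro u hu
      obtain ⟨x, hx, hx2⟩ := exists_ratio hS hY (by omega) (by omega) hu
      have h1 := key x (hx.mono (by omega))
      rwa [hx2, cl_mul (Dya.one_sub_ne hu) (div_ne_zero hS.ne hY.ne), map_add] at h1
    have key3 : bf A.sym (X.g y s) (cl ((s - β) / (y - β))) = 0 := by
      have := key2 0 (Dya.ge_zero 1)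
      rwa [sub_zero, cl_one, map_zero, zero_add] at this
    have hP : Perp A (X.g y s) 1 := by
      intro x hx
      have := key2 (-x) hx.neg
      rwa [key3, add_zero, sub_neg_eq_add] at this
    rcases X.F.perp_one hP with h | h
    · exact Or.inl h
    · right
      refine ⟨h, ?_⟩
      rw [h, X.F.par _ _ (hS.div hY)] at key3
      exact key3
  -- (b)
  by_cases hpar : ((j - 1 - ν : ℤ) : ZMod 2) = 0
  swap
  · refine ⟨y, hY, fun s hs h => ?_⟩
    rcases h.lt_or with h1 | h1
    · rcases hA s hs h1 with h2 | ⟨-, h2⟩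
      · exact Sys.g_eq_zero.1 h2
      · exact absurd h2 hpar
    · exact hc s hs (h1.mono (by omega))
  have hpar2 : (2 : ℤ) ∣ j - 1 - ν := by
    have h1 : ((j - 1 - ν : ℤ) : ZMod 2) = ((0 : ℤ) : ZMod 2) := by rw [hpar, Int.cast_zero]
    rw [ZMod.intCast_eq_intCast_iff_dvd_sub] at h1
    have h2 : ((2 : ℕ) : ℤ) ∣ j - 1 - ν := by
      have := (dvd_neg (a := ((2 : ℕ) : ℤ))).2 h1
      rwa [neg_sub, sub_zero] at this
    exact_mod_cast h2
  obtain ⟨c, hcc⟩ := hpar2
  have hF : ∀ ξ, A.eq (A.L - (j - 1)) ξ →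
      (∀ s ∈ X.T, A.ge (j - 1) (s - β) → X.g y s = X.E (ξ * (s - β)) • X.eps) →
      ∃ y', A.eq ν (y' - β) ∧ ∀ s ∈ X.T, A.ge (j - 1) (s - β) → X.D s = cl (y' - s) :=
    fun ξ hξ hs => last_step X (n := A.e - c) hY (by omega) (by omega) (by omega) hξ hs
  rcases hj.eq_or_lt with rfl | hj1
  · -- the case `j = 0`
    have hr : A.eq (-1) (X.r - β) := X.N.top.sub_of_lt hβ (by omega)
    have hr' : A.eq (0 - 1) (X.r - β) := hr
    rcases hA X.r X.N.memr hr' with h | ⟨h, -⟩
    · refine ⟨y, hY, fun s hs _ => ?_⟩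
      rcases X.mem_int hs with h2 | rfl
      · exact hc s hs (h2.sub hβ)
      · exact Sys.g_eq_zero.1 h
    · obtain ⟨ξ, hξ, hξ1⟩ := X.F.nondeg (-1) _ hr
      refine hF ξ hξ fun s hs _ => ?_
      rcases X.mem_int hs with h2 | rfl
      · rw [hgt s hs (h2.sub hβ), X.F.E_zero _ ((hξ.ge.mul (h2.sub hβ)).mono (by omega)),
          zero_smul]
      · rw [h, hξ1, one_smul]
  · -- the case `1 ≤ j`
    obtain ⟨s2, hs2, hS2⟩ := X.exists_level hβ (i := j - 2) (by omega) (by omega)
    rw [Dya.eq_sub_comm] at hS2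
    have hodd : ((j - 2 - ν : ℤ) : ZMod 2) = 1 := by
      have e : j - 2 - ν = 2 * c - 1 := by omega
      rw [e, Int.cast_sub, Int.cast_mul, Int.cast_one]
      have h2 : ((2 : ℤ) : ZMod 2) = 0 := by decide
      rw [h2, zero_mul, zero_sub]
      decide
    have hb : ∀ s ∈ X.T, A.ge (j - 1) (s - β) → ∃ b : ZMod 2, X.g y s = b • X.eps := by
      intro s hs h
      rcases h.lt_or with h1 | h1
      · rcases hA s hs h1 with h2 | ⟨h2, -⟩
        · exact ⟨0, by rw [h2, zero_smul]⟩
        · exact ⟨1, by rw [h2, one_smul]⟩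
      · exact ⟨0, by rw [hgt s hs (h1.mono (by omega)), zero_smul]⟩
    have hrel : ∀ s ∈ X.T, A.ge (j - 1) (s - β) → ∀ b : ZMod 2, X.g y s = b • X.eps →
        bf A.sym (X.g y s2) (cl ((s2 - β - (s - β)) / (y - β - (s - β)))) =
          b * (1 + bf A.sym X.eps (X.g y s2)) := by
      intro s hs h b hbs
      have h1 : A.eq (j - 2) (s2 - s) := by
        have e : s2 - s = s2 - β - (s - β) := by ring
        rw [e]
        exact hS2.sub_of_lt h (by omega)
      have hst : s ≠ s2 := fun h' => h1.ne (by rw [h', sub_self])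
      have h3 := X.rel_eps hs hs2 hst (sub_ne_zero.1 (hys (by omega) h).ne) hbs
        (Dya.eq_sub_comm.1 h1) (hys (i := j - 2) (by omega) hS2.ge)
      rw [hfr, hodd] at h3
      exact h3
    have hΦ : ∀ x, A.ge j x →
        bf A.sym (X.g y s2) (cl ((s2 - β - x) / (y - β - x))) = 0 := by
      intro x hx
      obtain ⟨t, ht, h1, h2⟩ := near_ball X hβ hj (by omega) hx
      rw [← frac_near X.F (t - β) (hS2.sub_of_lt hx (by omega)) (hY.sub_of_lt hx (by omega))
        (h2.mono (by omega)) (h2.mono (by omega))]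
      rw [hrel t ht (h1.mono (by omega)) 0 (by rw [hgt t ht h1, zero_smul]), zero_mul]
    have hΦ0 : bf A.sym (X.g y s2) (cl ((s2 - β) / (y - β))) = 0 := by
      have := hΦ 0 (Dya.ge_zero _)
      rwa [sub_zero, sub_zero] at this
    have hP2 : Perp A (X.g y s2) 2 := by
      intro u hu
      obtain ⟨x, hx, hx2⟩ := exists_ratio hS2 hY (by omega) (by omega) hu.neg
      have h1 := hΦ x (hx.mono (by omega))
      rw [hx2, sub_neg_eq_add, cl_mul (Dya.one_add_ne (hu.mono (by omega)))
        (div_ne_zero hS2.ne hY.ne), map_add, hΦ0, add_zero] at h1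
      exact h1
    -- the functional
    set f : k → ZMod 2 := fun x => bf A.sym (X.g y s2) (cl (1 - x / (s2 - β))) with hf
    have hdiv : ∀ x i, A.ge (i + (j - 2)) x → A.ge i (x / (s2 - β)) := by
      intro x i h
      have := h.div hS2
      rwa [add_sub_cancel_right] at this
    have hf_add : ∀ x x', A.ge (j - 1) x → A.ge (j - 1) x' → f (x + x') = f x + f x' := by
      intro x x' h h'
      rw [hf]
      simp only []
      rw [add_div]
      exact X.F.perp_two_add hP2 (hdiv x 1 (h.mono (by omega))) (hdiv x' 1 (h'.mono (by omega)))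
    have hf_zero : ∀ x, A.ge (j - 1 + 1) x → f x = 0 := fun x h =>
      hP2.sub (hdiv x 2 (h.mono (by omega)))
    have hf_val : ∀ s ∈ X.T, A.ge (j - 1) (s - β) → ∀ b : ZMod 2, X.g y s = b • X.eps →
        f (s - β) = b * (1 + bf A.sym X.eps (X.g y s2)) := by
      intro s hs h b hbs
      rw [← hrel s hs h b hbs]
      have h1 : A.ge 1 ((s - β) / (s2 - β)) := hdiv _ 1 (h.mono (by omega))
      have h2 : A.ge 2 ((s - β) / (y - β)) := (h.div hY).mono (by omega)
      have h1' := Dya.one_sub_ne h1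
      have h2' := Dya.one_sub_ne (h2.mono (show (1 : ℤ) ≤ 2 by omega))
      have hS20 := hS2.ne
      have hY0 := hY.ne
      have e : (s2 - β - (s - β)) / (y - β - (s - β)) =
          (s2 - β) / (y - β) * ((1 - (s - β) / (s2 - β)) / (1 - (s - β) / (y - β))) := by
        have e1 : s2 - β - (s - β) = (s2 - β) * (1 - (s - β) / (s2 - β)) := by
          rw [mul_sub, mul_one, mul_div_cancel₀ _ hS20]
        have e2 : y - β - (s - β) = (y - β) * (1 - (s - β) / (y - β)) := by
          rw [mul_sub, mul_one, mul_div_cancel₀ _ hY0]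
        rw [e1, e2, mul_div_mul_comm]
      rw [e, cl_mul (div_ne_zero hS20 hY0) (div_ne_zero h1' h2'), map_add, hΦ0, zero_add,
        cl_div h1' h2', map_add, hP2.sub h2, add_zero]
    have key : ∀ z : ZMod 2, z = 0 ∨ z = 1 := by decide
    rcases key (bf A.sym X.eps (X.g y s2)) with hv | hv
    · obtain ⟨ξ, hξ, hfξ⟩ := X.F.dual (j - 1) f hf_add hf_zero
      have hval : ∀ s ∈ X.T, A.ge (j - 1) (s - β) →
          X.g y s = X.E (ξ * (s - β)) • X.eps := by
        intro s hs h
        obtain ⟨b, hbs⟩ := hb s hs h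
        have h1 := hf_val s hs h b hbs
        rw [hv, add_zero, mul_one, hfξ _ h] at h1
        rw [hbs, h1]
      rcases hξ.lt_or with h | h
      · exact hF ξ h hval
      · refine ⟨y, hY, fun s hs h1 => ?_⟩
        rw [← Sys.g_eq_zero, hval s hs h1, X.F.E_zero _ ((h.mul h1).mono (by omega)), zero_smul]
    · exfalso
      have hP1 : Perp A (X.g y s2) 1 := by
        intro z hz
        have hx : A.ge (j - 1) (-z * (s2 - β)) := (hz.neg.mul hS2.ge).mono (by omega)
        obtain ⟨s, hs, h1, h2⟩ := near_ball X hβ (by omega) (by omega) hx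
        obtain ⟨b, hbs⟩ := hb s hs h1
        have h3 := hf_val s hs h1 b hbs
        have h4 : (1 : ZMod 2) + 1 = 0 := by decide
        rw [hv, h4, mul_zero] at h3
        have h5 := hf_add _ _ hx (h2.mono (show j - 1 ≤ X.m by omega))
        rw [add_sub_cancel, h3, hf_zero _ (h2.mono (by omega)), add_zero] at h5
        have h6 : f (-z * (s2 - β)) = bf A.sym (X.g y s2) (cl (1 + z)) := by
          rw [hf]
          simp only []
          rw [mul_div_assoc, div_self hS2.ne, mul_one, sub_neg_eq_add]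
        rw [← h6, ← h5]
      rw [X.F.perp_one_even hP1] at hv
      exact zero_ne_one hv

end Pool.Agent.Lib.MP_c385f6_ag.DyK
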