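import Mathlib
import Pool.Agent.Lib.MP_c385f6_ag.DyK.Stmts

/-!
The descent to a point whose distance to the ball is one step more than the radius.
-/

set_option autoImplicit false

namespace Pool.Agent.Lib.MP_c385f6_ag.DyK

open Pool.Agent.Lib.MP_c385f6_ag

variable {k : Type*} [NormedField k] [CharZero k] {A : Dya k}

namespace Outeraux

/-- The descent. -/
theorem descend (X : Sys A) (h3 : StOut X) (β : k) (ν : ℤ) (hβ : A.ge 0 β) :
    ∀ (n : ℕ) (y : k), ν + 1 ≤ (n : ℤ) - 1 → (n : ℤ) - 1 ≤ ν + A.L → (n : ℤ) - 1 + A.L ≤ X.m →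
      A.eq ν (y - β) → (∀ s ∈ X.T, A.ge ((n : ℤ) - 1) (s - β) → X.D s = cl (y - s)) →
        StOuter X := by
  intro n
  induction n with
  | zero =>
    intro y h1 h2 h4 h5 h6
    left
    refine ⟨y, fun s hs => ?_⟩
    have h7 : A.ge (-1) (s - β) := (X.ge_neg_one hs).sub (hβ.mono (by omega))
    have h8 : A.eq ν (y - s) := by
      have h9 := h5.sub_of_lt h7 (by push_cast at h1; omega)
      rwa [sub_sub_sub_cancel_right] at h9
    refine ⟨sub_ne_zero.1 h8.ne, h6 s hs ?_⟩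
    push_cast
    simpa using h7
  | succ n ih =>
    intro y h1 h2 h4 h5 h6
    push_cast at h1 h2 h4 h6
    have e1 : (n : ℤ) + 1 - 1 = n := by ring
    rw [e1] at h1 h2 h4 h6
    rcases h1.eq_or_lt with h7 | h7
    · right
      refine ⟨β, y, ν, hβ, by omega, by omega, h5, fun s hs h8 => h6 s hs ?_⟩
      rwa [← h7]
    · obtain ⟨y', h8, h9⟩ := h3 β y ν n hβ (by omega) (by omega) h2 h4 h5 h6
      exact ih y' (by omega) (by omega) (by have := A.two_le_L; omega) h8 h9

end Outeraux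

theorem stOuter (X : Sys A) (h1 : StFirst X) (h2 : StInit X) (h3 : StOut X) : StOuter X := by
  rcases h1 with h1 | ⟨β, b, δ, hβ, hb, hbm, hc, hs⟩
  · exact Or.inl h1
  obtain ⟨y, hy, hD⟩ := h2 β b δ hβ hb hbm hc hs
  have hL := A.two_le_L
  have e : ((b.toNat : ℕ) : ℤ) = b := Int.toNat_of_nonneg hb
  refine Outeraux.descend X h3 β (b - 1 - A.L) hβ b.toNat y ?_ ?_ ?_ hy ?_
  · rw [e]; omega
  · rw [e]; omega
  · rw [e]; omega
  · rw [e]; exact hD

end Pool.Agent.Lib.MP_c385f6_ag.DyK
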