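import Mathlib
import Pool.Agent.Lib.MP_c385f6_ag.DyK.Stmts

/-!
The case of a point of valuation `-1`.
-/

namespace Pool.Agent.Lib.MP_c385f6_ag.DyK

open Pool.Agent.Lib.MP_c385f6_ag

namespace Poleaux

variable {k : Type*} [NormedField k] [CharZero k] {A : Dya k}

omit [CharZero k] in
theorem exists_coef {g eps : Sq k} (h : g = 0 ∨ g = eps) : ∃ b : ZMod 2, g = b • eps := by
  rcases h with h | h
  · exact ⟨0, by rw [h, zero_smul]⟩
  · exact ⟨1, by rw [h, one_smul]⟩

omit [CharZero k] in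
/-- The distance of a number of valuation `-1` to integral numbers. -/
theorem dist {y x : k} (hy : A.eq (-1) y) (hx : A.ge 0 x) : A.eq (-1) (y - x) :=
  hy.sub_of_lt hx (by omega)

/-- The relation for all integral numbers. -/
theorem dense (X : Sys A) {y : k} (hy : A.eq (-1) y) (hyT : y ∉ X.T)
    (hcor : ∀ s ∈ X.T, A.ge 0 s → X.g y s = 0) {x : k} (hx : A.ge 0 x) :
    bf A.sym (X.g y X.r) (cl ((X.r - x) / (y - x))) = 0 := by
  have hL := A.two_le_L
  have hm := X.L_lt
  obtain ⟨s, hs, hs0, hsn⟩ := X.near hx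
  have hsr : X.r ≠ s := by
    intro h
    exact X.not_int_r (by rw [h]; exact hs0)
  have hyr : y ≠ X.r := by
    intro h
    exact hyT (by rw [h]; exact X.N.memr)
  have hys : y ≠ s := by
    intro h
    exact hyT (by rw [h]; exact hs)
  have h1 := X.rel_zero X.N.memr hs hsr hyr hys (hcor s hs hs0)
  have e1 := dist hy hs0
  have e2 := dist hy hx
  have e3 := dist X.N.top hs0
  have e4 := dist X.N.top hx
  have h2 : A.eq 0 ((X.r - s) / (y - s)) := by
    have := e3.div e1
    rwa [sub_self] at this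
  have h3 : (X.r - x) / (y - x) - (X.r - s) / (y - s) =
      (X.r - y) * (x - s) / ((y - x) * (y - s)) := by
    have f1 := e1.ne
    have f2 := e2.ne
    field_simp
    ring
  have h4 : A.ge (0 + A.L + 1) ((X.r - x) / (y - x) - (X.r - s) / (y - s)) := by
    rw [h3]
    exact (((X.N.top.ge.sub hy.ge).mul hsn).div (e2.mul e1)).mono (by omega)
  rw [X.F.cl_near h2 h4]
  exact h1

/-- The relation for a unit factor. -/
theorem ratio (X : Sys A) {y : k} (hy : A.eq (-1) y)
    (hd : ∀ x, A.ge 0 x → bf A.sym (X.g y X.r) (cl ((X.r - x) / (y - x))) = 0) {x z : k}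
    (hx : A.ge 0 x) (hz : A.ge 1 z) (h : (X.r - x) / (y - x) = (1 + z) * (X.r / y)) :
    bf A.sym (X.g y X.r) (cl (1 + z)) = 0 := by
  have h1 := hd x hx
  have h2 := hd 0 (Dya.ge_zero _)
  rw [sub_zero, sub_zero] at h2
  have h3 : X.r / y ≠ 0 := div_ne_zero X.N.top.ne hy.ne
  rw [h, cl_mul (Dya.one_add_ne hz) h3, map_add, h2, add_zero] at h1
  exact h1

/-- The error at `r` is orthogonal to small units. -/
theorem perp (X : Sys A) {y : k} (hy : A.eq (-1) y) {n : ℤ} (hn : -1 ≤ n)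
    (hr : A.eq n (y - X.r))
    (hd : ∀ x, A.ge 0 x → bf A.sym (X.g y X.r) (cl ((X.r - x) / (y - x))) = 0) {i : ℤ}
    (hi : 1 ≤ i) (hin : n + 2 ≤ i) : Perp A (X.g y X.r) i := by
  intro z hz
  have hden : A.eq n (y - X.r - z * X.r) :=
    hr.sub ((hz.mul X.N.top.ge).mono (by omega))
  have hx : A.ge 0 (-(z * y * X.r / (y - X.r - z * X.r))) :=
    ((((hz.mul hy.ge).mul X.N.top.ge).div hden).mono (by omega)).neg
  refine ratio X hy hd hx (hz.mono hi) ?_
  have f1 := hden.ne
  have f2 := hy.ne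
  have f4 := (dist hy hx).ne
  rw [div_eq_iff f4]
  generalize hq : y - X.r - z * X.r = q at *
  field_simp
  linear_combination (z * X.r) * hq

/-- The distance `-1`. -/
theorem case_far (X : Sys A) (h2 : StTwo A) {y : k} (hy : A.eq (-1) y)
    (hr : A.eq (-1) (y - X.r)) (hcor : ∀ s ∈ X.T, A.ge 0 s → X.g y s = 0)
    (hP : Perp A (X.g y X.r) 1) : Realised X.T X.D := by
  have hL := A.two_le_L
  obtain ⟨b, hb⟩ := exists_coef (X.F.perp_one hP)
  have hu : A.eq 1 y⁻¹ := hy.inv
  have hv : A.eq 1 (y - X.r)⁻¹ := hr.inv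
  have huv : A.eq 1 (y⁻¹ - (y - X.r)⁻¹) := by
    have h3 : y⁻¹ - (y - X.r)⁻¹ = -X.r / (y * (y - X.r)) := by
      have e1 := hy.ne
      have e2 := hr.ne
      field_simp
      ring
    rw [h3]
    exact X.N.top.neg.div (hy.mul hr)
  obtain ⟨η, hη, hE, hE'⟩ := h2 X.eps X.E X.F 1 _ _ 0 b hu hv huv
  have hη' : A.ge (-1 + A.L) η := hη.mono (by omega)
  have hkey : ∀ s : k, A.eq (-1) (y - s) → X.g y s = X.E (η / (y - s)) • X.eps →
      y + η ≠ s ∧ X.D s = cl (y + η - s) := by
    intro s his h3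
    refine ⟨?_, ?_⟩
    · intro h4
      have h5 : A.eq (-1) ((y - s) + η) := his.add_of_lt hη' (by omega)
      apply h5.ne
      rw [← h4]
      ring
    · rw [← X.g_eq_zero, X.g_move his hη', h3, sq_add_self]
  refine ⟨y + η, fun s hs => ?_⟩
  rcases X.mem_int hs with hs0 | rfl
  · have hys := dist hy hs0
    refine hkey s hys ?_
    have h4 : A.ge (A.L + 1) (η / (y - s) - y⁻¹ * η) := by
      have h5 : η / (y - s) - y⁻¹ * η = η * s / (y * (y - s)) := by
        have e1 := hy.ne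
        have e2 := hys.ne
        field_simp
        ring
      rw [h5]
      exact ((hη'.mul hs0).div (hy.mul hys)).mono (by omega)
    have h6 : A.ge A.L (y⁻¹ * η) := (hu.ge.mul hη').mono (by omega)
    rw [hcor s hs hs0, X.F.E_congr h6 h4, hE, zero_smul]
  · refine hkey X.r hr ?_
    rw [hb, div_eq_mul_inv, mul_comm, hE']

/-- The distance `j - 1`. -/
theorem case_close (X : Sys A) (h1 : StLeaf A) {y : k} (hy : A.eq (-1) y) {j : ℤ} (hj : 1 ≤ j)
    (hr : A.eq (j - 1) (y - X.r)) (hcor : ∀ s ∈ X.T, A.ge 0 s → X.g y s = 0)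
    (hP : Perp A (X.g y X.r) (j + 1))
    (h0 : bf A.sym (X.g y X.r) (cl (1 - (y - X.r) / y)) = 0) : Realised X.T X.D := by
  have hL := A.two_le_L
  have hz : A.eq j ((y - X.r) / y) := by
    have := hr.div hy
    have h3 : j - 1 - -1 = j := by ring
    rwa [h3] at this
  obtain ⟨l, hl0, hlg, hl1, hlz⟩ := h1 X.eps X.E X.F j _ _ hj hz hP h0
  refine ⟨X.r + l * (y - X.r), fun s hs => ?_⟩
  rcases X.mem_int hs with hs0 | rfl
  · have hys := dist hy hs0
    have hfac : X.r + l * (y - X.r) - s = (y - s) * (1 + (l - 1) * (y - X.r) / (y - s)) := by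
      have := hys.ne
      field_simp
      ring
    have h3 : A.ge A.L ((l - 1) * ((y - X.r) / y)) := (hl1.mul hz.ge).mono (by omega)
    have h4 : A.ge (0 + A.L + 1) (1 + (l - 1) * (y - X.r) / (y - s) -
        (1 + (l - 1) * ((y - X.r) / y))) := by
      have h5 : 1 + (l - 1) * (y - X.r) / (y - s) - (1 + (l - 1) * ((y - X.r) / y)) =
          (l - 1) * (y - X.r) * s / (y * (y - s)) := by
        have e1 := hy.ne
        have e2 := hys.ne
        field_simp
        ring
      rw [h5]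
      exact (((hl1.mul hr.ge).mul hs0).div (hy.mul hys)).mono (by omega)
    have h6 : A.eq 0 (1 + (l - 1) * ((y - X.r) / y)) := Dya.eq.one_add (h3.mono (by omega))
    have h7 : A.eq 0 (1 + (l - 1) * (y - X.r) / (y - s)) := h6.congr (h4.mono (by omega))
    refine ⟨?_, ?_⟩
    · rw [← sub_ne_zero, hfac]
      exact mul_ne_zero hys.ne h7.ne
    · rw [hfac, cl_mul hys.ne h7.ne, X.F.cl_near h6 h4, hlz, add_zero]
      exact X.g_eq_zero.1 (hcor s hs hs0)
  · have h3 : X.r + l * (y - X.r) - X.r = l * (y - X.r) := by ring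
    refine ⟨?_, ?_⟩
    · rw [← sub_ne_zero, h3]
      exact mul_ne_zero hl0 hr.ne
    · rw [h3, cl_mul hl0 hr.ne, hlg, Sys.g, add_assoc, sq_add_self, add_zero]

end Poleaux

open Poleaux in
theorem stPole {k : Type*} [NormedField k] [CharZero k] {A : Dya k} (X : Sys A)
    (h1 : StLeaf A) (h2 : StTwo A) : StPole X := by
  intro β y₀ hβ hy₀ hD
  have hL := A.two_le_L
  obtain ⟨y, hy₁, hyT⟩ := Sys.exists_near A X.T y₀ A.L
  have hy₀' : A.eq (-1) y₀ := by
    have h3 : y₀ = (y₀ - β) + β := by ring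
    rw [h3]
    exact hy₀.add_of_lt hβ (by omega)
  have hy : A.eq (-1) y := hy₀'.congr (hy₁.mono (by omega))
  have hcor : ∀ s ∈ X.T, A.ge 0 s → X.g y s = 0 := by
    intro s hs hs0
    rw [X.g_near (dist hy₀' hs0) (hy₁.mono (by omega)), X.g_eq_zero]
    exact hD s hs (hs0.sub hβ)
  have hd : ∀ x, A.ge 0 x → bf A.sym (X.g y X.r) (cl ((X.r - x) / (y - x))) = 0 :=
    fun x hx => dense X hy hyT hcor hx
  have hyr : y - X.r ≠ 0 := by
    rw [sub_ne_zero]
    rintro rfl
    exact hyT X.N.memr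
  obtain ⟨n, hn⟩ := A.exists_eq hyr
  have hn1 : -1 ≤ n := hn.not_ge (hy.ge.sub X.N.top.ge)
  rcases hn1.eq_or_lt with h3 | h3
  · subst h3
    exact case_far X h2 hy hn hcor (perp X hy le_rfl hn hd le_rfl (by omega))
  · obtain ⟨j, rfl⟩ : ∃ j, n = j - 1 := ⟨n + 1, by ring⟩
    refine case_close X h1 hy (by omega) hn hcor
      (perp X hy hn1 hn hd (by omega) (by omega)) ?_
    have h4 := hd 0 (Dya.ge_zero _)
    have h5 : 1 - (y - X.r) / y = (X.r - 0) / (y - 0) := by
      have e1 := hy.ne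
      rw [sub_zero, sub_zero]
      field_simp
      ring
    rw [h5]
    exact h4

end Pool.Agent.Lib.MP_c385f6_ag.DyK
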