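import Mathlib
import Pool.Agent.Lib.MP_c385f6_ag.DyK.Stmts

/-!
A class orthogonal to the numbers `1 - w / (y - t)` is orthogonal to all units.
-/

namespace Pool.Agent.Lib.MP_c385f6_ag.DyK

open Pool.Agent.Lib.MP_c385f6_ag

variable {k : Type*} [NormedField k] [CharZero k] {A : Dya k}

namespace ResOneaux

theorem key (X : Sys A) {y w : k} {l : ℤ} {g : Sq k} (hy : A.ge 0 y) (hlm : l < X.m)
    (hw : A.eq (l + 1) w) (H : ∀ t ∈ X.T, ∀ i, i ≤ l → A.eq i (y - t) →
      bf A.sym g (cl (1 - w / (y - t))) = 0) {i j : ℤ} (hi : 1 ≤ i) (hil : i ≤ l + 1)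
    (hP : Perp A g j) (hj : j ≤ X.m - (l + 1) + 2 * i) {z : k} (hz : A.eq i z) :
    bf A.sym g (cl (1 - z)) = 0 := by
  have hρ : A.eq (l + 1 - i) (w / z) := hw.div hz
  have h1 : A.ge 0 (y - w / z) := hy.sub (hρ.ge' (by omega))
  obtain ⟨t, ht, -, h2⟩ := X.near h1
  have h3 : A.eq (l + 1 - i) (y - t) := by
    refine hρ.congr ?_
    have h4 : y - t - w / z = y - w / z - t := by ring
    rw [h4]
    exact h2.mono (by omega)
  have h5 := H t ht (l + 1 - i) (by omega) h3
  have h6 : A.eq i (w / (y - t)) := by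
    have := hw.div h3
    rwa [sub_sub_cancel] at this
  have h7 : A.ge j (w / (y - t) - z) := by
    have h8 : w / (y - t) - z = w * -(y - w / z - t) / ((y - t) * (w / z)) := by
      have hz0 := hz.ne
      have hw0 := hw.ne
      have hy0 := h3.ne
      field_simp
      ring
    rw [h8]
    have h9 := (hw.ge.mul h2.neg).div (h3.mul hρ)
    exact h9.mono (by omega)
  rw [← h5]
  refine hP.congr (n := 0) (Dya.eq.one_sub (h6.ge' hi)) (Dya.one_sub_ne (hz.ge' hi)) ?_
  have h10 : 1 - z - (1 - w / (y - t)) = w / (y - t) - z := by ring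
  rw [h10, zero_add]
  exact h7

end ResOneaux

open ResOneaux in
theorem stResOne (X : Sys A) : StResOne X := by
  intro y w l g hy hl hlm hw H
  have hL2 := A.two_le_L
  by_cases hL : A.L ≤ l + 1
  · have h1 : ∀ n : ℕ, ∀ i : ℤ, 1 ≤ i → i + n = A.L + 1 → Perp A g i := by
      intro n
      induction n with
      | zero =>
        intro i _ hi
        have : i = A.L + 1 := by
          push_cast at hi
          omega
        rw [this]
        exact X.F.perp_large g
      | succ n ih =>
        intro i hi hin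
        push_cast at hin
        have h2 : Perp A g (i + 1) := ih (i + 1) (by omega) (by omega)
        intro x hx
        rcases hx.lt_or with h3 | h3
        · have h4 := key X hy hlm hw H hi (by omega) h2 (by omega) h3.neg
          rwa [sub_neg_eq_add] at h4
        · exact h2 x h3
    exact h1 A.L.toNat 1 le_rfl (by omega)
  · have hm := X.N.big2
    have h1 : ∀ z, A.eq 1 z → bf A.sym g (cl (1 - z)) = 0 := fun z hz =>
      key X hy hlm hw H le_rfl (by omega) (X.F.perp_large g) (by omega) hz
    intro x hx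
    rcases hx.lt_or with h2 | h2
    · have h3 := h1 (-x) h2.neg
      rwa [sub_neg_eq_add] at h3
    · have hp := Dya.eq_pi A
      have hp0 : (1 : k) - A.pi ≠ 0 := Dya.one_sub_ne hp.ge
      have h3 : A.eq 1 ((-x - A.pi) / (1 - A.pi)) := by
        have h4 : A.eq 1 (-x - A.pi) := by
          have h5 : -x - A.pi = -A.pi + -x := by ring
          rw [h5]
          exact hp.neg.add h2.neg
        have h6 := h4.div (Dya.eq.one_sub hp.ge)
        rwa [sub_zero] at h6
      have h7 : 1 + x = (1 - A.pi) * (1 - (-x - A.pi) / (1 - A.pi)) := by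
        field_simp
        ring
      rw [h7, cl_mul hp0 (Dya.one_sub_ne h3.ge), map_add, h1 _ hp, h1 _ h3, add_zero]

end Pool.Agent.Lib.MP_c385f6_ag.DyK
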