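import Mathlib
import Pool.Agent.Lib.MP_c385f6_ag.DyK.Stmts

/-!
A class with constant symbols with the numbers `1 - w / (y - t)`, `t` at valuation `v(w) - 1` in a
fixed direction, is orthogonal to all `1 + x`, `v(x) ≥ 2`.
-/

namespace Pool.Agent.Lib.MP_c385f6_ag.DyK

open Pool.Agent.Lib.MP_c385f6_ag

variable {k : Type*} [NormedField k] [CharZero k] {A : Dya k}

namespace ResTwoaux

theorem key (X : Sys A) {y w : k} {l : ℤ} {g : Sq k} (hy : A.ge 0 y) (hlm : l < X.m)
    (hw : A.eq (l + 1) w) {i j : ℤ} (H : ∀ t ∈ X.T, A.eq (l + 1 - i) (y - t) →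
      bf A.sym g (cl (1 - w / (y - t))) = 0) (hi : 1 ≤ i) (hil : i ≤ l + 1)
    (hP : Perp A g j) (hj : j ≤ X.m - (l + 1) + 2 * i) {z : k} (hz : A.eq i z) :
    bf A.sym g (cl (1 - z)) = 0 := by
  have hρ : A.eq (l + 1 - i) (w / z) := hw.div hz
  have h1 : A.ge 0 (y - w / z) := hy.sub (hρ.ge' (by omega))
  obtain ⟨t, ht, -, h2⟩ := X.near h1
  have h3 : A.eq (l + 1 - i) (y - t) := by
    refine hρ.congr ?_
    have h4 : y - t - w / z = y - w / z - t := by ring
    rw [h4]
    exact h2.mono (by omega)
  have h5 := H t ht h3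
  have h6 : A.eq i (w / (y - t)) := by
    have := hw.div h3
    rwa [sub_sub_cancel] at this
  have h7 : A.ge j (w / (y - t) - z) := by
    have h8 : w / (y - t) - z = w * -(y - w / z - t) / ((y - t) * (w / z)) := by
      have hz0 := hz.ne
      have hw0 := hw.ne
      have hy0 := h3.ne
      field_simp
      ring
    rw [h8]
    have h9 := (hw.ge.mul h2.neg).div (h3.mul hρ)
    exact h9.mono (by omega)
  rw [← h5]
  refine hP.congr (n := 0) (Dya.eq.one_sub (h6.ge' hi)) (Dya.one_sub_ne (hz.ge' hi)) ?_
  have h10 : 1 - z - (1 - w / (y - t)) = w / (y - t) - z := by ring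
  rw [h10, zero_add]
  exact h7

/-- The case of small `l`. -/
theorem small (X : Sys A) {y w : k} {l : ℤ} {g : Sq k} (hy : A.ge 0 y) (hl : 0 ≤ l)
    (hlL : l + 1 < A.L) (hw : A.eq (l + 1) w)
    (H : ∀ t ∈ X.T, ∀ t' ∈ X.T, A.eq l (y - t) → A.eq l (y - t') → A.ge (l + 1) (t - t') →
      bf A.sym g (cl (1 - w / (y - t))) = bf A.sym g (cl (1 - w / (y - t')))) {x : k}
    (hx : A.ge 2 x) : bf A.sym g (cl (1 + x)) = 0 := by
  have hm := X.N.big2
  have hL2 := A.two_le_L
  obtain ⟨t', ht', h1⟩ := X.exists_level hy (i := l) (by omega) (by omega)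
  have h2 : A.eq l (y - t' - w) := h1.sub hw.ge
  have h3 : A.eq (l + 1) (w - x * (y - t' - w)) := by
    refine hw.sub ?_
    exact (hx.mul h2.ge).mono (by omega)
  obtain ⟨d, hd⟩ : ∃ d, d = x * (y - t') * (y - t' - w) / (w - x * (y - t' - w)) := ⟨_, rfl⟩
  have h4 : A.ge (l + 1) d := by
    rw [hd]
    exact (((hx.mul h1.ge).mul h2.ge).div h3).mono (by omega)
  have h5 : A.eq l (y - t' + d) := h1.add h4
  have h6 : A.ge 0 (y - (y - t' + d)) := hy.sub (h5.ge' (by omega))
  obtain ⟨t, ht, -, h7⟩ := X.near h6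
  have h8 : A.ge X.m (y - t - (y - t' + d)) := by
    have h9 : y - t - (y - t' + d) = y - (y - t' + d) - t := by ring
    rw [h9]
    exact h7
  have h10 : A.eq l (y - t) := h5.congr (h8.mono (by omega))
  have h11 : A.ge (l + 1) (t - t') := by
    have h12 : t - t' = -(y - t - (y - t' + d)) - d := by ring
    rw [h12]
    exact (h8.neg.mono (by omega)).sub h4
  have h13 := H t ht t' ht' h10 h1 h11
  have hw1 : ∀ a : k, A.eq l a → A.eq 0 (1 - w / a) := by
    intro a ha
    refine Dya.eq.one_sub ?_
    have := hw.div ha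
    exact this.ge' (by omega)
  have h14 : bf A.sym g (cl (1 - w / (y - t))) = bf A.sym g (cl (1 - w / (y - t' + d))) := by
    refine (X.F.perp_large g).congr (n := 0) (hw1 _ h5) (hw1 _ h10).ne ?_
    have h15 : 1 - w / (y - t) - (1 - w / (y - t' + d)) =
        w * (y - t - (y - t' + d)) / ((y - t' + d) * (y - t)) := by
      have e1 := h5.ne
      have e2 := h10.ne
      field_simp
      ring
    rw [h15]
    exact ((hw.ge.mul h8).div (h5.mul h10)).mono (by omega)
  have h16 : 1 - w / (y - t' + d) = (1 - w / (y - t')) * (1 + x) := by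
    have e1 := h5.ne
    have e2 := h1.ne
    have e3 := h3.ne
    have e4 : d * (w - x * (y - t' - w)) = x * (y - t') * (y - t' - w) := by
      rw [hd]
      field_simp
    have e5 : w * d = x * (y - t' + d) * (y - t' - w) := by linear_combination e4
    field_simp
    linear_combination e5
  have hx1 : A.ge 1 x := hx.mono (by omega)
  rw [h16, cl_mul (hw1 _ h1).ne (Dya.one_add_ne hx1), map_add, h13] at h14
  have key : ∀ a b : ZMod 2, a = a + b → b = 0 := by decide
  exact key _ _ h14

end ResTwoaux

open ResTwoaux in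
theorem stResTwo (X : Sys A) : StResTwo X := by
  intro y w l g hy hl hlm hw H H'
  have hL2 := A.two_le_L
  by_cases hL : A.L ≤ l + 1
  · have h1 : ∀ n : ℕ, ∀ i : ℤ, 2 ≤ i → i + n = A.L + 1 → Perp A g i := by
      intro n
      induction n with
      | zero =>
        intro i _ hi
        have : i = A.L + 1 := by
          push_cast at hi
          omega
        rw [this]
        exact X.F.perp_large g
      | succ n ih =>
        intro i hi hin
        push_cast at hin
        have h2 : Perp A g (i + 1) := ih (i + 1) (by omega) (by omega)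
        intro x hx
        rcases hx.lt_or with h3 | h3
        · have h4 := ResTwoaux.key X hy hlm hw (i := i) (j := i + 1)
            (fun t ht h => H t ht (l + 1 - i) (by omega) h) (by omega) (by omega) h2
            (by omega) h3.neg
          rwa [sub_neg_eq_add] at h4
        · exact h2 x h3
    exact h1 (A.L - 1).toNat 2 le_rfl (by omega)
  · intro x hx
    exact ResTwoaux.small X hy hl (by omega) hw H' hx

end Pool.Agent.Lib.MP_c385f6_ag.DyK
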