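import Mathlib
import Pool.Agent.Lib.MP_c385f6_ag.DyK.Stmts

/-!
The residue field of a dyadic field: squaring is surjective, the Artin-Schreier map is not.
-/

namespace Pool.Agent.Lib.MP_c385f6_ag.DyK

open Pool.Agent.Lib.MP_c385f6_ag

namespace Residaux

/-- An injective self-map of a finite quotient is surjective. -/
theorem surj_of_inj {α : Type*} (s : Setoid α) (hfin : Finite (Quotient s)) (f : α → α)
    (h1 : ∀ a b, s a b → s (f a) (f b)) (h2 : ∀ a b, s (f a) (f b) → s a b) (a : α) :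
    ∃ b, s (f b) a := by
  have hinj : Function.Injective (Quotient.map f h1 : Quotient s → Quotient s) := by
    intro x y
    refine Quotient.inductionOn₂ x y fun u v h => ?_
    rw [Quotient.map_mk, Quotient.map_mk] at h
    exact Quotient.sound (h2 u v (Quotient.exact h))
  obtain ⟨q, hq⟩ := (Finite.injective_iff_surjective.1 hinj) (Quotient.mk s a)
  revert hq
  refine Quotient.inductionOn q fun u h => ?_
  rw [Quotient.map_mk] at h
  exact ⟨u, Quotient.exact h⟩

/-- A surjective self-map of a finite quotient is injective. -/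
theorem inj_of_surj {α : Type*} (s : Setoid α) (hfin : Finite (Quotient s)) (f : α → α)
    (h1 : ∀ a b, s a b → s (f a) (f b)) (h2 : ∀ a, ∃ b, s (f b) a) (a b : α)
    (h : s (f a) (f b)) : s a b := by
  have hsurj : Function.Surjective (Quotient.map f h1 : Quotient s → Quotient s) := by
    intro x
    refine Quotient.inductionOn x fun u => ?_
    obtain ⟨v, hv⟩ := h2 u
    refine ⟨Quotient.mk s v, ?_⟩
    rw [Quotient.map_mk]
    exact Quotient.sound hv
  refine Quotient.exact ((Finite.injective_iff_surjective.2 hsurj)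
    (a₁ := Quotient.mk s a) (a₂ := Quotient.mk s b) ?_)
  rw [Quotient.map_mk, Quotient.map_mk]
  exact Quotient.sound h

variable {k : Type*} [NormedField k] (A : Dya k)

theorem ge_one_iff (x : k) : A.ge 1 x ↔ ‖x‖ < 1 := by
  constructor
  · intro h
    have h1 : ‖x‖ ≤ ‖A.pi‖ ^ (1 : ℤ) := h
    rw [zpow_one] at h1
    exact lt_of_le_of_lt h1 A.pi_lt
  · intro h
    by_cases hx : x = 0
    · rw [hx]
      exact Dya.ge_zero _
    · obtain ⟨n, hn⟩ := A.exists_eq hx
      have h1 : ‖A.pi‖ ^ n < ‖A.pi‖ ^ (0 : ℤ) := by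
        rw [zpow_zero, ← hn]
        exact h
      rw [Dya.pow_lt_iff] at h1
      exact hn.ge' (by omega)

theorem ge_nil_iff (x : k) : A.ge 0 x ↔ ‖x‖ ≤ 1 := by
  rw [Dya.ge, zpow_zero]

/-- Congruence of integral numbers modulo the maximal ideal. -/
def con : Setoid {x : k // A.ge 0 x} where
  r x y := A.ge 1 ((x : k) - y)
  iseqv := by
    refine ⟨fun x => ?_, fun {x y} h => ?_, fun {x y z} h h' => ?_⟩
    · rw [sub_self]
      exact Dya.ge_zero _
    · exact Dya.ge_sub_comm.1 h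
    · have := h.add h'
      rwa [sub_add_sub_cancel] at this

theorem con_iff (x y : {x : k // A.ge 0 x}) : con A x y ↔ A.ge 1 ((x : k) - y) := Iff.rfl

theorem fin_con : Finite (Quotient (con A)) := by
  have h : ∀ x : {x : k // A.ge 0 x}, ∃ r : A.res, ‖(x : k) - r‖ < 1 := by
    intro x
    obtain ⟨r, hr, h⟩ := A.res_spec x ((ge_nil_iff A _).1 x.2)
    exact ⟨⟨r, hr⟩, h⟩
  choose g hg using h
  refine Finite.of_injective (fun q : Quotient (con A) => g q.out) ?_
  intro q q' hq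
  have hq' : g q.out = g q'.out := hq
  have h1 := hg q.out
  have h2 := hg q'.out
  rw [← hq'] at h2
  have h3 := ((ge_one_iff A _).2 h1).sub ((ge_one_iff A _).2 h2)
  rw [sub_sub_sub_cancel_right] at h3
  have h4 : (Quotient.mk (con A) q.out) = Quotient.mk (con A) q'.out := Quotient.sound h3
  rwa [Quotient.out_eq, Quotient.out_eq] at h4

theorem two_ge : A.ge 1 (2 : k) := A.eq_two.ge' (by have := A.e_pos; omega)

theorem ge_sq {x : k} (h : A.ge 1 (x ^ 2)) : A.ge 1 x := by
  rw [ge_one_iff] at h ⊢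
  rw [norm_pow] at h
  by_contra hc
  rw [not_lt] at hc
  have := one_le_pow₀ hc (n := 2)
  linarith

theorem lead_nil (x : k) (hx : A.eq 0 x) : ∃ θ, A.eq 0 θ ∧ A.ge 1 (x - θ ^ 2) := by
  have key := surj_of_inj (con A) (fin_con A)
    (fun t : {x : k // A.ge 0 x} => ⟨(t : k) ^ 2, by
      have := t.2.mul t.2
      rwa [add_zero, ← sq] at this⟩) ?_ ?_ ⟨x, hx.ge⟩
  · obtain ⟨t, ht⟩ := key
    rw [con_iff] at ht
    have h1 : A.ge 1 (x - (t : k) ^ 2) := Dya.ge_sub_comm.1 ht
    refine ⟨t, ?_, h1⟩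
    have h2 : A.eq 0 ((t : k) ^ 2) := hx.congr ht
    have h3 : t.1 ≠ 0 := by
      intro h0
      rw [h0, zero_pow two_ne_zero] at h2
      exact h2.ne rfl
    obtain ⟨n, hn⟩ := A.exists_eq h3
    have h4 := (hn.pow 2).uniq h2
    have h5 : n = 0 := by
      push_cast at h4
      omega
    rwa [h5] at hn
  · intro a b h
    rw [con_iff] at h ⊢
    have h1 : ((a : k) ^ 2 - (b : k) ^ 2) = (a - b) * (a + b) := by ring
    show A.ge 1 ((a : k) ^ 2 - (b : k) ^ 2)
    rw [h1]
    have := h.mul (a.2.add b.2)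
    rwa [add_zero] at this
  · intro a b h
    rw [con_iff] at h ⊢
    have h0 : A.ge 1 ((a : k) ^ 2 - (b : k) ^ 2) := h
    refine ge_sq A ?_
    have h1 : ((a : k) - b) ^ 2 = ((a : k) ^ 2 - (b : k) ^ 2) - 2 * (b * (a - b)) := by ring
    rw [h1]
    refine h0.sub ?_
    have := (two_ge A).mul (b.2.mul (a.2.sub b.2))
    rwa [add_zero, add_zero] at this

end Residaux

variable {k : Type*} [NormedField k] [CharZero k]

theorem stLead (A : Dya k) : StLead A := by
  intro n x hx
  have h1 : A.eq 0 (x / A.pi ^ (2 * n)) := by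
    have := hx.div (A.eq_pi_zpow (2 * n))
    rwa [sub_self] at this
  obtain ⟨θ, hθ, h2⟩ := Residaux.lead_nil A _ h1
  refine ⟨θ * A.pi ^ n, ?_, ?_⟩
  · have := hθ.mul (A.eq_pi_zpow n)
    rwa [zero_add] at this
  · have hpi : A.pi ^ n ≠ 0 := (A.eq_pi_zpow n).ne
    have h3 : x - (θ * A.pi ^ n) ^ 2 = A.pi ^ (2 * n) * (x / A.pi ^ (2 * n) - θ ^ 2) := by
      have h4 : A.pi ^ (2 * n) = (A.pi ^ n) ^ 2 := by
        rw [mul_comm, zpow_mul]
        norm_cast
      rw [h4]
      field_simp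
    rw [h3]
    exact (A.eq_pi_zpow (2 * n)).ge.mul h2

theorem stArtin (A : Dya k) : StArtin A := by
  by_contra hcon
  rw [StArtin] at hcon
  push Not at hcon
  have key := Residaux.inj_of_surj (Residaux.con A) (Residaux.fin_con A)
    (fun t : {x : k // A.ge 0 x} => ⟨(t : k) ^ 2 + t, by
      have := t.2.mul t.2
      rw [add_zero, ← sq] at this
      exact this.add t.2⟩) ?_ ?_ ⟨0, Dya.ge_zero _⟩ ⟨1, A.eq_one.ge⟩ ?_
  · rw [Residaux.con_iff] at key
    have h1 : A.ge 1 ((0 : k) - 1) := key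
    rw [zero_sub] at h1
    have h2 := h1.neg
    rw [neg_neg] at h2
    have := A.eq_one.not_ge h2
    omega
  · intro a b h
    rw [Residaux.con_iff] at h ⊢
    show A.ge 1 (((a : k) ^ 2 + a) - ((b : k) ^ 2 + b))
    have h1 : ((a : k) ^ 2 + a) - ((b : k) ^ 2 + b) = (a - b) * (a + b + 1) := by ring
    rw [h1]
    have := h.mul ((a.2.add b.2).add A.eq_one.ge)
    rwa [add_zero] at this
  · intro a
    obtain ⟨t, ht, h⟩ := hcon a a.2
    refine ⟨⟨t, ht⟩, ?_⟩
    rw [Residaux.con_iff]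
    exact Dya.ge_sub_comm.1 h
  · rw [Residaux.con_iff]
    show A.ge 1 (((0 : k) ^ 2 + 0) - ((1 : k) ^ 2 + 1))
    have h1 : ((0 : k) ^ 2 + 0) - ((1 : k) ^ 2 + 1) = -2 := by norm_num
    rw [h1]
    exact (Residaux.two_ge A).neg

end Pool.Agent.Lib.MP_c385f6_ag.DyK
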