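import Mathlib
import Pool.Agent.Lib.MP_c385f6_ag.DyK.Stmts

/-!
Two different nonzero functionals take all pairs of values.
-/

namespace Pool.Agent.Lib.MP_c385f6_ag.DyK

open Pool.Agent.Lib.MP_c385f6_ag

namespace Twoaux

variable {k : Type*} [NormedField k] [CharZero k] {A : Dya k}

/-- `x` or `0` -/
def sel (c : ZMod 2) (x : k) : k := if c = 1 then x else 0

theorem sel_ge {n : ℤ} {c : ZMod 2} {x : k} (h : A.ge n x) : A.ge n (sel c x) := by
  unfold sel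
  split_ifs
  · exact h
  · exact Dya.ge_zero _

theorem sel_E {eps : Sq k} {E : k → ZMod 2} (F : Facts A eps E) (c : ZMod 2) (u x : k) :
    E (u * sel c x) = c * E (u * x) := by
  unfold sel
  split_ifs with h
  · rw [h, one_mul]
  · have h0 : c = 0 := by
      revert h
      revert c
      decide
    rw [h0, mul_zero, F.E_zero', zero_mul]

theorem combine : ∀ p₂ q₁ p₃ q₃ a b : ZMod 2, p₃ + q₃ = 1 → ∃ c₁ c₂ c₃ : ZMod 2,
    c₁ * 1 + c₂ * p₂ + c₃ * p₃ = a ∧ c₁ * q₁ + c₂ * 1 + c₃ * q₃ = b := by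
  decide

end Twoaux

section

variable {k : Type*} [NormedField k] [CharZero k]

open Twoaux in
theorem stTwo (A : Dya k) : StTwo A := by
  intro eps E F n u v a b hu hv huv
  obtain ⟨x₁, h₁, e₁⟩ := F.nondeg n u hu
  obtain ⟨x₂, h₂, e₂⟩ := F.nondeg n v hv
  obtain ⟨x₃, h₃, e₃⟩ := F.nondeg n (u - v) huv
  have key : ∀ w x : k, A.eq n w → A.ge (A.L - n) x → A.ge A.L (w * x) := by
    intro w x hw hx
    have := hx.mul hw.ge
    rw [mul_comm]
    exact this.mono (by omega)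
  have e₃' : E (u * x₃) + E (v * x₃) = 1 := by
    rw [← e₃, mul_sub, sub_eq_add_neg, mul_comm x₃ u, mul_comm x₃ v,
      F.E_add _ _ (key u x₃ hu h₃.ge) (key v x₃ hv h₃.ge).neg, F.E_neg (key v x₃ hv h₃.ge)]
  rw [mul_comm] at e₁ e₂
  obtain ⟨c₁, c₂, c₃, ha, hb⟩ := combine (E (u * x₂)) (E (v * x₁)) (E (u * x₃)) (E (v * x₃)) a b e₃'
  have g₁ := sel_ge (c := c₁) h₁.ge
  have g₂ := sel_ge (c := c₂) h₂.ge
  have g₃ := sel_ge (c := c₃) h₃.ge
  have hE : ∀ w : k, A.eq n w → E (w * (sel c₁ x₁ + sel c₂ x₂ + sel c₃ x₃)) =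
      c₁ * E (w * x₁) + c₂ * E (w * x₂) + c₃ * E (w * x₃) := by
    intro w hw
    rw [mul_add, mul_add, F.E_add _ _ ((key w _ hw g₁).add (key w _ hw g₂)) (key w _ hw g₃),
      F.E_add _ _ (key w _ hw g₁) (key w _ hw g₂), sel_E F, sel_E F, sel_E F]
  refine ⟨sel c₁ x₁ + sel c₂ x₂ + sel c₃ x₃, (g₁.add g₂).add g₃, ?_, ?_⟩
  · rw [hE u hu, e₁]
    exact ha
  · rw [hE v hv, e₂]
    exact hb

end

end Pool.Agent.Lib.MP_c385f6_ag.DyK
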