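import Mathlib
import Pool.Agent.Lib.MP_c385f6_ag.DyK.Stmts
import Pool.Agent.Lib.MP_c385f6_ag.DyK.Resid
import Pool.Agent.Lib.MP_c385f6_ag.DyK.Dual
import Pool.Agent.Lib.MP_c385f6_ag.DyK.FactsPf
import Pool.Agent.Lib.MP_c385f6_ag.DyK.Inst
import Pool.Agent.Lib.MP_c385f6_ag.DyK.Baire
import Pool.Agent.Lib.MP_c385f6_ag.DyK.First
import Pool.Agent.Lib.MP_c385f6_ag.DyK.Init
import Pool.Agent.Lib.MP_c385f6_ag.DyK.Out
import Pool.Agent.Lib.MP_c385f6_ag.DyK.Outer
import Pool.Agent.Lib.MP_c385f6_ag.DyK.Start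
import Pool.Agent.Lib.MP_c385f6_ag.DyK.ResOne
import Pool.Agent.Lib.MP_c385f6_ag.DyK.ResTwo
import Pool.Agent.Lib.MP_c385f6_ag.DyK.Fix
import Pool.Agent.Lib.MP_c385f6_ag.DyK.Next
import Pool.Agent.Lib.MP_c385f6_ag.DyK.Leaf
import Pool.Agent.Lib.MP_c385f6_ag.DyK.Two
import Pool.Agent.Lib.MP_c385f6_ag.DyK.Final
import Pool.Agent.Lib.MP_c385f6_ag.DyK.Pole
import Pool.Agent.Lib.MP_c385f6_ag.DyK.Net
import Pool.Agent.Lib.MP_c385f6_ag.DyK.Complete

/-!
Complete sets of points of a finite extension of the 2-adic numbers.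
-/

namespace Pool.Agent.Lib.MP_c385f6_ag.DyK

open Pool.Agent.Lib.MP_c385f6_ag

section
variable {k : Type*} [NormedField k] [CharZero k] {A : Dya k}

/-- Every compatible system of classes on a net comes from a point. -/
theorem sys_real (X : Sys A) : StReal X :=
  have h1 := stResOne X
  stReal X (stOuter X (stFirst X (stBaire X)) (stInit X) (stOut X)) (stStart X)
    (stLast X (stNext X (stFix X h1 (stResTwo X)) h1)) (stFinal X (stLeaf A) (stTwo A))
    (stPole X (stLeaf A) (stTwo A))

/-- Every finite set of numbers lies in a finite complete set. -/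
theorem dya_complete (A : Dya k) : StComplete A :=
  stComplete A (stNet A) (stFacts A (stLead A) (stArtin A) (stDual A)) fun X => sys_real X

end

/-- Every finite set of elements of a finite extension of `ℚ_[2]` lies in a finite set on which all
compatible systems come from points. -/
theorem complete_local (k : Type*) [Field k] [CharZero k] [Algebra ℚ_[2] k]
    [FiniteDimensional ℚ_[2] k] (S : Finset k) : ∃ T : Finset k, S ⊆ T ∧
      Nat.card (Sq k) < T.card ∧ ∀ D : k → Sq k, Compat goodSymbol_local T D → Realised T D := by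
  letI : NormedField k := spectralNorm.normedField ℚ_[2] k
  letI : NormedAlgebra ℚ_[2] k := spectralNorm.normedAlgebra ℚ_[2] k
  haveI : IsUltrametricDist k :=
    IsUltrametricDist.isUltrametricDist_of_isNonarchimedean_norm
      (isNonarchimedean_spectralNorm (K := ℚ_[2]) (L := k))
  obtain ⟨A⟩ := stInst k
  exact dya_complete A S

end Pool.Agent.Lib.MP_c385f6_ag.DyK
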