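import Mathlib
import Pool.Agent.Lib.MP_c385f6_ag.DyK.Stmts2

/-!
The norm of the twist at a closed point.
-/

namespace Pool.Agent.Lib.MP_c385f6_ag.DyK

open Pool.Agent.Lib.MP_c385f6_ag Polynomial IntermediateField

namespace Normaux

section
variable {k Ω : Type*} [Field k] [Field Ω] [Algebra k Ω]

/-- The norm of `x - τ`. -/
theorem norm_sub_gen' {τ : Ω} (hτ : IsIntegral k τ) (x : k) :
    Algebra.norm k (algebraMap k k⟮τ⟯ x - AdjoinSimple.gen k τ) = (minpoly k τ).eval x := by
  classical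
  let pb := adjoin.powerBasis hτ
  have hgen : pb.gen = AdjoinSimple.gen k τ := adjoin.powerBasis_gen hτ
  have h1 : (minpoly k pb.gen).eval x = Algebra.norm k (algebraMap k k⟮τ⟯ x - pb.gen) := by
    rw [← charpoly_leftMulMatrix pb, Matrix.eval_charpoly, Algebra.norm_eq_matrix_det pb.basis,
      map_sub, AlgHom.commutes]
    rfl
  rw [← hgen, ← h1, hgen, minpoly_gen]

/-- The minimal polynomial as a product over embeddings. -/
theorem prod_sub_eq (E : Type*) [CharZero k] [Field E] [Algebra k E] [IsAlgClosed E] {τ : Ω}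
    (hτ : IsIntegral k τ) [Fintype (k⟮τ⟯ →ₐ[k] E)] :
    ∏ σ : k⟮τ⟯ →ₐ[k] E, (X - C (σ (AdjoinSimple.gen k τ))) =
      (minpoly k τ).map (algebraMap k E) := by
  classical
  haveI : FiniteDimensional k k⟮τ⟯ := adjoin.finiteDimensional hτ
  haveI : Infinite k := Infinite.of_injective (fun n : ℕ => (n : k)) Nat.cast_injective
  have h1 : ∀ x : k, (∏ σ : k⟮τ⟯ →ₐ[k] E, (X - C (σ (AdjoinSimple.gen k τ)))).eval
      (algebraMap k E x) = ((minpoly k τ).map (algebraMap k E)).eval (algebraMap k E x) := by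
    intro x
    rw [eval_map_algebraMap, aeval_algebraMap_apply, coe_aeval_eq_eval, ← norm_sub_gen' hτ,
      Algebra.norm_eq_prod_embeddings, eval_prod]
    refine Finset.prod_congr (by ext; simp) fun σ _ => ?_
    rw [eval_sub, eval_X, eval_C, map_sub, AlgHom.commutes]
  refine Polynomial.eq_of_infinite_eval_eq _ _ ?_
  refine Set.Infinite.mono ?_ (Set.infinite_range_of_injective (algebraMap k E).injective)
  rintro _ ⟨x, rfl⟩
  exact h1 x

end

end Normaux

open Normaux in
theorem stNorm (k K Ω : Type*) [Field k] [CharZero k] [Field K] [Field Ω] [Algebra k K]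
    [Algebra k Ω] [Algebra K Ω] [IsScalarTower k K Ω] [IsAlgClosure K Ω] : StNorm k K Ω := by
  classical
  intro w s hs τ hτ δ W hW hWs
  haveI hac : IsAlgClosed Ω := IsAlgClosure.isAlgClosed K
  haveI hacl : IsAlgClosure k (algebraicClosure k Ω) := inferInstance
  haveI hacb : IsAlgClosed (algebraicClosure k Ω) := IsAlgClosure.isAlgClosed k
  haveI : FiniteDimensional k k⟮τ⟯ := adjoin.finiteDimensional hτ
  let kb := algebraicClosure k Ω
  have hle : ∀ a : k⟮τ⟯, (a : Ω) ∈ algebraicClosure k Ω := by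
    intro a
    rw [mem_algebraicClosure_iff]
    have h1 : IsAlgebraic k a := Algebra.IsAlgebraic.isAlgebraic a
    exact (isAlgebraic_algHom_iff (k⟮τ⟯).val (k⟮τ⟯).val.injective).2 h1
  let ι : k⟮τ⟯ →ₐ[k] kb :=
    { toFun := fun a => ⟨a, hle a⟩
      map_one' := rfl
      map_mul' := fun _ _ => rfl
      map_zero' := rfl
      map_add' := fun _ _ => rfl
      commutes' := fun _ => rfl }
  have hι : ∀ a, ((ι a : kb) : Ω) = a := fun a => rfl
  -- lifting embeddings
  have hlift : ∀ σ : k⟮τ⟯ →ₐ[k] kb, ∃ g : AbsGal k Ω, ∀ a, g (ι a) = σ a := by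
    intro σ
    letI : Algebra k⟮τ⟯ kb := ι.toRingHom.toAlgebra
    haveI : IsScalarTower k k⟮τ⟯ kb := IsScalarTower.of_algebraMap_eq fun a => (ι.commutes a).symm
    haveI : Normal k kb := IsAlgClosure.normal k _
    refine ⟨AlgEquiv.ofBijective (AlgHom.liftNormal σ kb) (AlgHom.normal_bijective k kb kb _),
      fun a => ?_⟩
    exact AlgHom.liftNormal_commutes σ kb a
  choose g hg using hlift
  -- the stabiliser of `τ`
  have hstab : ∀ h h' : AbsGal k Ω, h (ι (AdjoinSimple.gen k τ)) = h' (ι (AdjoinSimple.gen k τ)) →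
      s h W = s h' W := by
    intro h h' hh
    have h1 : s (h'⁻¹ * h) W = W := by
      refine hWs _ fun c hc => ?_
      have h2 : c = ι (AdjoinSimple.gen k τ) := Subtype.ext (by
        rw [hc, hι, AdjoinSimple.coe_gen])
      rw [h2, AlgEquiv.mul_apply, hh]
      show (h'⁻¹ * h') _ = _
      rw [inv_mul_cancel]
      rfl
    have h3 : h = h' * (h'⁻¹ * h) := by rw [mul_inv_cancel_left]
    rw [h3, map_mul, AlgEquiv.mul_apply, h1]
  haveI : Fintype (k⟮τ⟯ →ₐ[k] kb) := Fintype.ofFinite _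
  refine ⟨∏ σ : k⟮τ⟯ →ₐ[k] kb, s (g σ) W, fun h => ?_, ?_⟩
  · rw [map_prod]
    -- the permutation of the embeddings
    let e : (k⟮τ⟯ →ₐ[k] kb) ≃ (k⟮τ⟯ →ₐ[k] kb) :=
      { toFun := fun σ => (h : kb →ₐ[k] kb).comp σ
        invFun := fun σ => ((h⁻¹ : AbsGal k Ω) : kb →ₐ[k] kb).comp σ
        left_inv := fun σ => by
          ext a
          show ((h⁻¹ * h : AbsGal k Ω) (σ a) : Ω) = _
          rw [inv_mul_cancel]
          rfl
        right_inv := fun σ => by
          ext a
          show ((h * h⁻¹ : AbsGal k Ω) (σ a) : Ω) = _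
          rw [mul_inv_cancel]
          rfl }
    rw [← e.prod_comp (fun σ => s (g σ) W)]
    refine Finset.prod_congr rfl fun σ _ => ?_
    rw [← AlgEquiv.mul_apply, ← map_mul]
    refine hstab _ _ ?_
    rw [AlgEquiv.mul_apply, hg, hg]
    rfl
  · have hprod : ((∏ σ : k⟮τ⟯ →ₐ[k] kb, s (g σ) W : maxUnramified k K Ω) : Ω) =
        ∏ σ : k⟮τ⟯ →ₐ[k] kb, ((s (g σ) W : maxUnramified k K Ω) : Ω) :=
      map_prod (maxUnramified k K Ω).val _ _
    rw [hprod, ← Finset.prod_pow]
    have hone : ∀ σ : k⟮τ⟯ →ₐ[k] kb, ((s (g σ) W : maxUnramified k K Ω) : Ω) ^ 2 =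
        ((σ δ : kb) : Ω) * (algebraMap K Ω w - (σ (AdjoinSimple.gen k τ) : kb)) := by
      intro σ
      let cδ : maxUnramified k K Ω := constHom k K Ω (ι δ)
      let cτ : maxUnramified k K Ω := constHom k K Ω (ι (AdjoinSimple.gen k τ))
      have h2 : W ^ 2 = cδ * (algebraMap K _ w - cτ) := Subtype.ext hW
      have h3 := congrArg (s (g σ)) h2
      rw [map_pow, map_mul, map_sub, AlgEquiv.commutes] at h3
      have h4 := congrArg (fun z : maxUnramified k K Ω => (z : Ω)) h3
      have h5 := hs.restrict (g σ) (ι δ) cδ rfl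
      have h6 := hs.restrict (g σ) (ι (AdjoinSimple.gen k τ)) cτ rfl
      rw [hg] at h5 h6
      rw [← h5, ← h6]
      exact h4
    rw [Finset.prod_congr rfl fun σ _ => hone σ, Finset.prod_mul_distrib]
    congr 1
    · rw [IsScalarTower.algebraMap_apply k kb Ω, Algebra.norm_eq_prod_embeddings]
      rw [map_prod]
      exact Finset.prod_congr (by ext; simp) fun σ _ => rfl
    · have h7 := congrArg (Polynomial.eval₂ (algebraMap kb Ω) (algebraMap K Ω w))
        (prod_sub_eq kb hτ)
      rw [Polynomial.eval₂_finsetProd] at h7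
      simp only [Polynomial.eval₂_sub, Polynomial.eval₂_X, Polynomial.eval₂_C] at h7
      rw [Polynomial.eval₂_map] at h7
      have h8 : (algebraMap kb Ω).comp (algebraMap k kb) = algebraMap k Ω :=
        (IsScalarTower.algebraMap_eq k kb Ω).symm
      rw [h8] at h7
      have h9 : algebraMap K Ω (aeval w (minpoly k τ)) =
          Polynomial.eval₂ (algebraMap k Ω) (algebraMap K Ω w) (minpoly k τ) := by
        rw [aeval_def, Polynomial.hom_eval₂, ← IsScalarTower.algebraMap_eq]
      rw [h9, ← h7]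
      rfl

end Pool.Agent.Lib.MP_c385f6_ag.DyK
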