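import Mathlib
import Pool.Agent.Lib.MP_c385f6_ag.DyK.Stmts2
import Pool.Agent.Lib.MP_c385f6_ag.AllP.Spread

set_option autoImplicit false

/-!
The twist and the conics at a closed point of the line with even fibre.
-/

namespace Pool.Agent.Lib.MP_c385f6_ag

open Polynomial IntermediateField

namespace DyK

namespace Overaux

section
variable {K M : Type*} [Field K] [Field M] [Algebra K M]

/-- Equal values for the restricted valuation ring. -/
theorem val_of_comap {A : ValuationSubring M} {a b : K}
    (h : (A.comap (algebraMap K M)).valuation a = (A.comap (algebraMap K M)).valuation b) :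
    A.valuation (algebraMap K M a) = A.valuation (algebraMap K M b) := by
  have key : ∀ a b : K, (A.comap (algebraMap K M)).valuation a ≤
      (A.comap (algebraMap K M)).valuation b →
      A.valuation (algebraMap K M a) ≤ A.valuation (algebraMap K M b) := by
    intro a b h
    by_cases hb : b = 0
    · subst hb
      rw [map_zero, le_zero_iff, map_eq_zero] at h
      rw [h]
    have h0 : (A.comap (algebraMap K M)).valuation b ≠ 0 := (_root_.map_ne_zero _).2 hb
    have h1 : a / b ∈ A.comap (algebraMap K M) := by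
      rw [← ValuationSubring.valuation_le_one_iff, map_div₀]
      exact (div_le_one₀ (zero_lt_iff.2 h0)).2 h
    have h2 : A.valuation (algebraMap K M (a / b)) ≤ 1 := (A.valuation_le_one_iff _).2 h1
    have h3 : A.valuation (algebraMap K M b) ≠ 0 := (_root_.map_ne_zero _).2 ((_root_.map_ne_zero _).2 hb)
    rw [map_div₀, map_div₀] at h2
    exact (div_le_one₀ (zero_lt_iff.2 h3)).1 h2
  exact le_antisymm (key a b h.le) (key b a h.ge)

end

section
variable {k F K M : Type*} [Field k] [CharZero k] [Field F] [Field K] [Field M]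
  [Algebra k F] [Algebra k K] [Algebra K M] [Algebra F M]

/-- The fibres over `F` are even. -/
theorem even_over [DecidableEq F]
    (hbase : ∀ c : k, algebraMap K M (algebraMap k K c) = algebraMap F M (algebraMap k F c))
    {T : Finset k} {w : K} (hE : EvenFibres k K T w) {p : k[X]} (hp : Irreducible p) (hEp : EvenAt k K p w) {τ : F} (hτ : aeval τ p = 0) :
    EvenFibres F M (insert τ (T.image (algebraMap k F))) (algebraMap K M w) := by
  intro A hA
  have hA0 : ∀ c : k, algebraMap k K c ∈ A.comap (algebraMap K M) := by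
    intro c
    rw [ValuationSubring.mem_comap, hbase]
    exact hA _
  obtain ⟨h1, h2⟩ := hE _ hA0
  constructor
  · intro hw t ht
    have hw' : w ∈ A.comap (algebraMap K M) := hw
    rw [Finset.mem_insert, Finset.mem_image] at ht
    rcases ht with ht | ⟨t, ht, rfl⟩
    · subst ht
      by_cases hlt : A.valuation (algebraMap K M w - algebraMap F M t) < 1
      · -- the factor of `p`
        obtain ⟨q, hq⟩ : X - C t ∣ p.map (algebraMap k F) := by
          rw [dvd_iff_isRoot, IsRoot.def, eval_map_algebraMap]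
          exact hτ
        have hder : q.eval t ≠ 0 := by
          have h3 := hp.separable.aeval_derivative_ne_zero hτ
          have h4 : aeval t (derivative p) = q.eval t := by
            rw [← eval_map_algebraMap, ← derivative_map, hq, derivative_mul]
            simp
          rwa [h4] at h3
        obtain ⟨r, hr⟩ := X_sub_C_dvd_sub_C_eval (p := q) (a := t)
        have hmem : ∀ u : F[X], u.eval₂ (algebraMap F M) (algebraMap K M w) ∈ A := by
          intro u
          rw [eval₂_eq_sum_range]
          exact sum_mem fun i _ => mul_mem (hA _) (pow_mem hw i)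
        have hunit : A.valuation (algebraMap F M (q.eval t)) = 1 := by
          refine le_antisymm ((A.valuation_le_one_iff _).2 (hA _)) ?_
          have h3 : A.valuation (algebraMap F M (q.eval t)⁻¹) ≤ 1 :=
            (A.valuation_le_one_iff _).2 (hA _)
          rw [map_inv₀, map_inv₀] at h3
          have h4 : A.valuation (algebraMap F M (q.eval t)) ≠ 0 :=
            (_root_.map_ne_zero _).2 ((_root_.map_ne_zero _).2 hder)
          exact (inv_le_one₀ (zero_lt_iff.2 h4)).1 h3
        have hqv : A.valuation (q.eval₂ (algebraMap F M) (algebraMap K M w)) = 1 := by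
          have h3 : q.eval₂ (algebraMap F M) (algebraMap K M w) =
              algebraMap F M (q.eval t) + (algebraMap K M w - algebraMap F M t) *
                r.eval₂ (algebraMap F M) (algebraMap K M w) := by
            have h4 := congrArg (eval₂ (algebraMap F M) (algebraMap K M w)) hr
            rw [eval₂_sub, eval₂_C, eval₂_mul, eval₂_sub, eval₂_X, eval₂_C] at h4
            rw [← h4]
            ring
          rw [h3, ← hunit]
          refine Valuation.map_add_eq_of_lt_left _ ?_
          rw [hunit, map_mul]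
          exact mul_lt_one_of_lt_of_le hlt ((A.valuation_le_one_iff _).2 (hmem r))
        have hpv : A.valuation (algebraMap K M (aeval w p)) =
            A.valuation (algebraMap K M w - algebraMap F M t) := by
          have h3 : algebraMap K M (aeval w p) =
              (p.map (algebraMap k F)).eval₂ (algebraMap F M) (algebraMap K M w) := by
            rw [eval₂_map, aeval_def, hom_eval₂]
            congr 1
            ext c
            exact hbase c
          rw [h3, hq, eval₂_mul, eval₂_sub, eval₂_X, eval₂_C, map_mul, hqv, mul_one]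
        obtain ⟨h, hh, h3⟩ := hEp _ hA0 hw'
        refine ⟨algebraMap K M h, (_root_.map_ne_zero _).2 hh, ?_⟩
        have h4 := val_of_comap h3
        rwa [map_pow, hpv] at h4
      · refine ⟨1, one_ne_zero, ?_⟩
        rw [one_pow, map_one]
        exact le_antisymm ((A.valuation_le_one_iff _).2 (sub_mem hw (hA _))) (not_lt.1 hlt)
    · obtain ⟨h, hh, h3⟩ := h1 hw' t ht
      refine ⟨algebraMap K M h, (_root_.map_ne_zero _).2 hh, ?_⟩
      have h4 := val_of_comap h3
      rwa [map_sub, hbase, map_pow] at h4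
  · intro hw
    obtain ⟨h, hh, h3⟩ := h2 hw
    refine ⟨algebraMap K M h, (_root_.map_ne_zero _).2 hh, ?_⟩
    have h4 := val_of_comap h3
    rwa [map_pow] at h4

variable {Ω : Type*} [Field Ω] [Algebra k Ω] [Algebra F Ω] [Algebra K Ω] [Algebra M Ω]
  [IsScalarTower k K Ω] [IsScalarTower k F Ω] [IsScalarTower K M Ω] [IsScalarTower F M Ω]

/-- The twist and the conics over `F`. -/
theorem over_gen [Algebra.IsAlgebraic k F] [IsAlgClosure K Ω]
    (hM : adjoin K (Set.range (algebraMap F M)) = ⊤) {T : Finset k} {w : K}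
    (hw : Transcendental k w) (hE : EvenFibres k K T w) {s : AbsGal k Ω →* PiOne k K Ω}
    (hs : IsSection k K Ω s) {D : {t // t ∈ T} → k} {Y : {t // t ∈ T} → maxUnramified k K Ω}
    (hD : ∀ j, D j ≠ 0) (hYs : ∀ j g, s g (Y j) = Y j)
    (hY : ∀ j, (Y j : Ω) ^ 2 = algebraMap k Ω (D j) * algebraMap K Ω (w - algebraMap k K (j : k)))
    (hDD : ∃ i j, i ≠ j ∧ ∃ e : k, e ≠ 0 ∧ D i = D j * e ^ 2) {p : k[X]} (hp : Irreducible p)
    (hEp : EvenAt k K p w) {τ : F} (hτ : aeval τ p = 0) (hτ' : τ ∉ Set.range (algebraMap k F)) :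
    ∃ (δ : F) (W : maxUnramified k K Ω), δ ≠ 0 ∧
      (W : Ω) ^ 2 = algebraMap F Ω δ * (algebraMap K Ω w - algebraMap F Ω τ) ∧
      (∀ γ : AbsGal F Ω, s (resAbs k F Ω γ) W = W) ∧
      ∀ j : {t // t ∈ T}, ∃ a b : F, δ * a ^ 2 - algebraMap k F (D j) * b ^ 2 =
        algebraMap k F (j : k) - τ := by
  classical
  have hacO : IsAlgClosed Ω := IsAlgClosure.isAlgClosed K
  have halgO : Algebra.IsAlgebraic K Ω := IsAlgClosure.isAlgebraic
  have halgM : Algebra.IsAlgebraic M Ω := Algebra.IsAlgebraic.tower_top (K := K) M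
  have hclM : IsAlgClosure M Ω := ⟨hacO, halgM⟩
  have hcF : CharZero F := charZero_of_injective_algebraMap (algebraMap k F).injective
  obtain ⟨s', hs', hcomp⟩ := exists_base_section k F K M Ω hM hs
  have hmem := mem_ur_iff_base (k := k) (L := F) (K := K) (M := M) (Ω := Ω) hM
  have hKM : ∀ x : K, algebraMap M Ω (algebraMap K M x) = algebraMap K Ω x := fun x =>
    (IsScalarTower.algebraMap_apply K M Ω x).symm
  have hFM : ∀ x : F, algebraMap M Ω (algebraMap F M x) = algebraMap F Ω x := fun x =>
    (IsScalarTower.algebraMap_apply F M Ω x).symm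
  have hkF : ∀ x : k, algebraMap F Ω (algebraMap k F x) = algebraMap k Ω x := fun x =>
    (IsScalarTower.algebraMap_apply k F Ω x).symm
  have hkK : ∀ x : k, algebraMap K Ω (algebraMap k K x) = algebraMap k Ω x := fun x =>
    (IsScalarTower.algebraMap_apply k K Ω x).symm
  have hbase : ∀ c : k, algebraMap K M (algebraMap k K c) = algebraMap F M (algebraMap k F c) := by
    intro c
    apply (algebraMap M Ω).injective
    rw [hKM, hFM, hkF, hkK]
  -- the twists over `F`
  let T' : Finset F := insert τ (T.image (algebraMap k F))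
  have hE' : EvenFibres F M T' (algebraMap K M w) := even_over hbase hE hp hEp hτ
  obtain ⟨D', Y', hD', hYs', hY', hcon⟩ := even_twists (k := F) (K := M) (Ω := Ω) hE' hs'
  let jt : {t // t ∈ T} → {x // x ∈ T'} := fun t =>
    ⟨algebraMap k F t, Finset.mem_insert_of_mem (Finset.mem_image_of_mem _ t.2)⟩
  let jτ : {x // x ∈ T'} := ⟨τ, Finset.mem_insert_self _ _⟩
  have hjt : Function.Injective jt := by
    intro a b h
    exact Subtype.ext ((algebraMap k F).injective (congrArg Subtype.val h))
  have hjτ : ∀ t, jτ ≠ jt t := fun t h => hτ' ⟨t, (congrArg Subtype.val h).symm⟩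
  -- comparison with the twists over `k`
  have hcmp : ∀ t, ∃ e : F, e ≠ 0 ∧ D' (jt t) = algebraMap k F (D t) * e ^ 2 := by
    intro t
    have hsub : algebraMap K Ω (w - algebraMap k K (t : k)) ≠ 0 := by
      rw [_root_.map_ne_zero, sub_ne_zero]
      intro h
      apply hw
      rw [h]
      exact isAlgebraic_algebraMap _
    have h1 := hY' (jt t)
    have h2 := hY t
    have h3 : algebraMap M Ω (algebraMap K M w - algebraMap F M ((jt t : {x // x ∈ T'}) : F)) =
        algebraMap K Ω (w - algebraMap k K (t : k)) := by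
      show algebraMap M Ω (algebraMap K M w - algebraMap F M (algebraMap k F (t : k))) = _
      rw [map_sub, map_sub, hKM, hFM, hkF, hkK]
    rw [h3] at h1
    have hYn : (Y t : Ω) ≠ 0 := by
      intro h
      rw [h, zero_pow two_ne_zero] at h2
      exact mul_ne_zero ((_root_.map_ne_zero _).2 (hD t)) hsub h2.symm
    have hYn' : (Y' (jt t) : Ω) ≠ 0 := by
      intro h
      rw [h, zero_pow two_ne_zero] at h1
      exact mul_ne_zero ((_root_.map_ne_zero _).2 (hD' _)) hsub h1.symm
    let y : maxUnramified F M Ω := ⟨Y t, (hmem _).2 (Y t).2⟩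
    have hy : ∀ g, s' g y = y := by
      intro g
      apply Subtype.ext
      rw [hcomp g y (Y t) rfl, hYs]
    have hE2 : ((Y' (jt t) / y : maxUnramified F M Ω) : Ω) ^ 2 =
        algebraMap F Ω (D' (jt t)) / algebraMap k Ω (D t) := by
      have e1 : ((Y' (jt t) / y : maxUnramified F M Ω) : Ω) = (Y' (jt t) : Ω) / (Y t : Ω) := rfl
      have hDt : algebraMap k Ω (D t) ≠ 0 := (_root_.map_ne_zero _).2 (hD t)
      rw [e1, div_pow, h1, h2]
      field_simp
    obtain ⟨e, he⟩ := fixed_const (k := F) (K := M) hs' (z := Y' (jt t) / y) (by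
      intro g
      exact (map_div₀ (s' g) _ _).trans (congrArg₂ (· / ·) (hYs' _ g) (hy g))) (by
      rw [mem_algebraicClosure_iff]
      refine ⟨X ^ 2 - C (D' (jt t) / algebraMap k F (D t)),
        (monic_X_pow_sub_C _ two_ne_zero).ne_zero, ?_⟩
      rw [map_sub, map_pow, aeval_X, aeval_C, map_div₀, hE2, hkF, sub_self])
    rw [he, ← hkF, ← map_pow, ← map_div₀] at hE2
    have h5 := (algebraMap F Ω).injective hE2
    have hDt : algebraMap k F (D t) ≠ 0 := (_root_.map_ne_zero _).2 (hD t)
    refine ⟨e, ?_, ?_⟩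
    · rintro rfl
      rw [zero_pow two_ne_zero] at h5
      exact div_ne_zero (hD' _) hDt h5.symm
    · rw [h5]
      field_simp
  -- two twists differ by a square
  have hDD' : ∃ i j, i ≠ j ∧ ∃ e : F, e ≠ 0 ∧ D' i = D' j * e ^ 2 := by
    obtain ⟨i, j, hij, e, he, h⟩ := hDD
    obtain ⟨a, ha, h1⟩ := hcmp i
    obtain ⟨b, hb, h2⟩ := hcmp j
    refine ⟨jt i, jt j, fun h => hij (hjt h), algebraMap k F e * a / b, ?_, ?_⟩
    · exact div_ne_zero (mul_ne_zero ((_root_.map_ne_zero _).2 he) ha) hb
    · rw [h1, h2, h, map_mul, map_pow]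
      field_simp
  have hcon' := hcon hDD'
  refine ⟨D' jτ, ⟨Y' jτ, (hmem _).1 (Y' jτ).2⟩, hD' _, ?_, ?_, ?_⟩
  · show ((Y' jτ : maxUnramified F M Ω) : Ω) ^ 2 = _
    rw [hY' jτ, map_sub, hKM, hFM]
  · intro γ
    apply Subtype.ext
    rw [← hcomp γ (Y' jτ) ⟨Y' jτ, (hmem _).1 (Y' jτ).2⟩ rfl, hYs']
  · intro j
    obtain ⟨e, -, he⟩ := hcmp j
    obtain ⟨a, b, hab⟩ := hcon' jτ (jt j) (hjτ j)
    refine ⟨a, e * b, ?_⟩
    rw [he] at hab
    rw [← hab]
    ring

end

/-- The adjunction of an element, over the larger field. -/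
theorem adjoin_range_top {K Ω : Type*} [Field K] [Field Ω] [Algebra K Ω] (τ : Ω)
    (S : Set K⟮τ⟯) (hS : AdjoinSimple.gen K τ ∈ S) : adjoin K S = ⊤ := by
  rw [eq_top_iff]
  intro m _
  have h1 : K⟮τ⟯ ≤ lift (adjoin K S) := by
    rw [adjoin_simple_le_iff]
    exact ⟨AdjoinSimple.gen K τ, subset_adjoin K S hS, rfl⟩
  obtain ⟨x, hx, hxm⟩ := h1 m.2
  have h2 : x = m := Subtype.ext hxm
  rwa [← h2]

end Overaux

open Overaux in
/-- The twist and the conics at a closed point of the line with even fibre. -/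
theorem stOver (k K Ω : Type*) [Field k] [CharZero k] [Field K] [Field Ω] [Algebra k K]
    [Algebra k Ω] [Algebra K Ω] [IsScalarTower k K Ω] [IsAlgClosure K Ω] : StOver k K Ω := by
  intro T w hw hE s hs D Y hD hYs hY hDD p hp hEp τ hτ hτ'
  have hle : ∀ x ∈ k⟮τ⟯, x ∈ K⟮τ⟯ := by
    intro x hx
    have h1 : k⟮τ⟯ ≤ (K⟮τ⟯).restrictScalars k := by
      rw [adjoin_simple_le_iff]
      exact mem_adjoin_simple_self K τ
    exact h1 hx
  let f : k⟮τ⟯ →+* K⟮τ⟯ :=
    { toFun := fun x => ⟨x, hle x x.2⟩
      map_one' := rfl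
      map_mul' := fun a b => rfl
      map_zero' := rfl
      map_add' := fun a b => rfl }
  let _ : Algebra k⟮τ⟯ K⟮τ⟯ := f.toAlgebra
  have : IsScalarTower k⟮τ⟯ K⟮τ⟯ Ω := IsScalarTower.of_algebraMap_eq fun x => rfl
  have hint : IsIntegral k τ := by
    have h1 : IsAlgebraic k τ := ⟨p, hp.ne_zero, hτ⟩
    exact h1.isIntegral
  have hfd : FiniteDimensional k k⟮τ⟯ := adjoin.finiteDimensional hint
  have hτF : aeval (AdjoinSimple.gen k τ) p = 0 := by
    apply (algebraMap k⟮τ⟯ Ω).injective
    rw [map_zero, ← aeval_algebraMap_apply, AdjoinSimple.algebraMap_gen]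
    exact hτ
  obtain ⟨δ, W, h1, h2, h3, h4⟩ := over_gen (k := k) (F := k⟮τ⟯) (K := K) (M := K⟮τ⟯) (Ω := Ω)
    (adjoin_range_top τ _ ⟨AdjoinSimple.gen k τ, rfl⟩) hw hE hs hD hYs hY hDD hp hEp hτF (by
      rintro ⟨c, hc⟩
      apply hτ'
      refine ⟨c, ?_⟩
      have h5 := congrArg (algebraMap k⟮τ⟯ Ω) hc
      rwa [AdjoinSimple.algebraMap_gen] at h5)
  refine ⟨δ, W, h1, h2, ?_, h4⟩
  intro g hg
  obtain ⟨γ, hγ⟩ := exists_resAbs (k := k) (L := k⟮τ⟯) (Ω := Ω) (h := g) (by
    have h5 : (g : algebraicClosure k Ω →ₐ[k] algebraicClosure k Ω).comp (embL k k⟮τ⟯ Ω) =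
        embL k k⟮τ⟯ Ω := by
      refine adjoin_algHom_ext k fun x hx => ?_
      rw [Set.mem_singleton_iff] at hx
      exact hg _ hx
    intro x
    exact DFunLike.congr_fun h5 x)
  rw [← hγ]
  exact h3 γ

end DyK

end Pool.Agent.Lib.MP_c385f6_ag
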