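import Mathlib
import Pool.Agent.Lib.MP_c385f6_ag.DyK.Stmts
import Pool.Agent.Lib.MP_c385f6_ag.PlaceMain

/-!
A rational place gives a section.
-/

namespace Pool.Agent.Lib.MP_c385f6_ag.DyK

open Pool.Agent.Lib.MP_c385f6_ag

theorem stPlace (k K Ω : Type*) [Field k] [CharZero k] [Field K] [Field Ω] [Algebra k K]
    [Algebra k Ω] [Algebra K Ω] [IsScalarTower k K Ω] [IsAlgClosure K Ω] : StPlace k K Ω :=
  fun _ hB => exists_section hB

end Pool.Agent.Lib.MP_c385f6_ag.DyK
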