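import Mathlib
import Pool.Agent.Lib.MP_c385f6_ag.DyK.Stmts2

set_option autoImplicit false

/-!
Rational places of elementary abelian `2`-covers of the line given by polynomials, over rational
points where the polynomials have nonzero square values.
-/

namespace Pool.Agent.Lib.MP_c385f6_ag.DyK

open Polynomial IntermediateField

namespace PlacePolyaux

/-- A power series whose constant term is a nonzero square is a square. -/
theorem exists_sqrt_series {k : Type*} [Field k] [CharZero k] (f : PowerSeries k) {e : k}
    (he : e ≠ 0) (hf : PowerSeries.constantCoeff f = e ^ 2) : ∃ s : PowerSeries k, s ^ 2 = f := by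
  have h1 : (PowerSeries.binomialSeries k (1 / 2 : ℚ)) ^ 2 = 1 + PowerSeries.X := by
    rw [sq, ← PowerSeries.binomialSeries_add]
    have h2 : (1 / 2 + 1 / 2 : ℚ) = ((1 : ℕ) : ℚ) := by norm_num
    rw [h2, PowerSeries.binomialSeries_nat, pow_one]
  have he2 : e ^ 2 ≠ 0 := pow_ne_zero _ he
  set u : PowerSeries k := PowerSeries.C ((e ^ 2)⁻¹) * f - 1 with hu
  have hu0 : PowerSeries.constantCoeff u = 0 := by
    rw [hu, map_sub, map_mul, hf, PowerSeries.constantCoeff_C, map_one, inv_mul_cancel₀ he2,
      sub_self]
  have hs : PowerSeries.HasSubst u := PowerSeries.HasSubst.of_constantCoeff_zero' hu0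
  refine ⟨PowerSeries.C e * PowerSeries.substAlgHom (R := k) hs
    (PowerSeries.binomialSeries k (1 / 2 : ℚ)), ?_⟩
  have h3 : PowerSeries.substAlgHom (R := k) hs (PowerSeries.X : PowerSeries k) = u :=
    PowerSeries.substAlgHom_X hs
  rw [mul_pow, ← map_pow (PowerSeries.substAlgHom (R := k) hs), h1, map_add, map_one, h3, hu,
    ← map_pow, add_sub_cancel, ← mul_assoc, ← map_mul, mul_inv_cancel₀ he2, map_one, one_mul]

end PlacePolyaux

open PlacePolyaux in
/-- Rational places over a point of the line with square values. -/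
theorem stPlacePoly (k K : Type*) [Field k] [CharZero k] [Field K] [Algebra k K] :
    StPlacePoly k K := by
  classical
  intro w Z h x hw hz hne he htop0
  have htop : adjoin k (insert w (Set.range (fun z : Z => (z : K)))) = ⊤ := by
    rw [Subtype.range_coe]
    exact htop0
  let F := LaurentSeries k
  let M := AlgebraicClosure F
  let q : PowerSeries k →+* F := algebraMap (PowerSeries k) F
  have hq : Function.Injective q := IsFractionRing.injective (PowerSeries k) (LaurentSeries k)
  have hqk : ∀ c : k, q (PowerSeries.C c) = algebraMap k F c := series_const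
  let t : F := algebraMap k F x + q PowerSeries.X
  have ht : Transcendental k t := by
    intro h
    apply transcendental_T (k := k)
    have h1 : q PowerSeries.X = t - algebraMap k F x := by
      show q PowerSeries.X = algebraMap k F x + q PowerSeries.X - algebraMap k F x
      ring
    show IsAlgebraic k (q PowerSeries.X)
    rw [h1]
    exact h.sub (isAlgebraic_algebraMap x)
  let f : k⟮w⟯ →ₐ[k] F := (k⟮t⟯.val.comp (RatFunc.algEquivOfTranscendental t ht).toAlgHom).comp
    (RatFunc.algEquivOfTranscendental w hw).symm.toAlgHom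
  have hfw : f (AdjoinSimple.gen k w) = t := by
    show ((RatFunc.algEquivOfTranscendental t ht ((RatFunc.algEquivOfTranscendental w hw).symm
      (AdjoinSimple.gen k w)) : k⟮t⟯) : F) = t
    rw [RatFunc.algEquivOfTranscendental_symm_gen, RatFunc.algEquivOfTranscendental_X]
  let _ : Algebra k⟮w⟯ M := ((algebraMap F M).comp f.toRingHom).toAlgebra
  have hwM : ∀ y : k⟮w⟯, algebraMap k⟮w⟯ M y = algebraMap F M (f y) := fun y => rfl
  have htop' : adjoin k⟮w⟯ (Set.range (fun z : Z => (z : K))) = ⊤ := by
    have h1 := adjoin_adjoin_left k {w} (Set.range (fun z : Z => (z : K)))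
    rw [Set.singleton_union, htop] at h1
    rw [eq_top_iff]
    intro y _
    have : y ∈ (adjoin k⟮w⟯ (Set.range (fun z : Z => (z : K)))).restrictScalars k := by
      rw [h1]
      trivial
    exact this
  have halg : Algebra.IsAlgebraic k⟮w⟯ K := by
    have h1 : Algebra.IsAlgebraic k⟮w⟯ (adjoin k⟮w⟯ (Set.range (fun z : Z => (z : K)))) := by
      apply isAlgebraic_adjoin
      rintro _ ⟨i, rfl⟩
      have h2 : IsIntegral k⟮w⟯ ((i : K) ^ 2) := by
        rw [hz i]
        have h3 : aeval w (h i) =
            algebraMap k⟮w⟯ K (aeval (AdjoinSimple.gen k w) (h i)) := by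
          rw [← aeval_algebraMap_apply, AdjoinSimple.algebraMap_gen]
        rw [h3]
        exact isIntegral_algebraMap
      exact h2.of_pow two_pos
    rw [htop'] at h1
    exact ⟨fun y => by
      have h2 := h1.isAlgebraic (⟨y, trivial⟩ : (⊤ : IntermediateField k⟮w⟯ K))
      exact (isAlgebraic_iff (S := ⊤) ).1 h2⟩
  let φ : K →ₐ[k⟮w⟯] M := IsAlgClosed.lift
  have hφw : φ w = algebraMap F M t := by
    have h1 := φ.commutes (AdjoinSimple.gen k w)
    rw [hwM, hfw] at h1
    exact h1
  have hφc : ∀ c : k, φ (algebraMap k K c) = algebraMap F M (q (PowerSeries.C c)) := by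
    intro c
    have h1 := φ.commutes (algebraMap k k⟮w⟯ c)
    rw [hwM, f.commutes] at h1
    rw [hqk]
    exact h1
  have hφp : ∀ p : k[X], φ (aeval w p) =
      algebraMap F M (q (aeval (PowerSeries.C x + PowerSeries.X : PowerSeries k) p)) := by
    intro p
    have h1 : ((φ : K →+* M).comp (algebraMap k K)) =
        (((algebraMap F M).comp q).comp (PowerSeries.C : k →+* PowerSeries k)) := by
      ext c
      exact hφc c
    have h2 : φ (aeval w p) = eval₂ ((φ : K →+* M).comp (algebraMap k K)) (φ w) p := by
      rw [aeval_def]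
      exact hom_eval₂ p (algebraMap k K) (φ : K →+* M) w
    have h3 : algebraMap F M (q (aeval (PowerSeries.C x + PowerSeries.X : PowerSeries k) p)) =
        eval₂ (((algebraMap F M).comp q).comp (PowerSeries.C : k →+* PowerSeries k))
          (((algebraMap F M).comp q) (PowerSeries.C x + PowerSeries.X)) p := by
      rw [aeval_def]
      exact hom_eval₂ p (algebraMap k (PowerSeries k)) ((algebraMap F M).comp q) _
    rw [h2, h3, h1, hφw]
    congr 1
    show algebraMap F M (algebraMap k F x + q PowerSeries.X) =
      algebraMap F M (q (PowerSeries.C x + PowerSeries.X))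
    rw [map_add q, hqk]
  have hcc : ∀ p : k[X], PowerSeries.constantCoeff
      (aeval (PowerSeries.C x + PowerSeries.X : PowerSeries k) p) = p.eval x := by
    intro p
    rw [aeval_def, hom_eval₂ p (algebraMap k (PowerSeries k)) PowerSeries.constantCoeff]
    have h1 : (PowerSeries.constantCoeff (R := k)).comp (algebraMap k (PowerSeries k)) =
        RingHom.id k := by
      ext c
      show PowerSeries.constantCoeff (algebraMap k (PowerSeries k) c) = c
      rw [PowerSeries.algebraMap_apply]
      simp
    rw [h1, eval]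
    congr 1
    simp
  have hφz : ∀ i : Z, ∃ g, φ (i : K) = algebraMap F M g := by
    intro i
    obtain ⟨e, hei⟩ := he i
    have he0 : e ≠ 0 := by
      rintro rfl
      apply hne i
      rw [hei]
      simp
    obtain ⟨s, hs⟩ := exists_sqrt_series
      (aeval (PowerSeries.C x + PowerSeries.X : PowerSeries k) (h i)) he0 (by rw [hcc, hei])
    have h1 : φ (i : K) ^ 2 = (algebraMap F M (q s)) ^ 2 := by
      rw [← map_pow, hz i, hφp, ← hs, map_pow, map_pow]
    rcases sq_eq_sq_iff_eq_or_eq_neg.1 h1 with h2 | h2
    · exact ⟨_, h2⟩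
    · exact ⟨-(q s), by rw [map_neg]; exact h2⟩
  have hφ : ∀ y : K, ∃ g : F, φ y = algebraMap F M g := by
    intro y
    have hy : y ∈ adjoin k (insert w (Set.range (fun z : Z => (z : K)))) := by rw [htop]; trivial
    induction hy using adjoin_induction with
    | mem y hy =>
      rcases hy with rfl | ⟨i, rfl⟩
      · exact ⟨_, hφw⟩
      · exact hφz i
    | algebraMap c => exact ⟨_, hφc c⟩
    | add a b _ _ ha hb =>
      obtain ⟨g, hg⟩ := ha
      obtain ⟨h, hh⟩ := hb
      exact ⟨g + h, by rw [map_add, map_add, hg, hh]⟩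
    | inv a _ ha =>
      obtain ⟨g, hg⟩ := ha
      exact ⟨g⁻¹, by rw [map_inv₀, map_inv₀, hg]⟩
    | mul a b _ _ ha hb =>
      obtain ⟨g, hg⟩ := ha
      obtain ⟨h, hh⟩ := hb
      exact ⟨g * h, by rw [map_mul, map_mul, hg, hh]⟩
  refine exists_place_of_series φ.toRingHom hφc hφ ?_
  show φ (w - algebraMap k K x) = _
  rw [map_sub, hφw, hφc, ← map_sub]
  congr 1
  show algebraMap k F x + q PowerSeries.X - q (PowerSeries.C x) = _
  rw [hqk]
  ring

end Pool.Agent.Lib.MP_c385f6_ag.DyK
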