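import Mathlib
import Pool.Agent.Lib.MP_c385f6_ag.DyK.Stmts
import Pool.Agent.Lib.MP_c385f6_ag.DyK.Even
import Pool.Agent.Lib.MP_c385f6_ag.Dyadic.AP

/-!
Sections for maps to the line with even fibres over a set of points with only realised compatible
systems.
-/

namespace Pool.Agent.Lib.MP_c385f6_ag

open IntermediateField

/-- The subfield of `K` generated by `w` and all square roots in `K` of the functions
`c ∏ (w - t)`, where `c ∈ k^*` and `t` runs through a subset of `T`. -/
def rootField (k K : Type*) [Field k] [Field K] [Algebra k K] (T : Finset k) (w : K) :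
    IntermediateField k K :=
  adjoin k (insert w {z : K | ∃ c : k, c ≠ 0 ∧ ∃ S : Finset k, S ⊆ T ∧
    z ^ 2 = algebraMap k K c * ∏ t ∈ S, (w - algebraMap k K t)})

namespace DyK

section
variable {k : Type*} [Field k] [CharZero k]

/-- A point on a conic gives a trivial symbol. -/
theorem compat_of_conic (hk : GoodSymbol k) {s t d e x y : k} (hst : s ≠ t) (hd : d ≠ 0)
    (he : e ≠ 0) (h : d * x ^ 2 - e * y ^ 2 = t - s) :
    bf hk (cl (t - s) + cl d) (cl (s - t) + cl e) = 0 := by
  have h1 : t - s ≠ 0 := sub_ne_zero.2 hst.symm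
  have h2 : s - t ≠ 0 := sub_ne_zero.2 hst
  rw [← cl_mul h1 hd, ← cl_mul h2 he, bf_eq_zero hk (mul_ne_zero h1 hd) (mul_ne_zero h2 he)]
  have h3 : (t - s) * d * x ^ 2 + (s - t) * e * y ^ 2 = (t - s) ^ 2 := by
    linear_combination (t - s) * h
  by_cases hy : y = 0
  · have hx : x ≠ 0 := by
      rintro rfl
      rw [hy] at h3
      exact pow_ne_zero 2 h1 (by rw [← h3]; ring)
    have h4 : (t - s) * d = ((t - s) / x) ^ 2 := by
      rw [hy] at h
      field_simp
      linear_combination h
    rw [h4]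
    exact Nm.of_left_sq (div_ne_zero h1 hx)
  · refine ⟨(t - s) / y, x / y, ?_⟩
    field_simp
    linear_combination h3

end

section
variable {k K Ω ι : Type*} [Field k] [CharZero k] [Field K] [Field Ω] [Algebra k K] [Algebra k Ω]
  [Algebra K Ω] [IsScalarTower k K Ω] [IsAlgClosure K Ω] {T : Finset k} {w : K}

/-- The point of the line belonging to a section. -/
theorem sect_point (hk : GoodSymbol k) [Finite (Sq k)] (hcard : Nat.card (Sq k) < T.card)
    (hcomp : ∀ D : k → Sq k, Compat hk T D → Realised T D) (hE : EvenFibres k K T w)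
    {s : AbsGal k Ω →* PiOne k K Ω} (hs : IsSection k K Ω s) :
    ∃ x : k, x ∉ T ∧ ∀ t ∈ T, ∃ Y : maxUnramified k K Ω, (∀ g, s g Y = Y) ∧ (Y : Ω) ^ 2 =
        algebraMap k Ω (x - t) * algebraMap K Ω (w - algebraMap k K t) := by
  classical
  obtain ⟨D, Y, hD, hYs, hY, hcon⟩ := even_twists (Ω := Ω) hE hs
  -- two of the classes are equal
  have h1 : ∃ i j, i ≠ j ∧ ∃ e : k, e ≠ 0 ∧ D i = D j * e ^ 2 := by
    have : Fintype (Sq k) := Fintype.ofFinite _
    obtain ⟨i, j, hij, h⟩ := Fintype.exists_ne_map_eq_of_card_lt (fun j => cl (D j)) (by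
      rw [Fintype.card_coe, ← Nat.card_eq_fintype_card]
      exact hcard)
    obtain ⟨e, he, h2⟩ := (cl_eq_iff (hD j) (hD i)).1 h.symm
    exact ⟨i, j, hij, e, he, h2⟩
  have h2 := hcon h1
  let D' : k → Sq k := fun t => if h : t ∈ T then cl (D ⟨t, h⟩) else 0
  obtain ⟨x, hx⟩ := hcomp D' (by
    intro s hs t ht hst
    obtain ⟨u, v, h3⟩ := h2 ⟨s, hs⟩ ⟨t, ht⟩ (fun h => hst (congrArg Subtype.val h))
    simp only [D', dif_pos hs, dif_pos ht]
    exact compat_of_conic hk hst (hD _) (hD _) h3)
  refine ⟨x, fun h => (hx x h).1 rfl, fun t ht => ?_⟩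
  obtain ⟨h3, h4⟩ := hx t ht
  simp only [D', dif_pos ht] at h4
  obtain ⟨e, he, h5⟩ := (cl_eq_iff (hD _) (sub_ne_zero.2 h3)).1 h4
  have hem : algebraMap k Ω e ∈ maxUnramified k K Ω :=
    const_mem_maxUnramified ((algebraicClosure k Ω).algebraMap_mem e)
  refine ⟨Y ⟨t, ht⟩ * ⟨algebraMap k Ω e, hem⟩, fun g => ?_, ?_⟩
  · rw [map_mul, hYs]
    congr 1
    apply Subtype.ext
    rw [hs.restrict g (algebraMap k _ e) _ rfl, AlgEquiv.commutes]
    rfl
  · show ((Y ⟨t, ht⟩ : Ω) * algebraMap k Ω e) ^ 2 = _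
    rw [mul_pow, hY, h5, map_mul, map_pow]
    ring

/-- The values of the products at the point belonging to a section are squares. -/
theorem point_value {s : AbsGal k Ω →* PiOne k K Ω} (hs : IsSection k K Ω s) {x : k}
    (hw : Transcendental k w)
    (hY : ∀ t ∈ T, ∃ Y : maxUnramified k K Ω, (∀ g, s g Y = Y) ∧ (Y : Ω) ^ 2 =
        algebraMap k Ω (x - t) * algebraMap K Ω (w - algebraMap k K t))
    {c : k} (hc : c ≠ 0) {S : Finset k} (hS : S ⊆ T) {z : K}
    (hz : z ^ 2 = algebraMap k K c * ∏ t ∈ S, (w - algebraMap k K t)) :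
    ∃ e : k, c * ∏ t ∈ S, (x - t) = e ^ 2 := by
  classical
  have hwt : ∀ t : k, w - algebraMap k K t ≠ 0 := by
    intro t h
    apply hw
    rw [sub_eq_zero.1 h]
    exact isAlgebraic_algebraMap _
  have hz0 : z ≠ 0 := by
    intro h
    rw [h, zero_pow two_ne_zero] at hz
    exact mul_ne_zero ((map_ne_zero _).2 hc) (Finset.prod_ne_zero_iff.2
      fun t _ => hwt t) hz.symm
  have hS' : (S.subtype (fun t => t ∈ T)).map (Function.Embedding.subtype _) = S :=
    Finset.subtype_map_of_mem (fun x hx => hS hx)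
  have h1 : ∏ j ∈ S.subtype (fun t => t ∈ T), (w - algebraMap k K (j : k)) =
      ∏ t ∈ S, (w - algebraMap k K t) := by
    conv_rhs => rw [← hS', Finset.prod_map]
    rfl
  have h2 : ∏ j ∈ S.subtype (fun t => t ∈ T), (x - (j : k)) = ∏ t ∈ S, (x - t) := by
    conv_rhs => rw [← hS', Finset.prod_map]
    rfl
  rw [← h2]
  rw [← h1] at hz
  exact Dyadic.ap_values (b := (Subtype.val : {t // t ∈ T} → k)) hs (fun j => hY j j.2) hz0 hz

omit [Field Ω] [Algebra k Ω] [Algebra K Ω] [IsScalarTower k K Ω] [IsAlgClosure K Ω] in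
/-- The rational place over a point of the line. -/
theorem place_of_values (hw : Transcendental k w) {x : k} (hx : x ∉ T) {c : ι → k}
    {S : ι → Finset k} (hS : ∀ i, S i ⊆ T) {z : ι → K}
    (hz : ∀ i, z i ^ 2 = algebraMap k K (c i) * ∏ t ∈ S i, (w - algebraMap k K t))
    (he : ∀ i, ∃ e : k, c i * ∏ t ∈ S i, (x - t) = e ^ 2)
    (htop : adjoin k (insert w (Set.range z)) = ⊤) :
    ∃ B : ValuationSubring K, IsRationalPlace k K B ∧ B.valuation (w - algebraMap k K x) < 1 := by
  classical
  have hS' : ∀ i, ((S i).subtype (fun t => t ∈ T)).map (Function.Embedding.subtype _) = S i :=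
    fun i => Finset.subtype_map_of_mem (fun x hx => hS i hx)
  refine exists_rational_place w hw (Subtype.val : {t // t ∈ T} → k) c
    (fun i => (S i).subtype (fun t => t ∈ T)) z (fun i => ?_) htop x
    (fun j h => hx (by rw [h]; exact j.2)) (fun i => ?_)
  · have h1 : ∏ j ∈ (S i).subtype (fun t => t ∈ T), (w - algebraMap k K (j : k)) =
        ∏ t ∈ S i, (w - algebraMap k K t) := by
      conv_rhs => rw [← hS' i, Finset.prod_map]
      rfl
    rw [h1]
    exact hz i
  · have h2 : ∏ j ∈ (S i).subtype (fun t => t ∈ T), (x - (j : k)) = ∏ t ∈ S i, (x - t) := by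
      conv_rhs => rw [← hS' i, Finset.prod_map]
      rfl
    rw [h2]
    exact he i

/-- The point belonging to a section and the rational place of the root field. -/
theorem sect_place (hk : GoodSymbol k) [Finite (Sq k)] (hcard : Nat.card (Sq k) < T.card)
    (hcomp : ∀ D : k → Sq k, Compat hk T D → Realised T D) (hw : Transcendental k w)
    (hE : EvenFibres k K T w) {s : AbsGal k Ω →* PiOne k K Ω} (hs : IsSection k K Ω s) :
    ∃ x : k, x ∉ T ∧
      (∃ B : ValuationSubring (rootField k K T w), IsRationalPlace k (rootField k K T w) B ∧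
        ∀ y : rootField k K T w, (y : K) = w - algebraMap k K x → B.valuation y < 1) ∧
      ∀ t ∈ T, ∃ Y : maxUnramified k K Ω, (∀ g, s g Y = Y) ∧ (Y : Ω) ^ 2 =
        algebraMap k Ω (x - t) * algebraMap K Ω (w - algebraMap k K t) := by
  classical
  obtain ⟨x, hx, hY⟩ := sect_point hk hcard hcomp hE hs
  refine ⟨x, hx, ?_, hY⟩
  set Z : Set K := {z : K | ∃ c : k, c ≠ 0 ∧ ∃ S : Finset k, S ⊆ T ∧
    z ^ 2 = algebraMap k K c * ∏ t ∈ S, (w - algebraMap k K t)} with hZ
  have hK0 : rootField k K T w = adjoin k (insert w Z) := rfl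
  choose c hc S hS hz using fun z : Z => z.2
  have hwm : w ∈ rootField k K T w := subset_adjoin _ _ (Set.mem_insert _ _)
  have hzm : ∀ z : Z, (z : K) ∈ rootField k K T w := fun z =>
    subset_adjoin _ _ (Set.mem_insert_of_mem _ z.2)
  let w0 : rootField k K T w := ⟨w, hwm⟩
  let z0 : Z → rootField k K T w := fun z => ⟨z, hzm z⟩
  have htop : adjoin k (insert w0 (Set.range z0)) = ⊤ := by
    apply IntermediateField.map_injective (rootField k K T w).val
    rw [adjoin_map, Set.image_insert_eq, ← Set.range_comp]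
    have h1 : (rootField k K T w).val w0 = w := rfl
    have h2 : ((rootField k K T w).val ∘ z0 : Z → K) = Subtype.val := rfl
    rw [h1, h2, Subtype.range_coe, ← hK0, ← AlgHom.fieldRange_eq_map, fieldRange_val]
  have hw0 : Transcendental k w0 := by
    intro h
    exact hw ((isAlgebraic_algHom_iff (rootField k K T w).val
      (rootField k K T w).val.injective).2 h)
  obtain ⟨B, hB, hBw⟩ := place_of_values hw0 hx hS (z := z0)
    (fun z => (rootField k K T w).val.injective (by
      rw [map_pow, map_mul, map_prod]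
      exact hz z)) (fun z => point_value hs hw hY (hc z) (hS z) (hz z)) htop
  refine ⟨B, hB, fun y hy => ?_⟩
  have h1 : y = w0 - algebraMap k (rootField k K T w) x := Subtype.ext hy
  rw [h1]
  exact hBw

/-- A section gives a rational place of a cover of the line. -/
theorem cover_place (hk : GoodSymbol k) [Finite (Sq k)] (hcard : Nat.card (Sq k) < T.card)
    (hcomp : ∀ D : k → Sq k, Compat hk T D → Realised T D) (hw : Transcendental k w)
    {c : ι → k} (hc : ∀ i, c i ≠ 0) {S : ι → Finset k} (hS : ∀ i, S i ⊆ T) {z : ι → K}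
    (hz : ∀ i, z i ^ 2 = algebraMap k K (c i) * ∏ t ∈ S i, (w - algebraMap k K t))
    (hcov : ∀ t ∈ T, ∃ i, t ∈ S i) (hodd : ∃ i, Odd (S i).card)
    (htop : adjoin k (insert w (Set.range z)) = ⊤)
    {s : AbsGal k Ω →* PiOne k K Ω} (hs : IsSection k K Ω s) :
    ∃ B : ValuationSubring K, IsRationalPlace k K B := by
  obtain ⟨x, hx, hY⟩ := sect_point hk hcard hcomp (even_of_cover hw hc hS hz hcov hodd) hs
  obtain ⟨B, hB, -⟩ := place_of_values hw hx hS hz
    (fun i => point_value hs hw hY (hc i) (hS i) (hz i)) htop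
  exact ⟨B, hB⟩

end

end DyK

end Pool.Agent.Lib.MP_c385f6_ag
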