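import Mathlib
import Pool.Agent.Lib.MP_c385f6_ag.DyK.Stmts2
import Pool.Agent.Lib.MP_c385f6_ag.DyK.Sect

/-!
Sections for covers of the line whose branch points are not all rational.
-/

namespace Pool.Agent.Lib.MP_c385f6_ag

open Polynomial IntermediateField

/-- `h` is a nonzero polynomial all of whose prime factors divide `f ∏ (X - t)`, `t ∈ T`. -/
def PrimesIn {k : Type*} [Field k] (f : k[X]) (T : Finset k) (h : k[X]) : Prop :=
  h ≠ 0 ∧ ∀ p : k[X], Irreducible p → p ∣ h → p ∣ f * ∏ t ∈ T, (X - C t)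

/-- The subfield of `K` generated by `w` and all square roots in `K` of functions `h(w)`, where
`h` is a polynomial with all prime factors among those of `f` and the `X - t`, `t ∈ T`. -/
def polyRootField (k K : Type*) [Field k] [Field K] [Algebra k K] (f : k[X]) (T : Finset k)
    (w : K) : IntermediateField k K :=
  adjoin k (insert w {z : K | ∃ h : k[X], PrimesIn f T h ∧ z ^ 2 = aeval w h})

namespace DyK

section
variable {k : Type*} [Field k] [CharZero k]

/-- The relation between the errors at two points, one of them zero. -/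
theorem rel_of_compat (hk : GoodSymbol k) {s t y d : k} (hst : s ≠ t) (hys : y ≠ s) (hyt : y ≠ t)
    (hd : d ≠ 0) (h : bf hk (cl (t - s) + cl d) (cl (s - t) + cl (y - t)) = 0) :
    bf hk (cl (d * (y - s))) (cl ((s - t) * (y - t))) = 0 := by
  have h1 : y - s ≠ 0 := sub_ne_zero.2 hys
  have h2 : y - t ≠ 0 := sub_ne_zero.2 hyt
  have h3 : t - s ≠ 0 := sub_ne_zero.2 hst.symm
  have h4 : s - t ≠ 0 := sub_ne_zero.2 hst
  have e1 : cl (t - s) + cl d = cl (d * (y - s)) + cl ((t - s) / (y - s)) := by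
    rw [cl_mul hd h1, cl_div h3 h1]
    have := sq_add_self (cl (y - s))
    calc cl (t - s) + cl d = cl (t - s) + cl d + (cl (y - s) + cl (y - s)) := by
          rw [this, add_zero]
      _ = _ := by abel
  have e2 : cl (s - t) + cl (y - t) = cl ((s - t) / (y - t)) := (cl_div h4 h2).symm
  have e4 : cl ((s - t) * (y - t)) = cl ((s - t) / (y - t)) := by
    rw [cl_mul h4 h2, cl_div h4 h2]
  have e3 : bf hk (cl ((t - s) / (y - s))) (cl ((s - t) / (y - t))) = 0 := by
    set u := (t - s) / (y - s) with hu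
    have hu0 : u ≠ 0 := div_ne_zero h3 h1
    have hu1 : 1 - u = (y - t) / (y - s) := by
      rw [hu]
      field_simp
      ring
    have hu1' : 1 - u ≠ 0 := by
      rw [hu1]
      exact div_ne_zero h2 h1
    have h6 : (s - t) / (y - t) = -u / (1 - u) := by
      rw [hu1, hu]
      field_simp
      ring
    rw [h6, cl_div (neg_ne_zero.2 hu0) hu1', map_add, bf_neg_self hk hu0,
      bf_one_sub hk hu0 hu1', add_zero]
  rw [e1, e2, map_add, LinearMap.add_apply, e3, add_zero] at h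
  rw [e4]
  exact h

end

section
variable {k K Ω : Type*} [Field k] [CharZero k] [Algebra ℚ_[2] k] [FiniteDimensional ℚ_[2] k]
  [Field K] [Field Ω] [Algebra k K] [Algebra k Ω]
  [Algebra K Ω] [IsScalarTower k K Ω] [IsAlgClosure K Ω] {T : Finset k} {w : K} {f : k[X]}

/-- The norm of `x - τ`. -/
theorem norm_sub_gen {τ : Ω} (hτ : IsIntegral k τ) (x : k) :
    Algebra.norm k (algebraMap k k⟮τ⟯ x - AdjoinSimple.gen k τ) = (minpoly k τ).eval x := by
  classical
  let pb := adjoin.powerBasis hτ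
  have hgen : pb.gen = AdjoinSimple.gen k τ := adjoin.powerBasis_gen hτ
  have h1 : (minpoly k pb.gen).eval x = Algebra.norm k (algebraMap k k⟮τ⟯ x - pb.gen) := by
    rw [← charpoly_leftMulMatrix pb, Matrix.eval_charpoly, Algebra.norm_eq_matrix_det pb.basis,
      map_sub, AlgHom.commutes]
    rfl
  rw [← hgen, ← h1, hgen, minpoly_gen]

omit [Algebra ℚ_[2] k] [FiniteDimensional ℚ_[2] k] in
/-- The point is no zero of the polynomials. -/
theorem eval_ne_of_primesIn {h : k[X]} (hh : PrimesIn f T h) (hroot : ∀ a, f.eval a = 0 → a ∈ T)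
    {x : k} (hx : x ∉ T) : h.eval x ≠ 0 := by
  intro h0
  have h1 : X - C x ∣ h := dvd_iff_isRoot.2 h0
  obtain ⟨q, hq⟩ := hh.2 _ (irreducible_X_sub_C x) h1
  have h3 : (f * ∏ t ∈ T, (X - C t)).eval x = 0 := by
    rw [hq, eval_mul, eval_sub, eval_X, eval_C, sub_self, zero_mul]
  rw [eval_mul, mul_eq_zero] at h3
  rcases h3 with h3 | h3
  · exact hx (hroot x h3)
  · rw [eval_prod, Finset.prod_eq_zero_iff] at h3
    obtain ⟨t, ht, h4⟩ := h3
    rw [eval_sub, eval_X, eval_C, sub_eq_zero] at h4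
    exact hx (h4 ▸ ht)

/-- Everything about the point belonging to a section. -/
theorem poly_point (hcard : Nat.card (Sq k) < T.card)
    (hcomp : ∀ D : k → Sq k, Compat goodSymbol_local T D → Realised T D)
    (hroot : ∀ a, f.eval a = 0 → a ∈ T)
    (hrich : ∀ p : k[X], Irreducible p → p ∣ f → (∀ a, p.eval a ≠ 0) → ∀ x : k, x ∉ T →
      ∀ c : k, c ≠ 0 → ∃ t ∈ T, ∃ t' ∈ T, ∃ e : AdjoinRoot p,
        AdjoinRoot.of p ((x - t) * (x - t')) * ((AdjoinRoot.of p t - AdjoinRoot.root p) *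
          (AdjoinRoot.of p t' - AdjoinRoot.root p)) = AdjoinRoot.of p c * e ^ 2)
    (hOver : StOver k K Ω) (hNorm : StNorm k K Ω) (hProj : ∀ τ : Ω, StProj k k⟮τ⟯)
    (hw : Transcendental k w) (hE : EvenFibres k K T w) {s : AbsGal k Ω →* PiOne k K Ω}
    (hs : IsSection k K Ω s) :
    ∃ x : k, x ∉ T ∧ (∀ t ∈ T, ∃ Y : maxUnramified k K Ω, (∀ g, s g Y = Y) ∧ (Y : Ω) ^ 2 =
        algebraMap k Ω (x - t) * algebraMap K Ω (w - algebraMap k K t)) ∧
      ∀ p : k[X], p.Monic → Irreducible p → p ∣ f * ∏ t ∈ T, (X - C t) → EvenAt k K p w →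
        FixSq k K Ω s x w p := by
  classical
  have hk : GoodSymbol k := goodSymbol_local
  haveI : Finite (Sq k) :=
    Nat.finite_of_card_ne_zero (α := SqCls k) (by rw [card_sqCls]; positivity)
  haveI hac : IsAlgClosed Ω := IsAlgClosure.isAlgClosed K
  obtain ⟨D, Y, hD, hYs, hY, hcon⟩ := even_twists (Ω := Ω) hE hs
  have h1 : ∃ i j, i ≠ j ∧ ∃ e : k, e ≠ 0 ∧ D i = D j * e ^ 2 := by
    have : Fintype (Sq k) := Fintype.ofFinite _
    obtain ⟨i, j, hij, h⟩ := Fintype.exists_ne_map_eq_of_card_lt (fun j => cl (D j)) (by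
      rw [Fintype.card_coe, ← Nat.card_eq_fintype_card]
      exact hcard)
    obtain ⟨e, he, h2⟩ := (cl_eq_iff (hD j) (hD i)).1 h.symm
    exact ⟨i, j, hij, e, he, h2⟩
  have h2 := hcon h1
  let D' : k → Sq k := fun t => if h : t ∈ T then cl (D ⟨t, h⟩) else 0
  obtain ⟨x, hx⟩ := hcomp D' (by
    intro s hs t ht hst
    obtain ⟨u, v, h3⟩ := h2 ⟨s, hs⟩ ⟨t, ht⟩ (fun h => hst (congrArg Subtype.val h))
    simp only [D', dif_pos hs, dif_pos ht]
    exact compat_of_conic hk hst (hD _) (hD _) h3)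
  have hxT : x ∉ T := fun h => (hx x h).1 rfl
  have hxe : ∀ j : {t // t ∈ T}, ∃ e : k, e ≠ 0 ∧ x - j = D j * e ^ 2 := by
    rintro ⟨t, ht⟩
    obtain ⟨h3, h4⟩ := hx t ht
    simp only [D', dif_pos ht] at h4
    exact (cl_eq_iff (hD _) (sub_ne_zero.2 h3)).1 h4
  have hYY : ∀ t ∈ T, ∃ Y : maxUnramified k K Ω, (∀ g, s g Y = Y) ∧ (Y : Ω) ^ 2 =
      algebraMap k Ω (x - t) * algebraMap K Ω (w - algebraMap k K t) := by
    intro t ht
    obtain ⟨e, he, h5⟩ := hxe ⟨t, ht⟩
    have hem : algebraMap k Ω e ∈ maxUnramified k K Ω :=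
      const_mem_maxUnramified ((algebraicClosure k Ω).algebraMap_mem e)
    refine ⟨Y ⟨t, ht⟩ * ⟨algebraMap k Ω e, hem⟩, fun g => ?_, ?_⟩
    · rw [map_mul, hYs]
      congr 1
      apply Subtype.ext
      rw [hs.restrict g (algebraMap k _ e) _ rfl, AlgEquiv.commutes]
      rfl
    · show ((Y ⟨t, ht⟩ : Ω) * algebraMap k Ω e) ^ 2 = _
      rw [mul_pow, hY, h5, map_mul, map_pow]
      ring
  refine ⟨x, hxT, hYY, fun p hpm hpi hpd hpE => ?_⟩
  by_cases hroots : ∃ a, p.eval a = 0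
  · -- a rational point
    obtain ⟨a, ha⟩ := hroots
    have hpa : p = X - C a := by
      have h3 : X - C a ∣ p := dvd_iff_isRoot.2 ha
      exact (eq_of_monic_of_associated (monic_X_sub_C a) hpm
        (associated_of_dvd_dvd h3 ((irreducible_X_sub_C a).dvd_symm hpi h3))).symm
    have haT : a ∈ T := by
      have h3 : (f * ∏ t ∈ T, (X - C t)).eval a = 0 := by
        obtain ⟨q, hq⟩ := hpd
        rw [hq, eval_mul, ha, zero_mul]
      rw [eval_mul, mul_eq_zero] at h3
      rcases h3 with h3 | h3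
      · exact hroot a h3
      · rw [eval_prod, Finset.prod_eq_zero_iff] at h3
        obtain ⟨t, ht, h4⟩ := h3
        rw [eval_sub, eval_X, eval_C, sub_eq_zero] at h4
        rw [h4]
        exact ht
    obtain ⟨W, hW, hW2⟩ := hYY a haT
    refine ⟨W, hW, ?_⟩
    rw [hW2, hpa]
    simp
  · -- a point which is not rational
    push Not at hroots
    have hpf : p ∣ f := by
      rcases hpi.prime.dvd_or_dvd hpd with h3 | h3
      · exact h3
      · exfalso
        obtain ⟨t, ht, h4⟩ := hpi.prime.exists_mem_finset_dvd h3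
        have h5 : X - C t ∣ p := hpi.dvd_symm (irreducible_X_sub_C t) h4
        exact hroots t (dvd_iff_isRoot.1 h5)
    have hdeg : p.degree ≠ 0 := fun h => hpi.not_isUnit (isUnit_iff_degree_eq_zero.2 h)
    obtain ⟨τ, hτ⟩ := IsAlgClosed.exists_aeval_eq_zero Ω p hdeg
    have hτk : τ ∉ Set.range (algebraMap k Ω) := by
      rintro ⟨a, rfl⟩
      rw [aeval_algebraMap_apply, map_eq_zero] at hτ
      exact hroots a (by rwa [coe_aeval_eq_eval] at hτ)
    have hint : IsIntegral k τ := ⟨p, hpm, by rwa [← aeval_def]⟩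
    have hmin : minpoly k τ = p := (minpoly.eq_of_irreducible_of_monic hpi hτ hpm).symm
    haveI : FiniteDimensional k k⟮τ⟯ := adjoin.finiteDimensional hint
    letI : Algebra ℚ_[2] k⟮τ⟯ := ((algebraMap k k⟮τ⟯).comp (algebraMap ℚ_[2] k)).toAlgebra
    haveI : IsScalarTower ℚ_[2] k k⟮τ⟯ := IsScalarTower.of_algebraMap_eq fun _ => rfl
    haveI : FiniteDimensional ℚ_[2] k⟮τ⟯ := Module.Finite.trans k k⟮τ⟯
    haveI : CharZero k⟮τ⟯ := charZero_of_injective_algebraMap (algebraMap k k⟮τ⟯).injective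
    have hF : GoodSymbol k⟮τ⟯ := goodSymbol_local
    obtain ⟨δ, W, hδ, hW2, hWs, hcon'⟩ := hOver T w hw hE s hs D Y hD hYs hY h1 p hpi hpE τ hτ hτk
    obtain ⟨V, hVs, hV2⟩ := hNorm w s hs τ hint δ W hW2 hWs
    set θ : k⟮τ⟯ := AdjoinSimple.gen k τ with hθ
    have hθk : ∀ a : k, algebraMap k k⟮τ⟯ a ≠ θ := by
      intro a h
      apply hτk
      exact ⟨a, congrArg Subtype.val h⟩
    set g : k⟮τ⟯ := δ * (algebraMap k k⟮τ⟯ x - θ) with hg
    have hg0 : g ≠ 0 := mul_ne_zero hδ (sub_ne_zero.2 (hθk x))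
    -- the relations
    have hrel : ∀ t ∈ T, bf hF (cl g) (cl ((θ - algebraMap k k⟮τ⟯ t) *
        (algebraMap k k⟮τ⟯ x - algebraMap k k⟮τ⟯ t))) = 0 := by
      intro t ht
      obtain ⟨e, he, h5⟩ := hxe ⟨t, ht⟩
      obtain ⟨a, b, h6⟩ := hcon' ⟨t, ht⟩
      have hxt : algebraMap k k⟮τ⟯ x - algebraMap k k⟮τ⟯ t ≠ 0 := by
        rw [← map_sub]
        exact (_root_.map_ne_zero _).2 (sub_ne_zero.2 fun h => hxT (h ▸ ht))
      have hee : algebraMap k k⟮τ⟯ e ≠ 0 := (_root_.map_ne_zero _).2 he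
      refine rel_of_compat hF (hθk t).symm (hθk x) (sub_ne_zero.1 hxt) hδ ?_
      refine compat_of_conic hF (x := a) (y := b / algebraMap k k⟮τ⟯ e) (hθk t).symm hδ hxt ?_
      rw [← h6, ← map_sub, h5, map_mul, map_pow]
      field_simp
    have hnm : ∀ c : k, c ≠ 0 → Nm (algebraMap k k⟮τ⟯ c) g := by
      intro c hc
      obtain ⟨t, ht, t', ht', e, he⟩ := hrich p hpi hpf hroots x hxT c hc
      have hcc : algebraMap k k⟮τ⟯ c ≠ 0 := (_root_.map_ne_zero _).2 hc
      let φ : AdjoinRoot p →+* k⟮τ⟯ := AdjoinRoot.lift (algebraMap k k⟮τ⟯) θ (by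
        rw [← aeval_def]
        apply Subtype.ext
        have h7 : ((aeval θ p : k⟮τ⟯) : Ω) = aeval τ p := by
          exact (Polynomial.aeval_algHom_apply (k⟮τ⟯).val θ p).symm
        rw [h7, hτ]
        rfl)
      have h8 := congrArg φ he
      simp only [map_mul, map_sub, map_pow, φ, AdjoinRoot.lift_of, AdjoinRoot.lift_root] at h8
      have h9 := hrel t ht
      have h10 := hrel t' ht'
      have hx1 : algebraMap k k⟮τ⟯ x - algebraMap k k⟮τ⟯ t ≠ 0 := by
        rw [← map_sub]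
        exact (_root_.map_ne_zero _).2 (sub_ne_zero.2 fun h => hxT (h ▸ ht))
      have hx2 : algebraMap k k⟮τ⟯ x - algebraMap k k⟮τ⟯ t' ≠ 0 := by
        rw [← map_sub]
        exact (_root_.map_ne_zero _).2 (sub_ne_zero.2 fun h => hxT (h ▸ ht'))
      have ht1 : θ - algebraMap k k⟮τ⟯ t ≠ 0 := sub_ne_zero.2 (hθk t).symm
      have ht2 : θ - algebraMap k k⟮τ⟯ t' ≠ 0 := sub_ne_zero.2 (hθk t').symm
      have he0 : e ≠ 0 ∧ φ e ≠ 0 := by
        have h11 : φ e ≠ 0 := by
          intro h12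
          rw [show (AdjoinRoot.lift (algebraMap k k⟮τ⟯) θ _ e : k⟮τ⟯) = φ e from rfl, h12] at h8
          have h13 : (algebraMap k k⟮τ⟯ x - algebraMap k k⟮τ⟯ t) *
              (algebraMap k k⟮τ⟯ x - algebraMap k k⟮τ⟯ t') *
              ((θ - algebraMap k k⟮τ⟯ t) * (θ - algebraMap k k⟮τ⟯ t')) = 0 := by
            linear_combination h8
          exact mul_ne_zero (mul_ne_zero hx1 hx2) (mul_ne_zero ht1 ht2) h13
        exact ⟨fun h => h11 (by rw [h, map_zero]), h11⟩
      have h14 : cl (algebraMap k k⟮τ⟯ c) = cl ((θ - algebraMap k k⟮τ⟯ t) *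
          (algebraMap k k⟮τ⟯ x - algebraMap k k⟮τ⟯ t)) +
            cl ((θ - algebraMap k k⟮τ⟯ t') * (algebraMap k k⟮τ⟯ x - algebraMap k k⟮τ⟯ t')) := by
        rw [← cl_mul (mul_ne_zero ht1 hx1) (mul_ne_zero ht2 hx2), ← cl_mul_sq _ he0.2]
        congr 1
        show algebraMap k k⟮τ⟯ c * (φ e) ^ 2 = _
        have h15 : (φ e : k⟮τ⟯) = AdjoinRoot.lift (algebraMap k k⟮τ⟯) θ _ e := rfl
        rw [h15]
        linear_combination -h8
      have h16 : bf hF (cl g) (cl (algebraMap k k⟮τ⟯ c)) = 0 := by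
        rw [h14, map_add, h9, h10, add_zero]
      rw [bf_eq_zero hF hg0 hcc] at h16
      exact h16.symm' hg0 hcc
    obtain ⟨e, he⟩ := hProj τ hk g hg0 hnm
    have hNg : Algebra.norm k g = Algebra.norm k δ * p.eval x := by
      rw [hg, map_mul, norm_sub_gen hint, hmin]
    have hNδ : Algebra.norm k δ ≠ 0 := Algebra.norm_ne_zero_iff.2 hδ
    have hem : algebraMap k Ω (e / Algebra.norm k δ) ∈ maxUnramified k K Ω :=
      const_mem_maxUnramified ((algebraicClosure k Ω).algebraMap_mem _)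
    refine ⟨V * ⟨algebraMap k Ω (e / Algebra.norm k δ), hem⟩, fun σ => ?_, ?_⟩
    · rw [map_mul, hVs]
      congr 1
      apply Subtype.ext
      rw [hs.restrict σ (algebraMap k _ (e / Algebra.norm k δ)) _ rfl, AlgEquiv.commutes]
      rfl
    · show ((V : Ω) * algebraMap k Ω (e / Algebra.norm k δ)) ^ 2 = _
      rw [mul_pow, hV2, hmin, ← map_pow, div_pow, ← he, hNg]
      have h17 : algebraMap k Ω (Algebra.norm k δ * p.eval x / Algebra.norm k δ ^ 2) =
          algebraMap k Ω (p.eval x) / algebraMap k Ω (Algebra.norm k δ) := by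
        rw [← map_div₀]
        congr 1
        field_simp
      rw [h17]
      have h18 : algebraMap k Ω (Algebra.norm k δ) ≠ 0 := (_root_.map_ne_zero _).2 hNδ
      field_simp

end

end DyK

end Pool.Agent.Lib.MP_c385f6_ag
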