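import Mathlib
import Pool.Agent.Lib.MP_c385f6_ag.DyK.Poly
import Pool.Agent.Lib.MP_c385f6_ag.DyK.Place

/-!
Sections and rational places for covers of the line.
-/

namespace Pool.Agent.Lib.MP_c385f6_ag.DyK

open Pool.Agent.Lib.MP_c385f6_ag Polynomial IntermediateField

section
variable {k K Ω : Type*} [Field k] [CharZero k] [Algebra ℚ_[2] k] [FiniteDimensional ℚ_[2] k]
  [Field K] [Field Ω] [Algebra k K] [Algebra k Ω]
  [Algebra K Ω] [IsScalarTower k K Ω] [IsAlgClosure K Ω] {T : Finset k} {w : K} {f : k[X]}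

/-- The values at the point belonging to a section are squares. -/
theorem poly_values (hV : StValue k K Ω) (hw : Transcendental k w)
    {s : AbsGal k Ω →* PiOne k K Ω} (hs : IsSection k K Ω s) {x : k}
    (hx : ∀ p : k[X], p.Monic → Irreducible p → p ∣ f * ∏ t ∈ T, (X - C t) → EvenAt k K p w →
        FixSq k K Ω s x w p) {h : k[X]} (hh : PrimesIn f T h) {z : K} (hz : z ^ 2 = aeval w h) :
    ∃ e : k, h.eval x = e ^ 2 :=
  hV w s hs hw x h z hh.1 hz fun p hpm hpi hpd hpE => hx p hpm hpi (hh.2 p hpi hpd) hpE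

/-- The point belonging to a section and the rational place of the root field. -/
theorem poly_place (hcard : Nat.card (Sq k) < T.card)
    (hcomp : ∀ D : k → Sq k, Compat goodSymbol_local T D → Realised T D)
    (hroot : ∀ a, f.eval a = 0 → a ∈ T)
    (hrich : ∀ p : k[X], Irreducible p → p ∣ f → (∀ a, p.eval a ≠ 0) → ∀ x : k, x ∉ T →
      ∀ c : k, c ≠ 0 → ∃ t ∈ T, ∃ t' ∈ T, ∃ e : AdjoinRoot p,
        AdjoinRoot.of p ((x - t) * (x - t')) * ((AdjoinRoot.of p t - AdjoinRoot.root p) *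
          (AdjoinRoot.of p t' - AdjoinRoot.root p)) = AdjoinRoot.of p c * e ^ 2)
    (hOver : StOver k K Ω) (hNorm : StNorm k K Ω) (hProj : ∀ τ : Ω, StProj k k⟮τ⟯)
    (hV : StValue k K Ω) (hP : StPlacePoly k (polyRootField k K f T w))
    (hw : Transcendental k w) (hE : EvenFibres k K T w) {s : AbsGal k Ω →* PiOne k K Ω}
    (hs : IsSection k K Ω s) :
    ∃ x : k, x ∉ T ∧
      (∃ B : ValuationSubring (polyRootField k K f T w),
        IsRationalPlace k (polyRootField k K f T w) B ∧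
        ∀ y : polyRootField k K f T w, (y : K) = w - algebraMap k K x → B.valuation y < 1) ∧
      ∀ t ∈ T, ∃ Y : maxUnramified k K Ω, (∀ g, s g Y = Y) ∧ (Y : Ω) ^ 2 =
        algebraMap k Ω (x - t) * algebraMap K Ω (w - algebraMap k K t) := by
  classical
  obtain ⟨x, hx, hY, hfix⟩ := poly_point hcard hcomp hroot hrich hOver hNorm hProj hw hE hs
  refine ⟨x, hx, ?_, hY⟩
  set Z : Set K := {z : K | ∃ h : k[X], PrimesIn f T h ∧ z ^ 2 = aeval w h} with hZ
  set M := polyRootField k K f T w with hM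
  have hK0 : M = adjoin k (insert w Z) := rfl
  have hwm : w ∈ M := subset_adjoin _ _ (Set.mem_insert _ _)
  have hzm : ∀ z : Z, (z : K) ∈ M := fun z => subset_adjoin _ _ (Set.mem_insert_of_mem _ z.2)
  let w0 : M := ⟨w, hwm⟩
  let Z0 : Set M := {z | (z : K) ∈ Z}
  have hZ0 : (M.val '' Z0 : Set K) = Z := by
    ext z
    constructor
    · rintro ⟨y, hy, rfl⟩
      exact hy
    · intro hz
      exact ⟨⟨z, hzm ⟨z, hz⟩⟩, hz, rfl⟩
  choose h hh hz using fun z : Z0 => z.2
  have hae : ∀ q : k[X], ((aeval w0 q : M) : K) = aeval w q := fun q =>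
    (Polynomial.aeval_algHom_apply M.val w0 q).symm
  have htop : adjoin k (insert w0 Z0) = ⊤ := by
    apply IntermediateField.map_injective M.val
    rw [adjoin_map, Set.image_insert_eq, hZ0]
    have h1 : M.val w0 = w := rfl
    rw [h1, ← hK0, ← AlgHom.fieldRange_eq_map, fieldRange_val]
  have hw0 : Transcendental k w0 := by
    intro h
    exact hw ((isAlgebraic_algHom_iff M.val M.val.injective).2 h)
  obtain ⟨B, hB, hBw⟩ := hP w0 Z0 h x hw0 (fun z => Subtype.ext (by
      rw [hae]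
      exact hz z)) (fun z => eval_ne_of_primesIn (hh z) hroot hx)
    (fun z => poly_values hV hw hs hfix (hh z) (hz z)) htop
  refine ⟨B, hB, fun y hy => ?_⟩
  have h1 : y = w0 - algebraMap k M x := Subtype.ext hy
  rw [h1]
  exact hBw

/-- A cover with a section has a rational place. -/
theorem poly_cover (hcard : Nat.card (Sq k) < T.card)
    (hcomp : ∀ D : k → Sq k, Compat goodSymbol_local T D → Realised T D)
    (hroot : ∀ a, f.eval a = 0 → a ∈ T)
    (hrich : ∀ p : k[X], Irreducible p → p ∣ f → (∀ a, p.eval a ≠ 0) → ∀ x : k, x ∉ T →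
      ∀ c : k, c ≠ 0 → ∃ t ∈ T, ∃ t' ∈ T, ∃ e : AdjoinRoot p,
        AdjoinRoot.of p ((x - t) * (x - t')) * ((AdjoinRoot.of p t - AdjoinRoot.root p) *
          (AdjoinRoot.of p t' - AdjoinRoot.root p)) = AdjoinRoot.of p c * e ^ 2)
    (hOver : StOver k K Ω) (hNorm : StNorm k K Ω) (hProj : ∀ τ : Ω, StProj k k⟮τ⟯)
    (hV : StValue k K Ω) (hP : StPlacePoly k K) (hC : StCoverEven k K)
    (hw : Transcendental k w) (Z : Set K) (h : Z → k[X]) (hh : ∀ z, PrimesIn f T (h z))
    (hz : ∀ z : Z, (z : K) ^ 2 = aeval w (h z))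
    (hcov : ∀ t ∈ T, ∃ z, Odd ((h z).rootMultiplicity t)) (hodd : ∃ z, Odd (h z).natDegree)
    (htop : adjoin k (insert w Z) = ⊤) :
    (∃ s : AbsGal k Ω →* PiOne k K Ω, IsSection k K Ω s) ↔
      ∃ B : ValuationSubring K, IsRationalPlace k K B := by
  constructor
  · rintro ⟨s, hs⟩
    obtain ⟨x, hx, hY, hfix⟩ := poly_point hcard hcomp hroot hrich hOver hNorm hProj hw
      (hC T w Z h hw (fun z => (hh z).1) hz hcov hodd) hs
    obtain ⟨B, hB, -⟩ := hP w Z h x hw hz (fun z => eval_ne_of_primesIn (hh z) hroot hx)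
      (fun z => poly_values hV hw hs hfix (hh z) (hz z)) htop
    exact ⟨B, hB⟩
  · rintro ⟨B, hB⟩
    exact stPlace k K Ω B hB

end

end Pool.Agent.Lib.MP_c385f6_ag.DyK
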