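import Mathlib
import Pool.Agent.Lib.MP_c385f6_ag.DyK.Stmts2

set_option autoImplicit false

/-! The projection formula for norms from quadratic extensions. -/

namespace Pool.Agent.Lib.MP_c385f6_ag.DyK

namespace Projaux

open Polynomial

/-- Values of a polynomial at the two square roots of `c`. -/
theorem eval_pair {k Ω : Type*} [Field k] [Field Ω] [Algebra k Ω] {c : k} {α : Ω}
    (hα : α ^ 2 = algebraMap k Ω c) (P : k[X]) : ∃ a b : k,
    aeval α P = algebraMap k Ω a + algebraMap k Ω b * α ∧
    aeval (-α) P = algebraMap k Ω a - algebraMap k Ω b * α := by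
  induction P using Polynomial.induction_on with
  | C a => exact ⟨a, 0, by simp, by simp⟩
  | add p q hp hq =>
    obtain ⟨a, b, h1, h2⟩ := hp
    obtain ⟨a', b', h3, h4⟩ := hq
    refine ⟨a + a', b + b', ?_, ?_⟩
    · rw [map_add, h1, h3, map_add, map_add]
      ring
    · rw [map_add, h2, h4, map_add, map_add]
      ring
  | monomial n r h =>
    obtain ⟨a, b, h1, h2⟩ := h
    refine ⟨b * c, a, ?_, ?_⟩
    · rw [pow_succ, ← mul_assoc, map_mul, h1, aeval_X, map_mul]
      linear_combination (algebraMap k Ω b) * hα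
    · rw [pow_succ, ← mul_assoc, map_mul, h2, aeval_X, map_mul]
      linear_combination (algebraMap k Ω b) * hα

/-- The norm of a norm from a quadratic extension. -/
theorem norm_quad {k F : Type*} [Field k] [Field F] [Algebra k F] [FiniteDimensional k F]
    (c : k) (u v : F) : ∃ a b : k,
    Algebra.norm k (u ^ 2 - algebraMap k F c * v ^ 2) = a ^ 2 - c * b ^ 2 := by
  classical
  obtain ⟨α, hα⟩ : ∃ α : AlgebraicClosure k, α ^ 2 = algebraMap k _ c :=
    IsAlgClosed.exists_pow_nat_eq _ two_pos
  let B := Module.finBasis k F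
  let φ := Algebra.leftMulMatrix B
  let P : k[X] := ((φ u).map C + (X : k[X]) • (φ v).map C).det
  have hP : ∀ β : AlgebraicClosure k, aeval β P =
      ((φ u).map (algebraMap k (AlgebraicClosure k)) +
        β • (φ v).map (algebraMap k (AlgebraicClosure k))).det := by
    intro β
    have h1 := AlgHom.map_det (aeval β : k[X] →ₐ[k] AlgebraicClosure k)
      ((φ u).map C + (X : k[X]) • (φ v).map C)
    rw [show aeval β P = (aeval β : k[X] →ₐ[k] AlgebraicClosure k)
      (((φ u).map C + (X : k[X]) • (φ v).map C).det) from rfl, h1]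
    congr 1
    ext i j
    simp [AlgHom.mapMatrix_apply, Matrix.map_apply, Matrix.add_apply, Matrix.smul_apply]
    exact mul_comm _ _
  obtain ⟨a, b, h1, h2⟩ := eval_pair hα P
  refine ⟨a, b, ?_⟩
  apply (algebraMap k (AlgebraicClosure k)).injective
  have h3 : aeval α P * aeval (-α) P =
      algebraMap k (AlgebraicClosure k) (Algebra.norm k (u ^ 2 - algebraMap k F c * v ^ 2)) := by
    rw [hP, hP, ← Matrix.det_mul, Algebra.norm_eq_matrix_det B, RingHom.map_det]
    congr 1
    have hcomm : (φ u) * (φ v) = (φ v) * (φ u) := by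
      rw [← map_mul, ← map_mul, mul_comm]
    have hcomm' := congrArg (fun M => M.map (algebraMap k (AlgebraicClosure k))) hcomm
    simp only [Matrix.map_mul] at hcomm'
    have h4 : Algebra.leftMulMatrix B (u ^ 2 - algebraMap k F c * v ^ 2) =
        φ u * φ u - c • (φ v * φ v) := by
      rw [← Algebra.smul_def, map_sub, map_smul, map_pow, map_pow, sq, sq]
    rw [h4, RingHom.mapMatrix_apply]
    have h5 : (φ u * φ u - c • (φ v * φ v)).map (algebraMap k (AlgebraicClosure k)) =
        (φ u).map (algebraMap k (AlgebraicClosure k)) *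
          (φ u).map (algebraMap k (AlgebraicClosure k)) -
        (algebraMap k (AlgebraicClosure k) c) •
          ((φ v).map (algebraMap k (AlgebraicClosure k)) *
            (φ v).map (algebraMap k (AlgebraicClosure k))) := by
      rw [← Matrix.map_mul, ← Matrix.map_mul]
      ext i j
      simp only [Matrix.map_apply, Matrix.sub_apply, Matrix.smul_apply, smul_eq_mul, map_sub,
        map_mul]
    rw [h5, ← hα]
    rw [neg_smul, add_mul, mul_add, mul_add, Matrix.mul_neg, Matrix.mul_neg, Matrix.mul_smul,
      Matrix.smul_mul, Matrix.smul_mul, Matrix.mul_smul, hcomm', smul_smul, sq]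
    abel
  rw [← h3, h1, h2, map_sub, map_mul, map_pow, map_pow, ← hα]
  ring

end Projaux

open Projaux in
theorem stProj (k F : Type*) [Field k] [CharZero k] [Field F] [Algebra k F]
    [FiniteDimensional k F] : StProj k F := by
  intro hk g hg hN
  have hn0 : Algebra.norm k g ≠ 0 := by
    rw [Ne, Algebra.norm_eq_zero_iff]
    exact hg
  have h1 : ∀ c : k, c ≠ 0 → Nm (Algebra.norm k g) c := by
    intro c hc
    obtain ⟨u, v, huv⟩ := hN c hc
    obtain ⟨a, b, hab⟩ := norm_quad c u v
    rw [← huv] at hab
    exact Nm.symm' hc hn0 ⟨a, b, hab⟩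
  by_contra h
  push Not at h
  obtain ⟨b, hb, hb'⟩ := hk.nondeg (Algebra.norm k g) hn0 fun s hs => h s hs.symm
  exact hb' (h1 b hb)

end Pool.Agent.Lib.MP_c385f6_ag.DyK
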