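import Mathlib
import Pool.Agent.Lib.MP_c385f6_ag.DyK.Stmts2
import Pool.Agent.Lib.MP_c385f6_ag.DyK.Inst
import Pool.Agent.Lib.MP_c385f6_ag.DyK.FactsPf
import Pool.Agent.Lib.MP_c385f6_ag.DyK.Resid
import Pool.Agent.Lib.MP_c385f6_ag.DyK.Dual

/-!
Complete sets which are rich for all nonrational zeros of a polynomial.
-/

namespace Pool.Agent.Lib.MP_c385f6_ag.DyK

open Pool.Agent.Lib.MP_c385f6_ag Polynomial Filter

universe u

namespace Richaux

section
variable {k : Type u} [NormedField k]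

section
variable [CharZero k] {A : Dya k}

omit [CharZero k] in
/-- A net with two points at distance `M` has depth at least `M`. -/
theorem le_depth {m : ℤ} {T : Finset k} {r : k} (N : Net A m T r) {M : ℤ}
    (h0 : (0 : k) ∈ T) (h1 : A.pi ^ M ∈ T) : M ≤ m := by
  by_contra hcon
  push Not at hcon
  obtain ⟨s, hs, s', hs', h2, h3⟩ := N.pair 0 (Dya.ge_zero _)
  have h4 := (h3 0 h0).1 (by rw [sub_zero]; exact Dya.ge_zero _)
  have h5 := (h3 _ h1).1 (by rw [zero_sub]; exact ((Dya.eq_pi_zpow A M).neg).ge' hcon.le)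
  have h6 : A.pi ^ M ≠ 0 := (Dya.eq_pi_zpow A M).ne
  rcases h4 with rfl | rfl
  · rcases h5 with h5 | rfl
    · exact h6 h5
    · rw [zero_sub] at h2
      have := h2.uniq (Dya.eq_pi_zpow A M).neg
      omega
  · rcases h5 with rfl | h5
    · rw [sub_zero] at h2
      have := h2.uniq (Dya.eq_pi_zpow A M)
      omega
    · exact h6 h5

omit [CharZero k] in
theorem card_net {m : ℤ} {T : Finset k} {r : k} (N : Net A m T r) :
    Nat.card (Sq k) < T.card := by
  have hfin := A.finite
  have hpos : 0 < Nat.card (Sq k) := Nat.card_pos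
  have hL := A.two_le_L
  have hbig := N.big
  have hm : (Nat.card (Sq k) : ℤ) < m := by nlinarith
  have hex : ∀ i : ℕ, i < m.toNat → ∃ t ∈ T, A.eq i t := by
    intro i hi
    have h0 : A.ge 0 (A.pi ^ (i : ℤ)) := (Dya.eq_pi_zpow A i).ge' (by omega)
    obtain ⟨t, ht, t', -, -, h⟩ := N.pair _ h0
    have h1 := (h t ht).2 (Or.inl rfl)
    refine ⟨t, ht, (Dya.eq_pi_zpow A i).congr ?_⟩
    exact (Dya.ge_sub_comm.1 h1).mono (by omega)
  choose! f hf using hex
  have hcard : (Finset.range m.toNat).card ≤ T.card := by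
    refine Finset.card_le_card_of_injOn f ?_ ?_
    · intro i hi
      exact (hf i (Finset.mem_range.1 hi)).1
    · intro i hi j hj hij
      have hi' := (hf i (Finset.mem_range.1 (Finset.mem_coe.1 hi))).2
      have hj' := (hf j (Finset.mem_range.1 (Finset.mem_coe.1 hj))).2
      rw [hij] at hi'
      have := hi'.uniq hj'
      exact_mod_cast this.symm
  rw [Finset.card_range] at hcard
  omega

/-- Completeness does not change under scaling. -/
theorem scale {c : k} (hc0 : c ≠ 0) {T : Finset k}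
    (h3 : ∀ D : k → Sq k, Compat A.sym T D → Realised T D) [DecidableEq k] (D : k → Sq k)
    (hD : Compat A.sym (T.image fun x => c⁻¹ * x) D) :
    Realised (T.image fun x => c⁻¹ * x) D := by
  have hinj : Function.Injective (fun x : k => c⁻¹ * x) :=
    mul_right_injective₀ (inv_ne_zero hc0)
  have hC : Compat A.sym T fun x => D (c⁻¹ * x) + cl c := by
    intro s hs t ht hst
    have h := hD (c⁻¹ * s) (Finset.mem_image_of_mem _ hs) (c⁻¹ * t)
      (Finset.mem_image_of_mem _ ht) (fun h => hst (hinj h))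
    have key : ∀ a b : k, a ≠ b → cl (a - b) = cl c + cl (c⁻¹ * a - c⁻¹ * b) := by
      intro a b hab
      have h0 : c⁻¹ * a - c⁻¹ * b ≠ 0 := by
        rw [← mul_sub]
        exact mul_ne_zero (inv_ne_zero hc0) (sub_ne_zero.2 hab)
      rw [← cl_mul hc0 h0]
      congr 1
      field_simp
    have e : ∀ x y : Sq k, cl c + x + (y + cl c) = x + y := by
      intro x y
      have := sq_add_self (cl c)
      calc cl c + x + (y + cl c) = (cl c + cl c) + (x + y) := by abel
        _ = x + y := by rw [this, zero_add]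
    show bf A.sym (cl (t - s) + (D (c⁻¹ * s) + cl c)) (cl (s - t) + (D (c⁻¹ * t) + cl c)) = 0
    rw [key t s hst.symm, key s t hst, e, e]
    exact h
  obtain ⟨y, hy⟩ := h3 _ hC
  refine ⟨c⁻¹ * y, ?_⟩
  intro s hs
  obtain ⟨t, ht, rfl⟩ := Finset.mem_image.1 hs
  obtain ⟨hyt, hD'⟩ := hy t ht
  refine ⟨fun h => hyt (hinj h), ?_⟩
  have h0 : y - t ≠ 0 := sub_ne_zero.2 hyt
  have hD'' : D (c⁻¹ * t) + cl c = cl (y - t) := hD'
  rw [← mul_sub, cl_mul (inv_ne_zero hc0) h0, cl_inv, ← hD'']
  have := sq_add_self (cl c)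
  calc D (c⁻¹ * t) = D (c⁻¹ * t) + (cl c + cl c) := by rw [this, add_zero]
    _ = _ := by abel

end

/-- Powers of the uniformiser make numbers small. -/
theorem small_pow (A : Dya k) (n : ℤ) (y : ℝ) :
    ∀ᶠ N : ℕ in atTop, ‖A.pi‖ ^ N * y ≤ ‖A.pi‖ ^ n := by
  have h1 : Tendsto (fun N : ℕ => ‖A.pi‖ ^ N * y) atTop (nhds 0) := by
    simpa using (tendsto_pow_atTop_nhds_zero_of_lt_one (norm_nonneg _) A.pi_lt).mul_const y
  exact h1.eventually_le_const (Dya.ppos n)

variable [NormedAlgebra ℚ_[2] k] [FiniteDimensional ℚ_[2] k]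

/-- The nets of large depth are rich. -/
theorem far_core (A : Dya k) (F : Type u) [NormedField F] [NormedAlgebra k F]
    [NormedAlgebra ℚ_[2] F] [IsUltrametricDist F] [FiniteDimensional ℚ_[2] F] (hF : StFar A F)
    (τ : F) (hτ : ∀ y, algebraMap k F y ≠ τ) :
    ∀ᶠ N : ℕ in atTop, ∀ᶠ m : ℤ in atTop, ∀ (T : Finset k) (r : k), Net A m T r →
      ∀ x : k, x ∉ T → ∀ c : k, c ≠ 0 → ∃ t ∈ T, ∃ t' ∈ T, ∃ e : F,
        algebraMap k F ((x - t) * (x - t')) * ((algebraMap k F t - algebraMap k F (A.pi ^ N) * τ) *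
          (algebraMap k F t' - algebraMap k F (A.pi ^ N) * τ)) = algebraMap k F c * e ^ 2 := by
  have hcF : CompleteSpace F := FiniteDimensional.complete ℚ_[2] F
  have hck : CompleteSpace k := FiniteDimensional.complete ℚ_[2] k
  filter_upwards [small_pow A (2 * A.L + 2) ‖τ‖] with N hN
  set σ := algebraMap k F (A.pi ^ N) * τ with hσd
  have hpi : algebraMap k F (A.pi ^ N) ≠ 0 := by
    rw [Ne, map_eq_zero]
    exact pow_ne_zero _ A.pi_ne
  have hσ : ∀ y, algebraMap k F y ≠ σ := by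
    intro y h
    apply hτ (y / A.pi ^ N)
    rw [map_div₀, h, hσd, mul_div_cancel_left₀ _ hpi]
  have hN' : ‖σ‖ ≤ ‖A.pi‖ ^ (2 * A.L + 2) := by
    rw [hσd, norm_mul, norm_algebraMap', norm_pow]
    exact hN
  obtain ⟨ρ, hρ0, hρ⟩ : ∃ ρ : ℤ, 0 ≤ ρ ∧ ∀ y : k, ‖A.pi‖ ^ ρ ≤ ‖algebraMap k F y - σ‖ := by
    have hcl : IsClosed (Set.range (algebraMap k F)) :=
      (algebraMap_isometry k F).isClosedEmbedding.isClosed_range
    have hne : (Set.range (algebraMap k F)).Nonempty := ⟨_, 0, rfl⟩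
    have hpos : 0 < Metric.infDist σ (Set.range (algebraMap k F)) :=
      (hcl.notMem_iff_infDist_pos hne).1 (by rintro ⟨y, hy⟩; exact hσ y hy)
    obtain ⟨n, hn⟩ := exists_pow_lt_of_lt_one hpos A.pi_lt
    refine ⟨n, by positivity, fun y => ?_⟩
    rw [zpow_natCast]
    refine hn.le.trans ?_
    rw [← dist_eq_norm, dist_comm]
    exact Metric.infDist_le_dist_of_mem ⟨y, rfl⟩
  filter_upwards [eventually_ge_atTop (ρ + 2 * A.L + 4)] with m hm T r hT x hx c hc
  exact hF m T r hT (fun x y => IsUltrametricDist.norm_add_le_max x y)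
    (fun z hz => Instaux.exists_sq_near (by rwa [Instaux.norm_four'] at hz)) σ ρ hρ0 hN' hρ hm
    x hx c hc

theorem far_event (A : Dya k)
    (hF : ∀ (F : Type u) [NormedField F] [NormedAlgebra k F], StFar A F)
    (F : Type u) [Field F] [Algebra k F] [FiniteDimensional k F] (τ : F)
    (hτ : ∀ y, algebraMap k F y ≠ τ) :
    ∀ᶠ N : ℕ in atTop, ∀ᶠ m : ℤ in atTop, ∀ (T : Finset k) (r : k), Net A m T r →
      ∀ x : k, x ∉ T → ∀ c : k, c ≠ 0 → ∃ t ∈ T, ∃ t' ∈ T, ∃ e : F,
        algebraMap k F ((x - t) * (x - t')) * ((algebraMap k F t - algebraMap k F (A.pi ^ N) * τ) *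
          (algebraMap k F t' - algebraMap k F (A.pi ^ N) * τ)) = algebraMap k F c * e ^ 2 := by
  let _ : Algebra ℚ_[2] F := ((algebraMap k F).comp (algebraMap ℚ_[2] k)).toAlgebra
  have : IsScalarTower ℚ_[2] k F := IsScalarTower.of_algebraMap_eq fun _ => rfl
  have : FiniteDimensional ℚ_[2] F := Module.Finite.trans k F
  let _ : NormedField F := spectralNorm.normedField ℚ_[2] F
  let _ : NormedAlgebra ℚ_[2] F := spectralNorm.normedAlgebra ℚ_[2] F
  have : IsUltrametricDist F :=
    IsUltrametricDist.isUltrametricDist_of_isNonarchimedean_norm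
      (isNonarchimedean_spectralNorm (K := ℚ_[2]) (L := F))
  let _ : NormedAlgebra k F := spectralNorm.normedAlgebra' (K := ℚ_[2]) k F
  exact far_core A F (hF F) τ hτ

/-- The same for the root of an irreducible polynomial. -/
theorem root_event (A : Dya k)
    (hF : ∀ (F : Type u) [NormedField F] [NormedAlgebra k F], StFar A F) (p : k[X])
    (hp : Irreducible p) (hroot : ∀ a, p.eval a ≠ 0) :
    ∀ᶠ N : ℕ in atTop, ∀ᶠ m : ℤ in atTop, ∀ (T : Finset k) (r : k), Net A m T r →
      ∀ x : k, x ∉ T → ∀ c : k, c ≠ 0 → ∃ t ∈ T, ∃ t' ∈ T, ∃ e : AdjoinRoot p,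
        AdjoinRoot.of p ((x - t) * (x - t')) *
          ((AdjoinRoot.of p t - AdjoinRoot.of p (A.pi ^ N) * AdjoinRoot.root p) *
          (AdjoinRoot.of p t' - AdjoinRoot.of p (A.pi ^ N) * AdjoinRoot.root p)) =
            AdjoinRoot.of p c * e ^ 2 := by
  have : Fact (Irreducible p) := ⟨hp⟩
  have : FiniteDimensional k (AdjoinRoot p) := (AdjoinRoot.powerBasis hp.ne_zero).finite
  refine far_event A hF (AdjoinRoot p) (AdjoinRoot.root p) fun y hy => hroot y ?_
  have h1 : aeval (AdjoinRoot.root p) p = 0 := by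
    rw [AdjoinRoot.aeval_eq, AdjoinRoot.mk_self]
  rw [← hy, aeval_algebraMap_apply, map_eq_zero] at h1
  simpa using h1

end

end Richaux

open Richaux in
theorem rich_core (k : Type u) [NormedField k] [CharZero k] [NormedAlgebra ℚ_[2] k]
    [IsUltrametricDist k] [FiniteDimensional ℚ_[2] k]
    (hN : ∀ A : Dya k, StNet A) (hR : ∀ (A : Dya k) (X : Sys A), StReal X)
    (hF : ∀ (A : Dya k) (F : Type u) [NormedField F] [NormedAlgebra k F], StFar A F) :
    StRich k := by
  classical
  obtain ⟨A⟩ := stInst k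
  intro f hf
  set P : Finset k[X] := (UniqueFactorizationMonoid.normalizedFactors f).toFinset.filter
    (fun p => ∀ a, p.eval a ≠ 0) with hP
  have hev := (eventually_all_finset P).2 fun p hp => by
    have hp' := Finset.mem_filter.1 hp
    exact root_event A (hF A) p (UniqueFactorizationMonoid.irreducible_of_normalized_factor p
      (Multiset.mem_toFinset.1 hp'.1)) hp'.2
  have hsc : ∀ᶠ N : ℕ in atTop, ∀ a ∈ f.roots.toFinset, A.ge 0 (A.pi ^ N * a) := by
    refine (eventually_all_finset _).2 fun a _ => ?_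
    filter_upwards [small_pow A 0 ‖a‖] with N h
    rw [Dya.ge, norm_mul, norm_pow]
    exact h
  obtain ⟨N, h1, h2⟩ := (hev.and hsc).exists
  obtain ⟨M₀, hM₀⟩ := eventually_atTop.1 ((eventually_all_finset P).2 h1)
  set M : ℤ := max M₀ 0 with hM
  set c : k := A.pi ^ N with hc
  have hc0 : c ≠ 0 := pow_ne_zero _ A.pi_ne
  have hinj : Function.Injective (fun x : k => c⁻¹ * x) :=
    mul_right_injective₀ (inv_ne_zero hc0)
  obtain ⟨m, T₁, r, hnet, hsub⟩ := hN A ((f.roots.toFinset.image fun s => c * s) ∪ {0, A.pi ^ M})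
    (by
      intro s hs
      rcases Finset.mem_union.1 hs with hs | hs
      · obtain ⟨t, ht, rfl⟩ := Finset.mem_image.1 hs
        exact h2 t ht
      · rcases Finset.mem_insert.1 hs with rfl | hs
        · exact Dya.ge_zero _
        · rw [Finset.mem_singleton.1 hs]
          exact (Dya.eq_pi_zpow A M).ge' (le_max_right _ _))
  have hMm : M ≤ m := by
    refine le_depth hnet (hsub ?_) (hsub ?_)
    · simp
    · simp
  have hm := hM₀ m ((le_max_left _ _).trans hMm)
  obtain ⟨eps, E, Fa⟩ := stFacts A (stLead A) (stArtin A) (stDual A)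
  refine ⟨T₁.image fun x => c⁻¹ * x, ?_, ?_, ?_, ?_⟩
  · intro a ha
    refine Finset.mem_image.2 ⟨c * a, hsub (Finset.mem_union_left _ (Finset.mem_image_of_mem _ ?_)),
      inv_mul_cancel_left₀ hc0 a⟩
    rw [Multiset.mem_toFinset, mem_roots hf]
    exact ha
  · rw [Finset.card_image_of_injective _ hinj]
    exact card_net hnet
  · intro D hD
    exact scale (A := A) hc0 (fun D hD => hR A ⟨eps, E, Fa, m, T₁, r, hnet, D, hD⟩) D hD
  · intro p hp hpf hroot x hx d hd
    obtain ⟨q, hq, hpq⟩ := UniqueFactorizationMonoid.exists_mem_normalizedFactors_of_dvd hf hp hpf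
    have hqroot : ∀ a, q.eval a ≠ 0 := by
      intro a ha
      obtain ⟨g, hg⟩ := hpq.symm.dvd
      exact hroot a (by rw [hg, eval_mul, ha, zero_mul])
    have hqP : q ∈ P := Finset.mem_filter.2 ⟨Multiset.mem_toFinset.2 hq, hqroot⟩
    have hx' : c * x ∉ T₁ := fun h => hx (Finset.mem_image.2 ⟨c * x, h, inv_mul_cancel_left₀ hc0 x⟩)
    obtain ⟨t, ht, t', ht', e, he⟩ := hm q hqP T₁ r hnet (c * x) hx' d hd
    refine ⟨c⁻¹ * t, Finset.mem_image_of_mem _ ht, c⁻¹ * t', Finset.mem_image_of_mem _ ht', ?_⟩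
    set φ := AdjoinRoot.algEquivOfAssociated k q p hpq.symm with hφ
    have hof : ∀ a, φ (AdjoinRoot.of q a) = AdjoinRoot.of p a := fun a => φ.commutes a
    have hφr : φ (AdjoinRoot.root q) = AdjoinRoot.root p :=
      AdjoinRoot.algEquivOfAssociated_root q p hpq.symm
    have h3 := congrArg φ he
    simp only [map_mul, map_sub, map_pow, hof, hφr] at h3
    refine ⟨φ e * (AdjoinRoot.of p c⁻¹) ^ 2, ?_⟩
    have hij : AdjoinRoot.of p c⁻¹ * AdjoinRoot.of p c = 1 := by
      rw [← map_mul, inv_mul_cancel₀ hc0, map_one]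
    have e1 : ∀ s, AdjoinRoot.of p (x - c⁻¹ * s) =
        AdjoinRoot.of p c⁻¹ * (AdjoinRoot.of p c * AdjoinRoot.of p x - AdjoinRoot.of p s) := by
      intro s
      simp only [map_mul, map_sub]
      linear_combination (- AdjoinRoot.of p x) * hij
    have e2 : ∀ s, AdjoinRoot.of p (c⁻¹ * s) - AdjoinRoot.root p =
        AdjoinRoot.of p c⁻¹ * (AdjoinRoot.of p s - AdjoinRoot.of p c * AdjoinRoot.root p) := by
      intro s
      simp only [map_mul]
      linear_combination (AdjoinRoot.root p) * hij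
    rw [map_mul, e1, e1, e2, e2]
    have hcN : AdjoinRoot.of p c = AdjoinRoot.of p A.pi ^ N := by rw [hc, map_pow]
    rw [hcN]
    rw [hcN] at h3
    linear_combination (AdjoinRoot.of p c⁻¹) ^ 4 * h3

/-- Complete sets which are rich for all nonrational zeros of a polynomial. -/
theorem stRich (k : Type u) [Field k] [CharZero k] [Algebra ℚ_[2] k] [FiniteDimensional ℚ_[2] k]
    (hN : ∀ {k' : Type u} [NormedField k'] [CharZero k'] (A : Dya k'), StNet A)
    (hR : ∀ {k' : Type u} [NormedField k'] [CharZero k'] (A : Dya k') (X : Sys A), StReal X)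
    (hF : ∀ {k' : Type u} [NormedField k'] [CharZero k'] (A : Dya k') (F : Type u)
      [NormedField F] [NormedAlgebra k' F], StFar A F) :
    StRich k := by
  let _ : NormedField k := spectralNorm.normedField ℚ_[2] k
  let _ : NormedAlgebra ℚ_[2] k := spectralNorm.normedAlgebra ℚ_[2] k
  have : IsUltrametricDist k :=
    IsUltrametricDist.isUltrametricDist_of_isNonarchimedean_norm
      (isNonarchimedean_spectralNorm (K := ℚ_[2]) (L := k))
  exact rich_core k (fun A => hN A) (fun A X => hR A X) (fun A F => hF A F)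

end Pool.Agent.Lib.MP_c385f6_ag.DyK
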