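import Mathlib
import Pool.Agent.Lib.MP_c385f6_ag.DyK.Stmts

/-!
The first state.
-/

namespace Pool.Agent.Lib.MP_c385f6_ag.DyK

open Pool.Agent.Lib.MP_c385f6_ag

variable {k : Type*} [NormedField k] [CharZero k] {A : Dya k}

namespace Startaux

theorem key (X : Sys A) {β y : k} {ν : ℤ} (hβ : A.ge 0 β) (hν : 0 ≤ ν)
    (hm : ν + A.L + 1 ≤ X.m) (hY : A.eq ν (y - β)) (hT : y ∉ X.T)
    (H : ∀ t ∈ X.T, A.ge (ν + 1) (t - β) → X.g y t = 0) {s : k} {c : ℤ} (hs : s ∈ X.T)
    (hc : c ≤ ν) (hS : A.eq c (s - β)) (hys : A.eq c (y - s)) :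
    Perp A (X.g y s) 1 ∧ bf A.sym (X.g y s) (cl ((s - β) / (y - β))) = 0 := by
  have hL := A.two_le_L
  have main : ∀ x, A.ge (ν + 1) x →
      bf A.sym (X.g y s) (cl ((s - β - x) / (y - β - x))) = 0 := by
    intro x hx
    obtain ⟨t, ht, -, h2⟩ := X.near (x := β + x) (hβ.add (hx.mono (by omega)))
    have h3 : A.ge (ν + 1) (t - β) := by
      have h4 : t - β = x - (β + x - t) := by ring
      rw [h4]
      exact hx.sub (h2.mono (by omega))
    have h4 := H t ht h3
    have hst : s ≠ t := by
      rintro rfl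
      have := hS.not_ge h3
      omega
    have hyt : y ≠ t := fun h => hT (h ▸ ht)
    have hys' : y ≠ s := fun h => hT (h ▸ hs)
    have h5 := X.rel_zero hs ht hst hys' hyt h4
    have h6 : A.eq c (s - β - x) := hS.sub_of_lt hx (by omega)
    have h7 : A.eq ν (y - β - x) := hY.sub_of_lt hx (by omega)
    have h8 : cl (s - t) = cl (s - β - x) := by
      refine X.F.cl_near h6 ?_
      have h9 : s - t - (s - β - x) = β + x - t := by ring
      rw [h9]
      exact h2.mono (by omega)
    have h9 : cl (y - t) = cl (y - β - x) := by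
      refine X.F.cl_near h7 ?_
      have h9 : y - t - (y - β - x) = β + x - t := by ring
      rw [h9]
      exact h2.mono (by omega)
    rw [cl_div (sub_ne_zero.2 hst) (sub_ne_zero.2 hyt), h8, h9, ← cl_div h6.ne h7.ne] at h5
    exact h5
  have main2 : ∀ u, A.ge 1 u →
      bf A.sym (X.g y s) (cl ((1 - u) * ((s - β) / (y - β)))) = 0 := by
    intro u hu
    set S := s - β with hSdef
    set Y := y - β with hYdef
    have hSY : A.eq c (S - Y) := by
      have h1 : S - Y = -(y - s) := by
        rw [hSdef, hYdef]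
        ring
      rw [h1]
      exact hys.neg
    have hd : A.eq c ((1 - u) * S - Y) := by
      have h1 : (1 - u) * S - Y = S - Y - u * S := by ring
      rw [h1]
      exact hSY.sub ((hu.mul hS.ge).mono (by omega))
    have hx : A.ge (ν + 1) (-(u * Y * S) / ((1 - u) * S - Y)) :=
      (((hu.mul hY.ge).mul hS.ge).neg.div hd).mono (by omega)
    have h2 := main _ hx
    set x := -(u * Y * S) / ((1 - u) * S - Y) with hxdef
    have hxd : x * ((1 - u) * S - Y) = -(u * Y * S) := div_mul_cancel₀ _ hd.ne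
    have e1 : (S - x) * ((1 - u) * S - Y) = (1 - u) * S * (S - Y) := by
      linear_combination -hxd
    have e2 : (Y - x) * ((1 - u) * S - Y) = Y * (S - Y) := by
      linear_combination -hxd
    have hYx : Y - x ≠ 0 := (hY.sub_of_lt hx (by omega)).ne
    have e3 : (S - x) / (Y - x) = (1 - u) * (S / Y) := by
      rw [div_eq_iff hYx]
      apply mul_right_cancel₀ hd.ne
      have hY0 := hY.ne
      rw [e1, mul_assoc ((1 - u) * (S / Y)), e2]
      field_simp
    rw [e3] at h2
    exact h2
  have h0 : bf A.sym (X.g y s) (cl ((s - β) / (y - β))) = 0 := by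
    have := main2 0 (Dya.ge_zero _)
    rwa [sub_zero, one_mul] at this
  refine ⟨fun x hx => ?_, h0⟩
  have h1 := main2 (-x) hx.neg
  rw [sub_neg_eq_add, cl_mul (Dya.one_add_ne hx) (div_ne_zero hS.ne hY.ne), map_add, h0,
    add_zero] at h1
  exact h1

end Startaux

open Startaux in
theorem stStart (X : Sys A) : StStart X := by
  intro β y₀ ν hβ hν hm hY₀ H₀
  have hL := A.two_le_L
  -- a point off the net
  obtain ⟨y, hyy, hT⟩ := Sys.exists_near A X.T y₀ (ν + A.L + 1)
  have hY : A.eq ν (y - β) := by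
    refine hY₀.congr ?_
    have h1 : y - β - (y₀ - β) = y - y₀ := by ring
    rw [h1]
    exact hyy.mono (by omega)
  have H : ∀ t ∈ X.T, A.ge (ν + 1) (t - β) → X.g y t = 0 := by
    intro t ht h1
    have h2 : A.eq ν (y₀ - t) := by
      have h3 : y₀ - t = y₀ - β - (t - β) := by ring
      rw [h3]
      exact hY₀.sub h1
    rw [X.g_near h2 hyy, X.g_eq_zero]
    exact H₀ t ht h1
  have hy : A.ge 0 y := by
    have h1 : y = β + (y - β) := by ring
    rw [h1]
    exact hβ.add (hY.ge' hν)
  -- the points at smaller valuation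
  have low : ∀ s ∈ X.T, ∀ c, c < ν → A.eq c (y - s) →
      (X.g y s = 0 ∨ X.g y s = X.eps) ∧ (X.g y s = X.eps → ((c - ν : ℤ) : ZMod 2) = 0) := by
    intro s hs c hc hys
    have hS : A.eq c (s - β) := by
      have h1 : s - β = -(y - s) + (y - β) := by ring
      rw [h1]
      exact hys.neg.add_of_lt hY.ge hc
    obtain ⟨h1, h2⟩ := key X hβ hν hm hY hT H hs hc.le hS hys
    refine ⟨X.F.perp_one h1, fun h3 => ?_⟩
    rw [h3, X.F.par _ _ (hS.div hY)] at h2
    exact h2
  refine ⟨y, hy, hT, ?_, ?_⟩
  · intro s hs c hc hys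
    obtain ⟨h1, h2⟩ := low s hs c hc hys
    rcases h1 with h1 | h1
    · exact h1
    · exfalso
      have hc1 : -1 ≤ c := hys.not_ge (X.level_ge hy hs)
      have h3 := h2 h1
      rw [ZMod.intCast_zmod_eq_zero_iff_dvd] at h3
      push_cast at h3
      obtain ⟨s', hs', hys'⟩ := X.exists_level hy (i := c + 1) (by omega) (by omega)
      have hg' : X.g y s' = 0 := by
        obtain ⟨h4, h5⟩ := low s' hs' (c + 1) (by omega) hys'
        rcases h4 with h4 | h4
        · exact h4
        · exfalso
          have h6 := h5 h4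
          rw [ZMod.intCast_zmod_eq_zero_iff_dvd] at h6
          push_cast at h6
          omega
      have hss : A.eq c (s - s') := by
        have h4 : s - s' = -(y - s) + (y - s') := by ring
        rw [h4]
        exact hys.neg.add hys'.ge
      have h4 := X.rel_zero hs hs' (sub_ne_zero.1 hss.ne) (sub_ne_zero.1 hys.ne)
        (sub_ne_zero.1 hys'.ne) hg'
      rw [h1, X.F.par _ _ (hss.div hys'), ZMod.intCast_zmod_eq_zero_iff_dvd] at h4
      push_cast at h4
      omega
  · intro s hs hys
    have h1 : A.ge ν (s - β) := by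
      have h2 : s - β = -(y - s) + (y - β) := by ring
      rw [h2]
      exact hys.neg.ge.add hY.ge
    rcases h1.lt_or with h2 | h2
    · exact X.F.perp_one (key X hβ hν hm hY hT H hs le_rfl h2 hys).1
    · exact Or.inl (H s hs h2)

end Pool.Agent.Lib.MP_c385f6_ag.DyK
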