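import Mathlib
import Pool.Agent.Lib.MP_c385f6_ag.DyK.Stmts2
import Pool.Agent.Lib.MP_c385f6_ag.Twist

/-!
The value of a polynomial at the point belonging to a section.
-/

namespace Pool.Agent.Lib.MP_c385f6_ag

open Polynomial IntermediateField

namespace DyK

namespace Valueaux

section
variable {k K Ω : Type*} [Field k] [Field K] [Field Ω] [Algebra k K] [Algebra k Ω] [Algebra K Ω]
  [IsScalarTower k K Ω] {s : AbsGal k Ω →* PiOne k K Ω} {x : k} {w : K}

theorem fixSq_of_mem {q : k[X]} (u : K) (hu : u ^ 2 = algebraMap k K (q.eval x) * aeval w q) :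
    FixSq k K Ω s x w q := by
  refine ⟨algebraMap K (maxUnramified k K Ω) u, fun g => AlgEquiv.commutes _ _, ?_⟩
  have h1 : ((algebraMap K (maxUnramified k K Ω) u : maxUnramified k K Ω) : Ω) =
      algebraMap K Ω u := rfl
  rw [h1, ← map_pow, hu, map_mul, ← IsScalarTower.algebraMap_apply]

theorem fixSq_C (c : k) : FixSq k K Ω s x w (C c) :=
  fixSq_of_mem (algebraMap k K c) (by simp [sq])

theorem fixSq_one : FixSq k K Ω s x w 1 := by
  have := fixSq_C (k := k) (K := K) (Ω := Ω) (s := s) (x := x) (w := w) 1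
  rwa [C_1] at this

theorem fixSq_sq (q : k[X]) : FixSq k K Ω s x w (q ^ 2) :=
  fixSq_of_mem (algebraMap k K (q.eval x) * aeval w q) (by simp [mul_pow])

omit [IsScalarTower k K Ω] in
theorem fixSq_mul {q q' : k[X]} (h : FixSq k K Ω s x w q) (h' : FixSq k K Ω s x w q') :
    FixSq k K Ω s x w (q * q') := by
  obtain ⟨W, hW, h1⟩ := h
  obtain ⟨W', hW', h1'⟩ := h'
  refine ⟨W * W', fun g => by rw [map_mul, hW, hW'], ?_⟩
  have h2 : ((W * W' : maxUnramified k K Ω) : Ω) = (W : Ω) * (W' : Ω) := rfl
  rw [h2, mul_pow, h1, h1', eval_mul, map_mul, map_mul, map_mul]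
  ring

theorem fixSq_prod {ι : Type*} (S : Finset ι) (f : ι → k[X])
    (h : ∀ i ∈ S, FixSq k K Ω s x w (f i)) : FixSq k K Ω s x w (∏ i ∈ S, f i) := by
  classical
  induction S using Finset.induction_on with
  | empty => simpa using fixSq_one
  | insert a S ha ih =>
    rw [Finset.prod_insert ha]
    exact fixSq_mul (h a (Finset.mem_insert_self _ _))
      (ih fun i hi => h i (Finset.mem_insert_of_mem hi))

end

section
variable {k K : Type*} [Field k] [Field K] [Algebra k K]

theorem aeval_mem {A : ValuationSubring K} (hA : ∀ c : k, algebraMap k K c ∈ A) {w : K}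
    (hw : w ∈ A) (q : k[X]) : aeval w q ∈ A := by
  rw [aeval_eq_sum_range]
  refine sum_mem fun i _ => ?_
  rw [Algebra.smul_def]
  exact mul_mem (hA _) (pow_mem hw _)

theorem aeval_ne {w : K} (hw : Transcendental k w) {q : k[X]} (hq : q ≠ 0) : aeval w q ≠ 0 :=
  fun h => hw ⟨q, hq, h⟩

/-- Prime factors of odd multiplicity have even fibres. -/
theorem evenAt_of_odd {w z : K} (hw : Transcendental k w) {p q : k[X]} {n : ℕ}
    (hp : Irreducible p) (hq : ¬ p ∣ q) (hz : z ^ 2 = aeval w (p ^ (2 * n + 1) * q))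
    (hq0 : q ≠ 0) : EvenAt k K p w := by
  intro A hA hwA
  have hpw : aeval w p ≠ 0 := aeval_ne hw hp.ne_zero
  have hqw : aeval w q ≠ 0 := aeval_ne hw hq0
  have hz0 : z ≠ 0 := by
    intro h0
    rw [h0] at hz
    have : aeval w (p ^ (2 * n + 1) * q) = 0 := by
      rw [← hz]
      ring
    exact aeval_ne hw (mul_ne_zero (pow_ne_zero _ hp.ne_zero) hq0) this
  have hle := (A.valuation_le_one_iff _).2 (aeval_mem hA hwA p)
  rcases hle.eq_or_lt with h1 | h1
  · exact ⟨1, one_ne_zero, by rw [h1]; simp⟩
  · have hco : IsCoprime p q := (hp.coprime_iff_not_dvd).2 hq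
    obtain ⟨a, b, hab⟩ := hco
    have h2 : aeval w a * aeval w p + aeval w b * aeval w q = 1 := by
      rw [← map_mul, ← map_mul, ← map_add, hab, map_one]
    have h3 : A.valuation (aeval w a * aeval w p) < 1 := by
      rw [map_mul]
      exact lt_of_le_of_lt
        (mul_le_of_le_one_left' ((A.valuation_le_one_iff _).2 (aeval_mem hA hwA a))) h1
    have hq1 := (A.valuation_le_one_iff _).2 (aeval_mem hA hwA q)
    have h4 : A.valuation (aeval w q) = 1 := by
      rcases hq1.eq_or_lt with h5 | h5
      · exact h5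
      · exfalso
        have h6 : A.valuation (aeval w b * aeval w q) < 1 := by
          rw [map_mul]
          exact lt_of_le_of_lt
            (mul_le_of_le_one_left' ((A.valuation_le_one_iff _).2 (aeval_mem hA hwA b))) h5
        have h7 := A.valuation.map_add_lt h3 h6
        rw [h2, map_one] at h7
        exact lt_irrefl _ h7
    refine ⟨z / aeval w p ^ n, div_ne_zero hz0 (pow_ne_zero _ hpw), ?_⟩
    rw [div_pow, hz, map_div₀, map_mul, map_pow, map_mul, map_pow, h4, mul_one, ← pow_mul,
      map_pow]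
    have h8 : A.valuation (aeval w p) ≠ 0 := (A.valuation.ne_zero_iff).2 hpw
    rw [eq_div_iff (pow_ne_zero _ h8), ← pow_succ', mul_comm n 2]

end

end Valueaux

open Valueaux in
theorem stValue (k K Ω : Type*) [Field k] [CharZero k] [Field K] [Field Ω] [Algebra k K]
    [Algebra k Ω] [Algebra K Ω] [IsScalarTower k K Ω] [IsAlgClosure K Ω] : StValue k K Ω := by
  classical
  intro w s hs hw x h z hh hz hfix
  have key : FixSq k K Ω s x w h := by
    have h1 := leadingCoeff_mul_prod_normalizedFactors h
    rw [← h1]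
    refine fixSq_mul (fixSq_C _) ?_
    rw [Finset.prod_multiset_count]
    refine fixSq_prod _ _ fun p hp => ?_
    have hpm : p ∈ UniqueFactorizationMonoid.normalizedFactors h := Multiset.mem_toFinset.1 hp
    have hirr : Irreducible p := UniqueFactorizationMonoid.irreducible_of_normalized_factor p hpm
    have hdvd : p ∣ h := UniqueFactorizationMonoid.dvd_of_mem_normalizedFactors hpm
    have hmon : p.Monic := by
      have := UniqueFactorizationMonoid.normalize_normalized_factor p hpm
      rw [← this]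
      exact Polynomial.monic_normalize hirr.ne_zero
    rcases Nat.even_or_odd' (Multiset.count p (UniqueFactorizationMonoid.normalizedFactors h)) with
      ⟨n, hn | hn⟩
    · rw [hn, pow_mul']
      exact fixSq_sq _
    · have h2 : FixSq k K Ω s x w p := by
        refine hfix p hmon hirr hdvd ?_
        have h3 : emultiplicity p h = ((2 * n + 1 : ℕ) : ℕ∞) := by
          rw [UniqueFactorizationMonoid.emultiplicity_eq_count_normalizedFactors hirr hh,
            hmon.normalize_eq_self, hn]
        obtain ⟨⟨q, hq⟩, h4⟩ := emultiplicity_eq_coe.1 h3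
        have hq0 : q ≠ 0 := by
          rintro rfl
          exact hh (by rw [hq, mul_zero])
        have hnd : ¬ p ∣ q := by
          rintro ⟨r, hr⟩
          apply h4
          exact ⟨r, by rw [hq, hr, pow_succ p (2 * n + 1)]; ring⟩
        exact evenAt_of_odd hw hirr hnd (by rw [hz, hq]) hq0
      rw [hn, pow_succ, pow_mul']
      exact fixSq_mul (fixSq_sq _) h2
  obtain ⟨W, hW, h1⟩ := key
  have hz0 : z ≠ 0 := by
    intro h0
    rw [h0] at hz
    exact aeval_ne hw hh (by rw [← hz]; ring)
  have hzΩ : algebraMap K Ω z ≠ 0 := by simpa using hz0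
  let V : maxUnramified k K Ω := W * algebraMap K (maxUnramified k K Ω) z⁻¹
  have hVf : ∀ g, s g V = V := by
    intro g
    simp only [V]
    rw [map_mul, hW, AlgEquiv.commutes]
  have hV : (V : Ω) = (W : Ω) * algebraMap K Ω z⁻¹ := rfl
  have hV2 : (V : Ω) ^ 2 = algebraMap k Ω (h.eval x) := by
    rw [hV, mul_pow, h1, ← map_pow, inv_pow, hz, map_inv₀, mul_assoc, mul_inv_cancel₀, mul_one]
    rw [← hz, map_pow]
    exact pow_ne_zero _ hzΩ
  have halg : (V : Ω) ∈ algebraicClosure k Ω := by
    rw [mem_algebraicClosure_iff]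
    refine IsAlgebraic.of_pow (n := 2) (by norm_num) ?_
    rw [hV2]
    exact isAlgebraic_algebraMap _
  obtain ⟨c, hc⟩ := fixed_const hs hVf halg
  refine ⟨c, ?_⟩
  rw [hc, ← map_pow] at hV2
  exact ((algebraMap k Ω).injective hV2).symm

end DyK

end Pool.Agent.Lib.MP_c385f6_ag
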